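import Pool.Agent.D0H83.AC.Seq

set_option autoImplicit false

/-! # Project AC: the assembly -/

namespace Pool.Agent.D0H83.AC

open Matrix Finset Filter Topology Pool.Agent.Q181.TG Pool.Agent.Helper993.FK

variable {G : Type} [Group G] {r : ℕ}

theorem rg_adj (hl : S_lump) (A : Matrix (Fin r) (Fin r) (MonoidAlgebra ℤ G)) (X : Type) [Fintype X]
    [MulAction G X] : rg X (adjZ A) = (rg X A)ᵀ := by
  unfold rg
  rw [hl.1]
  rfl

theorem rg_pow (X : Type) [Fintype X] [MulAction G X] [DecidableEq X]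
    (A : Matrix (Fin r) (Fin r) (MonoidAlgebra ℤ G)) (k : ℕ) : rg X (A ^ k) = (rg X A) ^ k := by
  induction k with
  | zero => rw [pow_zero, pow_zero, rg_one]
  | succ k ih => rw [pow_succ, pow_succ, rg_mul, ih]

/-- the absolute value of the determinant of `f ↦ f A` on the functions with vanishing sums over the
orbits of `Λ` -/
noncomputable def dt (hl : S_lump) (Λ : Subgroup G) [Λ.Normal]
    (A : Matrix (Fin r) (Fin r) (MonoidAlgebra ℤ G)) (X : Type) [Fintype X] [MulAction G X] : ℝ :=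
  |LinearMap.det ((rg X A).vecMulLinear.restrict (hl.2.1 G Λ r A X).2)|

open Classical in
/-- the data on one level -/
theorem level (heig : S_eig) (hl : S_lump) (htor : S_tor) (Λ : Subgroup G) [Λ.Normal]
    (A : Matrix (Fin r) (Fin r) (MonoidAlgebra ℤ G)) (p : ℕ) (c C : ℝ) (X : Type) [Fintype X]
    [MulAction G X] [Fintype (MulAction.orbitRel.Quotient Λ X)]
    (hW : ∀ L : ℕ, 1 ≤ L → ∃ W : Submodule ℝ (X × Fin r → ℝ), W ≤ Zs (ob Λ X) r ℝ ∧
      ((Module.finrank ℝ (Zs (ob Λ X) r ℝ) : ℝ) - Module.finrank ℝ W) * L ≤ C * Fintype.card X ∧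
      ∀ f ∈ W, c * ∑ q, f q ^ 2 ≤ (L : ℝ) ^ p * ∑ q, (f ᵥ* rg X A) q ^ 2)
    (K : ℕ) (hK : 1 ≤ K) (hrow : ∀ p, ∑ q, (reg X A p q).natAbs ≤ K)
    (hnorm : ∀ f : X × Fin r → ℝ, ∑ q, (f ᵥ* rg X A) q ^ 2 ≤ (K : ℝ) ^ 2 * ∑ p, f p ^ 2) :
    ∃ (d d' : ℕ) (ν : Fin d → ℝ) (μ : Fin d' → ℝ), d + d' = r * Fintype.card X ∧
      d' ≤ r * Fintype.card (MulAction.orbitRel.Quotient Λ X) ∧
      (∀ k, 0 ≤ ν k ∧ ν k ≤ (K : ℝ) ^ 2) ∧ (∀ k, 0 ≤ μ k ∧ μ k ≤ (K : ℝ) ^ 2) ∧
      (∀ k : ℕ, (rg X ((A * adjZ A) ^ k)).trace = ∑ j, ν j ^ k + ∑ j, μ j ^ k) ∧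
      Cnt p c C (Fintype.card X) d ν ∧
      ((∀ k, 0 < ν k) → 0 < dt hl Λ A X ∧ dt hl Λ A X ^ 2 = ∏ k, ν k ∧
        (tc (Cok (reg X A)) : ℝ) ≤
          dt hl Λ A X * (K : ℝ) ^ (r * Fintype.card (MulAction.orbitRel.Quotient Λ X)) ∧
        dt hl Λ A X ≤ tc (Cok (reg X A)) *
          ∏ b : MulAction.orbitRel.Quotient Λ X, (#{x | ob Λ X x = b} : ℝ) ^ r) := by
  have h1 : ∀ f ∈ Zs (ob Λ X) r ℝ, (rg X A).vecMulLinear f ∈ Zs (ob Λ X) r ℝ :=
    (hl.2.1 G Λ r A X).2
  have h2 : ∀ f ∈ Zs (ob Λ X) r ℝ, f ᵥ* (rg X A)ᵀ ∈ Zs (ob Λ X) r ℝ := by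
    rw [← rg_adj hl]
    exact (hl.2.1 G Λ r (adjZ A) X).2
  obtain ⟨d, d', ν, μ, hd, hdd, hν, hμ, hKb, htr, hprod, hcount⟩ :=
    heig (X × Fin r) (rg X A) (Zs (ob Λ X) r ℝ) h1 h2
  have hKb' := hKb ((K : ℝ) ^ 2) hnorm
  have hcardX : Fintype.card (X × Fin r) = Fintype.card X * r := by
    rw [Fintype.card_prod, Fintype.card_fin]
  refine ⟨d, d', ν, μ, ?_, ?_, fun k => ⟨hν k, hKb'.1 k⟩, fun k => ⟨hμ k, hKb'.2 k⟩, ?_, ?_, ?_⟩
  · rw [hdd, hcardX, mul_comm]
  · have h3 := hl.2.2.2 X (MulAction.orbitRel.Quotient Λ X) (ob Λ X) r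
    rw [← hd, ← hcardX, ← hdd] at h3
    omega
  · intro k
    rw [← htr k, rg_pow, rg_mul, rg_adj hl]
  · intro L hL S hS
    obtain ⟨W, hW1, hW2, hW3⟩ := hW L hL
    have hL0 : (0 : ℝ) < (L : ℝ) ^ p := by
      have : (0 : ℝ) < L := by exact_mod_cast hL
      positivity
    have h3 := hcount (c / (L : ℝ) ^ p) W hW1 (by
      intro f hf
      have := hW3 f hf
      rw [div_mul_eq_mul_div, div_le_iff₀ hL0]
      linarith)
    have h4 : S ⊆ Finset.univ.filter fun k => ν k < c / (L : ℝ) ^ p := by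
      intro k hk
      rw [Finset.mem_filter]
      refine ⟨Finset.mem_univ k, ?_⟩
      rw [lt_div_iff₀ hL0]
      exact hS k hk
    have h5 := Finset.card_le_card h4
    have h6 : (#S : ℝ) ≤ (Module.finrank ℝ (Zs (ob Λ X) r ℝ) : ℝ) - Module.finrank ℝ W := by
      have : #S + Module.finrank ℝ W ≤ Module.finrank ℝ (Zs (ob Λ X) r ℝ) := by
        rw [← hd]
        omega
      have h7 : (#S : ℝ) + Module.finrank ℝ W ≤ Module.finrank ℝ (Zs (ob Λ X) r ℝ) := by
        exact_mod_cast this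
      linarith
    exact (mul_le_mul_of_nonneg_right h6 (Nat.cast_nonneg L)).trans hW2
  · intro hpos
    have hprodpos : 0 < ∏ k, ν k := Finset.prod_pos fun k _ => hpos k
    have hdet : LinearMap.det ((rg X A).vecMulLinear.restrict h1) ≠ 0 := by
      intro h0
      rw [hprod, h0] at hprodpos
      simp at hprodpos
    obtain ⟨t1, t2⟩ := htor X (MulAction.orbitRel.Quotient Λ X) r (ob Λ X) (reg X A) K hK
      Quotient.mk_surjective (hl.2.1 G Λ r A X).1 hrow h1 hdet
    refine ⟨abs_pos.mpr hdet, ?_, t1, ?_⟩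
    · unfold dt
      rw [sq_abs, hprod]
    · refine le_trans t2 (le_of_eq ?_)
      congr 1
      refine Finset.prod_congr rfl fun b _ => ?_
      congr 3
      ext x
      simp only [Finset.mem_filter]

/-- **The theorem, from the modules.** -/
theorem core (hlump : S_lump) (heig : S_eig) (hnum : S_num) (htor : S_tor)
    (hmom : S_mom) (hwei : S_wei) (hfkv : S_fkv) (hfar : S_far)
    (Λ : Subgroup G) [Λ.Normal] [Infinite Λ]
    (A : Matrix (Fin r) (Fin r) (MonoidAlgebra ℤ G)) (p : ℕ) (c C : ℝ) (hc : 0 < c) (hC : 0 ≤ C)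
    (X : ℕ → Type) [∀ n, Fintype (X n)] [∀ n, Nonempty (X n)] [∀ n, MulAction G (X n)]
    (hX : Far G X)
    (hW : ∀ (n : ℕ) (L : ℕ), 1 ≤ L → ∃ W : Submodule ℝ (X n × Fin r → ℝ), W ≤ Zs (ob Λ (X n)) r ℝ ∧
      ((Module.finrank ℝ (Zs (ob Λ (X n)) r ℝ) : ℝ) - Module.finrank ℝ W) * L ≤
        C * Fintype.card (X n) ∧
      ∀ f ∈ W, c * ∑ q, f q ^ 2 ≤ (L : ℝ) ^ p * ∑ q, (f ᵥ* rg (X n) A) q ^ 2) :
    (∀ v, rMul (A.map toQ) v = 0 → v = 0) ∧ 0 < fkDet (rMul (A.map toQ)) ∧
    (Tendsto (fun n => Real.log (dt hlump Λ A (X n)) / Fintype.card (X n)) atTop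
      (𝓝 (Real.log (fkDet (rMul (A.map toQ))))) ∧ ∀ n, 0 < dt hlump Λ A (X n)) ∧
    Tendsto (fun n => Real.log (tc (Cok (reg (X n) A))) / Fintype.card (X n)) atTop
      (𝓝 (Real.log (fkDet (rMul (A.map toQ))))) ∧
    (∀ δ : ℝ, 0 < δ → ∀ L : ℕ, 1 ≤ L → δ * (L : ℝ) ^ p ≤ c →
      traceVal unitVec (rMul ((A * adjZ A).map toQ)) (bump δ) ≤ C / L) := by
  classical
  have hfinY : ∀ n, Fintype (MulAction.orbitRel.Quotient Λ (X n)) := fun n => Fintype.ofFinite _
  obtain ⟨K, hK, hKb⟩ := hlump.2.2.1 G r r A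
  have hK' : (1 : ℝ) ≤ (K : ℝ) := by exact_mod_cast hK
  have hK2 : (1 : ℝ) ≤ (K : ℝ) ^ 2 := one_le_pow₀ hK'
  have hlev := fun n => level heig hlump htor Λ A p c C (X n) (hW n) K hK (hKb (X n)).1 (hKb (X n)).2
  choose d d' ν μ hdd hd' hν hμ htr hcnt hD using hlev
  obtain ⟨B, hB0, hB⟩ := abs_log_bound hnum p c C hc hC r ((K : ℝ) ^ 2) hK2
  have hdle : ∀ n, d n ≤ r * Fintype.card (X n) := fun n => by have := hdd n; omega
  have hpos : ∀ n k, 0 < ν n k := fun n =>
    (hB (Fintype.card (X n)) (d n) (ν n) (hdle n) (fun k => (hν n k).2) (hcnt n)).1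
  have habs : ∀ n, ∑ k, |Real.log (ν n k)| ≤ B * Fintype.card (X n) := fun n =>
    (hB (Fintype.card (X n)) (d n) (ν n) (hdle n) (fun k => (hν n k).2) (hcnt n)).2
  have hn : ∀ n, 0 < Fintype.card (X n) := fun n => Fintype.card_pos
  have hn' : ∀ n, (0 : ℝ) < Fintype.card (X n) := fun n => by exact_mod_cast hn n
  obtain ⟨hy, hlen⟩ := hfar G Λ X hX
  set T := rMul ((A * adjZ A).map toQ) with hT
  -- convergence of the traces
  have hlim : ∀ h : ℝ → ℝ, Continuous h →
      Tendsto (fun n => (∑ k, h (ν n k) + ∑ k, h (μ n k)) / Fintype.card (X n)) atTop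
        (𝓝 (traceVal unitVec T h)) := by
    intro h hh
    have h1 := hwei G r A ((K : ℝ) ^ 2) (fun n => Fintype.card (X n)) (fun n => Fin (d n) ⊕ Fin (d' n))
      (fun n => Sum.elim (ν n) (μ n)) hn (by
        rintro n (k | k)
        · exact hν n k
        · exact hμ n k) (fun n => by
        rw [Fintype.card_sum, Fintype.card_fin, Fintype.card_fin, hdd n]) (fun k => by
        have h2 := hmom.1 G r ((A * adjZ A) ^ k) X hX
        rw [hmom.2 G r A k]
        refine h2.congr fun n => ?_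
        rw [htr n k, Fintype.sum_sum_type]
        rfl) h hh
    refine h1.congr fun n => ?_
    rw [Fintype.sum_sum_type]
    rfl
  have hy' : ∀ a : ℝ, Tendsto (fun n => a * ((Fintype.card (MulAction.orbitRel.Quotient Λ (X n)) : ℝ) /
      Fintype.card (X n))) atTop (𝓝 0) := by
    intro a
    simpa using hy.const_mul a
  -- the two bounds
  have hg : ∀ M : ℝ, 0 ≤ M → traceVal unitVec T (gm M) ≤ B := by
    intro M hM
    have h1 := hlim (gm M) (gm_continuous M)
    have h2 : Tendsto (fun n => B + (r * M) *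
        ((Fintype.card (MulAction.orbitRel.Quotient Λ (X n)) : ℝ) / Fintype.card (X n))) atTop
        (𝓝 (B + 0)) := (hy' (r * M)).const_add B
    rw [add_zero] at h2
    refine le_of_tendsto_of_tendsto' h1 h2 fun n => ?_
    rw [div_le_iff₀ (hn' n)]
    have h3 : ∑ k, gm M (ν n k) ≤ B * Fintype.card (X n) :=
      (Finset.sum_le_sum fun k _ => gm_le_abs_log (hpos n k)).trans (habs n)
    have h4 : ∑ k, gm M (μ n k) ≤ (d' n : ℝ) * M := by
      calc ∑ k, gm M (μ n k) ≤ ∑ _k : Fin (d' n), M := Finset.sum_le_sum fun k _ => gm_le M _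
        _ = _ := by simp
    have h5 : (d' n : ℝ) ≤ r * Fintype.card (MulAction.orbitRel.Quotient Λ (X n)) := by
      exact_mod_cast hd' n
    have h6 : (B + r * M * ((Fintype.card (MulAction.orbitRel.Quotient Λ (X n)) : ℝ) /
        Fintype.card (X n))) * Fintype.card (X n) = B * Fintype.card (X n) +
          (r * Fintype.card (MulAction.orbitRel.Quotient Λ (X n))) * M := by
      have := (hn' n).ne'
      field_simp
    rw [h6]
    have := mul_le_mul_of_nonneg_right h5 hM
    linarith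
  have hb : ∀ δ : ℝ, 0 < δ → δ < 1 → traceVal unitVec T (bump δ) * Real.log (1 / δ) ≤ B := by
    intro δ hδ hδ1
    have hlog : 0 < Real.log (1 / δ) := by
      apply Real.log_pos
      rw [lt_div_iff₀ hδ]
      linarith
    have h1 := (hlim (bump δ) (bump_continuous δ)).mul_const (Real.log (1 / δ))
    have h2 : Tendsto (fun n => B + (r * Real.log (1 / δ)) *
        ((Fintype.card (MulAction.orbitRel.Quotient Λ (X n)) : ℝ) / Fintype.card (X n))) atTop
        (𝓝 (B + 0)) := (hy' (r * Real.log (1 / δ))).const_add B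
    rw [add_zero] at h2
    refine le_of_tendsto_of_tendsto' h1 h2 fun n => ?_
    rw [div_mul_eq_mul_div, div_le_iff₀ (hn' n)]
    have h3 : (∑ k, bump δ (ν n k)) * Real.log (1 / δ) ≤ B * Fintype.card (X n) := by
      rw [Finset.sum_mul]
      refine (Finset.sum_le_sum fun k _ => ?_).trans (habs n)
      rcases lt_or_ge (ν n k) δ with h | h
      · have h7 := Real.log_le_log (hpos n k) h.le
        have h8 : Real.log (1 / δ) = - Real.log δ := by rw [one_div, Real.log_inv]
        have h9 := bump_le_one δ (ν n k)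
        have h10 := bump_nonneg δ (ν n k)
        have h11 := neg_le_abs (Real.log (ν n k))
        calc bump δ (ν n k) * Real.log (1 / δ) ≤ 1 * Real.log (1 / δ) :=
              mul_le_mul_of_nonneg_right h9 hlog.le
          _ ≤ _ := by rw [h8]; linarith
      · rw [bump_of_le hδ h, zero_mul]
        exact abs_nonneg _
    have h4 : ∑ k, bump δ (μ n k) ≤ (d' n : ℝ) := by
      calc ∑ k, bump δ (μ n k) ≤ ∑ _k : Fin (d' n), (1 : ℝ) :=
            Finset.sum_le_sum fun k _ => bump_le_one δ _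
        _ = _ := by simp
    have h5 : (d' n : ℝ) ≤ r * Fintype.card (MulAction.orbitRel.Quotient Λ (X n)) := by
      exact_mod_cast hd' n
    have h6 : (B + r * Real.log (1 / δ) * ((Fintype.card (MulAction.orbitRel.Quotient Λ (X n)) : ℝ) /
        Fintype.card (X n))) * Fintype.card (X n) = B * Fintype.card (X n) +
          (r * Fintype.card (MulAction.orbitRel.Quotient Λ (X n))) * Real.log (1 / δ) := by
      have := (hn' n).ne'
      field_simp
    rw [h6, add_mul]
    have h7 := mul_le_mul_of_nonneg_right (h4.trans h5) hlog.le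
    linarith
  obtain ⟨hinj, hfk⟩ := Pool.Agent.TH630.Tor.conclude A hg hb
  rw [← and_assoc, ← and_assoc, ← and_assoc]
  refine ⟨?_, ?_⟩
  · rw [and_assoc, and_assoc]
    refine ⟨hinj, hfk, ?_⟩
    have hF := hfkv G r A B B hg hb
    have hsq := squeeze hnum p c C hc hC r ((K : ℝ) ^ 2) hK2 (fun n => Fintype.card (X n))
      (fun n => Fintype.card (MulAction.orbitRel.Quotient Λ (X n))) d d' ν μ hn hd'
      (fun n k => (hμ n k).2) hpos hcnt hy
      (fun m => traceVal unitVec T (lg m)) (2 * Real.log (fkDet (rMul (A.map toQ))))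
      (fun m => hlim (lg m) (lg_cont m)) hF
    -- the torsion
    have hDD := fun n => hD n (hpos n)
    set D₁ : ℕ → ℝ := fun n => dt hlump Λ A (X n) with hD₁
    have hD1 : ∀ n, 0 < D₁ n := fun n => (hDD n).1
    have hD2 : ∀ n, D₁ n ^ 2 = ∏ k, ν n k := fun n => (hDD n).2.1
    have hD3 := fun n => (hDD n).2.2.1
    have hD4 := fun n => (hDD n).2.2.2
    have hlogD : ∀ n, Real.log (D₁ n) = (∑ k, Real.log (ν n k)) / 2 := by
      intro n
      have h1 := congrArg Real.log (hD2 n)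
      rw [Real.log_pow, Real.log_prod (fun k _ => (hpos n k).ne')] at h1
      push_cast at h1
      linarith
    have hDlim : Tendsto (fun n => Real.log (D₁ n) / Fintype.card (X n)) atTop
        (𝓝 (Real.log (fkDet (rMul (A.map toQ))))) := by
      have h1 := hsq.div_const 2
      have h2 : 2 * Real.log (fkDet (rMul (A.map toQ))) / 2 = Real.log (fkDet (rMul (A.map toQ))) := by
        ring
      rw [h2] at h1
      refine h1.congr fun n => ?_
      rw [hlogD n]
      ring
    have hYpos : ∀ n (b : MulAction.orbitRel.Quotient Λ (X n)),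
        (0 : ℝ) < (#{x | ob Λ (X n) x = b} : ℝ) := by
      intro n b
      obtain ⟨x, hx⟩ := Quotient.mk_surjective b
      have : 0 < #{x | ob Λ (X n) x = b} := Finset.card_pos.mpr ⟨x, by
        rw [Finset.mem_filter]
        exact ⟨Finset.mem_univ x, hx⟩⟩
      exact_mod_cast this
    have htpos : ∀ n, (0 : ℝ) < tc (Cok (reg (X n) A)) := by
      intro n
      by_contra hcon
      have h0 : (tc (Cok (reg (X n) A)) : ℝ) = 0 :=
        le_antisymm (not_lt.mp hcon) (Nat.cast_nonneg _)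
      have h1 := hD4 n
      rw [h0, zero_mul] at h1
      exact absurd (hD1 n) (not_lt.mpr h1)
    have hup : ∀ n, Real.log (tc (Cok (reg (X n) A))) ≤ Real.log (D₁ n) +
        (r * Real.log K) * Fintype.card (MulAction.orbitRel.Quotient Λ (X n)) := by
      intro n
      have h1 := Real.log_le_log (htpos n) (hD3 n)
      rw [Real.log_mul (hD1 n).ne' (by positivity), Real.log_pow] at h1
      push_cast at h1
      linarith
    have hlo : ∀ n, Real.log (D₁ n) ≤ Real.log (tc (Cok (reg (X n) A))) +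
        r * ∑ b : MulAction.orbitRel.Quotient Λ (X n), Real.log (#{x : X n | ob Λ (X n) x = b}) := by
      intro n
      have h1 := Real.log_le_log (hD1 n) (hD4 n)
      rw [Real.log_mul (htpos n).ne'
        (Finset.prod_pos fun b _ => pow_pos (hYpos n b) r).ne',
        Real.log_prod (fun b _ => (pow_pos (hYpos n b) r).ne')] at h1
      simp only [Real.log_pow] at h1
      rw [← Finset.mul_sum] at h1
      exact h1
    have hyK := hy' (r * Real.log K)
    have hlen' : Tendsto (fun n => r * ((∑ b : MulAction.orbitRel.Quotient Λ (X n),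
        Real.log (#{x : X n | ob Λ (X n) x = b})) / Fintype.card (X n))) atTop (𝓝 0) := by
      simpa using hlen.const_mul (r : ℝ)
    have hU := hDlim.add hyK
    have hLo := hDlim.sub hlen'
    rw [add_zero] at hU
    rw [sub_zero] at hLo
    refine ⟨⟨hDlim, hD1⟩, ?_⟩
    refine tendsto_of_tendsto_of_tendsto_of_le_of_le hLo hU (fun n => ?_) (fun n => ?_)
    · show Real.log (D₁ n) / Fintype.card (X n) - r * ((∑ b : MulAction.orbitRel.Quotient Λ (X n),
        Real.log (#{x : X n | ob Λ (X n) x = b})) / Fintype.card (X n)) ≤ _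
      rw [← mul_div_assoc, ← sub_div]
      refine div_le_div_of_nonneg_right ?_ (hn' n).le
      have := hlo n
      linarith
    · show _ ≤ Real.log (D₁ n) / Fintype.card (X n) + (r * Real.log K) *
        ((Fintype.card (MulAction.orbitRel.Quotient Λ (X n)) : ℝ) / Fintype.card (X n))
      rw [← mul_div_assoc, ← add_div]
      exact div_le_div_of_nonneg_right (hup n) (hn' n).le
  · intro δ hδ L hL hδL
    have hL0 : (0 : ℝ) < L := by exact_mod_cast hL
    have h1 := hlim (bump δ) (bump_continuous δ)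
    have h2 : Tendsto (fun n => C / L + r *
        ((Fintype.card (MulAction.orbitRel.Quotient Λ (X n)) : ℝ) / Fintype.card (X n))) atTop
        (𝓝 (C / L + 0)) := (hy' r).const_add (C / L)
    rw [add_zero] at h2
    refine le_of_tendsto_of_tendsto' h1 h2 fun n => ?_
    rw [div_le_iff₀ (hn' n)]
    have h3 : ∑ k, bump δ (ν n k) ≤ C * Fintype.card (X n) / L := by
      have h7 : ∑ k, bump δ (ν n k) ≤ (#(Finset.univ.filter fun k => ν n k < δ) : ℝ) := by
        rw [Finset.card_filter]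
        push_cast
        refine Finset.sum_le_sum fun k _ => ?_
        split_ifs with h
        · exact bump_le_one _ _
        · rw [bump_of_le hδ (not_lt.mp h)]
      refine h7.trans ?_
      rw [le_div_iff₀ hL0]
      refine hcnt n L hL _ fun k hk => ?_
      have h8 := (Finset.mem_filter.mp hk).2
      have hLp : (0 : ℝ) < (L : ℝ) ^ p := by positivity
      exact lt_of_lt_of_le (mul_lt_mul_of_pos_right h8 hLp) hδL
    have h4 : ∑ k, bump δ (μ n k) ≤ (d' n : ℝ) := by
      calc ∑ k, bump δ (μ n k) ≤ ∑ _k : Fin (d' n), (1 : ℝ) :=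
            Finset.sum_le_sum fun k _ => bump_le_one δ _
        _ = _ := by simp
    have h5 : (d' n : ℝ) ≤ r * Fintype.card (MulAction.orbitRel.Quotient Λ (X n)) := by
      exact_mod_cast hd' n
    have h6 : (C / L + r * ((Fintype.card (MulAction.orbitRel.Quotient Λ (X n)) : ℝ) /
        Fintype.card (X n))) * Fintype.card (X n) = C * Fintype.card (X n) / L +
          (r * Fintype.card (MulAction.orbitRel.Quotient Λ (X n))) := by
      have := (hn' n).ne'
      field_simp
    rw [h6]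
    linarith

end Pool.Agent.D0H83.AC
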