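import Pool.Agent.D0H52.AC.EigA
import Pool.Agent.D0H83.AC.Fin

set_option autoImplicit false

/-! # Project AC: the determinant of the adjoint -/

namespace Pool.Agent.D0H83.AC

open Matrix Finset Filter Topology Pool.Agent.Q181.TG Pool.Agent.Helper993.FK

theorem det_transpose_restrict {N : Type} [Fintype N] (M : Matrix N N ℝ)
    (H : Submodule ℝ (N → ℝ)) (h1 : ∀ f ∈ H, M.vecMulLinear f ∈ H)
    (h2 : ∀ f ∈ H, Mᵀ.vecMulLinear f ∈ H) :
    LinearMap.det (Mᵀ.vecMulLinear.restrict h2) = LinearMap.det (M.vecMulLinear.restrict h1) := by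
  classical
  let E := EuclideanSpace ℝ N
  let e : E ≃ₗ[ℝ] (N → ℝ) := WithLp.linearEquiv 2 ℝ (N → ℝ)
  let T : E →ₗ[ℝ] E := e.symm.toLinearMap ∘ₗ M.vecMulLinear ∘ₗ e.toLinearMap
  let Ts : E →ₗ[ℝ] E := e.symm.toLinearMap ∘ₗ Mᵀ.vecMulLinear ∘ₗ e.toLinearMap
  have hinner : ∀ x y : E, inner ℝ x y = e y ⬝ᵥ e x := by
    intro x y
    rw [EuclideanSpace.inner_eq_star_dotProduct]
    simp [e]
    rfl
  have heT : ∀ x, e (T x) = e x ᵥ* M := by
    intro x
    simp [T]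
  have heTs : ∀ x, e (Ts x) = e x ᵥ* Mᵀ := by
    intro x
    simp [Ts]
    exact (Matrix.vecMul_transpose _ _).symm
  have hadj : ∀ x y, inner ℝ (Ts x) y = inner ℝ x (T y) := by
    intro x y
    rw [hinner, hinner, heTs, heT, Matrix.vecMul_transpose, Matrix.dotProduct_mulVec]
  let H' : Submodule ℝ E := H.comap e.toLinearMap
  have hH' : ∀ x, x ∈ H' ↔ e x ∈ H := fun x => Iff.rfl
  have hT : ∀ x ∈ H', T x ∈ H' := by
    intro x hx
    rw [hH', heT]
    exact h1 _ hx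
  have hTs : ∀ x ∈ H', Ts x ∈ H' := by
    intro x hx
    rw [hH', heTs]
    exact h2 _ hx
  let eH : H' ≃ₗ[ℝ] H := e.ofSubmodule' H
  have h5 : ∀ x : H, e ((eH.symm x : H') : E) = (x : N → ℝ) := by
    intro x
    have : ((eH (eH.symm x) : H) : N → ℝ) = e ((eH.symm x : H') : E) := rfl
    rw [← this, LinearEquiv.apply_symm_apply]
  have h3 : M.vecMulLinear.restrict h1 = eH.toLinearMap ∘ₗ (T.restrict hT) ∘ₗ eH.symm.toLinearMap := by
    apply LinearMap.ext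
    intro x
    apply Subtype.ext
    have h6 : ((M.vecMulLinear.restrict h1 x : H) : N → ℝ) = (x : N → ℝ) ᵥ* M := rfl
    rw [h6, ← h5, ← heT]
    rfl
  have h4 : Mᵀ.vecMulLinear.restrict h2 =
      eH.toLinearMap ∘ₗ (Ts.restrict hTs) ∘ₗ eH.symm.toLinearMap := by
    apply LinearMap.ext
    intro x
    apply Subtype.ext
    have h6 : ((Mᵀ.vecMulLinear.restrict h2 x : H) : N → ℝ) = (x : N → ℝ) ᵥ* Mᵀ := rfl
    rw [h6, ← h5, ← heTs]
    rfl
  rw [h3, h4, LinearMap.det_conj, LinearMap.det_conj]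
  have h7 : Ts.restrict hTs = LinearMap.adjoint (T.restrict hT) := by
    rw [LinearMap.eq_adjoint_iff]
    intro x y
    exact hadj x y
  rw [h7, Pool.Agent.D0H52.AC.det_adj]

variable {G : Type} [Group G] {r : ℕ}

theorem dt_mul (hl : S_lump) (Λ : Subgroup G) [Λ.Normal]
    (A B : Matrix (Fin r) (Fin r) (MonoidAlgebra ℤ G)) (X : Type) [Fintype X] [MulAction G X] :
    dt hl Λ (A * B) X = dt hl Λ A X * dt hl Λ B X := by
  unfold dt
  rw [← abs_mul, mul_comm, ← LinearMap.det_comp]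
  congr 2
  apply LinearMap.ext
  intro x
  apply Subtype.ext
  change (x : X × Fin r → ℝ) ᵥ* rg X (A * B) = ((x : X × Fin r → ℝ) ᵥ* rg X A) ᵥ* rg X B
  rw [rg_mul, Matrix.vecMul_vecMul]

theorem dt_adj (hl : S_lump) (Λ : Subgroup G) [Λ.Normal]
    (A : Matrix (Fin r) (Fin r) (MonoidAlgebra ℤ G)) (X : Type) [Fintype X] [MulAction G X] :
    dt hl Λ (adjZ A) X = dt hl Λ A X := by
  unfold dt
  have h1 := rg_adj hl A X
  have h2 : ∀ f ∈ Zs (ob Λ X) r ℝ, (rg X A)ᵀ.vecMulLinear f ∈ Zs (ob Λ X) r ℝ := by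
    rw [← h1]
    exact (hl.2.1 G Λ r (adjZ A) X).2
  rw [← det_transpose_restrict (rg X A) _ (hl.2.1 G Λ r A X).2 h2]
  congr 2
  apply LinearMap.ext
  intro x
  apply Subtype.ext
  change (x : X × Fin r → ℝ) ᵥ* rg X (adjZ A) = (x : X × Fin r → ℝ) ᵥ* (rg X A)ᵀ
  rw [h1]

end Pool.Agent.D0H83.AC
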