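import Pool.Agent.D0H83.AC.Stm

set_option autoImplicit false

/-! # Project AC, modules FKV and DEN -/

namespace Pool.Agent.D0H83.AC

open Matrix Finset Filter Topology Pool.Agent.Q181.TG Pool.Agent.Helper993.FK MeasureTheory
open scoped InnerProductSpace CompactlySupported

section general
variable {H : Type} [NormedAddCommGroup H] [InnerProductSpace ℂ H] [CompleteSpace H] {r : ℕ}

/-- a continuous function times the cut-off -/
noncomputable def hc (h : ℝ → ℝ) (hh : Continuous h) (n : ℕ) : C_c(ℝ, ℝ) where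
  toFun x := h x * cut n x
  continuous_toFun := hh.mul (cut_continuous n)
  hasCompactSupport' := by
    apply HasCompactSupport.intro (isCompact_Icc (a := -((n : ℝ) + 1)) (b := (n : ℝ) + 1))
    intro x hx
    have : (n : ℝ) + 1 ≤ |x| := by
      by_contra hcon
      push Not at hcon
      rw [abs_lt] at hcon
      exact hx ⟨hcon.1.le, hcon.2.le⟩
    rw [cut_eq_zero this, mul_zero]

theorem hc_apply (h : ℝ → ℝ) (hh : Continuous h) (n : ℕ) (x : ℝ) : hc h hh n x = h x * cut n x := rfl

theorem integral_hc (e : Fin r → H) (T : H →L[ℂ] H) (hT : 0 ≤ T) {K : ℕ} (hK : ‖T‖ ≤ K)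
    (h : ℝ → ℝ) (hh : Continuous h) {n : ℕ} (hn : K ≤ n) :
    ∫ x, hc h hh n x ∂(spectralMeasure e T) = traceVal e T h := by
  rw [integral_spectralMeasure]
  change traceVal e T (hc h hh n) = _
  apply traceVal_congr e T hT hK
  intro x hx
  rw [hc_apply, cut_eq_one, mul_one]
  rw [abs_of_nonneg hx.1]
  exact hx.2.trans (by exact_mod_cast hn)

theorem cut_pos {n : ℕ} {x : ℝ} (h : |x| < (n : ℝ) + 1) : 0 < cut n x := by
  unfold cut
  exact lt_max_of_lt_right (lt_min one_pos (by linarith))

/-- the spectral measure is supported on `[0, K]` -/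
theorem supp (e : Fin r → H) (T : H →L[ℂ] H) (hT : 0 ≤ T) {K : ℕ} (hK : ‖T‖ ≤ K) :
    spectralMeasure e T (Set.Icc 0 (K : ℝ))ᶜ = 0 := by
  set μ := spectralMeasure e T with hμ
  have hreg : Measure.Regular μ := by
    rw [hμ]
    unfold spectralMeasure
    infer_instance
  let g : ℝ → ℝ := fun x => max (-x) 0 + max (x - K) 0
  have hg : Continuous g := by fun_prop
  have hg0 : ∀ x, 0 ≤ g x := fun x => add_nonneg (le_max_right _ _) (le_max_right _ _)
  have hgz : ∀ x ∈ Set.Icc (0 : ℝ) K, g x = 0 := by
    intro x hx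
    simp only [g]
    rw [max_eq_right (by linarith [hx.1]), max_eq_right (by linarith [hx.2]), add_zero]
  have hgp : ∀ x ∈ (Set.Icc (0 : ℝ) K)ᶜ, 0 < g x := by
    intro x hx
    rw [Set.mem_compl_iff, Set.mem_Icc, not_and_or] at hx
    rcases hx with hx | hx
    · push Not at hx
      exact add_pos_of_pos_of_nonneg (lt_max_of_lt_left (by linarith)) (le_max_right _ _)
    · push Not at hx
      exact add_pos_of_nonneg_of_pos (le_max_right _ _) (lt_max_of_lt_left (by linarith))
  have h1 : ∀ n : ℕ, K ≤ n → μ {x | hc g hg n x ≠ 0} = 0 := by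
    intro n hn
    have h2 := integral_hc e T hT hK g hg hn
    have h3 : traceVal e T g = 0 := by
      have : traceVal e T g = traceVal e T (fun _ => 0) := traceVal_congr e T hT hK hgz
      rw [this]
      unfold traceVal
      simp
    rw [h3] at h2
    have hnn : 0 ≤ᵐ[μ] fun x => hc g hg n x := by
      refine Filter.Eventually.of_forall fun x => ?_
      exact mul_nonneg (hg0 x) (cut_nonneg n x)
    have hint : Integrable (fun x => hc g hg n x) μ :=
      (hc g hg n).continuous.integrable_of_hasCompactSupport (hc g hg n).hasCompactSupport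
    have h4 := (integral_eq_zero_iff_of_nonneg_ae hnn hint).mp h2
    exact ae_iff.mp h4
  have h2 : (Set.Icc (0 : ℝ) K)ᶜ ⊆ ⋃ n : ℕ, {x | hc g hg (K + n) x ≠ 0} := by
    intro x hx
    obtain ⟨n, hn⟩ := exists_nat_ge |x|
    rw [Set.mem_iUnion]
    refine ⟨n, ?_⟩
    have : 0 < hc g hg (K + n) x := by
      rw [hc_apply]
      refine mul_pos (hgp x hx) (cut_pos ?_)
      push_cast
      have : (0 : ℝ) ≤ K := Nat.cast_nonneg K
      linarith
    exact this.ne'
  refine measure_mono_null h2 ?_
  rw [measure_iUnion_null_iff]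
  intro n
  exact h1 (K + n) (Nat.le_add_right K n)

theorem fin_meas (e : Fin r → H) (T : H →L[ℂ] H) (hT : 0 ≤ T) :
    IsFiniteMeasure (spectralMeasure e T) := by
  obtain ⟨K, hK⟩ := exists_nat_ge ‖T‖
  have hreg : Measure.Regular (spectralMeasure e T) := by
    unfold spectralMeasure
    infer_instance
  constructor
  calc spectralMeasure e T Set.univ
      ≤ spectralMeasure e T (Set.Icc 0 (K : ℝ)) + spectralMeasure e T (Set.Icc 0 (K : ℝ))ᶜ := by
        rw [← Set.union_compl_self (Set.Icc 0 (K : ℝ))]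
        exact measure_union_le _ _
    _ = spectralMeasure e T (Set.Icc 0 (K : ℝ)) := by rw [supp e T hT hK, add_zero]
    _ < ⊤ := isCompact_Icc.measure_lt_top

theorem integral_cont (e : Fin r → H) (T : H →L[ℂ] H) (hT : 0 ≤ T) (h : ℝ → ℝ) (hh : Continuous h) :
    Integrable h (spectralMeasure e T) ∧ ∫ x, h x ∂(spectralMeasure e T) = traceVal e T h := by
  obtain ⟨K, hK⟩ := exists_nat_ge ‖T‖
  have hreg : Measure.Regular (spectralMeasure e T) := by
    unfold spectralMeasure
    infer_instance
  have hae : (fun x => hc h hh K x) =ᵐ[spectralMeasure e T] h := by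
    rw [Filter.EventuallyEq, ae_iff]
    refine measure_mono_null ?_ (supp e T hT hK)
    intro x hx
    rw [Set.mem_compl_iff]
    intro hx2
    apply hx
    show hc h hh K x = h x
    rw [hc_apply, cut_eq_one, mul_one]
    rw [abs_of_nonneg hx2.1]
    exact hx2.2
  constructor
  · have hint : Integrable (fun x => hc h hh K x) (spectralMeasure e T) :=
      (hc h hh K).continuous.integrable_of_hasCompactSupport (hc h hh K).hasCompactSupport
    exact hint.congr hae
  · rw [← integral_congr_ae hae]
    exact integral_hc e T hT hK h hh le_rfl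

theorem measure_le (e : Fin r → H) (T : H →L[ℂ] H) (hT : 0 ≤ T) (h : ℝ → ℝ) (hh : Continuous h)
    (h0 : ∀ x, 0 ≤ h x) (c : ℝ) (hc : 0 < c) (S : Set ℝ) (hS : ∀ x ∈ S, 0 ≤ x → c ≤ h x) :
    (spectralMeasure e T S).toReal ≤ traceVal e T h / c := by
  obtain ⟨K, hK⟩ := exists_nat_ge ‖T‖
  have hf := fin_meas e T hT
  obtain ⟨h1, h2⟩ := integral_cont e T hT h hh
  rw [← h2]
  have h3 := mul_meas_ge_le_integral_of_nonneg (μ := spectralMeasure e T)
    (Filter.Eventually.of_forall h0) h1 c
  rw [le_div_iff₀ hc, mul_comm]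
  refine le_trans ?_ h3
  refine mul_le_mul_of_nonneg_left ?_ hc.le
  refine ENNReal.toReal_mono (measure_ne_top _ _) ?_
  calc spectralMeasure e T S ≤ spectralMeasure e T ({x | c ≤ h x} ∪ (Set.Icc 0 (K : ℝ))ᶜ) := by
        refine measure_mono fun x hx => ?_
        by_cases hx0 : 0 ≤ x
        · exact Or.inl (hS x hx hx0)
        · right
          rw [Set.mem_compl_iff, Set.mem_Icc]
          exact fun h => hx0 h.1
    _ ≤ spectralMeasure e T {x | c ≤ h x} + spectralMeasure e T (Set.Icc 0 (K : ℝ))ᶜ :=
        measure_union_le _ _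
    _ = _ := by rw [supp e T hT hK, add_zero]

end general

theorem specMeas_eq {G : Type} [Group G] {r : ℕ} (A : Matrix (Fin r) (Fin r) (MonoidAlgebra ℤ G)) :
    specMeas unitVec (rMul (A.map toQ)) =
      spectralMeasure unitVec (rMul ((A * adjZ A).map toQ)) := by
  unfold specMeas
  rw [adjoint_comp_rMul, ← Pool.Agent.TH630.Tor.mul_adjZ_toQ]

theorem sq_nonneg' {G : Type} [Group G] {r : ℕ} (A : Matrix (Fin r) (Fin r) (MonoidAlgebra ℤ G)) :
    0 ≤ rMul ((A * adjZ A).map toQ) := by
  rw [Pool.Agent.TH630.Tor.mul_adjZ_toQ]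
  exact rMul_self_nonneg _

theorem t_den : S_den := by
  intro G _ r A δ hδ
  have hf := fin_meas (unitVec : Fin r → L2Pow G r) _ (sq_nonneg' A)
  rw [specMeas_eq]
  refine ⟨?_, measure_lt_top _ _⟩
  have h1 := measure_le (unitVec : Fin r → L2Pow G r) _ (sq_nonneg' A) (bump (2 * δ))
    (bump_continuous _) (bump_nonneg _) (1 / 2) (by norm_num) (Set.Iic δ) (by
      intro x hx hx0
      unfold bump
      refine le_max_of_le_right (le_min (by norm_num) ?_)
      have hx' : x ≤ δ := hx
      have : x / (2 * δ) ≤ 1 / 2 := by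
        rw [div_le_div_iff₀ (by positivity) (by norm_num)]
        linarith
      linarith)
  refine h1.trans (le_of_eq ?_)
  ring

theorem t_fkv : S_fkv := by
  intro G _ r A C C' hg hb
  set T := rMul ((A * adjZ A).map toQ) with hT
  have hT0 : 0 ≤ T := sq_nonneg' A
  set μ := spectralMeasure (unitVec : Fin r → L2Pow G r) T with hμ
  have hfin : IsFiniteMeasure μ := fin_meas _ T hT0
  have hlogint : IntegrableOn Real.log (Set.Ioi 0) μ :=
    log_integrable unitVec T hT0 (fun n => hg n (Nat.cast_nonneg n))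
  have hfk : 2 * Real.log (fkDet (rMul (A.map toQ))) = ∫ x in Set.Ioi (0 : ℝ), Real.log x ∂μ := by
    unfold fkDet detOf
    rw [specMeas_eq, if_pos hlogint, Real.log_exp]
    ring
  rw [hfk]
  -- no atom at zero, nothing on the negative axis
  have hIic : μ (Set.Iic 0) = 0 := by
    have h1 : ∀ δ : ℝ, 0 < δ → δ < 1 → (μ (Set.Iic 0)).toReal ≤ C / Real.log (1 / δ) := by
      intro δ hδ hδ1
      have hlog : 0 < Real.log (1 / δ) := by
        apply Real.log_pos
        rw [lt_div_iff₀ hδ]
        linarith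
      have h2 := measure_le (unitVec : Fin r → L2Pow G r) T hT0 (bump δ) (bump_continuous _)
        (bump_nonneg _) 1 one_pos (Set.Iic 0) (by
          intro x hx hx0
          have : x = 0 := le_antisymm hx hx0
          rw [this, bump_zero])
      rw [div_one] at h2
      refine h2.trans ?_
      rw [le_div_iff₀ hlog]
      exact hb δ hδ hδ1
    have h3 : (μ (Set.Iic 0)).toReal ≤ 0 := by
      have hlim : Filter.Tendsto (fun n : ℕ => C / ((n : ℝ) + 1)) Filter.atTop (𝓝 0) := by
        apply Filter.Tendsto.div_atTop tendsto_const_nhds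
        exact Filter.tendsto_atTop_add_const_right _ _ tendsto_natCast_atTop_atTop
      refine ge_of_tendsto' hlim (fun n => ?_)
      have := h1 (Real.exp (-((n : ℝ) + 1))) (Real.exp_pos _)
        (by rw [Real.exp_lt_one_iff]; have : (0:ℝ) ≤ n := Nat.cast_nonneg n; linarith)
      rwa [one_div, ← Real.exp_neg, neg_neg, Real.log_exp] at this
    have h4 := le_antisymm h3 ENNReal.toReal_nonneg
    rw [ENNReal.toReal_eq_zero_iff] at h4
    exact h4.resolve_right (measure_ne_top _ _)
  have hcont : ∀ m : ℕ, Continuous (fun x : ℝ => Real.log (max x (Real.exp (-(m : ℝ))))) := by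
    intro m
    refine Continuous.log (continuous_id.max continuous_const) fun x => ?_
    exact (lt_of_lt_of_le (Real.exp_pos _) (le_max_right _ _)).ne'
  have heq : ∀ m : ℕ, traceVal unitVec T (fun x => Real.log (max x (Real.exp (-(m : ℝ))))) =
      ∫ x in Set.Ioi (0 : ℝ), Real.log (max x (Real.exp (-(m : ℝ)))) ∂μ := by
    intro m
    rw [← (integral_cont (unitVec : Fin r → L2Pow G r) T hT0 _ (hcont m)).2]
    have h1 : μ.restrict (Set.Ioi 0) = μ := by
      apply Measure.restrict_eq_self_of_ae_mem
      rw [ae_iff]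
      refine measure_mono_null ?_ hIic
      intro x hx
      have hx' : ¬ (x ∈ Set.Ioi (0 : ℝ)) := hx
      rw [Set.mem_Ioi, not_lt] at hx'
      exact hx'
    rw [h1]
  simp_rw [heq]
  refine tendsto_integral_of_dominated_convergence (fun x => |Real.log x|) ?_ ?_ ?_ ?_
  · intro m
    exact (hcont m).aestronglyMeasurable
  · exact hlogint.abs
  · intro m
    rw [ae_restrict_iff' measurableSet_Ioi]
    refine Filter.Eventually.of_forall fun x hx => ?_
    have hx0 : 0 < x := hx
    rw [Real.norm_eq_abs]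
    rcases le_total (Real.exp (-(m : ℝ))) x with h | h
    · rw [max_eq_left h]
    · rw [max_eq_right h, Real.log_exp]
      have h1 := Real.log_le_log hx0 h
      rw [Real.log_exp] at h1
      have hm : (0 : ℝ) ≤ m := Nat.cast_nonneg m
      rw [abs_neg, abs_of_nonneg hm]
      have := neg_le_abs (Real.log x)
      linarith
  · rw [ae_restrict_iff' measurableSet_Ioi]
    refine Filter.Eventually.of_forall fun x hx => ?_
    have hx0 : 0 < x := hx
    apply tendsto_const_nhds.congr'
    obtain ⟨m₀, hm₀⟩ := exists_nat_ge (-Real.log x)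
    filter_upwards [Filter.eventually_ge_atTop m₀] with m hm
    have hm' : (m₀ : ℝ) ≤ m := by exact_mod_cast hm
    rw [max_eq_left]
    rw [← Real.exp_log hx0]
    apply Real.exp_le_exp.mpr
    linarith

end Pool.Agent.D0H83.AC
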