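import Pool.Agent.D0H70.AC.Tour
import Pool.Agent.D0H52.AC.Glb
import Pool.Agent.D0H52.AC.Eig
import Pool.Agent.D0H52.AC.Wei
import Pool.Agent.D0H8.AC.Dom
import Pool.Agent.D0H8.AC.Lump
import Pool.Agent.D0H8.AC.Num
import Pool.Agent.D0H8.AC.Tor
import Pool.Agent.D0H25.AC.Mom
import Pool.Agent.D0H25.AC.Far
import Pool.Agent.D0H83.AC.Fkv
import Pool.Agent.D0H83.AC.DetT

set_option autoImplicit false

/-! # Project AC: the unconditional core -/

namespace Pool.Agent.D0H83.AC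

open Matrix Finset Filter Topology Pool.Agent.Q181.TG Pool.Agent.Helper993.FK

theorem u_lump : S_lump := Pool.Agent.D0H8.AC.t_lump
theorem u_glb : S_glb := Pool.Agent.D0H52.AC.glb (Pool.Agent.D0H70.AC.t_orb Pool.Agent.D0H70.AC.t_tour)
theorem u_dom : S_dom := Pool.Agent.D0H8.AC.t_dom

variable {G : Type} [Group G] {r : ℕ}

/-- factors of products of dominating matrices -/
theorem low_of_factor (Λ : Subgroup G) [Λ.Normal] (l : List (Matrix (Fin r) (Fin r) (MonoidAlgebra ℤ G)))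
    (C A C' : Matrix (Fin r) (Fin r) (MonoidAlgebra ℤ G)) (h : ∀ R ∈ l, Dominates Λ R)
    (hC : C * A * C' = l.prod) : Low Λ (4 * l.length) A := by
  refine low_factor u_lump Λ C A C' ?_
  rw [hC]
  exact low_prod u_glb u_dom u_lump Λ l h

/-- the core theorem for one matrix -/
theorem main_low (Λ : Subgroup G) [Λ.Normal] [Infinite Λ]
    (A : Matrix (Fin r) (Fin r) (MonoidAlgebra ℤ G)) (p : ℕ) (hA : Low Λ p A)
    (X : ℕ → Type) [∀ n, Fintype (X n)] [∀ n, Nonempty (X n)] [∀ n, MulAction G (X n)]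
    (hX : Far G X) :
    (∀ v, rMul (A.map toQ) v = 0 → v = 0) ∧ 0 < fkDet (rMul (A.map toQ)) ∧
    (Tendsto (fun n => Real.log (dt u_lump Λ A (X n)) / Fintype.card (X n)) atTop
      (𝓝 (Real.log (fkDet (rMul (A.map toQ))))) ∧ ∀ n, 0 < dt u_lump Λ A (X n)) ∧
    Tendsto (fun n => Real.log (tc (Cok (reg (X n) A))) / Fintype.card (X n)) atTop
      (𝓝 (Real.log (fkDet (rMul (A.map toQ))))) ∧
    ∃ c C : ℝ, 0 < c ∧ 0 ≤ C ∧ ∀ δ : ℝ, 0 < δ → ∀ L : ℕ, 1 ≤ L → δ * (L : ℝ) ^ p ≤ c →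
      traceVal unitVec (rMul ((A * adjZ A).map toQ)) (bump δ) ≤ C / L := by
  obtain ⟨c, C, hc, hC, h⟩ := hA
  have h1 := core u_lump Pool.Agent.D0H52.AC.eig Pool.Agent.D0H8.AC.t_num Pool.Agent.D0H8.AC.t_tor
    Pool.Agent.D0H25.AC.t_mom Pool.Agent.D0H52.AC.wei t_fkv Pool.Agent.D0H25.AC.t_far Λ A p c C hc hC X hX
    (fun n L hL => h (X n) L hL)
  exact ⟨h1.1, h1.2.1, h1.2.2.1, h1.2.2.2.1, c, C, hc, hC, h1.2.2.2.2⟩

/-- the determinants of `A A*` and `A* A` -/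
theorem fk_sq (Λ : Subgroup G) [Λ.Normal] [Infinite Λ]
    (A : Matrix (Fin r) (Fin r) (MonoidAlgebra ℤ G)) (p : ℕ) (hA : Low Λ p A)
    (X : ℕ → Type) [∀ n, Fintype (X n)] [∀ n, Nonempty (X n)] [∀ n, MulAction G (X n)]
    (hX : Far G X) :
    Real.log (fkDet (rMul ((A * adjZ A).map toQ))) = 2 * Real.log (fkDet (rMul (A.map toQ))) ∧
    Real.log (fkDet (rMul ((adjZ A * A).map toQ))) = 2 * Real.log (fkDet (rMul (A.map toQ))) := by
  have hadj := low_adj u_lump Λ A hA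
  obtain ⟨-, -, ⟨h1, h1'⟩, -⟩ := main_low Λ A p hA X hX
  have h1'' := h1.const_mul 2
  obtain ⟨-, -, ⟨h2, -⟩, -⟩ := main_low Λ (A * adjZ A) (p + p) (low_mul u_lump Λ A (adjZ A) hA hadj) X hX
  obtain ⟨-, -, ⟨h3, -⟩, -⟩ := main_low Λ (adjZ A * A) (p + p) (low_mul u_lump Λ (adjZ A) A hadj hA) X hX
  constructor
  · refine tendsto_nhds_unique h2 (h1''.congr fun n => ?_)
    rw [dt_mul, dt_adj, Real.log_mul (h1' n).ne' (h1' n).ne']
    ring
  · refine tendsto_nhds_unique h3 (h1''.congr fun n => ?_)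
    rw [dt_mul, dt_adj, Real.log_mul (h1' n).ne' (h1' n).ne']
    ring

end Pool.Agent.D0H83.AC
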