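import Pool.Agent.D0H83.AC.Stm4

set_option autoImplicit false

/-!
# Project AC, fourth part: one more module
-/

namespace Pool.Agent.D0H83.AC

open Matrix Finset Filter Topology Pool.Agent.Q181.TG Pool.Agent.Helper993.FK

/-- (E12 CYCU) The torsion of the cokernel of the Laplacian of the cycle of length `N` has at most `N` elements.
Proof. `X = ℤ/N`, `v ᵥ* reg X cyc = 2 v - v(· + 1) - v(· - 1)`. The sum `s v = ∑ v x` vanishes on the rows, so it is
defined on the cokernel with values in `ℤ`, and torsion elements have sum `0`. The homomorphism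
`φ v = ∑ x, v x * x` with values in `ZMod N` is defined on the cokernel (module E9). It is injective on the classes
with sum `0`, so there are at most `N` torsion elements: let `s v = 0` and `φ v = 0`. Lift `X` to `0, …, N - 1` and let
`w x = ∑_{y ≤ x} v y` (so `w x - w (x - 1) = v x`, also at `x = 0` as the total sum is `0`). Then
`∑ w x = ∑_y v y (N - y) = - ∑ y v y` modulo `N`, so `∑ w x = N c`; replace `w` by `w - c`, so `∑ w = 0`, and let
`u x = ∑_{y ≤ x} w y` similarly: `u x - u (x - 1) = w x`. So `v x = u x - 2 u (x - 1) + u (x - 2)`, and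
`v = u' ᵥ* reg X cyc` with `u' x = - u (x - 1)`. -/
def S_cycu : Prop := ∀ N : ℕ, 1 ≤ N → ∀ [Fintype (Multiplicative ℤ ⧸ sbg N)],
  tc (Cok (reg (Multiplicative ℤ ⧸ sbg N) cyc)) ≤ N

end Pool.Agent.D0H83.AC
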