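import Pool.Agent.D0H83.AC.Eff6
import Pool.Agent.D0H83.AC.Stm5
import Pool.Agent.D0H52.AC.Cheb
import Pool.Agent.D0H70.AC.Sum
import Pool.Agent.D0H70.AC.Diag
import Pool.Agent.D0H82.AC.Ball
import Pool.Agent.D0H82.AC.Cong
import Pool.Agent.D0H82.AC.Sqrt
import Pool.Agent.D0H82.AC.Cyc
import Pool.Agent.D0H58.AC.Pkg

set_option autoImplicit false

/-! # Project AC, third part: congruence subgroups and the infinite cyclic group -/

namespace Pool.Agent.D0H83.AC

open Matrix Finset Filter Topology Pool.Agent.Q181.TG Pool.Agent.Helper993.FK Pool.Agent.TH630.Tor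

theorem u_mods : Mods :=
  ⟨Pool.Agent.D0H52.AC.t_cheb, Pool.Agent.D0H70.AC.t_sum, Pool.Agent.D0H70.AC.t_diag,
    Pool.Agent.D0H82.AC.t_ball, Pool.Agent.D0H70.AC.t_orbs, Pool.Agent.D0H82.AC.t_sqrt,
    Pool.Agent.D0H58.AC.t_ext⟩

variable {G : Type} [Group G]

/-- no short words: Farber -/
theorem far_of_fixd (S : Finset G) (hS : Subgroup.closure (S : Set G) = ⊤) (X : ℕ → Type)
    [∀ i, Fintype (X i)] [∀ i, MulAction G (X i)]
    (h : ∀ n, ∀ᶠ i in atTop, fixd (S : Set G) n (X i) = ∅) : Far G X := by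
  classical
  intro g hg
  obtain ⟨a, -, ha⟩ := u_mods.2.2.2.1.2.2.1 G (S : Set G) {g} (by rw [hS]; exact fun _ _ => trivial)
  have hga : g ∈ ball (S : Set G) a := ha (by simp)
  refine tendsto_const_nhds.congr' ?_
  filter_upwards [h a] with i hi
  have hempty : IsEmpty {x : X i // g • x = x} := by
    refine ⟨fun x => ?_⟩
    have h1 : x.1 ∈ fixd (S : Set G) a (X i) := by
      rw [fixd, mem_filter]
      exact ⟨mem_univ _, g, hga, hg, x.2⟩
    rw [hi] at h1
    exact absurd h1 (Finset.notMem_empty _)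
  rw [Nat.card_of_isEmpty]
  simp

/-- a rate gives a rate for congruence subgroups -/
theorem rate_cong {S : Finset G} {θ ρ : ℝ} {u : (X : Type) → [Fintype X] → [MulAction G X] → ℝ}
    (h : Rate S θ u ρ) (hθ : 0 < θ) {d : ℕ} (φ : G →* GL (Fin d) ℤ) (hφ : Function.Injective φ) :
    ∃ K : ℝ, 0 ≤ K ∧ ∀ N : ℕ, 3 ≤ N → ∀ [Fintype (G ⧸ cong φ N)],
      |u (G ⧸ cong φ N) / Fintype.card (G ⧸ cong φ N) - ρ| ≤
        K * (Real.log (Real.log N) / Real.log N) ^ θ := by
  obtain ⟨K, hK, h⟩ := h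
  obtain ⟨κ, hκ, hc⟩ := Pool.Agent.D0H82.AC.t_cong G d φ S hφ
  obtain ⟨C, hC, hl⟩ := Pool.Agent.D0H58.AC.t_llog κ hκ
  refine ⟨2 * K * C ^ θ, by positivity, fun N hN _ => ?_⟩
  have hX : (0 : ℝ) < Fintype.card (G ⧸ cong φ N) := by exact_mod_cast Fintype.card_pos
  have hx0 : 0 ≤ Real.log (Real.log N) / Real.log N := by
    have h1 := one_le_log hN
    exact div_nonneg (Real.log_nonneg h1) (by linarith)
  have e1 : u (G ⧸ cong φ N) / Fintype.card (G ⧸ cong φ N) - ρ =
      (u (G ⧸ cong φ N) - Fintype.card (G ⧸ cong φ N) * ρ) / Fintype.card (G ⧸ cong φ N) := by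
    field_simp
  rw [e1, abs_div, abs_of_pos hX, div_le_iff₀ hX]
  set x := Real.log (Real.log N) / Real.log N with hx
  rcases hl N hN with ⟨h2, h3, h4⟩ | h5
  · have h6 := h (G ⧸ cong φ N) _ h2
    rw [hc N _ h3, card_empty, Nat.cast_zero, mul_zero, add_zero] at h6
    have h7 := Real.rpow_le_rpow (log_div_pos h2).le h4 hθ.le
    rw [Real.mul_rpow hC.le hx0] at h7
    have h8 : 0 ≤ C ^ θ * x ^ θ := by positivity
    calc _ ≤ K * (Fintype.card (G ⧸ cong φ N) *
          (Real.log (Nat.log κ (N - 1)) / (Nat.log κ (N - 1))) ^ θ) := h6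
      _ ≤ K * (Fintype.card (G ⧸ cong φ N) * (C ^ θ * x ^ θ)) :=
          mul_le_mul_of_nonneg_left (mul_le_mul_of_nonneg_left h7 hX.le) hK
      _ ≤ 2 * (K * (Fintype.card (G ⧸ cong φ N) * (C ^ θ * x ^ θ))) := by
          have : 0 ≤ K * (Fintype.card (G ⧸ cong φ N) * (C ^ θ * x ^ θ)) := by positivity
          linarith
      _ = _ := by ring
  · have h6 := h (G ⧸ cong φ N) 2 le_rfl
    have h7 : (1 : ℝ) ≤ (C * x) ^ θ := Real.one_le_rpow h5 hθ.le
    rw [Real.mul_rpow hC.le hx0] at h7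
    have h8 : (Real.log (2 : ℕ) / (2 : ℕ)) ^ θ ≤ (1 : ℝ) :=
      Real.rpow_le_one (log_div_pos le_rfl).le (log_div_le_one le_rfl) hθ.le
    have h9 : (#(fixd (S : Set G) 2 (G ⧸ cong φ N)) : ℝ) ≤ Fintype.card (G ⧸ cong φ N) := by
      exact_mod_cast card_le_univ _
    have h10 : Real.log (2 : ℕ) ≤ 1 := by
      have := Real.log_two_lt_d9
      push_cast
      linarith
    have h11 : 0 ≤ Real.log (2 : ℕ) := Real.log_natCast_nonneg _
    have h12 : Real.log (2 : ℕ) * (#(fixd (S : Set G) 2 (G ⧸ cong φ N)) : ℝ) ≤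
        Fintype.card (G ⧸ cong φ N) := by
      calc _ ≤ 1 * (#(fixd (S : Set G) 2 (G ⧸ cong φ N)) : ℝ) :=
            mul_le_mul_of_nonneg_right h10 (Nat.cast_nonneg _)
        _ ≤ _ := by rw [one_mul]; exact h9
    have h13 : (Fintype.card (G ⧸ cong φ N) : ℝ) * (Real.log (2 : ℕ) / (2 : ℕ)) ^ θ ≤
        Fintype.card (G ⧸ cong φ N) := by
      have := mul_le_mul_of_nonneg_left h8 hX.le
      linarith
    calc _ ≤ K * (Fintype.card (G ⧸ cong φ N) * (Real.log (2 : ℕ) / (2 : ℕ)) ^ θ +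
          Real.log (2 : ℕ) * #(fixd (S : Set G) 2 (G ⧸ cong φ N))) := h6
      _ ≤ K * (2 * Fintype.card (G ⧸ cong φ N)) :=
          mul_le_mul_of_nonneg_left ((add_le_add h13 h12).trans (le_of_eq (two_mul _).symm)) hK
      _ = 2 * K * 1 * Fintype.card (G ⧸ cong φ N) := by ring
      _ ≤ 2 * K * (C ^ θ * x ^ θ) * Fintype.card (G ⧸ cong φ N) :=
          mul_le_mul_of_nonneg_right (mul_le_mul_of_nonneg_left h7 (by positivity)) hX.le
      _ = _ := by ring

theorem finite_cong {d : ℕ} (φ : G →* GL (Fin d) ℤ) (N : ℕ) (hN : 1 ≤ N) : Finite (G ⧸ cong φ N) := by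
  have : NeZero N := ⟨by omega⟩
  exact Finite.of_injective _ (QuotientGroup.kerLift_injective
    ((Matrix.GeneralLinearGroup.map (n := Fin d) (Int.castRingHom (ZMod N))).comp φ))

/-- linear groups have Farber sequences -/
theorem far_cong (S : Finset G) (hS : Subgroup.closure (S : Set G) = ⊤) {d : ℕ} (φ : G →* GL (Fin d) ℤ)
    (hφ : Function.Injective φ) [∀ i, Fintype (G ⧸ cong φ (i + 1))] :
    Far G (fun i => G ⧸ cong φ (i + 1)) := by
  obtain ⟨κ, hκ, hc⟩ := Pool.Agent.D0H82.AC.t_cong G d φ S hφ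
  refine far_of_fixd S hS _ fun n => ?_
  filter_upwards [eventually_ge_atTop (κ ^ n)] with i hi
  exact hc (i + 1) n (by omega)

/-! ## the infinite cyclic group -/

/-- the complex `ℤ[t, t⁻¹] → ℤ[t, t⁻¹]` with the matrix `2 - t - t⁻¹`, in the degrees `1` and `0` -/
noncomputable def cycCx : FreeCx (Multiplicative ℤ) where
  rank := fun n => match n with
    | 0 => 1
    | 1 => 1
    | _ + 2 => 0
  dim := 1
  rank_eq_zero := by
    intro n hn
    match n, hn with
    | n + 2, _ => rfl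
  d := fun n => match n with
    | 0 => cyc
    | _ + 1 => 0
  d_comp_d := by
    intro n
    cases n with
    | zero => exact Matrix.zero_mul _
    | succ n => exact Matrix.zero_mul _

theorem closure_gen : Subgroup.closure (({Multiplicative.ofAdd (1 : ℤ)} : Finset (Multiplicative ℤ)) :
    Set (Multiplicative ℤ)) = ⊤ := by
  rw [Finset.coe_singleton, ← Subgroup.zpowers_eq_closure, Subgroup.eq_top_iff']
  intro x
  rw [Subgroup.mem_zpowers_iff]
  refine ⟨Multiplicative.toAdd x, ?_⟩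
  rw [← ofAdd_zsmul, smul_eq_mul, mul_one]
  rfl

end Pool.Agent.D0H83.AC
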