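import Pool.Agent.D0H83.AC.Eff8
import Pool.Agent.D0H83.AC.Eff7

set_option autoImplicit false

/-! # Project AC, fifth part: sequences of finite `G`-sets with convergent characters -/

namespace Pool.Agent.D0H83.AC

open Matrix Finset Filter Topology Pool.Agent.Q181.TG Pool.Agent.Helper993.FK Pool.Agent.TH630.Tor
open Pool.Agent.TH630.Tor.FreeCx (lapM laplacian_eq)

attribute [-instance] Pool.Agent.D0H8.AC.instFx

variable {G : Type} [Group G] {r : ℕ}

/-- the proportion of the fixed points of `g` -/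
noncomputable def fr (g : G) (X : Type) [Fintype X] [MulAction G X] : ℝ :=
  (Nat.card {x : X // g • x = x} : ℝ) / Fintype.card X

open Classical in
/-- **The determinant is near the trace of a polynomial.** -/
theorem eff_tr (hm : Mods) (Λ : Subgroup G) [Λ.Normal]
    (B : Matrix (Fin r) (Fin r) (MonoidAlgebra ℤ G)) (p : ℕ) (hp : 2 ≤ p) (hB : FLow Λ p B) :
    ∃ (M₁ : ℕ) (K0 : ℝ), 3 ≤ M₁ ∧ 0 ≤ K0 ∧ ∀ M : ℕ, M₁ ≤ M → ∃ q : Polynomial ℝ,
      ∀ (X : Type) [Fintype X] [MulAction G X], 0 < dt u_lump Λ B X ∧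
        |Real.log (dt u_lump Λ B X) - (Polynomial.aeval (rg X B) q).trace| ≤
          K0 * (Fintype.card X * (Real.log M / M) ^ (2 / (p : ℝ)) + Real.log M * yo Λ X) := by
  obtain ⟨hadj, hform, c, C, hc, hC, hlow⟩ := hB
  obtain ⟨K, hK, hKb⟩ := u_lump.2.2.1 G r r B
  have hK' : (1 : ℝ) ≤ (K : ℝ) := by exact_mod_cast hK
  set K2 : ℝ := (K : ℝ) with hK2d
  have hK2 : (1 : ℝ) ≤ K2 := hK'
  obtain ⟨M₁, hM₁, hch⟩ := cheb_use hm.1 K2 hK2
  obtain ⟨E, hE0, hE⟩ := hm.2.1 p r c C hp hc hC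
  set B1 : ℝ := 3 + Real.log (K2 + 1) with hB1
  have hB10 : 0 ≤ B1 := by
    have : 0 ≤ Real.log (K2 + 1) := Real.log_nonneg (by linarith)
    linarith
  set K0 : ℝ := E * (4 * K2) + r + r * B1 with hK0
  have hr0 : (0 : ℝ) ≤ r := Nat.cast_nonneg r
  have hK00 : 0 ≤ K0 := by positivity
  refine ⟨M₁, K0, hM₁, hK00, fun M hM => ?_⟩
  have hM3 : 3 ≤ M := hM₁.trans hM
  obtain ⟨q, δ, hq1, hδ0, hδ1, hδ4, hq2, hq3⟩ := hch M hM
  have hlog := one_le_log hM3
  have hM0 : (0 : ℝ) < M := by positivity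
  set x := Real.log M / M with hx
  have hx0 : 0 < x := by positivity
  have hx1 : x ≤ 1 := (log_div_le hM3).trans (by norm_num)
  obtain ⟨hr1, hr2⟩ := rate_aux p hp K2 δ x hK2 hx0 hx1 hδ0 hδ4
  set y := x ^ (2 / (p : ℝ)) with hy
  have hy0 : 0 < y := Real.rpow_pos_of_pos hx0 _
  have hMx : 1 / (M : ℝ) ≤ x := div_le_div_of_nonneg_right hlog hM0.le
  refine ⟨q, fun X _ _ => ?_⟩
  have hfinY : Fintype (MulAction.orbitRel.Quotient Λ X) := Fintype.ofFinite _
  obtain ⟨d, d', ν, μ, hdd, hd', hν, hμ, htr, hcnt, hD, P, hP1, hP2⟩ :=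
    slevel hm.2.2.2.2.2.1 Λ B p c C X (hadj X) (hform X) (fun L hL => hlow X L hL) K hK (hKb X).2
  have hdn : d ≤ r * Fintype.card X := by omega
  obtain ⟨hpos, hs⟩ := hE (Fintype.card X) d ν hdn hcnt
  have hD0 : 0 < dt u_lump Λ B X := by
    rw [hD]
    exact Finset.prod_pos fun k _ => hpos k
  refine ⟨hD0, ?_⟩
  set N : ℝ := (Fintype.card X : ℝ) with hN
  have hN0 : 0 ≤ N := Nat.cast_nonneg _
  have hYe : yo Λ X = (Fintype.card (MulAction.orbitRel.Quotient Λ X) : ℝ) := by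
    unfold yo
    rw [Nat.card_eq_fintype_card]
  have hY0 : 0 ≤ yo Λ X := by rw [hYe]; exact Nat.cast_nonneg _
  have hNM : N / M ≤ N * x := by
    rw [div_eq_mul_one_div]
    exact mul_le_mul_of_nonneg_left hMx hN0
  have hNx : N * x ≤ N * y := mul_le_mul_of_nonneg_left hr2 hN0
  have e1 : Real.log (dt u_lump Λ B X) = ∑ k, Real.log (ν k) := by
    rw [hD, Real.log_prod (fun k _ => (hpos k).ne')]
  have ht : |∑ j, q.eval (ν j) + ∑ j, q.eval (μ j) - (Polynomial.aeval (rg X B) q).trace| ≤ 0 := by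
    rw [trace_poly _ q ν μ htr, sub_self, abs_zero]
  have h1 := one_level (E * N * δ ^ (1 / (p : ℝ))) (n := r * Fintype.card X) ν μ K2 δ (1 / M)
    (B1 * Real.log M) q (fun k => ⟨hpos k, (hν k).2⟩) hμ hδ0 hq2 hq3 (hs δ hδ0 hδ1) hdn
    (by linarith) _ _ ht
  rw [e1]
  refine h1.trans ?_
  have h2 : E * N * δ ^ (1 / (p : ℝ)) ≤ E * (4 * K2) * (N * y) := by
    calc E * N * δ ^ (1 / (p : ℝ)) ≤ E * N * (4 * K2 * y) :=
          mul_le_mul_of_nonneg_left hr1 (by positivity)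
      _ = _ := by ring
  have h3 : ((r * Fintype.card X : ℕ) : ℝ) * (1 / M) ≤ r * (N * y) := by
    push_cast
    calc (r : ℝ) * Fintype.card X * (1 / M) = r * (N / M) := by rw [hN]; ring
      _ ≤ r * (N * y) := mul_le_mul_of_nonneg_left (hNM.trans hNx) hr0
  have h4 : (d' : ℝ) * (B1 * Real.log M) ≤ r * B1 * (Real.log M * yo Λ X) := by
    have h5 : (d' : ℝ) ≤ r * yo Λ X := by
      rw [hYe]
      exact_mod_cast hd'
    calc (d' : ℝ) * (B1 * Real.log M) ≤ (r * yo Λ X) * (B1 * Real.log M) :=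
          mul_le_mul_of_nonneg_right h5 (by positivity)
      _ = _ := by ring
  have hNy : 0 ≤ N * y := by positivity
  have hlF : 0 ≤ Real.log M * yo Λ X := by positivity
  have g4 : 0 ≤ (E * (4 * K2) + r) * (Real.log M * yo Λ X) := by positivity
  have g5 : 0 ≤ (r * B1) * (N * y) := by positivity
  have g6 : K0 * (N * y + Real.log M * yo Λ X) =
      (E * (4 * K2) * (N * y) + r * (N * y) + r * B1 * (Real.log M * yo Λ X)) +
      ((E * (4 * K2) + r) * (Real.log M * yo Λ X) + (r * B1) * (N * y)) := by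
    rw [hK0]
    ring
  rw [g6]
  linarith

/-- the trace of a polynomial in a matrix, from a character -/
noncomputable def tch (B : Matrix (Fin r) (Fin r) (MonoidAlgebra ℤ G)) (q : Polynomial ℝ) (χ : G → ℝ) : ℝ :=
  ∑ k ∈ range (q.natDegree + 1), q.coeff k * ∑ i, ∑ h ∈ ((B ^ k) i i).coeff.support,
        (((B ^ k) i i).coeff h : ℝ) * χ h

open Classical in
/-- the normalised trace of a polynomial, from the character -/
theorem trace_char (B : Matrix (Fin r) (Fin r) (MonoidAlgebra ℤ G)) (q : Polynomial ℝ) (X : Type)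
    [Fintype X] [MulAction G X] :
    (Polynomial.aeval (rg X B) q).trace / Fintype.card X = tch B q (fun g => fr g X) := by
  unfold tch
  rw [Polynomial.aeval_eq_sum_range, Matrix.trace_sum, sum_div]
  refine sum_congr rfl fun k _ => ?_
  rw [Matrix.trace_smul, smul_eq_mul, mul_div_assoc]
  congr 1
  rw [← rg_pow, Pool.Agent.D0H25.AC.rg_trace, sum_div]
  refine sum_congr rfl fun i _ => ?_
  rw [sum_div]
  refine sum_congr rfl fun h _ => ?_
  rw [mul_div_assoc]
  congr 1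
  unfold fr
  congr 2
  rw [Nat.card_eq_fintype_card, Fintype.card_subtype]

/-- a real sequence which is eventually near constants converges -/
theorem lim_exists (a : ℕ → ℝ) (h : ∀ ε : ℝ, 0 < ε → ∃ β : ℝ, ∀ᶠ i in atTop, |a i - β| ≤ ε) :
    ∃ ℓ : ℝ, Tendsto a atTop (𝓝 ℓ) := by
  refine cauchySeq_tendsto_of_complete ?_
  rw [Metric.cauchySeq_iff]
  intro ε hε
  obtain ⟨β, hβ⟩ := h (ε / 3) (by linarith)
  obtain ⟨N, hN⟩ := eventually_atTop.mp hβ
  refine ⟨N, fun m hm n hn => ?_⟩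
  have h1 := hN m hm
  have h2 := hN n hn
  rw [Real.dist_eq]
  have e : a m - a n = (a m - β) - (a n - β) := by ring
  rw [e]
  refine lt_of_le_of_lt (abs_sub _ _) ?_
  linarith

/-- the number of the orbits is small -/
def Small (Λ : Subgroup G) (X : ℕ → Type) [∀ i, Fintype (X i)] [∀ i, MulAction G (X i)] : Prop :=
  Tendsto (fun i => yo Λ (X i) / Fintype.card (X i)) atTop (𝓝 0)

/-- the characters converge -/
def CharTo (χ : G → ℝ) (X : ℕ → Type) [∀ i, Fintype (X i)] [∀ i, MulAction G (X i)] : Prop :=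
  ∀ g, Tendsto (fun i => fr g (X i)) atTop (𝓝 (χ g))

/-- convergence of the traces -/
theorem tch_lim (B : Matrix (Fin r) (Fin r) (MonoidAlgebra ℤ G)) (q : Polynomial ℝ) (χ : G → ℝ)
    (X : ℕ → Type) [∀ i, Fintype (X i)] [∀ i, MulAction G (X i)] (hχ : CharTo χ X) :
    Tendsto (fun i => tch B q (fun g => fr g (X i))) atTop (𝓝 (tch B q χ)) := by
  unfold tch
  exact tendsto_finsetSum _ fun k _ => (tendsto_finsetSum _ fun i _ =>
      tendsto_finsetSum _ fun g _ => (hχ g).const_mul _).const_mul _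

open Classical in
/-- near a constant, which depends only on the character -/
theorem near_const (hm : Mods) (Λ : Subgroup G) [Λ.Normal]
    (B : Matrix (Fin r) (Fin r) (MonoidAlgebra ℤ G)) (p : ℕ) (hp : 2 ≤ p) (hB : FLow Λ p B) (χ : G → ℝ)
    (ε : ℝ) (hε : 0 < ε) : ∃ β : ℝ, ∀ (X : ℕ → Type) [∀ i, Fintype (X i)] [∀ i, Nonempty (X i)]
      [∀ i, MulAction G (X i)], CharTo χ X → Small Λ X →
      ∀ᶠ i in atTop, |Real.log (dt u_lump Λ B (X i)) / Fintype.card (X i) - β| ≤ ε := by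
  obtain ⟨M₁, K0, hM₁, hK0, h⟩ := eff_tr hm Λ B p hp hB
  have hp0 : (0 : ℝ) < p := by positivity
  have hlim : Tendsto (fun M : ℕ => K0 * (Real.log M / M) ^ (2 / (p : ℝ))) atTop (𝓝 0) := by
    have h1 := (tendsto_log_div.rpow_const (p := 2 / (p : ℝ)) (Or.inr (by positivity))).const_mul K0
    rwa [Real.zero_rpow (by positivity), mul_zero] at h1
  obtain ⟨M, hM, hMe⟩ := ((eventually_ge_atTop M₁).and
    (hlim.eventually_le_const (show (0 : ℝ) < ε / 3 by linarith))).exists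
  obtain ⟨q, hq⟩ := h M hM
  refine ⟨tch B q χ, fun X _ _ _ hχ hY => ?_⟩
  have h2 := tch_lim B q χ X hχ
  have h3 : Tendsto (fun i => (K0 * Real.log M) * (yo Λ (X i) / Fintype.card (X i))) atTop (𝓝 0) := by
    simpa using hY.const_mul (K0 * Real.log M)
  obtain ⟨N, hN⟩ := Metric.tendsto_atTop.mp h2 (ε / 3) (by linarith)
  filter_upwards [eventually_ge_atTop N, h3.eventually_le_const (show (0 : ℝ) < ε / 3 by linarith)]
    with i hi1 hi2
  have hX : (0 : ℝ) < Fintype.card (X i) := by exact_mod_cast Fintype.card_pos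
  have h4 := hN i hi1
  rw [Real.dist_eq, ← trace_char] at h4
  have h5 := (hq (X i)).2
  have h6 : |Real.log (dt u_lump Λ B (X i)) / Fintype.card (X i) -
      (Polynomial.aeval (rg (X i) B) q).trace / Fintype.card (X i)| ≤ ε / 3 + ε / 3 := by
    rw [← sub_div, abs_div, abs_of_pos hX, div_le_iff₀ hX]
    refine h5.trans ?_
    have e1 : K0 * (Fintype.card (X i) * (Real.log M / M) ^ (2 / (p : ℝ)) + Real.log M * yo Λ (X i)) =
        (K0 * (Real.log M / M) ^ (2 / (p : ℝ)) +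
          (K0 * Real.log M) * (yo Λ (X i) / Fintype.card (X i))) * Fintype.card (X i) := by
      field_simp
    rw [e1]
    exact mul_le_mul_of_nonneg_right (add_le_add hMe hi2) hX.le
  rw [abs_le] at h6 ⊢
  rw [abs_lt] at h4
  constructor <;> linarith [h6.1, h6.2, h4.1, h4.2]

/-- **The limit of the determinants exists and depends only on the character.** -/
theorem dt_char (hm : Mods) (Λ : Subgroup G) [Λ.Normal]
    (B : Matrix (Fin r) (Fin r) (MonoidAlgebra ℤ G)) (p : ℕ) (hp : 2 ≤ p) (hB : FLow Λ p B) :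
    (∀ (X : Type) [Fintype X] [MulAction G X], 0 < dt u_lump Λ B X) ∧
    ∃ L : (G → ℝ) → ℝ, ∀ (χ : G → ℝ) (X : ℕ → Type) [∀ i, Fintype (X i)] [∀ i, Nonempty (X i)]
      [∀ i, MulAction G (X i)], CharTo χ X → Small Λ X →
      Tendsto (fun i => Real.log (dt u_lump Λ B (X i)) / Fintype.card (X i)) atTop (𝓝 (L χ)) := by
  classical
  constructor
  · obtain ⟨M₁, K0, hM₁, hK0, h⟩ := eff_tr hm Λ B p hp hB
    obtain ⟨q, hq⟩ := h M₁ le_rfl
    exact fun X _ _ => (hq X).1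
  have key : ∀ χ : G → ℝ, ∃ ℓ : ℝ, ∀ (X : ℕ → Type) [∀ i, Fintype (X i)] [∀ i, Nonempty (X i)]
      [∀ i, MulAction G (X i)], CharTo χ X → Small Λ X →
      Tendsto (fun i => Real.log (dt u_lump Λ B (X i)) / Fintype.card (X i)) atTop (𝓝 ℓ) := by
    intro χ
    by_cases hex : ∃ (X : ℕ → Type) (_ : ∀ i, Fintype (X i)) (_ : ∀ i, Nonempty (X i))
        (_ : ∀ i, MulAction G (X i)), CharTo χ X ∧ Small Λ X
    · obtain ⟨X₀, _, _, _, hχ₀, hY₀⟩ := hex
      obtain ⟨ℓ, hℓ⟩ := lim_exists (fun i => Real.log (dt u_lump Λ B (X₀ i)) / Fintype.card (X₀ i))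
        (fun ε hε => by
          obtain ⟨β, hβ⟩ := near_const hm Λ B p hp hB χ ε hε
          exact ⟨β, hβ X₀ hχ₀ hY₀⟩)
      refine ⟨ℓ, fun X _ _ _ hχ hY => ?_⟩
      rw [Metric.tendsto_atTop]
      intro ε hε
      obtain ⟨β, hβ⟩ := near_const hm Λ B p hp hB χ (ε / 4) (by linarith)
      have h1 : |ℓ - β| ≤ ε / 4 := by
        have h2 : Tendsto (fun i => |Real.log (dt u_lump Λ B (X₀ i)) / Fintype.card (X₀ i) - β|) atTop
            (𝓝 |ℓ - β|) := (hℓ.sub_const β).abs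
        exact le_of_tendsto h2 (hβ X₀ hχ₀ hY₀)
      obtain ⟨N, hN⟩ := eventually_atTop.mp (hβ X hχ hY)
      refine ⟨N, fun i hi => ?_⟩
      have h3 := hN i hi
      rw [Real.dist_eq]
      rw [abs_le] at h1 h3
      rw [abs_lt]
      constructor <;> linarith [h1.1, h1.2, h3.1, h3.2]
    · exact ⟨0, fun X _ _ _ hχ hY => absurd ⟨X, inferInstance, inferInstance, inferInstance, hχ, hY⟩ hex⟩
  choose L hL using key
  exact ⟨L, fun χ X _ _ _ hχ hY => hL χ X hχ hY⟩

end Pool.Agent.D0H83.AC
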