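import Pool.Agent.D0H83.AC.Chr1

set_option autoImplicit false

/-! # Project AC, fifth part: the alternating sum along sequences with convergent characters -/

namespace Pool.Agent.D0H83.AC

open Matrix Finset Filter Topology Pool.Agent.Q181.TG Pool.Agent.Helper993.FK Pool.Agent.TH630.Tor
open Pool.Agent.TH630.Tor.FreeCx (lapM laplacian_eq)

attribute [-instance] Pool.Agent.D0H8.AC.instFx

variable {G : Type} [Group G] {r : ℕ}

open Classical in
theorem so_le (Λ : Subgroup G) (ε : ℝ) (hε : 0 < ε) (X : Type) [Fintype X] [MulAction G X] :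
    0 ≤ so Λ X ∧ so Λ X ≤ ε * Fintype.card X + |Real.log ε| * yo Λ X := by
  have hfinY : Fintype (MulAction.orbitRel.Quotient Λ X) := Fintype.ofFinite _
  set C : ℝ := |Real.log ε| with hC
  have hC0 : 0 ≤ C := abs_nonneg _
  have hlog : ∀ l : ℕ, Real.log l ≤ ε * l + C := by
    intro l
    rcases Nat.eq_zero_or_pos l with h0 | h0
    · subst h0
      simp [hC0]
    · have hl : (0 : ℝ) < l := by exact_mod_cast h0
      have h1 := Real.log_le_sub_one_of_pos (show 0 < ε * l by positivity)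
      rw [Real.log_mul (by positivity) hl.ne'] at h1
      have h2 := neg_abs_le (Real.log ε)
      rw [← hC] at h2
      linarith
  rw [so_eq]
  refine ⟨Finset.sum_nonneg fun b _ => Real.log_natCast_nonneg _, ?_⟩
  have h0 : (Fintype.card X : ℝ) = ∑ b : MulAction.orbitRel.Quotient Λ X,
      (#{x : X | ob Λ X x = b} : ℝ) := by
    have := card_eq_sum_card_fiberwise (s := (univ : Finset X))
      (t := (univ : Finset (MulAction.orbitRel.Quotient Λ X))) (f := ob Λ X)
      (fun x _ => mem_coe.2 (mem_univ _))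
    rw [card_univ] at this
    exact_mod_cast this
  calc ∑ b : MulAction.orbitRel.Quotient Λ X, Real.log (#{x : X | ob Λ X x = b})
      ≤ ∑ b : MulAction.orbitRel.Quotient Λ X,
        (ε * (#{x : X | ob Λ X x = b} : ℝ) + C) := sum_le_sum fun b _ => hlog _
    _ = _ := by
      rw [sum_add_distrib, ← mul_sum, ← h0, sum_const, card_univ, nsmul_eq_mul]
      unfold yo
      rw [Nat.card_eq_fintype_card]
      ring

theorem small_so (Λ : Subgroup G) (X : ℕ → Type) [∀ i, Fintype (X i)] [∀ i, Nonempty (X i)]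
    [∀ i, MulAction G (X i)] (hY : Small Λ X) :
    Tendsto (fun i => so Λ (X i) / Fintype.card (X i)) atTop (𝓝 0) := by
  rw [Metric.tendsto_atTop]
  intro ε hε
  have h1 : Tendsto (fun i => |Real.log (ε / 2)| * (yo Λ (X i) / Fintype.card (X i))) atTop (𝓝 0) := by
    simpa using hY.const_mul (|Real.log (ε / 2)|)
  obtain ⟨N, hN⟩ := eventually_atTop.mp (h1.eventually_lt_const (show (0 : ℝ) < ε / 2 by linarith))
  refine ⟨N, fun i hi => ?_⟩
  have hX : (0 : ℝ) < Fintype.card (X i) := by exact_mod_cast Fintype.card_pos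
  obtain ⟨h2, h3⟩ := so_le Λ (ε / 2) (by linarith) (X i)
  rw [Real.dist_eq, sub_zero, abs_of_nonneg (div_nonneg h2 hX.le)]
  have h4 := div_le_div_of_nonneg_right h3 hX.le
  rw [add_div, mul_div_assoc, mul_div_assoc, div_self hX.ne', mul_one] at h4
  have h5 := hN i hi
  linarith

theorem comp_char (Λ : Subgroup G) [Λ.Normal] (C : FreeCx G) (n : ℕ) (X : ℕ → Type)
    [∀ i, Fintype (X i)] [∀ i, Nonempty (X i)] [∀ i, MulAction G (X i)] (hY : Small Λ X) :
    Tendsto (fun i => (Real.log (torsHn C n (X i)) - wo Λ C n (X i)) / Fintype.card (X i)) atTop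
      (𝓝 0) := by
  obtain ⟨c, hc, h⟩ := comp_wo Λ C n
  have h1 := (small_so Λ X hY).const_mul (-(C.rank (n + 1) : ℝ))
  have h2 : Tendsto (fun i => c * (yo Λ (X i) / Fintype.card (X i))) atTop (𝓝 (c * 0)) := hY.const_mul c
  rw [mul_zero] at h1 h2
  refine tendsto_of_tendsto_of_tendsto_of_le_of_le h1 h2 (fun i => ?_) (fun i => ?_)
  · have hX : (0 : ℝ) < Fintype.card (X i) := by exact_mod_cast Fintype.card_pos
    have h3 := div_le_div_of_nonneg_right (h (X i)).1 hX.le
    refine le_trans (le_of_eq ?_) h3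
    ring
  · have hX : (0 : ℝ) < Fintype.card (X i) := by exact_mod_cast Fintype.card_pos
    have h3 := div_le_div_of_nonneg_right (h (X i)).2 hX.le
    refine le_trans h3 (le_of_eq ?_)
    ring

/-- **The limit of the alternating sum exists and depends only on the limit of the characters.** -/
theorem alt_char (hm : Mods) (Λ : Subgroup G) [Λ.Normal] (C : FreeCx G) (hC : NullDominated Λ C) :
    ∃ L : (G → ℝ) → ℝ, ∀ (χ : G → ℝ) (X : ℕ → Type) [∀ i, Fintype (X i)] [∀ i, Nonempty (X i)]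
      [∀ i, MulAction G (X i)], CharTo χ X → Small Λ X →
      Tendsto (fun i => (∑ n ∈ range (C.dim + 1), (-1 : ℝ) ^ n * Real.log (torsHn C n (X i))) /
        Fintype.card (X i)) atTop (𝓝 (L χ)) := by
  classical
  have hd := fun n => dt_char hm Λ (C.lapM n) 4 (by norm_num) (flow_lap Λ C hC n)
  choose hpos L hL using hd
  refine ⟨fun χ => -(1 / 2) * ∑ n ∈ range (C.dim + 1), ((-1 : ℝ) ^ n * n) * L n χ,
    fun χ X _ _ _ hχ hY => ?_⟩
  have h1 : Tendsto (fun i => ∑ n ∈ range (C.dim + 1), (-1 : ℝ) ^ n *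
      ((Real.log (torsHn C n (X i)) - wo Λ C n (X i)) / Fintype.card (X i))) atTop
      (𝓝 (∑ n ∈ range (C.dim + 1), (-1 : ℝ) ^ n * 0)) :=
    tendsto_finsetSum _ fun n _ => (comp_char Λ C n X hY).const_mul _
  have h2 : Tendsto (fun i => ∑ n ∈ range (C.dim + 1), ((-1 : ℝ) ^ n * n) *
      (Real.log (dt u_lump Λ (C.lapM n) (X i)) / Fintype.card (X i))) atTop
      (𝓝 (∑ n ∈ range (C.dim + 1), ((-1 : ℝ) ^ n * n) * L n χ)) :=
    tendsto_finsetSum _ fun n _ => (hL n χ X hχ hY).const_mul _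
  have h3 := (small_so Λ X hY).const_mul (-((1 / 2) * ∑ n ∈ range (C.dim + 1), (-1 : ℝ) ^ n * C.rank n))
  have h4 := (h1.add (h2.const_mul (-(1 / 2)))).add h3
  simp only [mul_zero, Finset.sum_const_zero, zero_add, add_zero] at h4
  refine h4.congr fun i => ?_
  have hfinY : Fintype (MulAction.orbitRel.Quotient Λ (X i)) := Fintype.ofFinite _
  have hX : (0 : ℝ) < Fintype.card (X i) := by exact_mod_cast Fintype.card_pos
  have key := level2 t_fa u_red Λ C (X i) Quotient.out (fun b => Quotient.out_eq b)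
    (fun n => hpos n (X i))
  have e2 : (∑ n ∈ range (C.dim + 1), (-1 : ℝ) ^ n * Real.log (torsHn C n (X i))) =
      (∑ n ∈ range (C.dim + 1), (-1 : ℝ) ^ n * (Real.log (torsHn C n (X i)) - wo Λ C n (X i))) +
      ∑ n ∈ range (C.dim + 1), (-1 : ℝ) ^ n * wo Λ C n (X i) := by
    rw [← Finset.sum_add_distrib]
    refine Finset.sum_congr rfl fun n _ => ?_
    ring
  have e3 : ∑ n ∈ range (C.dim + 1), (-1 : ℝ) ^ n *
      ((Real.log (torsHn C n (X i)) - wo Λ C n (X i)) / Fintype.card (X i)) =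
      (∑ n ∈ range (C.dim + 1), (-1 : ℝ) ^ n *
        (Real.log (torsHn C n (X i)) - wo Λ C n (X i))) / Fintype.card (X i) := by
    rw [Finset.sum_div]
    refine Finset.sum_congr rfl fun n _ => ?_
    ring
  have e4 : ∑ n ∈ range (C.dim + 1), ((-1 : ℝ) ^ n * n) *
      (Real.log (dt u_lump Λ (C.lapM n) (X i)) / Fintype.card (X i)) =
      (∑ n ∈ range (C.dim + 1), ((-1 : ℝ) ^ n * n) *
        Real.log (dt u_lump Λ (C.lapM n) (X i))) / Fintype.card (X i) := by
    rw [Finset.sum_div]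
    refine Finset.sum_congr rfl fun n _ => ?_
    ring
  rw [e2, e3, e4]
  unfold wo at *
  rw [key, so_eq]
  ring

end Pool.Agent.D0H83.AC
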