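import Pool.Agent.D0H83.AC.Chr2

set_option autoImplicit false

/-! # Project AC, fifth part: chains of subgroups -/

namespace Pool.Agent.D0H83.AC

open Matrix Finset Filter Topology Pool.Agent.Q181.TG Pool.Agent.Helper993.FK Pool.Agent.TH630.Tor
open Pool.Agent.TH630.Tor.FreeCx (lapM laplacian_eq)

attribute [-instance] Pool.Agent.D0H8.AC.instFx

variable {G : Type} [Group G] {r : ℕ}

/-- the proportion of the fixed points decreases -/
theorem fr_le {H' H : Subgroup G} (h : H' ≤ H) [Fintype (G ⧸ H')] [Fintype (G ⧸ H)] (g : G) :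
    fr g (G ⧸ H') ≤ fr g (G ⧸ H) := by
  classical
  set e := Subgroup.quotientEquivProdOfLE h with hed
  have he : ∀ a : G, (e (QuotientGroup.mk a)).1 = QuotientGroup.mk a := fun a => rfl
  have heq : ∀ x : G ⧸ H', (e (g • x)).1 = g • (e x).1 := by
    intro x
    induction x using QuotientGroup.induction_on with
    | H a => rfl
  have hfinP : Finite ((G ⧸ H) × (H ⧸ H'.subgroupOf H)) := Finite.of_equiv _ e
  have hfinK : Finite (H ⧸ H'.subgroupOf H) := Finite.prod_right (G ⧸ H)
  have hfin : Fintype (H ⧸ H'.subgroupOf H) := Fintype.ofFinite _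
  have h1 : (Fintype.card (G ⧸ H') : ℝ) = Fintype.card (G ⧸ H) * Fintype.card (H ⧸ H'.subgroupOf H) := by
    rw [Fintype.card_congr e, Fintype.card_prod]
    push_cast
    rfl
  have h2 : Nat.card {x : G ⧸ H' // g • x = x} ≤
      Nat.card {x : G ⧸ H // g • x = x} * Fintype.card (H ⧸ H'.subgroupOf H) := by
    rw [← Nat.card_eq_fintype_card (α := H ⧸ H'.subgroupOf H), ← Nat.card_prod]
    have hx : ∀ x : {x : G ⧸ H' // g • x = x}, g • (e x.1).1 = (e x.1).1 := by
      intro x
      rw [← heq, x.2]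
    refine Nat.card_le_card_of_injective
      (fun x : {x : G ⧸ H' // g • x = x} =>
        ((⟨(e x.1).1, hx x⟩, (e x.1).2) : {x : G ⧸ H // g • x = x} × (H ⧸ H'.subgroupOf H))) ?_
    intro x y hxy
    have h3 := congrArg Prod.fst hxy
    have h4 := congrArg Prod.snd hxy
    have h5 : (e x.1).1 = (e y.1).1 := congrArg Subtype.val h3
    exact Subtype.ext (e.injective (Prod.ext h5 h4))
  have h2' : (Nat.card {x : G ⧸ H' // g • x = x} : ℝ) ≤
      Nat.card {x : G ⧸ H // g • x = x} * Fintype.card (H ⧸ H'.subgroupOf H) := by exact_mod_cast h2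
  have hH : (0 : ℝ) < Fintype.card (G ⧸ H) := by
    have : 0 < Fintype.card (G ⧸ H) := Fintype.card_pos_iff.mpr ⟨QuotientGroup.mk 1⟩
    exact_mod_cast this
  have hK : (0 : ℝ) < Fintype.card (H ⧸ H'.subgroupOf H) := by
    have : 0 < Fintype.card (H ⧸ H'.subgroupOf H) := Fintype.card_pos_iff.mpr ⟨QuotientGroup.mk 1⟩
    exact_mod_cast this
  unfold fr
  rw [h1, div_le_div_iff₀ (mul_pos hH hK) hH]
  nlinarith

/-- the characters of a decreasing sequence of subgroups converge -/
theorem char_chain (H : ℕ → Subgroup G) [∀ i, Fintype (G ⧸ H i)] (hanti : Antitone H) :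
    CharTo (fun g : G => ⨅ i, fr g (G ⧸ H i)) (fun i => G ⧸ H i) := by
  intro g
  refine tendsto_atTop_ciInf (fun i j hij => fr_le (hanti hij) g) ⟨0, ?_⟩
  rintro _ ⟨i, rfl⟩
  exact div_nonneg (Nat.cast_nonneg _) (Nat.cast_nonneg _)

/-- the size of the orbits -/
theorem orbit_card (Λ : Subgroup G) [Λ.Normal] (H : Subgroup G) (x : G ⧸ H) :
    (MulAction.orbit Λ x).ncard = H.relIndex Λ := by
  induction x using QuotientGroup.induction_on with
  | H g =>
    rw [← MulAction.index_stabilizer]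
    have h1 : MulAction.stabilizer Λ (QuotientGroup.mk g : G ⧸ H) =
        (H.subgroupOf Λ).comap (MulAut.conjNormal g⁻¹ : Λ ≃* Λ).toMonoidHom := by
      ext l
      rw [MulAction.mem_stabilizer_iff, Subgroup.mem_comap, Subgroup.mem_subgroupOf]
      have e1 : l • (QuotientGroup.mk g : G ⧸ H) = QuotientGroup.mk ((l : G) * g) := rfl
      have e2 : (((MulAut.conjNormal g⁻¹ : Λ ≃* Λ).toMonoidHom l : Λ) : G) = g⁻¹ * l * g := by
        change ((MulAut.conjNormal g⁻¹ l : Λ) : G) = g⁻¹ * l * g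
        rw [MulAut.conjNormal_apply, inv_inv]
      rw [e1, e2, eq_comm, QuotientGroup.eq, mul_assoc]
    rw [h1, Subgroup.index_comap_of_surjective]
    · rfl
    · exact (MulAut.conjNormal g⁻¹ : Λ ≃* Λ).surjective

open Classical in
theorem yo_card (Λ : Subgroup G) [Λ.Normal] (H : Subgroup G) [Fintype (G ⧸ H)] :
    (Fintype.card (G ⧸ H) : ℝ) = yo Λ (G ⧸ H) * H.relIndex Λ := by
  have h0 : (Fintype.card (G ⧸ H) : ℝ) = ∑ b : MulAction.orbitRel.Quotient Λ (G ⧸ H),
      (#{x : G ⧸ H | ob Λ (G ⧸ H) x = b} : ℝ) := by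
    have := card_eq_sum_card_fiberwise (s := (univ : Finset (G ⧸ H)))
      (t := (univ : Finset (MulAction.orbitRel.Quotient Λ (G ⧸ H)))) (f := ob Λ (G ⧸ H))
      (fun x _ => mem_coe.2 (mem_univ _))
    rw [card_univ] at this
    exact_mod_cast this
  rw [h0]
  have h1 : ∀ b : MulAction.orbitRel.Quotient Λ (G ⧸ H),
      (#{x : G ⧸ H | ob Λ (G ⧸ H) x = b} : ℝ) = H.relIndex Λ := by
    intro b
    obtain ⟨x, hx⟩ := Quotient.exists_rep b
    rw [← orbit_card Λ H x]
    norm_cast
    rw [← Set.ncard_coe_finset]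
    congr 1
    ext y
    rw [Finset.coe_filter, Set.mem_ofPred_eq, ← MulAction.orbitRel_apply]
    constructor
    · rintro ⟨-, hy⟩
      rw [← hx] at hy
      exact Quotient.exact hy
    · intro hy
      refine ⟨mem_univ _, ?_⟩
      rw [← hx]
      exact Quotient.sound hy
  rw [sum_congr rfl fun b _ => h1 b, sum_const, card_univ, nsmul_eq_mul, ← Nat.card_eq_fintype_card]
  rfl

/-- large relative index: few orbits -/
theorem small_chain (Λ : Subgroup G) [Λ.Normal] (H : ℕ → Subgroup G) [∀ i, Fintype (G ⧸ H i)]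
    (h : Tendsto (fun i => (H i).relIndex Λ) atTop atTop) : Small Λ (fun i => G ⧸ H i) := by
  have h1 : Tendsto (fun i => ((H i).relIndex Λ : ℝ)⁻¹) atTop (𝓝 0) :=
    tendsto_inv_atTop_zero.comp (tendsto_natCast_atTop_atTop.comp h)
  unfold Small
  refine h1.congr fun i => ?_
  have hc := yo_card Λ (H i)
  have hX : (0 : ℝ) < Fintype.card (G ⧸ H i) := by
    have : 0 < Fintype.card (G ⧸ H i) := Fintype.card_pos_iff.mpr ⟨QuotientGroup.mk 1⟩
    exact_mod_cast this
  have hy : yo Λ (G ⧸ H i) ≠ 0 := by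
    intro h0
    rw [h0, zero_mul] at hc
    exact hX.ne' hc
  rw [hc, ← div_div, div_self hy, one_div]

/-- sequences which converge to the free action -/
theorem char_far (X : ℕ → Type) [∀ i, Fintype (X i)] [∀ i, Nonempty (X i)] [∀ i, MulAction G (X i)]
    (hX : Far G X) [DecidableEq G] : CharTo (fun g : G => if g = 1 then (1 : ℝ) else 0) X := by
  intro g
  beta_reduce
  by_cases hg : g = 1
  · subst hg
    rw [if_pos rfl]
    refine tendsto_const_nhds.congr fun i => ?_
    have hX : (0 : ℝ) < Fintype.card (X i) := by exact_mod_cast Fintype.card_pos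
    have : Nat.card {x : X i // (1 : G) • x = x} = Fintype.card (X i) := by
      rw [← Nat.card_eq_fintype_card]
      exact Nat.card_congr (Equiv.subtypeUnivEquiv fun x => one_smul G x)
    unfold fr
    rw [this, div_self hX.ne']
  · rw [if_neg hg]
    have h1 := hX g hg
    refine h1.congr fun i => ?_
    unfold fr
    rw [Nat.card_eq_fintype_card (α := X i)]

theorem small_far (Λ : Subgroup G) [Infinite Λ] (X : ℕ → Type) [∀ i, Fintype (X i)]
    [∀ i, Nonempty (X i)] [∀ i, MulAction G (X i)] (hX : Far G X) : Small Λ X := by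
  have hfinY : ∀ n, Fintype (MulAction.orbitRel.Quotient Λ (X n)) := fun n => Fintype.ofFinite _
  obtain ⟨hy, -⟩ := Pool.Agent.D0H25.AC.t_far G Λ X hX
  unfold Small yo
  simp only [Nat.card_eq_fintype_card]
  exact hy

end Pool.Agent.D0H83.AC
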