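import Pool.Agent.D0H83.AC.Chr3

set_option autoImplicit false

/-! # Project AC, fifth part: the normalised torsion is determined by finitely many proportions of fixed points -/

namespace Pool.Agent.D0H83.AC

open Matrix Finset Filter Topology Pool.Agent.Q181.TG Pool.Agent.Helper993.FK Pool.Agent.TH630.Tor
open Pool.Agent.TH630.Tor.FreeCx (lapM laplacian_eq)

attribute [-instance] Pool.Agent.D0H8.AC.instFx

variable {G : Type} [Group G] {r : ℕ}

open Classical in
theorem tch_lip (B : Matrix (Fin r) (Fin r) (MonoidAlgebra ℤ G)) (q : Polynomial ℝ) :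
    ∃ (F : Finset G) (A : ℝ), 0 ≤ A ∧ ∀ (χ χ' : G → ℝ) (δ : ℝ), 0 ≤ δ →
      (∀ g ∈ F, |χ g - χ' g| ≤ δ) → |tch B q χ - tch B q χ'| ≤ A * δ := by
  refine ⟨(range (q.natDegree + 1)).biUnion fun k => univ.biUnion fun i => ((B ^ k) i i).coeff.support,
    ∑ k ∈ range (q.natDegree + 1), |q.coeff k| * ∑ i, ∑ h ∈ ((B ^ k) i i).coeff.support,
      |(((B ^ k) i i).coeff h : ℝ)|, by positivity, fun χ χ' δ hδ h => ?_⟩
  unfold tch
  rw [← sum_sub_distrib, sum_mul]
  refine (abs_sum_le_sum_abs _ _).trans (sum_le_sum fun k hk => ?_)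
  rw [← mul_sub, abs_mul, mul_assoc]
  refine mul_le_mul_of_nonneg_left ?_ (abs_nonneg _)
  rw [← sum_sub_distrib, sum_mul]
  refine (abs_sum_le_sum_abs _ _).trans (sum_le_sum fun i hi => ?_)
  rw [← sum_sub_distrib, sum_mul]
  refine (abs_sum_le_sum_abs _ _).trans (sum_le_sum fun g hg => ?_)
  rw [← mul_sub, abs_mul]
  refine mul_le_mul_of_nonneg_left (h g ?_) (abs_nonneg _)
  exact mem_biUnion.mpr ⟨k, hk, mem_biUnion.mpr ⟨i, hi, hg⟩⟩

/-- the sets `X` and `Y` are close -/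
def Near (Λ : Subgroup G) (F : Finset G) (δ : ℝ) (X Y : Type) [Fintype X] [MulAction G X] [Fintype Y]
    [MulAction G Y] : Prop :=
  (∀ g ∈ F, |fr g X - fr g Y| ≤ δ) ∧ yo Λ X ≤ δ * Fintype.card X ∧ yo Λ Y ≤ δ * Fintype.card Y

/-- the quantity `a`, divided by the number of the points, is nearly determined by finitely many proportions
of fixed points -/
def Unif (Λ : Subgroup G) (a : (X : Type) → [Fintype X] → [MulAction G X] → ℝ) : Prop :=
  ∀ ε : ℝ, 0 < ε → ∃ (F : Finset G) (δ : ℝ), 0 < δ ∧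
    ∀ (X Y : Type) [Fintype X] [Nonempty X] [MulAction G X] [Fintype Y] [Nonempty Y] [MulAction G Y],
      Near Λ F δ X Y → |a X / Fintype.card X - a Y / Fintype.card Y| ≤ ε

theorem Near.mono {Λ : Subgroup G} {F F' : Finset G} {δ δ' : ℝ} {X Y : Type} [Fintype X] [MulAction G X]
    [Fintype Y] [MulAction G Y] (h : Near Λ F δ X Y) (hF : F' ⊆ F) (hδ : δ ≤ δ') : Near Λ F' δ' X Y :=
  ⟨fun g hg => (h.1 g (hF hg)).trans hδ,
    h.2.1.trans (mul_le_mul_of_nonneg_right hδ (Nat.cast_nonneg _)),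
    h.2.2.trans (mul_le_mul_of_nonneg_right hδ (Nat.cast_nonneg _))⟩

open Classical in
theorem Unif.add {Λ : Subgroup G} {a b : (X : Type) → [Fintype X] → [MulAction G X] → ℝ} (ha : Unif Λ a)
    (hb : Unif Λ b) : Unif Λ (fun X => a X + b X) := by
  intro ε hε
  obtain ⟨F, δ, hδ, h⟩ := ha (ε / 2) (by linarith)
  obtain ⟨F', δ', hδ', h'⟩ := hb (ε / 2) (by linarith)
  refine ⟨F ∪ F', min δ δ', lt_min hδ hδ', fun X Y _ _ _ _ _ _ hn => ?_⟩
  have h1 := abs_le.mp (h X Y (hn.mono subset_union_left (min_le_left _ _)))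
  have h2 := abs_le.mp (h' X Y (hn.mono subset_union_right (min_le_right _ _)))
  rw [add_div, add_div, abs_le]
  constructor <;> linarith [h1.1, h1.2, h2.1, h2.2]

theorem Unif.smul {Λ : Subgroup G} {a : (X : Type) → [Fintype X] → [MulAction G X] → ℝ} (ha : Unif Λ a)
    (c : ℝ) : Unif Λ (fun X => c * a X) := by
  intro ε hε
  obtain ⟨F, δ, hδ, h⟩ := ha (ε / (|c| + 1)) (by positivity)
  refine ⟨F, δ, hδ, fun X Y _ _ _ _ _ _ hn => ?_⟩
  have h1 := h X Y hn
  rw [mul_div_assoc, mul_div_assoc, ← mul_sub, abs_mul]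
  calc |c| * |a X / Fintype.card X - a Y / Fintype.card Y| ≤ (|c| + 1) * (ε / (|c| + 1)) :=
        mul_le_mul (by linarith) h1 (abs_nonneg _) (by positivity)
    _ = ε := by field_simp

theorem Unif.zero (Λ : Subgroup G) : Unif Λ (fun _ => 0) := by
  intro ε hε
  refine ⟨∅, 1, one_pos, fun X Y _ _ _ _ _ _ _ => ?_⟩
  simpa using hε.le

theorem Unif.sum {Λ : Subgroup G} {ι : Type} (s : Finset ι)
    {a : ι → (X : Type) → [Fintype X] → [MulAction G X] → ℝ} (ha : ∀ i ∈ s, Unif Λ (a i)) :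
    Unif Λ (fun X => ∑ i ∈ s, a i X) := by
  classical
  induction s using Finset.induction_on with
  | empty =>
    simp only [Finset.sum_empty]
    exact Unif.zero Λ
  | insert i s hi ih =>
    simp only [Finset.sum_insert hi]
    exact (ha i (Finset.mem_insert_self _ _)).add
      (ih fun j hj => ha j (Finset.mem_insert_of_mem hj))

/-- small quantities -/
theorem Unif.small {Λ : Subgroup G} {a : (X : Type) → [Fintype X] → [MulAction G X] → ℝ}
    (h : ∀ ε : ℝ, 0 < ε → ∃ K : ℝ, 0 ≤ K ∧ ∀ (X : Type) [Fintype X] [MulAction G X],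
      |a X| ≤ ε * Fintype.card X + K * yo Λ X) : Unif Λ a := by
  intro ε hε
  obtain ⟨K, hK, h1⟩ := h (ε / 4) (by linarith)
  refine ⟨∅, ε / 4 / (K + 1), by positivity, fun X Y _ _ _ _ _ _ hn => ?_⟩
  have key : ∀ (Z : Type) [Fintype Z] [Nonempty Z] [MulAction G Z],
      yo Λ Z ≤ ε / 4 / (K + 1) * Fintype.card Z → |a Z / Fintype.card Z| ≤ ε / 2 := by
    intro Z _ _ _ hZ
    have hZ0 : (0 : ℝ) < Fintype.card Z := by exact_mod_cast Fintype.card_pos
    rw [abs_div, abs_of_pos hZ0, div_le_iff₀ hZ0]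
    have hK1 : K * (ε / 4 / (K + 1)) ≤ ε / 4 := by
      rw [mul_div_assoc', div_le_iff₀ (by positivity)]
      nlinarith
    calc |a Z| ≤ ε / 4 * Fintype.card Z + K * yo Λ Z := h1 Z
      _ ≤ ε / 4 * Fintype.card Z + K * (ε / 4 / (K + 1) * Fintype.card Z) := by
          have := mul_le_mul_of_nonneg_left hZ hK
          linarith
      _ = ε / 4 * Fintype.card Z + K * (ε / 4 / (K + 1)) * Fintype.card Z := by ring
      _ ≤ ε / 4 * Fintype.card Z + ε / 4 * Fintype.card Z := by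
          have := mul_le_mul_of_nonneg_right hK1 hZ0.le
          linarith
      _ = ε / 2 * Fintype.card Z := by ring
  have h2 := abs_le.mp (key X hn.2.1)
  have h3 := abs_le.mp (key Y hn.2.2)
  rw [abs_le]
  constructor <;> linarith [h2.1, h2.2, h3.1, h3.2]

theorem Unif.congr {Λ : Subgroup G} {a b : (X : Type) → [Fintype X] → [MulAction G X] → ℝ} (ha : Unif Λ a)
    (h : ∀ (X : Type) [Fintype X] [MulAction G X], a X = b X) : Unif Λ b := by
  intro ε hε
  obtain ⟨F, δ, hδ, h1⟩ := ha ε hε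
  refine ⟨F, δ, hδ, fun X Y _ _ _ _ _ _ hn => ?_⟩
  rw [← h X, ← h Y]
  exact h1 X Y hn

theorem unif_so (Λ : Subgroup G) : Unif Λ (fun X => so Λ X) := by
  refine Unif.small fun ε hε => ⟨|Real.log ε|, abs_nonneg _, fun X _ _ => ?_⟩
  obtain ⟨h1, h2⟩ := so_le Λ ε hε X
  rwa [abs_of_nonneg h1]

theorem unif_comp (Λ : Subgroup G) [Λ.Normal] (C : FreeCx G) (n : ℕ) :
    Unif Λ (fun X => Real.log (torsHn C n X) - wo Λ C n X) := by
  obtain ⟨c, hc, h⟩ := comp_wo Λ C n
  refine Unif.small fun ε hε => ?_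
  set ρ : ℝ := ((C.rank (n + 1) : ℕ) : ℝ) with hρ
  have hρ0 : 0 ≤ ρ := Nat.cast_nonneg _
  refine ⟨c + ρ * |Real.log (ε / (ρ + 1))|, by positivity, fun X _ _ => ?_⟩
  have hX : (0 : ℝ) ≤ Fintype.card X := Nat.cast_nonneg _
  have hy : 0 ≤ yo Λ X := Nat.cast_nonneg _
  obtain ⟨h1, h2⟩ := so_le Λ (ε / (ρ + 1)) (by positivity) X
  obtain ⟨h3, h4⟩ := h X
  have h5 : ρ * so Λ X ≤ ε * Fintype.card X + ρ * |Real.log (ε / (ρ + 1))| * yo Λ X := by
    have e1 : ρ * (ε / (ρ + 1)) ≤ ε := by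
      rw [mul_div_assoc', div_le_iff₀ (by positivity)]
      nlinarith
    calc ρ * so Λ X ≤ ρ * (ε / (ρ + 1) * Fintype.card X + |Real.log (ε / (ρ + 1))| * yo Λ X) :=
          mul_le_mul_of_nonneg_left h2 hρ0
      _ = ρ * (ε / (ρ + 1)) * Fintype.card X + ρ * |Real.log (ε / (ρ + 1))| * yo Λ X := by ring
      _ ≤ _ := by
          have := mul_le_mul_of_nonneg_right e1 hX
          linarith
  have h6 : 0 ≤ ρ * |Real.log (ε / (ρ + 1))| * yo Λ X := by positivity
  have h7 : 0 ≤ ε * Fintype.card X := by positivity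
  have h8 : 0 ≤ c * yo Λ X := by positivity
  rw [abs_le]
  constructor <;> linarith

open Classical in
theorem unif_dt (hm : Mods) (Λ : Subgroup G) [Λ.Normal]
    (B : Matrix (Fin r) (Fin r) (MonoidAlgebra ℤ G)) (p : ℕ) (hp : 2 ≤ p) (hB : FLow Λ p B) :
    Unif Λ (fun X => Real.log (dt u_lump Λ B X)) := by
  intro ε hε
  obtain ⟨M₁, K0, hM₁, hK0, h⟩ := eff_tr hm Λ B p hp hB
  have hp0 : (0 : ℝ) < p := by positivity
  have hlim : Tendsto (fun M : ℕ => K0 * (Real.log M / M) ^ (2 / (p : ℝ))) atTop (𝓝 0) := by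
    have h1 := (tendsto_log_div.rpow_const (p := 2 / (p : ℝ)) (Or.inr (by positivity))).const_mul K0
    rwa [Real.zero_rpow (by positivity), mul_zero] at h1
  obtain ⟨M, hM, hMe⟩ := ((eventually_ge_atTop M₁).and
    (hlim.eventually_le_const (show (0 : ℝ) < ε / 6 by linarith))).exists
  obtain ⟨q, hq⟩ := h M hM
  obtain ⟨F, A, hA, hF⟩ := tch_lip B q
  have hlog : 0 ≤ Real.log M := Real.log_natCast_nonneg _
  set δ₁ : ℝ := ε / 6 / (K0 * Real.log M + 1) with hδ₁
  set δ₂ : ℝ := ε / 3 / (A + 1) with hδ₂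
  have hδ₁0 : 0 < δ₁ := by positivity
  have hδ₂0 : 0 < δ₂ := by positivity
  refine ⟨F, min δ₁ δ₂, lt_min hδ₁0 hδ₂0, fun X Y _ _ _ _ _ _ hn => ?_⟩
  have e1 : K0 * Real.log M * δ₁ ≤ ε / 6 := by
    rw [hδ₁, mul_div_assoc', div_le_iff₀ (by positivity)]
    nlinarith
  have e2 : A * δ₂ ≤ ε / 3 := by
    rw [hδ₂, mul_div_assoc', div_le_iff₀ (by positivity)]
    nlinarith
  have key : ∀ (Z : Type) [Fintype Z] [Nonempty Z] [MulAction G Z],
      yo Λ Z ≤ δ₁ * Fintype.card Z →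
      |Real.log (dt u_lump Λ B Z) / Fintype.card Z - tch B q (fun g => fr g Z)| ≤ ε / 3 := by
    intro Z _ _ _ hZ
    have hZ0 : (0 : ℝ) < Fintype.card Z := by exact_mod_cast Fintype.card_pos
    rw [← trace_char, ← sub_div, abs_div, abs_of_pos hZ0, div_le_iff₀ hZ0]
    refine (hq Z).2.trans ?_
    calc K0 * (Fintype.card Z * (Real.log M / M) ^ (2 / (p : ℝ)) + Real.log M * yo Λ Z) =
          K0 * (Real.log M / M) ^ (2 / (p : ℝ)) * Fintype.card Z + K0 * Real.log M * yo Λ Z := by ring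
      _ ≤ ε / 6 * Fintype.card Z + K0 * Real.log M * (δ₁ * Fintype.card Z) :=
          add_le_add (mul_le_mul_of_nonneg_right hMe hZ0.le)
            (mul_le_mul_of_nonneg_left hZ (by positivity))
      _ = ε / 6 * Fintype.card Z + K0 * Real.log M * δ₁ * Fintype.card Z := by ring
      _ ≤ ε / 6 * Fintype.card Z + ε / 6 * Fintype.card Z := by
          have := mul_le_mul_of_nonneg_right e1 hZ0.le
          linarith
      _ = ε / 3 * Fintype.card Z := by ring
  have hn1 := hn.mono (le_refl F) (min_le_left δ₁ δ₂)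
  have hn2 := hn.mono (le_refl F) (min_le_right δ₁ δ₂)
  have h1 := abs_le.mp (key X hn1.2.1)
  have h2 := abs_le.mp (key Y hn1.2.2)
  have h3 := abs_le.mp ((hF (fun g => fr g X) (fun g => fr g Y) δ₂ hδ₂0.le hn2.1).trans e2)
  rw [abs_le]
  constructor <;> linarith [h1.1, h1.2, h2.1, h2.2, h3.1, h3.2]

/-- **The alternating sum is nearly determined by finitely many proportions of fixed points.** -/
theorem unif_alt (hm : Mods) (Λ : Subgroup G) [Λ.Normal] (C : FreeCx G) (hC : NullDominated Λ C) :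
    Unif Λ (fun X => ∑ n ∈ range (C.dim + 1), (-1 : ℝ) ^ n * Real.log (torsHn C n X)) := by
  classical
  have hd := fun n => dt_char hm Λ (C.lapM n) 4 (by norm_num) (flow_lap Λ C hC n)
  have h1 : Unif Λ (fun X => ∑ n ∈ range (C.dim + 1),
      (-1 : ℝ) ^ n * (Real.log (torsHn C n X) - wo Λ C n X)) :=
    Unif.sum _ fun n _ => (unif_comp Λ C n).smul _
  have h2 : Unif Λ (fun X => ∑ n ∈ range (C.dim + 1),
      ((-1 : ℝ) ^ n * n) * Real.log (dt u_lump Λ (C.lapM n) X)) :=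
    Unif.sum _ fun n _ => (unif_dt hm Λ (C.lapM n) 4 (by norm_num) (flow_lap Λ C hC n)).smul _
  have h4 := (h1.add (h2.smul (-(1 / 2)))).add
    ((unif_so Λ).smul (-((1 / 2) * ∑ n ∈ range (C.dim + 1), (-1 : ℝ) ^ n * C.rank n)))
  refine h4.congr fun X _ _ => ?_
  have hfinY : Fintype (MulAction.orbitRel.Quotient Λ X) := Fintype.ofFinite _
  have key := level2 t_fa u_red Λ C X Quotient.out (fun b => Quotient.out_eq b) (fun n => (hd n).1 X)
  have e2 : (∑ n ∈ range (C.dim + 1), (-1 : ℝ) ^ n * Real.log (torsHn C n X)) =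
      (∑ n ∈ range (C.dim + 1), (-1 : ℝ) ^ n * (Real.log (torsHn C n X) - wo Λ C n X)) +
      ∑ n ∈ range (C.dim + 1), (-1 : ℝ) ^ n * wo Λ C n X := by
    rw [← Finset.sum_add_distrib]
    refine Finset.sum_congr rfl fun n _ => ?_
    ring
  rw [e2]
  unfold wo at *
  rw [key, so_eq]
  ring

end Pool.Agent.D0H83.AC
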