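import Pool.Agent.D0H83.AC.Chr4

set_option autoImplicit false

/-! # Project AC, fifth part: cokernels of dominated matrices, and single degrees -/

namespace Pool.Agent.D0H83.AC

open Matrix Finset Filter Topology Pool.Agent.Q181.TG Pool.Agent.Helper993.FK Pool.Agent.TH630.Tor
open Pool.Agent.TH630.Tor.FreeCx (lapM laplacian_eq)

attribute [-instance] Pool.Agent.D0H8.AC.instFx

variable {G : Type} [Group G] {r : ℕ}

/-- small in comparison with the number of the points, when there are few orbits -/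
def Sml (Λ : Subgroup G) (a : (X : Type) → [Fintype X] → [MulAction G X] → ℝ) : Prop :=
  ∀ ε : ℝ, 0 < ε → ∃ K : ℝ, 0 ≤ K ∧ ∀ (X : Type) [Fintype X] [MulAction G X],
    |a X| ≤ ε * Fintype.card X + K * yo Λ X

theorem sml_of {Λ : Subgroup G} {a : (X : Type) → [Fintype X] → [MulAction G X] → ℝ} (ρ c : ℝ)
    (hρ0 : 0 ≤ ρ) (hc : 0 ≤ c)
    (h : ∀ (X : Type) [Fintype X] [MulAction G X], -(ρ * so Λ X) ≤ a X ∧ a X ≤ c * yo Λ X + ρ * so Λ X) :
    Sml Λ a := by
  intro ε hε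
  refine ⟨c + ρ * |Real.log (ε / (ρ + 1))|, by positivity, fun X _ _ => ?_⟩
  have hX : (0 : ℝ) ≤ Fintype.card X := Nat.cast_nonneg _
  have hy : 0 ≤ yo Λ X := Nat.cast_nonneg _
  obtain ⟨h1, h2⟩ := so_le Λ (ε / (ρ + 1)) (by positivity) X
  obtain ⟨h3, h4⟩ := h X
  have h5 : ρ * so Λ X ≤ ε * Fintype.card X + ρ * |Real.log (ε / (ρ + 1))| * yo Λ X := by
    have e1 : ρ * (ε / (ρ + 1)) ≤ ε := by
      rw [mul_div_assoc', div_le_iff₀ (by positivity)]
      nlinarith
    calc ρ * so Λ X ≤ ρ * (ε / (ρ + 1) * Fintype.card X + |Real.log (ε / (ρ + 1))| * yo Λ X) :=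
          mul_le_mul_of_nonneg_left h2 hρ0
      _ = ρ * (ε / (ρ + 1)) * Fintype.card X + ρ * |Real.log (ε / (ρ + 1))| * yo Λ X := by ring
      _ ≤ _ := by
          have := mul_le_mul_of_nonneg_right e1 hX
          linarith
  have h6 : 0 ≤ ρ * |Real.log (ε / (ρ + 1))| * yo Λ X := by positivity
  have h7 : 0 ≤ ε * Fintype.card X := by positivity
  have h8 : 0 ≤ c * yo Λ X := by positivity
  rw [abs_le]
  constructor <;> linarith

/-- for few orbits, small quantities are small -/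
theorem Sml.use {Λ : Subgroup G} {a : (X : Type) → [Fintype X] → [MulAction G X] → ℝ} (h : Sml Λ a)
    (ε : ℝ) (hε : 0 < ε) : ∃ δ : ℝ, 0 < δ ∧ ∀ (X : Type) [Fintype X] [Nonempty X] [MulAction G X],
      yo Λ X ≤ δ * Fintype.card X → |a X / Fintype.card X| ≤ ε := by
  obtain ⟨K, hK, h1⟩ := h (ε / 2) (by linarith)
  refine ⟨ε / 2 / (K + 1), by positivity, fun Z _ _ _ hZ => ?_⟩
  have hZ0 : (0 : ℝ) < Fintype.card Z := by exact_mod_cast Fintype.card_pos
  rw [abs_div, abs_of_pos hZ0, div_le_iff₀ hZ0]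
  have hK1 : K * (ε / 2 / (K + 1)) ≤ ε / 2 := by
    rw [mul_div_assoc', div_le_iff₀ (by positivity)]
    nlinarith
  calc |a Z| ≤ ε / 2 * Fintype.card Z + K * yo Λ Z := h1 Z
    _ ≤ ε / 2 * Fintype.card Z + K * (ε / 2 / (K + 1) * Fintype.card Z) := by
        have := mul_le_mul_of_nonneg_left hZ hK
        linarith
    _ = ε / 2 * Fintype.card Z + K * (ε / 2 / (K + 1)) * Fintype.card Z := by ring
    _ ≤ ε / 2 * Fintype.card Z + ε / 2 * Fintype.card Z := by
        have := mul_le_mul_of_nonneg_right hK1 hZ0.le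
        linarith
    _ = ε * Fintype.card Z := by ring

open Classical in
/-- the torsion of the cokernel and the determinant -/
theorem comp_tc (Λ : Subgroup G) [Λ.Normal] (A : Matrix (Fin r) (Fin r) (MonoidAlgebra ℤ G)) :
    ∃ c : ℝ, 0 ≤ c ∧ ∀ (X : Type) [Fintype X] [MulAction G X], 0 < dt u_lump Λ A X →
      -(r * so Λ X) ≤ Real.log (tc (Cok (reg X A))) - Real.log (dt u_lump Λ A X) ∧
      Real.log (tc (Cok (reg X A))) - Real.log (dt u_lump Λ A X) ≤ c * yo Λ X := by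
  obtain ⟨K, hK, hKb⟩ := u_lump.2.2.1 G r r A
  have hK' : (1 : ℝ) ≤ (K : ℝ) := by exact_mod_cast hK
  have hlogK : 0 ≤ Real.log K := Real.log_nonneg hK'
  have hr0 : (0 : ℝ) ≤ r := Nat.cast_nonneg r
  refine ⟨r * Real.log K, by positivity, fun X _ _ hD0 => ?_⟩
  have hfinY : Fintype (MulAction.orbitRel.Quotient Λ X) := Fintype.ofFinite _
  set Y : ℝ := (Fintype.card (MulAction.orbitRel.Quotient Λ X) : ℝ) with hY
  have hyY : yo Λ X = Y := by
    unfold yo
    rw [Nat.card_eq_fintype_card]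
  have hdet : LinearMap.det ((rg X A).vecMulLinear.restrict (u_lump.2.1 G Λ r A X).2) ≠ 0 := by
    intro h0
    unfold dt at hD0
    rw [h0] at hD0
    simp at hD0
  obtain ⟨hD3, hD4⟩ := Pool.Agent.D0H8.AC.t_tor X (MulAction.orbitRel.Quotient Λ X) r (ob Λ X) (reg X A) K
    hK Quotient.mk_surjective (u_lump.2.1 G Λ r A X).1 (hKb X).1 (u_lump.2.1 G Λ r A X).2 hdet
  change (tc (Cok (reg X A)) : ℝ) ≤ dt u_lump Λ A X * _ at hD3
  change dt u_lump Λ A X ≤ _ at hD4
  replace hD4 : dt u_lump Λ A X ≤ tc (Cok (reg X A)) *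
      ∏ b : MulAction.orbitRel.Quotient Λ X, (#{x | ob Λ X x = b} : ℝ) ^ r := by
    refine le_trans hD4 (le_of_eq ?_)
    congr 1
    refine Finset.prod_congr rfl fun b _ => ?_
    congr 3
    ext x
    simp only [Finset.mem_filter]
  have hYpos : ∀ b : MulAction.orbitRel.Quotient Λ X, (0 : ℝ) < (#{x | ob Λ X x = b} : ℝ) := by
    intro b
    obtain ⟨x, hx⟩ := Quotient.mk_surjective b
    have : 0 < #{x | ob Λ X x = b} := Finset.card_pos.mpr ⟨x, by
      rw [Finset.mem_filter]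
      exact ⟨Finset.mem_univ x, hx⟩⟩
    exact_mod_cast this
  have htpos : (0 : ℝ) < tc (Cok (reg X A)) := by
    by_contra hcon
    have h0 : (tc (Cok (reg X A)) : ℝ) = 0 := le_antisymm (not_lt.mp hcon) (Nat.cast_nonneg _)
    rw [h0, zero_mul] at hD4
    exact absurd hD0 (not_lt.mpr hD4)
  have hup : Real.log (tc (Cok (reg X A))) ≤ Real.log (dt u_lump Λ A X) + (r * Real.log K) * Y := by
    have h1 := Real.log_le_log htpos hD3
    rw [Real.log_mul hD0.ne' (by positivity), Real.log_pow] at h1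
    push_cast at h1
    linarith
  have hlo : Real.log (dt u_lump Λ A X) ≤ Real.log (tc (Cok (reg X A))) +
      r * ∑ b : MulAction.orbitRel.Quotient Λ X, Real.log (#{x : X | ob Λ X x = b}) := by
    have h1 := Real.log_le_log hD0 hD4
    rw [Real.log_mul htpos.ne' (Finset.prod_pos fun b _ => pow_pos (hYpos b) r).ne',
      Real.log_prod (fun b _ => (pow_pos (hYpos b) r).ne')] at h1
    simp only [Real.log_pow] at h1
    rw [← Finset.mul_sum] at h1
    exact h1
  rw [so_eq, hyY]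
  constructor <;> linarith

theorem so_nonneg (Λ : Subgroup G) (X : Type) [Fintype X] [MulAction G X] : 0 ≤ so Λ X :=
  (so_le Λ 1 one_pos X).1

theorem yo_nonneg (Λ : Subgroup G) (X : Type) [Fintype X] [MulAction G X] : 0 ≤ yo Λ X :=
  Nat.cast_nonneg _

theorem sml_tc (Λ : Subgroup G) [Λ.Normal] (A : Matrix (Fin r) (Fin r) (MonoidAlgebra ℤ G))
    (hpos : ∀ (X : Type) [Fintype X] [MulAction G X], 0 < dt u_lump Λ A X) :
    Sml Λ (fun X => Real.log (tc (Cok (reg X A))) - Real.log (dt u_lump Λ A X)) := by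
  obtain ⟨c, hc, h⟩ := comp_tc Λ A
  refine sml_of (r : ℝ) c (Nat.cast_nonneg r) hc fun X _ _ => ?_
  obtain ⟨h1, h2⟩ := h X (hpos X)
  have h3 : 0 ≤ (r : ℝ) * so Λ X := mul_nonneg (Nat.cast_nonneg r) (so_nonneg Λ X)
  exact ⟨h1, by linarith⟩

/-- the determinants of matrices which need not be self-adjoint -/
theorem unif_low (hm : Mods) (Λ : Subgroup G) [Λ.Normal]
    (A : Matrix (Fin r) (Fin r) (MonoidAlgebra ℤ G)) (p : ℕ) (hp : 2 ≤ p) (hA : Low Λ p A) :
    (∀ (X : Type) [Fintype X] [MulAction G X], 0 < dt u_lump Λ A X) ∧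
    Unif Λ (fun X => Real.log (tc (Cok (reg X A)))) := by
  have h1 := (dt_char hm Λ (A * adjZ A) p hp (flow_sq Λ p A hA)).1
  have h2 := unif_dt hm Λ (A * adjZ A) p hp (flow_sq Λ p A hA)
  have hd : ∀ (X : Type) [Fintype X] [MulAction G X],
      dt u_lump Λ (A * adjZ A) X = dt u_lump Λ A X * dt u_lump Λ A X := by
    intro X _ _
    rw [dt_mul, dt_adj]
  have hpos : ∀ (X : Type) [Fintype X] [MulAction G X], 0 < dt u_lump Λ A X := by
    intro X _ _
    have h3 := h1 X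
    rw [hd X] at h3
    have h4 : 0 ≤ dt u_lump Λ A X := abs_nonneg _
    rcases eq_or_lt_of_le h4 with h5 | h5
    · rw [← h5] at h3
      simp at h3
    · exact h5
  refine ⟨hpos, ?_⟩
  have h3 : Unif Λ (fun X => Real.log (tc (Cok (reg X A))) - Real.log (dt u_lump Λ A X)) :=
    Unif.small (sml_tc Λ A hpos)
  refine (h3.add (h2.smul (1 / 2))).congr fun X _ _ => ?_
  rw [hd X, Real.log_mul (hpos X).ne' (hpos X).ne']
  ring

/-- **The torsion in one degree is bounded by the one of the cokernel of the chain map.** -/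
theorem deg_bound (hm : Mods) (Λ : Subgroup G) [Λ.Normal] (C : FreeCx G)
    (h : ∀ n, Matrix (Fin (C.rank n)) (Fin (C.rank (n + 1))) (MonoidAlgebra ℤ G))
    (hh : ∀ n, Dominates Λ (homR C h n)) (n : ℕ) :
    ∀ ε : ℝ, 0 < ε → ∃ δ : ℝ, 0 < δ ∧ ∀ (X : Type) [Fintype X] [Nonempty X] [MulAction G X],
      yo Λ X ≤ δ * Fintype.card X → Real.log (torsHn C n X) / Fintype.card X ≤
        Real.log (tc (Cok (reg X (homR C h n)))) / Fintype.card X + ε := by
  have hpos := fun n => (unif_low hm Λ (homR C h n) 4 (by norm_num) (low_dom u_glb u_dom Λ _ (hh n))).1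
  obtain ⟨c, hc, h1⟩ := comp_wo Λ C n
  have hs : Sml Λ (fun X => c * yo Λ X + C.rank n * so Λ X) := by
    refine sml_of (C.rank n : ℝ) c (Nat.cast_nonneg _) hc fun X _ _ => ⟨?_, le_rfl⟩
    have h2 : 0 ≤ (C.rank n : ℝ) * so Λ X := mul_nonneg (Nat.cast_nonneg _) (so_nonneg Λ X)
    have h3 : 0 ≤ c * yo Λ X := mul_nonneg hc (yo_nonneg Λ X)
    linarith
  obtain ⟨c', hc', h2⟩ := comp_tc Λ (homR C h n)
  intro ε hε
  obtain ⟨δ, hδ, h3⟩ := hs.use ε hε
  refine ⟨δ, hδ, fun X _ _ _ hX => ?_⟩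
  have h4 := (abs_le.mp (h3 X hX)).2
  have hN : (0 : ℝ) < Fintype.card X := by exact_mod_cast Fintype.card_pos
  have hfinY : Fintype (MulAction.orbitRel.Quotient Λ X) := Fintype.ofFinite _
  have h6 := (h1 X).2
  have p2 : (1 : ℝ) ≤ tc (Cok (red (ob Λ X) Quotient.out (reg X (C.d n)))) := by
    exact_mod_cast Pool.Agent.Q96.TG.t_tc.2.2.1 _ _ _
  have h7 := Real.log_le_log (by linarith) (level_deg Λ C h X Quotient.out (fun b => Quotient.out_eq b)
    (fun n => hpos n X) n)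
  have h8 := (h2 X (hpos n X)).1
  unfold wo at h6
  have h9 : Real.log (torsHn C n X) ≤ Real.log (tc (Cok (reg X (homR C h n)))) +
      (c * yo Λ X + C.rank n * so Λ X) := by linarith
  have h10 := div_le_div_of_nonneg_right h9 hN.le
  rw [add_div] at h10
  linarith

/-- **From the uniform statement to sequences.** -/
theorem Unif.char {Λ : Subgroup G} {a : (X : Type) → [Fintype X] → [MulAction G X] → ℝ} (ha : Unif Λ a) :
    ∃ L : (G → ℝ) → ℝ, ∀ (χ : G → ℝ) (X : ℕ → Type) [∀ i, Fintype (X i)] [∀ i, Nonempty (X i)]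
      [∀ i, MulAction G (X i)], CharTo χ X → Small Λ X →
      Tendsto (fun i => a (X i) / Fintype.card (X i)) atTop (𝓝 (L χ)) := by
  classical
  have hev : ∀ (χ : G → ℝ) (X : ℕ → Type) [∀ i, Fintype (X i)] [∀ i, Nonempty (X i)]
      [∀ i, MulAction G (X i)], CharTo χ X → Small Λ X → ∀ (F : Finset G) (δ : ℝ), 0 < δ →
      ∀ᶠ i in atTop, (∀ g ∈ F, |fr g (X i) - χ g| ≤ δ / 2) ∧ yo Λ (X i) ≤ δ * Fintype.card (X i) := by
    intro χ X _ _ _ hχ hY F δ hδ
    have h1 : ∀ᶠ i in atTop, ∀ g ∈ F, |fr g (X i) - χ g| ≤ δ / 2 := by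
      rw [Filter.eventually_all_finset]
      intro g _
      have h2 : Tendsto (fun i => |fr g (X i) - χ g|) atTop (𝓝 |χ g - χ g|) := ((hχ g).sub_const _).abs
      rw [sub_self, abs_zero] at h2
      exact h2.eventually_le_const (by linarith)
    filter_upwards [h1, hY.eventually_le_const hδ] with i hi1 hi2
    have hN : (0 : ℝ) < Fintype.card (X i) := by exact_mod_cast Fintype.card_pos
    exact ⟨hi1, by rwa [div_le_iff₀ hN] at hi2⟩
  have key : ∀ (χ : G → ℝ) (ε : ℝ), 0 < ε → ∃ (F : Finset G) (δ : ℝ), 0 < δ ∧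
      ∀ (X Y : Type) [Fintype X] [Nonempty X] [MulAction G X] [Fintype Y] [Nonempty Y] [MulAction G Y],
      ((∀ g ∈ F, |fr g X - χ g| ≤ δ / 2) ∧ yo Λ X ≤ δ * Fintype.card X) →
      ((∀ g ∈ F, |fr g Y - χ g| ≤ δ / 2) ∧ yo Λ Y ≤ δ * Fintype.card Y) →
      |a X / Fintype.card X - a Y / Fintype.card Y| ≤ ε := by
    intro χ ε hε
    obtain ⟨F, δ, hδ, h⟩ := ha ε hε
    refine ⟨F, δ, hδ, fun X Y _ _ _ _ _ _ h1 h2 => h X Y ⟨fun g hg => ?_, h1.2, h2.2⟩⟩
    have h3 := abs_le.mp (h1.1 g hg)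
    have h4 := abs_le.mp (h2.1 g hg)
    rw [abs_le]
    constructor <;> linarith [h3.1, h3.2, h4.1, h4.2]
  have main : ∀ χ : G → ℝ, ∃ ℓ : ℝ, ∀ (X : ℕ → Type) [∀ i, Fintype (X i)] [∀ i, Nonempty (X i)]
      [∀ i, MulAction G (X i)], CharTo χ X → Small Λ X →
      Tendsto (fun i => a (X i) / Fintype.card (X i)) atTop (𝓝 ℓ) := by
    intro χ
    by_cases hex : ∃ (X : ℕ → Type) (_ : ∀ i, Fintype (X i)) (_ : ∀ i, Nonempty (X i))
        (_ : ∀ i, MulAction G (X i)), CharTo χ X ∧ Small Λ X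
    · obtain ⟨X₀, _, _, _, hχ₀, hY₀⟩ := hex
      obtain ⟨ℓ, hℓ⟩ := lim_exists (fun i => a (X₀ i) / Fintype.card (X₀ i)) (fun ε hε => by
        obtain ⟨F, δ, hδ, h⟩ := key χ ε hε
        obtain ⟨N, hN⟩ := eventually_atTop.mp (hev χ X₀ hχ₀ hY₀ F δ hδ)
        refine ⟨a (X₀ N) / Fintype.card (X₀ N), ?_⟩
        filter_upwards [eventually_ge_atTop N] with i hi
        exact h _ _ (hN i hi) (hN N le_rfl))
      refine ⟨ℓ, fun X _ _ _ hχ hY => ?_⟩
      rw [Metric.tendsto_atTop]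
      intro ε hε
      obtain ⟨F, δ, hδ, h⟩ := key χ (ε / 2) (by linarith)
      obtain ⟨N₀, hN₀⟩ := eventually_atTop.mp (hev χ X₀ hχ₀ hY₀ F δ hδ)
      obtain ⟨N, hN⟩ := eventually_atTop.mp (hev χ X hχ hY F δ hδ)
      refine ⟨N, fun i hi => ?_⟩
      have h2 : Tendsto (fun j => |a (X i) / Fintype.card (X i) - a (X₀ j) / Fintype.card (X₀ j)|) atTop
          (𝓝 |a (X i) / Fintype.card (X i) - ℓ|) := (tendsto_const_nhds.sub hℓ).abs
      have h3 : |a (X i) / Fintype.card (X i) - ℓ| ≤ ε / 2 := by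
        refine le_of_tendsto h2 ?_
        filter_upwards [eventually_ge_atTop N₀] with j hj
        exact h _ _ (hN i hi) (hN₀ j hj)
      rw [Real.dist_eq]
      linarith
    · exact ⟨0, fun X _ _ _ hχ hY => absurd ⟨X, inferInstance, inferInstance, inferInstance, hχ, hY⟩ hex⟩
  choose L hL using main
  exact ⟨L, fun χ X _ _ _ hχ hY => hL χ X hχ hY⟩

end Pool.Agent.D0H83.AC
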