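import Pool.Agent.D0H83.AC.Chr5

set_option autoImplicit false

/-! # Project AC, fifth part: local statistics up to radius `n` determine the torsion up to `(log n / n) ^ θ` -/

namespace Pool.Agent.D0H83.AC

open Matrix Finset Filter Topology Pool.Agent.Q181.TG Pool.Agent.Helper993.FK Pool.Agent.TH630.Tor
open Pool.Agent.TH630.Tor.FreeCx (lapM laplacian_eq)

attribute [-instance] Pool.Agent.D0H8.AC.instFx

variable {G : Type} [Group G] {r : ℕ}

open Classical in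
/-- **The determinant is near the trace of a polynomial.** -/
theorem eff_tr2 (hm : Mods) (Λ : Subgroup G) [Λ.Normal]
    (B : Matrix (Fin r) (Fin r) (MonoidAlgebra ℤ G)) (p : ℕ) (hp : 2 ≤ p) (hB : FLow Λ p B) :
    ∃ (M₁ : ℕ) (K0 : ℝ), 3 ≤ M₁ ∧ 0 ≤ K0 ∧ ∀ M : ℕ, M₁ ≤ M → ∃ q : Polynomial ℝ, q.natDegree ≤ M ∧
      ∀ (X : Type) [Fintype X] [MulAction G X], 0 < dt u_lump Λ B X ∧
        |Real.log (dt u_lump Λ B X) - (Polynomial.aeval (rg X B) q).trace| ≤
          K0 * (Fintype.card X * (Real.log M / M) ^ (2 / (p : ℝ)) + Real.log M * yo Λ X) := by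
  obtain ⟨hadj, hform, c, C, hc, hC, hlow⟩ := hB
  obtain ⟨K, hK, hKb⟩ := u_lump.2.2.1 G r r B
  have hK' : (1 : ℝ) ≤ (K : ℝ) := by exact_mod_cast hK
  set K2 : ℝ := (K : ℝ) with hK2d
  have hK2 : (1 : ℝ) ≤ K2 := hK'
  obtain ⟨M₁, hM₁, hch⟩ := cheb_use hm.1 K2 hK2
  obtain ⟨E, hE0, hE⟩ := hm.2.1 p r c C hp hc hC
  set B1 : ℝ := 3 + Real.log (K2 + 1) with hB1
  have hB10 : 0 ≤ B1 := by
    have : 0 ≤ Real.log (K2 + 1) := Real.log_nonneg (by linarith)
    linarith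
  set K0 : ℝ := E * (4 * K2) + r + r * B1 with hK0
  have hr0 : (0 : ℝ) ≤ r := Nat.cast_nonneg r
  have hK00 : 0 ≤ K0 := by positivity
  refine ⟨M₁, K0, hM₁, hK00, fun M hM => ?_⟩
  have hM3 : 3 ≤ M := hM₁.trans hM
  obtain ⟨q, δ, hq1, hδ0, hδ1, hδ4, hq2, hq3⟩ := hch M hM
  have hlog := one_le_log hM3
  have hM0 : (0 : ℝ) < M := by positivity
  set x := Real.log M / M with hx
  have hx0 : 0 < x := by positivity
  have hx1 : x ≤ 1 := (log_div_le hM3).trans (by norm_num)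
  obtain ⟨hr1, hr2⟩ := rate_aux p hp K2 δ x hK2 hx0 hx1 hδ0 hδ4
  set y := x ^ (2 / (p : ℝ)) with hy
  have hy0 : 0 < y := Real.rpow_pos_of_pos hx0 _
  have hMx : 1 / (M : ℝ) ≤ x := div_le_div_of_nonneg_right hlog hM0.le
  refine ⟨q, hq1, fun X _ _ => ?_⟩
  have hfinY : Fintype (MulAction.orbitRel.Quotient Λ X) := Fintype.ofFinite _
  obtain ⟨d, d', ν, μ, hdd, hd', hν, hμ, htr, hcnt, hD, P, hP1, hP2⟩ :=
    slevel hm.2.2.2.2.2.1 Λ B p c C X (hadj X) (hform X) (fun L hL => hlow X L hL) K hK (hKb X).2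
  have hdn : d ≤ r * Fintype.card X := by omega
  obtain ⟨hpos, hs⟩ := hE (Fintype.card X) d ν hdn hcnt
  have hD0 : 0 < dt u_lump Λ B X := by
    rw [hD]
    exact Finset.prod_pos fun k _ => hpos k
  refine ⟨hD0, ?_⟩
  set N : ℝ := (Fintype.card X : ℝ) with hN
  have hN0 : 0 ≤ N := Nat.cast_nonneg _
  have hYe : yo Λ X = (Fintype.card (MulAction.orbitRel.Quotient Λ X) : ℝ) := by
    unfold yo
    rw [Nat.card_eq_fintype_card]
  have hY0 : 0 ≤ yo Λ X := by rw [hYe]; exact Nat.cast_nonneg _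
  have hNM : N / M ≤ N * x := by
    rw [div_eq_mul_one_div]
    exact mul_le_mul_of_nonneg_left hMx hN0
  have hNx : N * x ≤ N * y := mul_le_mul_of_nonneg_left hr2 hN0
  have e1 : Real.log (dt u_lump Λ B X) = ∑ k, Real.log (ν k) := by
    rw [hD, Real.log_prod (fun k _ => (hpos k).ne')]
  have ht : |∑ j, q.eval (ν j) + ∑ j, q.eval (μ j) - (Polynomial.aeval (rg X B) q).trace| ≤ 0 := by
    rw [trace_poly _ q ν μ htr, sub_self, abs_zero]
  have h1 := one_level (E * N * δ ^ (1 / (p : ℝ))) (n := r * Fintype.card X) ν μ K2 δ (1 / M)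
    (B1 * Real.log M) q (fun k => ⟨hpos k, (hν k).2⟩) hμ hδ0 hq2 hq3 (hs δ hδ0 hδ1) hdn
    (by linarith) _ _ ht
  rw [e1]
  refine h1.trans ?_
  have h2 : E * N * δ ^ (1 / (p : ℝ)) ≤ E * (4 * K2) * (N * y) := by
    calc E * N * δ ^ (1 / (p : ℝ)) ≤ E * N * (4 * K2 * y) :=
          mul_le_mul_of_nonneg_left hr1 (by positivity)
      _ = _ := by ring
  have h3 : ((r * Fintype.card X : ℕ) : ℝ) * (1 / M) ≤ r * (N * y) := by
    push_cast
    calc (r : ℝ) * Fintype.card X * (1 / M) = r * (N / M) := by rw [hN]; ring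
      _ ≤ r * (N * y) := mul_le_mul_of_nonneg_left (hNM.trans hNx) hr0
  have h4 : (d' : ℝ) * (B1 * Real.log M) ≤ r * B1 * (Real.log M * yo Λ X) := by
    have h5 : (d' : ℝ) ≤ r * yo Λ X := by
      rw [hYe]
      exact_mod_cast hd'
    calc (d' : ℝ) * (B1 * Real.log M) ≤ (r * yo Λ X) * (B1 * Real.log M) :=
          mul_le_mul_of_nonneg_right h5 (by positivity)
      _ = _ := by ring
  have hNy : 0 ≤ N * y := by positivity
  have hlF : 0 ≤ Real.log M * yo Λ X := by positivity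
  have g4 : 0 ≤ (E * (4 * K2) + r) * (Real.log M * yo Λ X) := by positivity
  have g5 : 0 ≤ (r * B1) * (N * y) := by positivity
  have g6 : K0 * (N * y + Real.log M * yo Λ X) =
      (E * (4 * K2) * (N * y) + r * (N * y) + r * B1 * (Real.log M * yo Λ X)) +
      ((E * (4 * K2) + r) * (Real.log M * yo Λ X) + (r * B1) * (N * y)) := by
    rw [hK0]
    ring
  rw [g6]
  linarith


/-- the proportion of the orbits -/
noncomputable def oo (Λ : Subgroup G) (X : Type) [Fintype X] [MulAction G X] : ℝ :=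
  yo Λ X / Fintype.card X

theorem oo_nonneg (Λ : Subgroup G) (X : Type) [Fintype X] [MulAction G X] : 0 ≤ oo Λ X :=
  div_nonneg (yo_nonneg Λ X) (Nat.cast_nonneg _)

/-- two sets with the same proportions of fixed points of the elements of the ball of radius `n` -/
def LRate (S : Finset G) (Λ : Subgroup G) (θ : ℝ) (u : (X : Type) → [Fintype X] → [MulAction G X] → ℝ) :
    Prop :=
  ∃ (K : ℝ) (n₀ : ℕ), 0 ≤ K ∧ 3 ≤ n₀ ∧ ∀ (X Y : Type) [Fintype X] [Nonempty X] [MulAction G X]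
    [Fintype Y] [Nonempty Y] [MulAction G Y] (n : ℕ), n₀ ≤ n → (∀ g ∈ ball (S : Set G) n, fr g X = fr g Y) →
    |u X / Fintype.card X - u Y / Fintype.card Y| ≤
      K * ((Real.log n / n) ^ θ + Real.log n * (oo Λ X + oo Λ Y))

theorem rhs_nonneg (Λ : Subgroup G) (θ : ℝ) (X Y : Type) [Fintype X] [MulAction G X] [Fintype Y]
    [MulAction G Y] (n : ℕ) : 0 ≤ (Real.log n / n) ^ θ + Real.log n * (oo Λ X + oo Λ Y) := by
  have h1 : 0 ≤ Real.log n := Real.log_natCast_nonneg _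
  have h2 := oo_nonneg Λ X
  have h3 := oo_nonneg Λ Y
  have h4 : (0 : ℝ) ≤ (Real.log n / n) ^ θ := Real.rpow_nonneg (by positivity) _
  positivity

theorem LRate.add {S : Finset G} {Λ : Subgroup G} {θ : ℝ}
    {a b : (X : Type) → [Fintype X] → [MulAction G X] → ℝ} (ha : LRate S Λ θ a) (hb : LRate S Λ θ b) :
    LRate S Λ θ (fun X => a X + b X) := by
  obtain ⟨K, n₀, hK, hn₀, h⟩ := ha
  obtain ⟨K', n₀', hK', hn₀', h'⟩ := hb
  refine ⟨K + K', max n₀ n₀', by linarith, hn₀.trans (le_max_left _ _), fun X Y _ _ _ _ _ _ n hn hg => ?_⟩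
  have h1 := abs_le.mp (h X Y n ((le_max_left _ _).trans hn) hg)
  have h2 := abs_le.mp (h' X Y n ((le_max_right _ _).trans hn) hg)
  rw [add_div, add_div, abs_le, add_mul]
  constructor <;> linarith [h1.1, h1.2, h2.1, h2.2]

theorem LRate.smul {S : Finset G} {Λ : Subgroup G} {θ : ℝ}
    {a : (X : Type) → [Fintype X] → [MulAction G X] → ℝ} (ha : LRate S Λ θ a) (c : ℝ) :
    LRate S Λ θ (fun X => c * a X) := by
  obtain ⟨K, n₀, hK, hn₀, h⟩ := ha
  refine ⟨|c| * K, n₀, by positivity, hn₀, fun X Y _ _ _ _ _ _ n hn hg => ?_⟩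
  rw [mul_div_assoc, mul_div_assoc, ← mul_sub, abs_mul, mul_assoc]
  exact mul_le_mul_of_nonneg_left (h X Y n hn hg) (abs_nonneg _)

theorem LRate.zero (S : Finset G) (Λ : Subgroup G) (θ : ℝ) : LRate S Λ θ (fun _ => 0) := by
  refine ⟨0, 3, le_rfl, le_rfl, fun X Y _ _ _ _ _ _ n _ _ => ?_⟩
  simp

theorem LRate.sum {S : Finset G} {Λ : Subgroup G} {θ : ℝ} {ι : Type} (s : Finset ι)
    {a : ι → (X : Type) → [Fintype X] → [MulAction G X] → ℝ} (ha : ∀ i ∈ s, LRate S Λ θ (a i)) :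
    LRate S Λ θ (fun X => ∑ i ∈ s, a i X) := by
  classical
  induction s using Finset.induction_on with
  | empty =>
    simp only [Finset.sum_empty]
    exact LRate.zero S Λ θ
  | insert i s hi ih =>
    simp only [Finset.sum_insert hi]
    exact (ha i (Finset.mem_insert_self _ _)).add
      (ih fun j hj => ha j (Finset.mem_insert_of_mem hj))

theorem LRate.congr {S : Finset G} {Λ : Subgroup G} {θ : ℝ}
    {a b : (X : Type) → [Fintype X] → [MulAction G X] → ℝ} (ha : LRate S Λ θ a)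
    (h : ∀ (X : Type) [Fintype X] [MulAction G X], a X = b X) : LRate S Λ θ b := by
  obtain ⟨K, n₀, hK, hn₀, h1⟩ := ha
  refine ⟨K, n₀, hK, hn₀, fun X Y _ _ _ _ _ _ n hn hg => ?_⟩
  rw [← h X, ← h Y]
  exact h1 X Y n hn hg

theorem rpow_ge {n : ℕ} (hn : 3 ≤ n) {θ : ℝ} (hθ1 : θ ≤ 1) :
    Real.log n / n ≤ (Real.log n / n) ^ θ := by
  have h1 := one_le_log hn
  have hn0 : (0 : ℝ) < n := by positivity
  have h2 : 0 < Real.log n / n := by positivity
  have h3 : Real.log n / n ≤ 1 := (log_div_le hn).trans (by norm_num)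
  calc Real.log n / n = (Real.log n / n) ^ (1 : ℝ) := (Real.rpow_one _).symm
    _ ≤ (Real.log n / n) ^ θ := Real.rpow_le_rpow_of_exponent_ge h2 h3 hθ1

/-- small quantities, with a rate -/
theorem LRate.small {S : Finset G} {Λ : Subgroup G} {θ : ℝ} (hθ1 : θ ≤ 1)
    {a : (X : Type) → [Fintype X] → [MulAction G X] → ℝ} (ρ c : ℝ) (hρ0 : 0 ≤ ρ) (hc : 0 ≤ c)
    (h : ∀ (X : Type) [Fintype X] [MulAction G X], -(ρ * so Λ X) ≤ a X ∧ a X ≤ c * yo Λ X + ρ * so Λ X) :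
    LRate S Λ θ a := by
  refine ⟨2 * ρ + c, 3, by positivity, le_rfl, fun X Y _ _ _ _ _ _ n hn _ => ?_⟩
  have hlog := one_le_log hn
  have hn0 : (0 : ℝ) < n := by positivity
  have hpw := rpow_ge hn hθ1
  have hn1 : 1 / (n : ℝ) ≤ Real.log n / n := div_le_div_of_nonneg_right hlog hn0.le
  have key : ∀ (Z : Type) [Fintype Z] [Nonempty Z] [MulAction G Z],
      |a Z / Fintype.card Z| ≤ ρ * (Real.log n / n) ^ θ + (ρ + c) * (Real.log n * oo Λ Z) := by
    intro Z _ _ _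
    have hZ0 : (0 : ℝ) < Fintype.card Z := by exact_mod_cast Fintype.card_pos
    obtain ⟨h1, h2⟩ := so_le Λ (1 / n) (by positivity) Z
    obtain ⟨h3, h4⟩ := h Z
    have h5 : |Real.log (1 / (n : ℝ))| = Real.log n := by
      rw [one_div, Real.log_inv, abs_neg, abs_of_nonneg (by linarith)]
    rw [h5] at h2
    have hy := yo_nonneg Λ Z
    have hcy : 0 ≤ c * yo Λ Z := mul_nonneg hc hy
    have hs : |a Z| ≤ c * yo Λ Z + ρ * so Λ Z := by
      have h6 : 0 ≤ ρ * so Λ Z := mul_nonneg hρ0 h1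
      rw [abs_le]
      constructor <;> linarith
    have hyl : c * yo Λ Z ≤ c * (Real.log n * yo Λ Z) := by
      refine mul_le_mul_of_nonneg_left ?_ hc
      nlinarith
    have hso : ρ * so Λ Z ≤ ρ * (1 / n * Fintype.card Z + Real.log n * yo Λ Z) :=
      mul_le_mul_of_nonneg_left h2 hρ0
    rw [abs_div, abs_of_pos hZ0, div_le_iff₀ hZ0]
    unfold oo
    have e1 : (ρ * (Real.log n / n) ^ θ + (ρ + c) * (Real.log n * (yo Λ Z / Fintype.card Z))) *
        Fintype.card Z = ρ * ((Real.log n / n) ^ θ * Fintype.card Z) + (ρ + c) * (Real.log n * yo Λ Z) := by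
      field_simp
    rw [e1]
    have h7 : ρ * (1 / n * Fintype.card Z) ≤ ρ * ((Real.log n / n) ^ θ * Fintype.card Z) :=
      mul_le_mul_of_nonneg_left (mul_le_mul_of_nonneg_right (hn1.trans hpw) hZ0.le) hρ0
    calc |a Z| ≤ c * yo Λ Z + ρ * so Λ Z := hs
      _ ≤ c * (Real.log n * yo Λ Z) + ρ * (1 / n * Fintype.card Z + Real.log n * yo Λ Z) :=
          add_le_add hyl hso
      _ = ρ * (1 / n * Fintype.card Z) + (ρ + c) * (Real.log n * yo Λ Z) := by ring
      _ ≤ _ := by linarith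
  have h1 := abs_le.mp (key X)
  have h2 := abs_le.mp (key Y)
  have hl0 : 0 ≤ Real.log n := by linarith
  have h3 : 0 ≤ c * (Real.log n / n) ^ θ := mul_nonneg hc (Real.rpow_nonneg (by positivity) _)
  have h4 : 0 ≤ ρ * (Real.log n * (oo Λ X + oo Λ Y)) :=
    mul_nonneg hρ0 (mul_nonneg hl0 (add_nonneg (oo_nonneg Λ X) (oo_nonneg Λ Y)))
  have e2 : (2 * ρ + c) * ((Real.log n / n) ^ θ + Real.log n * (oo Λ X + oo Λ Y)) =
      (ρ * (Real.log n / n) ^ θ + (ρ + c) * (Real.log n * oo Λ X)) +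
      (ρ * (Real.log n / n) ^ θ + (ρ + c) * (Real.log n * oo Λ Y)) +
      (c * (Real.log n / n) ^ θ + ρ * (Real.log n * (oo Λ X + oo Λ Y))) := by ring
  rw [e2, abs_le]
  constructor <;> linarith [h1.1, h1.2, h2.1, h2.2]

/-- equal local statistics: equal traces -/
theorem tch_eq (B : Matrix (Fin r) (Fin r) (MonoidAlgebra ℤ G)) (q : Polynomial ℝ) (χ χ' : G → ℝ)
    (h : ∀ k ≤ q.natDegree, ∀ i, ∀ g ∈ ((B ^ k) i i).coeff.support, χ g = χ' g) :
    tch B q χ = tch B q χ' := by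
  unfold tch
  refine sum_congr rfl fun k hk => ?_
  congr 1
  refine sum_congr rfl fun i _ => sum_congr rfl fun g hg => ?_
  rw [h k (Nat.lt_succ_iff.mp (mem_range.mp hk)) i g hg]

open Classical in
theorem lrate_dt (hm : Mods) (S : Finset G) (hS : Subgroup.closure (S : Set G) = ⊤) (Λ : Subgroup G)
    [Λ.Normal] (B : Matrix (Fin r) (Fin r) (MonoidAlgebra ℤ G)) (p : ℕ) (hp : 2 ≤ p)
    (hB : FLow Λ p B) : LRate S Λ (2 / (p : ℝ)) (fun X => Real.log (dt u_lump Λ B X)) := by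
  obtain ⟨M₁, K0, hM₁, hK0, h⟩ := eff_tr2 hm Λ B p hp hB
  have hball := hm.2.2.2.1
  obtain ⟨a, ha, hsupp⟩ := hball.2.2.1 G (S : Set G)
    (univ.biUnion fun ij : Fin r × Fin r => (B ij.1 ij.2).coeff.support)
    (by rw [hS]; exact fun _ _ => trivial)
  have haB : ∀ i j, ∀ g ∈ (B i j).coeff.support, g ∈ ball (S : Set G) a := by
    intro i j g hg
    refine hsupp ?_
    rw [mem_coe, mem_biUnion]
    exact ⟨(i, j), mem_univ _, hg⟩
  have ha0 : (1 : ℝ) ≤ a := by exact_mod_cast ha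
  have hp0 : (0 : ℝ) < p := by positivity
  have hθ0 : 0 ≤ 2 / (p : ℝ) := by positivity
  have hθ1 : 2 / (p : ℝ) ≤ 1 := two_div_le p hp
  refine ⟨K0 * (4 * a), 2 * a * M₁, by positivity, ?_, fun X Y _ _ _ _ _ _ n hn hg => ?_⟩
  · calc 3 ≤ M₁ := hM₁
      _ ≤ 2 * a * M₁ := Nat.le_mul_of_pos_left _ (by omega)
  -- the smaller radius
  obtain ⟨M, hMdef⟩ : ∃ M : ℕ, M = n / a := ⟨_, rfl⟩
  have haM : a * M ≤ n := by
    rw [hMdef]
    exact Nat.mul_div_le n a
  have hMM : M₁ ≤ M := by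
    rw [hMdef, Nat.le_div_iff_mul_le (by omega)]
    calc M₁ * a ≤ 2 * a * M₁ := by nlinarith
      _ ≤ n := hn
  have hM3 : 3 ≤ M := hM₁.trans hMM
  have hnM : n ≤ 2 * a * M := by
    have h1 : n < a * (M + 1) := by
      rw [hMdef]
      exact Nat.lt_mul_div_succ n (by omega)
    have h2 : a * (M + 1) ≤ 2 * a * M := by nlinarith
    omega
  have hn3 : 3 ≤ n := by
    calc 3 ≤ M := hM3
      _ ≤ a * M := Nat.le_mul_of_pos_left _ (by omega)
      _ ≤ n := haM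
  have hMn : M ≤ n := (Nat.le_mul_of_pos_left _ (by omega)).trans haM
  have hM0 : (0 : ℝ) < M := by positivity
  have hn0 : (0 : ℝ) < n := by positivity
  have hlogM := one_le_log hM3
  have hlogn := one_le_log hn3
  have hll : Real.log M ≤ Real.log n := Real.log_le_log hM0 (by exact_mod_cast hMn)
  have hnM' : (n : ℝ) ≤ 2 * a * M := by exact_mod_cast hnM
  have hx : Real.log M / M ≤ 2 * a * (Real.log n / n) := by
    rw [mul_div_assoc', div_le_div_iff₀ hM0 hn0]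
    calc Real.log M * n ≤ Real.log n * (2 * a * M) :=
          mul_le_mul hll hnM' hn0.le (by linarith)
      _ = 2 * a * Real.log n * M := by ring
  have hpw : (Real.log M / M) ^ (2 / (p : ℝ)) ≤ 2 * a * (Real.log n / n) ^ (2 / (p : ℝ)) := by
    calc (Real.log M / M) ^ (2 / (p : ℝ)) ≤ (2 * a * (Real.log n / n)) ^ (2 / (p : ℝ)) :=
          Real.rpow_le_rpow (by positivity) hx hθ0
      _ = (2 * a : ℝ) ^ (2 / (p : ℝ)) * (Real.log n / n) ^ (2 / (p : ℝ)) :=
          Real.mul_rpow (by positivity) (by positivity)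
      _ ≤ (2 * a) * (Real.log n / n) ^ (2 / (p : ℝ)) := by
          refine mul_le_mul_of_nonneg_right ?_ (Real.rpow_nonneg (by positivity) _)
          calc (2 * a : ℝ) ^ (2 / (p : ℝ)) ≤ (2 * a : ℝ) ^ (1 : ℝ) :=
                Real.rpow_le_rpow_of_exponent_le (by linarith) hθ1
            _ = 2 * a := Real.rpow_one _
  obtain ⟨q, hqd, hq⟩ := h M hMM
  have key : ∀ (Z : Type) [Fintype Z] [Nonempty Z] [MulAction G Z],
      |Real.log (dt u_lump Λ B Z) / Fintype.card Z - tch B q (fun g => fr g Z)| ≤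
        K0 * ((Real.log M / M) ^ (2 / (p : ℝ)) + Real.log M * oo Λ Z) := by
    intro Z _ _ _
    have hZ0 : (0 : ℝ) < Fintype.card Z := by exact_mod_cast Fintype.card_pos
    rw [← trace_char, ← sub_div, abs_div, abs_of_pos hZ0, div_le_iff₀ hZ0]
    refine (hq Z).2.trans (le_of_eq ?_)
    unfold oo
    field_simp
  have htr : tch B q (fun g => fr g X) = tch B q (fun g => fr g Y) := by
    refine tch_eq B q _ _ fun k hk i g hgs => ?_
    refine hg g ?_
    have h1 := hball.2.2.2.2 G r (S : Set G) B a haB k i i g hgs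
    refine hball.1 G (S : Set G) (a * k) n ?_ h1
    calc a * k ≤ a * M := Nat.mul_le_mul_left a (hk.trans hqd)
      _ ≤ n := haM
  have h1 := abs_le.mp (key X)
  have h2 := abs_le.mp (key Y)
  rw [htr] at h1
  have hoX := oo_nonneg Λ X
  have hoY := oo_nonneg Λ Y
  have h3 : K0 * (Real.log M / M) ^ (2 / (p : ℝ)) ≤ K0 * (2 * a * (Real.log n / n) ^ (2 / (p : ℝ))) :=
    mul_le_mul_of_nonneg_left hpw hK0
  have h4 : K0 * (Real.log M * (oo Λ X + oo Λ Y)) ≤ K0 * (Real.log n * (oo Λ X + oo Λ Y)) :=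
    mul_le_mul_of_nonneg_left (mul_le_mul_of_nonneg_right hll (by linarith)) hK0
  have h5 : K0 * (Real.log n * (oo Λ X + oo Λ Y)) ≤ K0 * (4 * a) * (Real.log n * (oo Λ X + oo Λ Y)) := by
    have h6 : 0 ≤ Real.log n * (oo Λ X + oo Λ Y) := by positivity
    have h7 : K0 ≤ K0 * (4 * a) := by nlinarith
    exact mul_le_mul_of_nonneg_right h7 h6
  have e1 : K0 * (4 * a) * ((Real.log n / n) ^ (2 / (p : ℝ)) + Real.log n * (oo Λ X + oo Λ Y)) =
      2 * (K0 * (2 * a * (Real.log n / n) ^ (2 / (p : ℝ)))) +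
        K0 * (4 * a) * (Real.log n * (oo Λ X + oo Λ Y)) := by ring
  rw [e1, abs_le]
  constructor <;> nlinarith [h1.1, h1.2, h2.1, h2.2]

theorem lrate_comp (S : Finset G) (Λ : Subgroup G) [Λ.Normal] (C : FreeCx G) (n : ℕ) (θ : ℝ) (hθ1 : θ ≤ 1) :
    LRate S Λ θ (fun X => Real.log (torsHn C n X) - wo Λ C n X) := by
  obtain ⟨c, hc, h⟩ := comp_wo Λ C n
  refine LRate.small hθ1 ((C.rank (n + 1) : ℕ) : ℝ) c (Nat.cast_nonneg _) hc fun X _ _ => ?_
  obtain ⟨h1, h2⟩ := h X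
  have h3 : 0 ≤ ((C.rank (n + 1) : ℕ) : ℝ) * so Λ X := mul_nonneg (Nat.cast_nonneg _) (so_nonneg Λ X)
  exact ⟨h1, by linarith⟩

theorem lrate_so (S : Finset G) (Λ : Subgroup G) (θ : ℝ) (hθ1 : θ ≤ 1) :
    LRate S Λ θ (fun X => so Λ X) := by
  refine LRate.small hθ1 1 0 zero_le_one le_rfl fun X _ _ => ?_
  have h3 := so_nonneg Λ X
  constructor <;> linarith

/-- the torsion of the cokernel of a matrix -/
theorem lrate_low (hm : Mods) (S : Finset G) (hS : Subgroup.closure (S : Set G) = ⊤) (Λ : Subgroup G)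
    [Λ.Normal] (A : Matrix (Fin r) (Fin r) (MonoidAlgebra ℤ G)) (p : ℕ) (hp : 2 ≤ p) (hA : Low Λ p A) :
    LRate S Λ (2 / (p : ℝ)) (fun X => Real.log (tc (Cok (reg X A)))) := by
  have hpos := (unif_low hm Λ A p hp hA).1
  have h2 := lrate_dt hm S hS Λ (A * adjZ A) p hp (flow_sq Λ p A hA)
  have hd : ∀ (X : Type) [Fintype X] [MulAction G X],
      dt u_lump Λ (A * adjZ A) X = dt u_lump Λ A X * dt u_lump Λ A X := by
    intro X _ _
    rw [dt_mul, dt_adj]
  have h3 : LRate S Λ (2 / (p : ℝ))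
      (fun X => Real.log (tc (Cok (reg X A))) - Real.log (dt u_lump Λ A X)) := by
    obtain ⟨c, hc, h⟩ := comp_tc Λ A
    refine LRate.small (two_div_le p hp) (r : ℝ) c (Nat.cast_nonneg _) hc fun X _ _ => ?_
    obtain ⟨h4, h5⟩ := h X (hpos X)
    have h6 : 0 ≤ (r : ℝ) * so Λ X := mul_nonneg (Nat.cast_nonneg _) (so_nonneg Λ X)
    exact ⟨h4, by linarith⟩
  refine (h3.add (h2.smul (1 / 2))).congr fun X _ _ => ?_
  rw [hd X, Real.log_mul (hpos X).ne' (hpos X).ne']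
  ring

/-- **The alternating sum, with a rate.** -/
theorem lrate_alt (hm : Mods) (S : Finset G) (hS : Subgroup.closure (S : Set G) = ⊤) (Λ : Subgroup G)
    [Λ.Normal] (C : FreeCx G) (hC : NullDominated Λ C) :
    LRate S Λ (1 / 2) (fun X => ∑ n ∈ range (C.dim + 1), (-1 : ℝ) ^ n * Real.log (torsHn C n X)) := by
  classical
  have hd := fun n => dt_char hm Λ (C.lapM n) 4 (by norm_num) (flow_lap Λ C hC n)
  have e4 : 2 / ((4 : ℕ) : ℝ) = 1 / 2 := by norm_num
  have h1 : LRate S Λ (1 / 2) (fun X => ∑ n ∈ range (C.dim + 1),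
      (-1 : ℝ) ^ n * (Real.log (torsHn C n X) - wo Λ C n X)) :=
    LRate.sum _ fun n _ => (lrate_comp S Λ C n (1 / 2) (by norm_num)).smul _
  have h2 : LRate S Λ (1 / 2) (fun X => ∑ n ∈ range (C.dim + 1),
      ((-1 : ℝ) ^ n * n) * Real.log (dt u_lump Λ (C.lapM n) X)) := by
    refine LRate.sum _ fun n _ => ?_
    have h3 := lrate_dt hm S hS Λ (C.lapM n) 4 (by norm_num) (flow_lap Λ C hC n)
    rw [e4] at h3
    exact h3.smul _
  have h4 := (h1.add (h2.smul (-(1 / 2)))).add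
    ((lrate_so S Λ (1 / 2) (by norm_num)).smul
      (-((1 / 2) * ∑ n ∈ range (C.dim + 1), (-1 : ℝ) ^ n * C.rank n)))
  refine h4.congr fun X _ _ => ?_
  have hfinY : Fintype (MulAction.orbitRel.Quotient Λ X) := Fintype.ofFinite _
  have key := level2 t_fa u_red Λ C X Quotient.out (fun b => Quotient.out_eq b) (fun n => (hd n).1 X)
  have e2 : (∑ n ∈ range (C.dim + 1), (-1 : ℝ) ^ n * Real.log (torsHn C n X)) =
      (∑ n ∈ range (C.dim + 1), (-1 : ℝ) ^ n * (Real.log (torsHn C n X) - wo Λ C n X)) +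
      ∑ n ∈ range (C.dim + 1), (-1 : ℝ) ^ n * wo Λ C n X := by
    rw [← Finset.sum_add_distrib]
    refine Finset.sum_congr rfl fun n _ => ?_
    ring
  rw [e2]
  unfold wo at *
  rw [key, so_eq]
  ring

end Pool.Agent.D0H83.AC
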