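import Pool.Agent.Q151.TG.Req
import Pool.Agent.Q181.TG.Chain
import Pool.Agent.Q66.TG.Hom
import Pool.Agent.TH630.Tor.Limit
import Pool.Agent.Y692.FK.Tb

set_option autoImplicit false

/-!
# Torsion growth for matrices whose real part dominates a Laplacian: definitions

`reg X A` (library `Pool.Agent.Q181.TG`) is the integral matrix by which the matrix `A` over `ℤ[G]` acts on row
vectors of functions on the finite `G`-set `X`: `(f ᵥ* reg X A) (y, j) = ∑ i, ∑ h, A i j (h) * f (h • y, i)`.
`adjZ A` (library `Pool.Agent.Helper993.FK`) is the adjoint: transpose and `g ↦ g⁻¹`.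
-/

namespace Pool.Agent.D0H83.AC

open Matrix Finset Pool.Agent.Q181.TG Pool.Agent.Helper993.FK

/-- the Laplacian `∑_{t ∈ T} (2 - t - t⁻¹)` -/
noncomputable def lap {G : Type} [Group G] (T : Finset G) : MonoidAlgebra ℤ G :=
  ∑ t ∈ T, (2 - MonoidAlgebra.single t 1 - MonoidAlgebra.single t⁻¹ 1)

/-- The real part of `A` dominates the Laplacian of a finite generating set `T` of `Λ`:
`D (A + A*) = ∑_{t ∈ T} (2 - t - t⁻¹) · 1 + B B*` for a positive integer `D` and a matrix `B` over `ℤ[G]`. -/
def Dominates {G : Type} [Group G] (Λ : Subgroup G) {r : ℕ}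
    (A : Matrix (Fin r) (Fin r) (MonoidAlgebra ℤ G)) : Prop :=
  ∃ (T : Finset G) (D m : ℕ) (B : Matrix (Fin r) (Fin m) (MonoidAlgebra ℤ G)),
    Subgroup.closure (T : Set G) = Λ ∧ 0 < D ∧
      D • (A + adjZ A) = Matrix.diagonal (fun _ => lap T) + B * adjZ B

/-- `A` is a factor, `C A C' = R₁ ⋯ R_l`, of a product of matrices which dominate Laplacians of `Λ`. -/
def Tame {G : Type} [Group G] (Λ : Subgroup G) {r : ℕ}
    (A : Matrix (Fin r) (Fin r) (MonoidAlgebra ℤ G)) : Prop :=
  ∃ (l : List (Matrix (Fin r) (Fin r) (MonoidAlgebra ℤ G)))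
    (C C' : Matrix (Fin r) (Fin r) (MonoidAlgebra ℤ G)),
    (∀ R ∈ l, Dominates Λ R) ∧ C * A * C' = l.prod

/-- `reg X A` with real entries -/
noncomputable def rg {G : Type} [Group G] {r s : ℕ} (X : Type) [MulAction G X]
    (A : Matrix (Fin r) (Fin s) (MonoidAlgebra ℤ G)) : Matrix (X × Fin r) (X × Fin s) ℝ :=
  (reg X A).map (Int.cast : ℤ → ℝ)

/-- the map of `X` onto the set of the `Λ`-orbits -/
def ob {G : Type} [Group G] (Λ : Subgroup G) (X : Type) [MulAction G X] :
    X → MulAction.orbitRel.Quotient Λ X :=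
  Quotient.mk (MulAction.orbitRel Λ X)

open Classical in
/-- the functions all of whose sums over the fibres of `o` vanish -/
def Zs {X Y : Type} [Fintype X] (o : X → Y) (r : ℕ) (R : Type) [CommRing R] :
    Submodule R (X × Fin r → R) where
  carrier := {f | ∀ b i, ∑ x with o x = b, f (x, i) = 0}
  add_mem' := by
    intro f g hf hg b i
    have := hf b i
    have := hg b i
    simp_all [Finset.sum_add_distrib]
  zero_mem' := by
    intro b i
    simp
  smul_mem' := by
    intro c f hf b i
    have := hf b i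
    simp only [Pi.smul_apply, smul_eq_mul, ← Finset.mul_sum, this, mul_zero]

open Classical in
/-- The matrix `M` respects the partition of `X` into the fibres of `o`: the sums of a row over a fibre
depend only on the fibre of the index of the row, and the same for the columns. -/
def Lump {X Y : Type} [Fintype X] {r : ℕ} (o : X → Y) (M : Matrix (X × Fin r) (X × Fin r) ℤ) : Prop :=
  (∀ x x' i b j, o x = o x' →
    ∑ y with o y = b, M (x, i) (y, j) = ∑ y with o y = b, M (x', i) (y, j)) ∧
  (∀ y y' j b i, o y = o y' →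
    ∑ x with o x = b, M (x, i) (y, j) = ∑ x with o x = b, M (x, i) (y', j))

end Pool.Agent.D0H83.AC
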