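import Pool.Agent.D0H83.AC.Fa2

set_option autoImplicit false

/-! # Project AC, part 2: the torsion in one degree is bounded by the determinant of a null-homotopic map -/

namespace Pool.Agent.D0H83.AC

open Matrix Finset Pool.Agent.Q181.TG

/-- `D`, `D0` consecutive boundary maps, `F = H D + D0 H0` the matrix of a null-homotopic chain map in this
degree, `F0` the matrix in the next one: the torsion of the cokernel of `D` is at most `|det F|`. -/
theorem cok_le {a b c : Type} [Fintype a] [DecidableEq a] [Fintype b] [DecidableEq b]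
    [Fintype c] (D : Matrix c b ℤ) (D0 : Matrix b a ℤ) (H : Matrix b c ℤ) (H0 : Matrix a b ℤ)
    (F0 : Matrix a a ℤ) (hDD : D * D0 = 0) (hF : (H * D + D0 * H0).det ≠ 0) (hF0 : F0.det ≠ 0)
    (hc : (H * D + D0 * H0) * D0 = D0 * F0) :
    tc (Cok D) ≤ (H * D + D0 * H0).det.natAbs := by
  set F := H * D + D0 * H0 with hFdef
  set B : AddSubgroup (b → ℤ) := (LinearMap.range D.vecMulLinear).toAddSubgroup with hB
  set Z : AddSubgroup (b → ℤ) := (LinearMap.ker D0.vecMulLinear).toAddSubgroup with hZ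
  set W : AddSubgroup (b → ℤ) := (LinearMap.range F.vecMulLinear).toAddSubgroup with hW
  have mZ : ∀ v, v ∈ Z ↔ v ᵥ* D0 = 0 := fun v => Iff.rfl
  have hBZ : B ≤ Z := by
    rintro v ⟨w, rfl⟩
    change (w ᵥ* D) ᵥ* D0 = 0
    rw [vecMul_vecMul, hDD, vecMul_zero]
  have hdec : ∀ u : b → ℤ, u ᵥ* D0 = 0 → u ᵥ* F ∈ B := by
    intro u hu
    refine ⟨u ᵥ* H, ?_⟩
    change (u ᵥ* H) ᵥ* D = u ᵥ* F
    rw [hFdef, vecMul_add, ← vecMul_vecMul u D0, hu, zero_vecMul, add_zero, vecMul_vecMul]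
  have hadj0 : ∀ z : b → ℤ, z ᵥ* D0 = 0 → (z ᵥ* F.adjugate) ᵥ* D0 = 0 := by
    intro z hz
    have e1 : ((z ᵥ* F.adjugate) ᵥ* D0) ᵥ* F0 = 0 := by
      rw [vecMul_vecMul, ← hc, ← vecMul_vecMul, vecMul_vecMul z, adjugate_mul, vecMul_smul, vecMul_one,
        smul_vecMul, hz, smul_zero]
    exact Matrix.eq_zero_of_vecMul_eq_zero hF0 e1
  have hZB : ∀ z ∈ Z, ∃ k : ℕ, 0 < k ∧ k • z ∈ LinearMap.range D.vecMulLinear := by
    intro z hz
    refine natAbs_smul_mem _ F.det hF z ?_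
    have : F.det • z = (z ᵥ* F.adjugate) ᵥ* F := by
      rw [vecMul_vecMul, adjugate_mul, vecMul_smul, vecMul_one]
    rw [this]
    exact hdec _ (hadj0 z hz)
  have t2 : tc (Cok D) = B.relIndex Z := by
    have h3 := tc_quot (LinearMap.range D.vecMulLinear) (LinearMap.ker D0.vecMulLinear) (by
      intro u k hk hu
      rw [LinearMap.mem_ker] at hu ⊢
      rw [map_nsmul] at hu
      exact (smul_eq_zero.mp hu).resolve_left hk.ne') (fun z hz => hZB z hz) (fun z hz => hBZ hz)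
    unfold Cok
    rw [← cok_range, h3]
  obtain ⟨_, hWi⟩ := tc_square F hF
  have hWZ : W ⊓ Z ≤ B := by
    rintro v ⟨⟨u, rfl⟩, hv2⟩
    have h1 : (u ᵥ* F) ᵥ* D0 = 0 := hv2
    rw [vecMul_vecMul, hc, ← vecMul_vecMul] at h1
    exact hdec u (Matrix.eq_zero_of_vecMul_eq_zero hF0 h1)
  have hWne : W.index ≠ 0 := by
    rw [hW, hWi]
    exact Int.natAbs_ne_zero.mpr hF
  have hdvd : W.relIndex Z ∣ W.index := AddSubgroup.relIndex_dvd_index_of_normal W Z
  have hrel : W.relIndex Z ≠ 0 := fun h => hWne (by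
    rw [h] at hdvd
    exact Nat.eq_zero_of_zero_dvd hdvd)
  calc tc (Cok D) = B.relIndex Z := t2
    _ ≤ (W ⊓ Z).relIndex Z := AddSubgroup.relIndex_le_of_le_left hWZ (by
        rw [AddSubgroup.inf_relIndex_right]
        exact hrel)
    _ = W.relIndex Z := AddSubgroup.inf_relIndex_right _ _
    _ ≤ W.index := Nat.le_of_dvd (Nat.pos_of_ne_zero hWne) hdvd
    _ = F.det.natAbs := by rw [hW, hWi]

end Pool.Agent.D0H83.AC
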