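import Pool.Agent.D0H83.AC.Stm4
import Pool.Agent.D0H83.AC.All

set_option autoImplicit false

/-! # Project AC, third part: the comparison of traces -/

namespace Pool.Agent.D0H83.AC

open Matrix Finset Filter Topology Pool.Agent.Q181.TG Pool.Agent.Helper993.FK

variable {G : Type} [Group G] {r : ℕ}

open Classical in
theorem diag_eq (B : Matrix (Fin r) (Fin r) (MonoidAlgebra ℤ G)) (X : Type) [Fintype X] [MulAction G X]
    (x : X) (i : Fin r) (h : ∀ g ∈ (B i i).coeff.support, g ≠ 1 → g • x ≠ x) :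
    rg X B (x, i) (x, i) = ((B i i).coeff 1 : ℝ) := by
  have h1 : rg X B (x, i) (x, i) = ∑ g ∈ (B i i).coeff.support,
      (if g • x = x then ((B i i).coeff g : ℝ) else 0) := by
    rw [rg, Matrix.map_apply, reg, Finsupp.sum, Int.cast_sum]
    refine sum_congr rfl fun h _ => ?_
    by_cases hx : h • x = x
    · simp [hx]
    · simp [hx]
  rw [h1]
  have h2 : ((B i i).coeff 1 : ℝ) = ∑ g ∈ (B i i).coeff.support,
      ((B i i).coeff g : ℝ) * (if g = 1 then 1 else 0) := by
    simp only [mul_ite, mul_one, mul_zero]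
    rw [sum_ite_eq']
    split_ifs with h
    · rfl
    · rw [Finsupp.notMem_support_iff] at h
      rw [h, Int.cast_zero]
  rw [h2]
  refine sum_congr rfl fun g hg => ?_
  by_cases hg1 : g = 1
  · subst hg1
    simp
  · rw [if_neg (h g hg hg1), if_neg hg1, mul_zero]

/-- the value of the trace of `q (B)` at the basis element `i` -/
noncomputable def tau (B : Matrix (Fin r) (Fin r) (MonoidAlgebra ℤ G)) (q : Polynomial ℝ) (i : Fin r) : ℝ :=
  ∑ k ∈ range (q.natDegree + 1), q.coeff k * (((B ^ k) i i).coeff 1 : ℝ)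

theorem aeval_apply {N : Type} [Fintype N] [DecidableEq N] (M : Matrix N N ℝ) (q : Polynomial ℝ) (e : N) :
    (Polynomial.aeval M q) e e = ∑ k ∈ range (q.natDegree + 1), q.coeff k * (M ^ k) e e := by
  rw [Polynomial.aeval_eq_sum_range, Matrix.sum_apply]
  exact sum_congr rfl fun k _ => by rw [Matrix.smul_apply, smul_eq_mul]

open Classical in
theorem diag_tau (hball : S_ball)
    (B : Matrix (Fin r) (Fin r) (MonoidAlgebra ℤ G)) (S : Set G) (a m : ℕ)
    (ha : ∀ i j, ∀ g ∈ (B i j).coeff.support, g ∈ ball S a)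
    (q : Polynomial ℝ) (hq : q.natDegree ≤ m) (X : Type) [Fintype X] [MulAction G X]
    (x : X) (hx : x ∉ fixd S (a * m) X) (i : Fin r) :
    (Polynomial.aeval (rg X B) q) (x, i) (x, i) = tau B q i := by
  rw [aeval_apply, tau]
  refine sum_congr rfl fun k hk => ?_
  rw [← rg_pow]
  congr 1
  refine diag_eq _ X x i fun g hg hg1 hgx => hx ?_
  rw [fixd, mem_filter]
  have hkm : k ≤ m := by
    have := mem_range.mp hk
    omega
  exact ⟨mem_univ _, g, hball.1 G S _ _ (Nat.mul_le_mul_left a hkm)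
    (hball.2.2.2.2 G r S _ a ha k i i g hg), hg1, hgx⟩

open Classical in
/-- the comparison of the trace of `q (B)` on `X` with the trace over the group -/
theorem trace_near (hdiag : S_diag) (hball : S_ball)
    (B : Matrix (Fin r) (Fin r) (MonoidAlgebra ℤ G)) (S : Set G) (a m : ℕ)
    (ha : ∀ i j, ∀ g ∈ (B i j).coeff.support, g ∈ ball S a)
    (q : Polynomial ℝ) (hq : q.natDegree ≤ m) (X : Type) [Fintype X] [MulAction G X]
    (K b : ℝ) (P : Matrix (X × Fin r) (X × Fin r) ℝ) (hP : rg X B = P * Pᵀ)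
    (hnorm : ∀ f : X × Fin r → ℝ, ∑ q, (f ᵥ* P) q ^ 2 ≤ K * ∑ p, f p ^ 2)
    (hb : ∀ t, 0 ≤ t → t ≤ K → |q.eval t| ≤ b) :
    (∀ i, (∃ x : X, x ∉ fixd S (a * m) X) → |tau B q i| ≤ b) ∧
    ((∀ i, |tau B q i| ≤ b) →
      |(Polynomial.aeval (rg X B) q).trace - Fintype.card X * ∑ i, tau B q i| ≤
        2 * r * b * #(fixd S (a * m) X)) := by
  have hd : ∀ e, |(Polynomial.aeval (rg X B) q) e e| ≤ b := by
    rw [hP]
    exact hdiag (X × Fin r) P K hnorm q b hb
  have hex : ∀ x : X, x ∉ fixd S (a * m) X → ∀ i,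
      (Polynomial.aeval (rg X B) q) (x, i) (x, i) = tau B q i := fun x hx i =>
    diag_tau hball B S a m ha q hq X x hx i
  refine ⟨fun i ⟨x, hx⟩ => ?_, fun ht => ?_⟩
  · rw [← hex x hx i]
    exact hd _
  · have e1 : (Polynomial.aeval (rg X B) q).trace - Fintype.card X * ∑ i, tau B q i =
        ∑ x : X, ∑ i : Fin r, ((Polynomial.aeval (rg X B) q) (x, i) (x, i) - tau B q i) := by
      rw [Matrix.trace, Fintype.sum_prod_type]
      simp only [Matrix.diag_apply, sum_sub_distrib, sum_const, card_univ, nsmul_eq_mul]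
    rw [e1]
    refine (abs_sum_le_sum_abs _ _).trans ?_
    have e2 : ∀ x : X, |∑ i : Fin r, ((Polynomial.aeval (rg X B) q) (x, i) (x, i) - tau B q i)| ≤
        if x ∈ fixd S (a * m) X then 2 * r * b else 0 := by
      intro x
      split_ifs with hx
      · refine (abs_sum_le_sum_abs _ _).trans ?_
        have : ∀ i : Fin r, |(Polynomial.aeval (rg X B) q) (x, i) (x, i) - tau B q i| ≤ 2 * b := by
          intro i
          have h1 := abs_sub (Polynomial.aeval (rg X B) q (x, i) (x, i)) (tau B q i)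
          have h2 := hd (x, i)
          have h3 := ht i
          linarith
        refine (sum_le_sum fun i _ => this i).trans (le_of_eq ?_)
        rw [sum_const, card_univ, Fintype.card_fin, nsmul_eq_mul]
        ring
      · refine le_of_eq ?_
        rw [sum_eq_zero, abs_zero]
        intro i _
        rw [hex x hx i, sub_self]
    refine (sum_le_sum fun x _ => e2 x).trans (le_of_eq ?_)
    rw [sum_ite_mem, univ_inter, sum_const, nsmul_eq_mul, mul_comm]

end Pool.Agent.D0H83.AC
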