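import Pool.Agent.D0H83.AC.Eff1

set_option autoImplicit false

/-! # Project AC, third part: the estimate on one level -/

namespace Pool.Agent.D0H83.AC

open Matrix Finset Filter Topology Pool.Agent.Q181.TG Pool.Agent.Helper993.FK

variable {G : Type} [Group G] {r : ℕ}

/-- the trace of a polynomial -/
theorem trace_poly {N : Type} [Fintype N] [DecidableEq N] (M : Matrix N N ℝ) (q : Polynomial ℝ)
    {d d' : ℕ} (ν : Fin d → ℝ) (μ : Fin d' → ℝ) (h : ∀ k : ℕ, (M ^ k).trace = ∑ j, ν j ^ k + ∑ j, μ j ^ k) :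
    (Polynomial.aeval M q).trace = ∑ j, q.eval (ν j) + ∑ j, q.eval (μ j) := by
  rw [Polynomial.aeval_eq_sum_range, Matrix.trace_sum]
  simp only [Matrix.trace_smul, h, smul_eq_mul, mul_add, sum_add_distrib, mul_sum]
  rw [sum_comm, sum_comm (s := range (q.natDegree + 1))]
  simp only [Polynomial.eval_eq_sum_range]

/-- **One level.** With a polynomial `q` near `log (x + δ)` on `[0, K²]`. -/
theorem one_level (hsum : ℝ) {n d d' : ℕ} (ν : Fin d → ℝ) (μ : Fin d' → ℝ) (K2 δ e b : ℝ)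
    (q : Polynomial ℝ) (hν : ∀ k, 0 < ν k ∧ ν k ≤ K2) (hμ : ∀ k, 0 ≤ μ k ∧ μ k ≤ K2) (hδ : 0 < δ)
    (hq : ∀ x, 0 ≤ x → x ≤ K2 → |q.eval x - Real.log (x + δ)| ≤ e)
    (hb : ∀ x, 0 ≤ x → x ≤ K2 → |q.eval x| ≤ b)
    (hs : ∑ k, Real.log (1 + δ / ν k) ≤ hsum) (hd : d ≤ n) (hK2 : 0 ≤ K2) (τ : ℝ) (t : ℝ)
    (ht : |∑ j, q.eval (ν j) + ∑ j, q.eval (μ j) - τ| ≤ t) :
    |∑ k, Real.log (ν k) - τ| ≤ hsum + n * e + d' * b + t := by
  have he : ∀ x, 0 ≤ x → x ≤ K2 → 0 ≤ e := fun x h1 h2 => (abs_nonneg _).trans (hq x h1 h2)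
  have h1 : ∀ k, Real.log (ν k + δ) = Real.log (ν k) + Real.log (1 + δ / ν k) := by
    intro k
    have hk := (hν k).1
    rw [← Real.log_mul hk.ne' (by positivity)]
    congr 1
    field_simp
  have h2 : |∑ k, q.eval (ν k) - ∑ k, Real.log (ν k + δ)| ≤ n * e := by
    rw [← sum_sub_distrib]
    refine (abs_sum_le_sum_abs _ _).trans ?_
    refine (sum_le_sum fun k _ => hq (ν k) (hν k).1.le (hν k).2).trans ?_
    rw [sum_const, card_univ, Fintype.card_fin, nsmul_eq_mul]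
    have : (d : ℝ) ≤ n := by exact_mod_cast hd
    exact mul_le_mul_of_nonneg_right this (he 0 le_rfl hK2)
  have h3 : |∑ k, q.eval (μ k)| ≤ d' * b := by
    refine (abs_sum_le_sum_abs _ _).trans ?_
    refine (sum_le_sum fun k _ => hb (μ k) (hμ k).1 (hμ k).2).trans ?_
    rw [sum_const, card_univ, Fintype.card_fin, nsmul_eq_mul]
  have h4 : 0 ≤ ∑ k, Real.log (1 + δ / ν k) := sum_nonneg fun k _ => by
    have hk := (hν k).1
    refine Real.log_nonneg ?_
    have : 0 ≤ δ / ν k := by positivity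
    linarith
  have h5 : ∑ k, Real.log (ν k + δ) = ∑ k, Real.log (ν k) + ∑ k, Real.log (1 + δ / ν k) := by
    rw [← sum_add_distrib]
    exact sum_congr rfl fun k _ => h1 k
  rw [abs_le] at h2 h3 ht ⊢
  constructor <;> linarith [h2.1, h2.2, h3.1, h3.2, ht.1, ht.2]

end Pool.Agent.D0H83.AC
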