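import Pool.Agent.D0H83.AC.Eff2

set_option autoImplicit false

/-! # Project AC, third part: the choice of the parameters -/

namespace Pool.Agent.D0H83.AC

open Finset Filter Topology

theorem one_le_log {M : ℕ} (hM : 3 ≤ M) : 1 ≤ Real.log M := by
  rw [Real.le_log_iff_exp_le (by positivity)]
  have h := Real.exp_one_lt_d9
  have h3 : (3 : ℝ) ≤ M := by exact_mod_cast hM
  linarith

theorem log_div_le {M : ℕ} (hM : 3 ≤ M) : Real.log M / M ≤ 3 / 8 := by
  have hM0 : (0 : ℝ) < M := by positivity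
  rw [div_le_iff₀ hM0]
  have h := Real.exp_one_gt_d9
  have h1 := Real.log_le_sub_one_of_pos (show 0 < (M : ℝ) / Real.exp 1 by positivity)
  rw [Real.log_div hM0.ne' (Real.exp_pos 1).ne', Real.log_exp] at h1
  have h2 : (M : ℝ) / Real.exp 1 ≤ 3 / 8 * M := by
    rw [div_le_iff₀ (Real.exp_pos 1)]
    nlinarith
  linarith

theorem tendsto_log_div : Tendsto (fun M : ℕ => Real.log M / M) atTop (𝓝 0) := by
  have h := Real.isLittleO_log_id_atTop.tendsto_div_nhds_zero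
  exact h.comp tendsto_natCast_atTop_atTop

/-- the polynomials for the degrees `M ≥ M₀` -/
theorem cheb_use (hcheb : S_cheb) (K2 : ℝ) (hK2 : 1 ≤ K2) : ∃ M₀ : ℕ, 3 ≤ M₀ ∧ ∀ M : ℕ, M₀ ≤ M →
    ∃ (q : Polynomial ℝ) (δ : ℝ), q.natDegree ≤ M ∧ 0 < δ ∧ δ ≤ 1 ∧
      δ ≤ 4 * K2 * (Real.log M / M) ^ 2 ∧
      (∀ x, 0 ≤ x → x ≤ K2 → |q.eval x - Real.log (x + δ)| ≤ 1 / M) ∧
      (∀ x, 0 ≤ x → x ≤ K2 → |q.eval x| ≤ (3 + Real.log (K2 + 1)) * Real.log M) := by
  have hlim : Tendsto (fun M : ℕ => 4 * K2 * (Real.log M / M) ^ 2) atTop (𝓝 0) := by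
    simpa using (tendsto_log_div.pow 2).const_mul (4 * K2)
  obtain ⟨M₁, hM₁⟩ := (eventually_atTop.mp (hlim.eventually_le_const (show (0 : ℝ) < 1 by norm_num)))
  refine ⟨max 3 M₁, le_max_left _ _, fun M hM => ?_⟩
  have hM3 : 3 ≤ M := (le_max_left _ _).trans hM
  have hM1 := hM₁ M ((le_max_right _ _).trans hM)
  have hM0 : (0 : ℝ) < M := by positivity
  have hlog := one_le_log hM3
  have hlog0 : 0 < Real.log M := by linarith
  set x := Real.log M / M with hx
  have hx0 : 0 < x := by positivity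
  have hx8 : x ≤ 3 / 8 := log_div_le hM3
  set ρ := 1 - 2 * x with hρ
  have hρ4 : 1 / 4 ≤ ρ := by linarith
  have hρ0 : 0 < ρ := by linarith
  have hρ1 : ρ < 1 := by linarith
  have hK0 : 0 < K2 := by linarith
  obtain ⟨q, hq1, hq2⟩ := hcheb K2 ρ M hK0 hρ0 hρ1
  set δ := K2 * (1 - ρ) ^ 2 / (4 * ρ) with hδ
  have hδe : δ = K2 * x ^ 2 / ρ := by
    rw [hδ, hρ]
    have : (1 : ℝ) - 2 * x ≠ 0 := by rw [← hρ]; exact hρ0.ne'
    field_simp
    ring
  have hδ0 : 0 < δ := by rw [hδe]; positivity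
  have hδ4 : δ ≤ 4 * K2 * x ^ 2 := by
    rw [hδe, div_le_iff₀ hρ0]
    have : 0 ≤ K2 * x ^ 2 := by positivity
    nlinarith
  have hδl : x ^ 2 ≤ δ := by
    rw [hδe, le_div_iff₀ hρ0]
    have : 0 ≤ x ^ 2 := by positivity
    nlinarith
  have hδ1 : δ ≤ 1 := hδ4.trans hM1
  -- the error
  have he : 2 * ρ ^ (M + 1) / (1 - ρ) ≤ 1 / M := by
    have h1 : ρ ^ (M + 1) ≤ 1 / (M : ℝ) ^ 2 := by
      have h2 : ρ ≤ Real.exp (-(2 * x)) := by
        have := Real.add_one_le_exp (-(2 * x))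
        linarith
      calc ρ ^ (M + 1) ≤ ρ ^ M := pow_le_pow_of_le_one hρ0.le hρ1.le (Nat.le_succ M)
        _ ≤ (Real.exp (-(2 * x))) ^ M := pow_le_pow_left₀ hρ0.le h2 M
        _ = 1 / (M : ℝ) ^ 2 := by
          rw [← Real.exp_nat_mul]
          have h3 : (M : ℝ) * -(2 * x) = -(2 * Real.log M) := by
            rw [hx]
            field_simp
          rw [h3, Real.exp_neg, one_div]
          congr 1
          rw [two_mul, Real.exp_add, Real.exp_log hM0]
          ring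
    have h4 : 1 - ρ = 2 * x := by rw [hρ]; ring
    rw [h4, div_le_iff₀ (by positivity)]
    calc 2 * ρ ^ (M + 1) ≤ 2 * (1 / (M : ℝ) ^ 2) := by linarith
      _ ≤ 1 / M * (2 * x) := by
        rw [hx]
        have h5 : 1 / (M : ℝ) * (2 * (Real.log M / M)) = 2 * (Real.log M / (M : ℝ) ^ 2) := by
          field_simp
        rw [h5]
        have : 1 / (M : ℝ) ^ 2 ≤ Real.log M / (M : ℝ) ^ 2 :=
          div_le_div_of_nonneg_right hlog (by positivity)
        linarith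
  have herr : ∀ t, 0 ≤ t → t ≤ K2 → |q.eval t - Real.log (t + δ)| ≤ 1 / M := fun t h1 h2 =>
    (hq2 t h1 h2).trans he
  refine ⟨q, δ, hq1, hδ0, hδ1, hδ4, herr, fun t ht0 htK => ?_⟩
  have h1 := herr t ht0 htK
  have hM1' : 1 / (M : ℝ) ≤ 1 := by
    rw [div_le_one hM0]
    have : (3 : ℝ) ≤ M := by exact_mod_cast hM3
    linarith
  have h2 : Real.log (t + δ) ≤ Real.log (K2 + 1) :=
    Real.log_le_log (by linarith) (by linarith)
  have h3 : -(2 * Real.log M) ≤ Real.log (t + δ) := by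
    have h4 : Real.log (x ^ 2) ≤ Real.log (t + δ) := Real.log_le_log (by positivity) (by linarith)
    have h5 : Real.log (x ^ 2) = 2 * (Real.log (Real.log M) - Real.log M) := by
      rw [Real.log_pow, hx, Real.log_div hlog0.ne' hM0.ne']
      push_cast
      ring
    have h6 : 0 ≤ Real.log (Real.log M) := Real.log_nonneg hlog
    linarith
  have h7 : 0 ≤ Real.log (K2 + 1) := Real.log_nonneg (by linarith)
  have h8 : Real.log (K2 + 1) ≤ Real.log (K2 + 1) * Real.log M := by nlinarith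
  rw [abs_le] at h1 ⊢
  constructor <;> nlinarith [h1.1, h1.2]

end Pool.Agent.D0H83.AC
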