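import Pool.Agent.D0H83.AC.All

set_option autoImplicit false

/-! # Project AC: lower bounds for the Laplacians of a complex with a dominating null-homotopic map -/

namespace Pool.Agent.D0H83.AC

open Matrix Finset Filter Topology Pool.Agent.Q181.TG Pool.Agent.Helper993.FK

variable {G : Type} [Group G] {r : ℕ}

/-- the quadratic form of a dominating matrix -/
theorem form_dom (Λ : Subgroup G)
    (A : Matrix (Fin r) (Fin r) (MonoidAlgebra ℤ G)) (hA : Dominates Λ A) :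
    ∃ c C : ℝ, 0 < c ∧ 0 ≤ C ∧ ∀ (X : Type) [Fintype X] [MulAction G X] (L : ℕ), 1 ≤ L →
      ∃ W : Submodule ℝ (X × Fin r → ℝ), W ≤ Zs (ob Λ X) r ℝ ∧
        ((Module.finrank ℝ (Zs (ob Λ X) r ℝ) : ℝ) - Module.finrank ℝ W) * L ≤ C * Fintype.card X ∧
        ∀ f ∈ W, ∑ q, f q ^ 2 ≤ c * (L : ℝ) ^ 2 * (f ᵥ* rg X A ⬝ᵥ f) := by
  classical
  obtain ⟨T, D, m, B, rfl, hD, hB⟩ := hA
  have hDpos : (0 : ℝ) < D := by exact_mod_cast hD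
  refine ⟨16 * D, 3 * r, by positivity, by positivity, ?_⟩
  intro X _ _ L hL
  obtain ⟨k, φ, hk, hφ⟩ := u_glb G T X L hL
  let Z := Zs (ob (Subgroup.closure (T : Set G)) X) r ℝ
  let ψ : Fin k × Fin r → ((X × Fin r → ℝ) →ₗ[ℝ] ℝ) := fun ji =>
    (φ ji.1).comp (LinearMap.funLeft ℝ ℝ (fun x : X => (x, ji.2)))
  refine ⟨Z ⊓ ⨅ j, LinearMap.ker (ψ j), inf_le_left, ?_, ?_⟩
  · have h1 := finrank_inf_ker Z ψ
    rw [Fintype.card_prod, Fintype.card_fin, Fintype.card_fin] at h1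
    have h2 : (Module.finrank ℝ Z : ℝ) -
        Module.finrank ℝ (Z ⊓ ⨅ j, LinearMap.ker (ψ j) : Submodule ℝ (X × Fin r → ℝ)) ≤ k * r := by
      have : (Module.finrank ℝ Z : ℝ) ≤
        Module.finrank ℝ (Z ⊓ ⨅ j, LinearMap.ker (ψ j) : Submodule ℝ (X × Fin r → ℝ)) + k * r := by
        exact_mod_cast h1
      linarith
    have h3 : (k : ℝ) * L ≤ 3 * Fintype.card X := by exact_mod_cast hk
    have hL0 : (0 : ℝ) ≤ L := Nat.cast_nonneg L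
    calc ((Module.finrank ℝ Z : ℝ) -
        Module.finrank ℝ (Z ⊓ ⨅ j, LinearMap.ker (ψ j) : Submodule ℝ (X × Fin r → ℝ))) * L
        ≤ (k * r) * L := mul_le_mul_of_nonneg_right h2 hL0
      _ = r * (k * L) := by ring
      _ ≤ r * (3 * Fintype.card X) := mul_le_mul_of_nonneg_left h3 (Nat.cast_nonneg r)
      _ = 3 * r * Fintype.card X := by ring
  · rintro f ⟨hf1, hf2⟩
    have hf2' : ∀ j i, φ j (fun x => f (x, i)) = 0 := by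
      intro j i
      have := (Submodule.mem_iInf _).mp hf2 (j, i)
      exact this
    have hi : ∀ i, ∑ x, f (x, i) ^ 2 ≤
        8 * (L : ℝ) ^ 2 * ∑ t ∈ T, ∑ x, (f (t • x, i) - f (x, i)) ^ 2 := by
      intro i
      refine hφ (fun x => f (x, i)) (fun b => ?_) (fun j => hf2' j i)
      refine (Finset.sum_congr ?_ fun _ _ => rfl).trans (hf1 b i)
      ext x
      simp only [Finset.mem_filter]
    have h1 : ∑ q, f q ^ 2 ≤ 8 * (L : ℝ) ^ 2 * ∑ i, ∑ t ∈ T, ∑ x, (f (t • x, i) - f (x, i)) ^ 2 := by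
      rw [Fintype.sum_prod_type, Finset.sum_comm, Finset.mul_sum]
      exact Finset.sum_le_sum fun i _ => hi i
    have h2 := u_dom G T r D m A B hB X f
    calc ∑ q, f q ^ 2 ≤ 8 * (L : ℝ) ^ 2 * ∑ i, ∑ t ∈ T, ∑ x, (f (t • x, i) - f (x, i)) ^ 2 := h1
      _ ≤ 8 * (L : ℝ) ^ 2 * (2 * D * (f ᵥ* rg X A ⬝ᵥ f)) :=
          mul_le_mul_of_nonneg_left h2 (by positivity)
      _ = _ := by ring

/-- From the form of `R` to the operator `S`: if `(f R · f)² ≤ K |f|² (f S · f)`. -/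
theorem low_of_form (Λ : Subgroup G) (R S : Matrix (Fin r) (Fin r) (MonoidAlgebra ℤ G))
    (hR : Dominates Λ R) (K : ℝ) (hK : 0 < K)
    (h : ∀ (X : Type) [Fintype X] [MulAction G X] (f : X × Fin r → ℝ),
      (f ᵥ* rg X R ⬝ᵥ f) ^ 2 ≤ K * (∑ q, f q ^ 2) * (f ᵥ* rg X S ⬝ᵥ f)) : Low Λ 8 S := by
  classical
  obtain ⟨c, C, hc, hC, hW⟩ := form_dom Λ R hR
  refine ⟨1 / (c ^ 2 * K) ^ 2, C, by positivity, hC, ?_⟩
  intro X _ _ L hL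
  obtain ⟨W, hW1, hW2, hW3⟩ := hW X L hL
  have hL0 : (0 : ℝ) < L := by exact_mod_cast hL
  refine ⟨W, hW1, hW2, ?_⟩
  intro f hf
  have h1 := hW3 f hf
  have h2 := h X f
  have h3 := Finset.sum_mul_sq_le_sq_mul_sq Finset.univ (fun q => (f ᵥ* rg X S) q) (fun q => f q)
  have h3' : (f ᵥ* rg X S ⬝ᵥ f) ^ 2 ≤ (∑ q, (f ᵥ* rg X S) q ^ 2) * ∑ q, f q ^ 2 := h3
  set F := ∑ q, f q ^ 2 with hF
  set Q := ∑ q, (f ᵥ* rg X S) q ^ 2 with hQ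
  set s := f ᵥ* rg X S ⬝ᵥ f with hs
  have hF0 : 0 ≤ F := Finset.sum_nonneg fun q _ => sq_nonneg _
  have hQ0 : 0 ≤ Q := Finset.sum_nonneg fun q _ => sq_nonneg _
  rcases eq_or_lt_of_le hF0 with h0 | h0
  · rw [← h0, mul_zero]
    positivity
  · -- F² ≤ c² L⁴ K F s
    have h4 : F ^ 2 ≤ (c * (L : ℝ) ^ 2) ^ 2 * (K * F * s) := by
      calc F ^ 2 ≤ (c * (L : ℝ) ^ 2 * (f ᵥ* rg X R ⬝ᵥ f)) ^ 2 := pow_le_pow_left₀ hF0 h1 2
        _ = (c * (L : ℝ) ^ 2) ^ 2 * (f ᵥ* rg X R ⬝ᵥ f) ^ 2 := by ring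
        _ ≤ _ := mul_le_mul_of_nonneg_left h2 (by positivity)
    have h5 : F ≤ (c ^ 2 * K * (L : ℝ) ^ 4) * s := by
      have : F * F ≤ ((c ^ 2 * K * (L : ℝ) ^ 4) * s) * F := by nlinarith [h4]
      exact le_of_mul_le_mul_right this h0
    have h6 : F ^ 2 ≤ (c ^ 2 * K * (L : ℝ) ^ 4) ^ 2 * (Q * F) := by
      calc F ^ 2 ≤ ((c ^ 2 * K * (L : ℝ) ^ 4) * s) ^ 2 := pow_le_pow_left₀ hF0 h5 2
        _ = (c ^ 2 * K * (L : ℝ) ^ 4) ^ 2 * s ^ 2 := by ring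
        _ ≤ _ := mul_le_mul_of_nonneg_left h3' (by positivity)
    have h7 : F ≤ (c ^ 2 * K * (L : ℝ) ^ 4) ^ 2 * Q := by
      have : F * F ≤ ((c ^ 2 * K * (L : ℝ) ^ 4) ^ 2 * Q) * F := by nlinarith [h6]
      exact le_of_mul_le_mul_right this h0
    rw [one_div, inv_mul_le_iff₀ (by positivity)]
    refine h7.trans (le_of_eq ?_)
    ring

/-- the basic inequality at one degree: `R = h d + d' h'`, `S = d* d + d' d'*`, where `d : C₁ → C` has the matrix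
`d` (rows `a`), `d' : C → C₋` the matrix `d'` (columns `b`). -/
theorem homotopy_form {a b : ℕ} (h : Matrix (Fin r) (Fin a) (MonoidAlgebra ℤ G))
    (d : Matrix (Fin a) (Fin r) (MonoidAlgebra ℤ G)) (d' : Matrix (Fin r) (Fin b) (MonoidAlgebra ℤ G))
    (h' : Matrix (Fin b) (Fin r) (MonoidAlgebra ℤ G)) :
    ∃ K : ℝ, 0 < K ∧ ∀ (X : Type) [Fintype X] [MulAction G X] (f : X × Fin r → ℝ),
      (f ᵥ* rg X (h * d + d' * h') ⬝ᵥ f) ^ 2 ≤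
        K * (∑ q, f q ^ 2) * (f ᵥ* rg X (adjZ d * d + d' * adjZ d') ⬝ᵥ f) := by
  classical
  obtain ⟨K1, hK1, hb1⟩ := u_lump.2.2.1 G r a h
  obtain ⟨K2, hK2, hb2⟩ := u_lump.2.2.1 G r b (adjZ h')
  have hadd : ∀ (X : Type) [Fintype X] [MulAction G X] (A B : Matrix (Fin r) (Fin r) (MonoidAlgebra ℤ G)),
      rg X (A + B) = rg X A + rg X B := by
    intro X _ _ A B
    ext p q
    unfold rg
    rw [Matrix.map_apply, Matrix.add_apply, Matrix.map_apply, Matrix.map_apply,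
      Pool.Agent.Q151.TG.reg_eq, Pool.Agent.Q151.TG.reg_eq, Pool.Agent.Q151.TG.reg_eq, Matrix.add_apply,
      map_add, Matrix.add_apply]
    push_cast
    rfl
  have hadjr : ∀ (s t : ℕ) (A : Matrix (Fin s) (Fin t) (MonoidAlgebra ℤ G)) (X : Type) [Fintype X]
      [MulAction G X], rg X (adjZ A) = (rg X A)ᵀ := by
    intro s t A X _ _
    unfold rg
    rw [u_lump.1]
    rfl
  have hK1' : (0 : ℝ) < K1 := by exact_mod_cast hK1
  have hK2' : (0 : ℝ) < K2 := by exact_mod_cast hK2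
  refine ⟨2 * (K1 ^ 2 + K2 ^ 2), by positivity, ?_⟩
  intro X _ _ f
  have e1 : f ᵥ* rg X (h * d + d' * h') ⬝ᵥ f =
      (f ᵥ* rg X h) ⬝ᵥ (f ᵥ* rg X (adjZ d)) + (f ᵥ* rg X d') ⬝ᵥ (f ᵥ* rg X (adjZ h')) := by
    rw [hadd, rg_mul, rg_mul, Matrix.vecMul_add, add_dotProduct, ← Matrix.vecMul_vecMul,
      ← Matrix.vecMul_vecMul, hadjr, hadjr, Matrix.vecMul_transpose, Matrix.vecMul_transpose,
      Matrix.dotProduct_mulVec, Matrix.dotProduct_mulVec]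
  have e2 : f ᵥ* rg X (adjZ d * d + d' * adjZ d') ⬝ᵥ f =
      (f ᵥ* rg X (adjZ d)) ⬝ᵥ (f ᵥ* rg X (adjZ d)) + (f ᵥ* rg X d') ⬝ᵥ (f ᵥ* rg X d') := by
    rw [hadd, rg_mul, rg_mul, Matrix.vecMul_add, add_dotProduct, ← Matrix.vecMul_vecMul,
      ← Matrix.vecMul_vecMul, hadjr, hadjr, Matrix.vecMul_transpose, Matrix.vecMul_transpose,
      ← Matrix.dotProduct_mulVec, ← Matrix.dotProduct_mulVec]
    congr 1
    rw [dotProduct_comm, Matrix.dotProduct_mulVec]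
  rw [e1, e2]
  have h1 := (hb1 X).2 f
  have h2 := (hb2 X).2 f
  have c1 : ((f ᵥ* rg X h) ⬝ᵥ (f ᵥ* rg X (adjZ d))) ^ 2 ≤
      (∑ q, (f ᵥ* rg X h) q ^ 2) * ∑ q, (f ᵥ* rg X (adjZ d)) q ^ 2 :=
    Finset.sum_mul_sq_le_sq_mul_sq Finset.univ _ _
  have c2 : ((f ᵥ* rg X d') ⬝ᵥ (f ᵥ* rg X (adjZ h'))) ^ 2 ≤
      (∑ q, (f ᵥ* rg X d') q ^ 2) * ∑ q, (f ᵥ* rg X (adjZ h')) q ^ 2 :=
    Finset.sum_mul_sq_le_sq_mul_sq Finset.univ _ _
  have g1 : (f ᵥ* rg X (adjZ d)) ⬝ᵥ (f ᵥ* rg X (adjZ d)) = ∑ q, (f ᵥ* rg X (adjZ d)) q ^ 2 := by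
    unfold dotProduct
    exact Finset.sum_congr rfl fun q _ => by ring
  have g2 : (f ᵥ* rg X d') ⬝ᵥ (f ᵥ* rg X d') = ∑ q, (f ᵥ* rg X d') q ^ 2 := by
    unfold dotProduct
    exact Finset.sum_congr rfl fun q _ => by ring
  rw [g1, g2]
  set F := ∑ q, f q ^ 2 with hF
  set u := ∑ q, (f ᵥ* rg X (adjZ d)) q ^ 2 with hu
  set v := ∑ q, (f ᵥ* rg X d') q ^ 2 with hv
  set x := (f ᵥ* rg X h) ⬝ᵥ (f ᵥ* rg X (adjZ d)) with hx
  set y := (f ᵥ* rg X d') ⬝ᵥ (f ᵥ* rg X (adjZ h')) with hy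
  have hF0 : 0 ≤ F := Finset.sum_nonneg fun q _ => sq_nonneg _
  have hu0 : 0 ≤ u := Finset.sum_nonneg fun q _ => sq_nonneg _
  have hv0 : 0 ≤ v := Finset.sum_nonneg fun q _ => sq_nonneg _
  have c1' : x ^ 2 ≤ (K1 ^ 2 * F) * u := c1.trans (mul_le_mul_of_nonneg_right h1 hu0)
  have c2' : y ^ 2 ≤ v * (K2 ^ 2 * F) := c2.trans (mul_le_mul_of_nonneg_left h2 hv0)
  have c3 : (x + y) ^ 2 ≤ 2 * (x ^ 2 + y ^ 2) := by nlinarith [sq_nonneg (x - y)]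
  have c4 : 0 ≤ (K2 : ℝ) ^ 2 * F * u := by positivity
  have c5 : 0 ≤ (K1 : ℝ) ^ 2 * F * v := by positivity
  nlinarith [c1', c2', c3, c4, c5]

end Pool.Agent.D0H83.AC
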