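import Pool.Agent.D0H83.AC.Eff1
import Pool.Agent.D0H83.AC.Lowl

set_option autoImplicit false

/-! # Project AC, third part: self-adjoint matrices with a lower bound for the quadratic form -/

namespace Pool.Agent.D0H83.AC

open Matrix Finset Filter Topology Pool.Agent.Q181.TG Pool.Agent.Helper993.FK

variable {G : Type} [Group G] {r : ℕ}

/-- `S` is self-adjoint and nonnegative on all finite `G`-sets, with a lower bound for its quadratic form on large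
subspaces -/
def FLow (Λ : Subgroup G) (p : ℕ) (S : Matrix (Fin r) (Fin r) (MonoidAlgebra ℤ G)) : Prop :=
  (∀ (X : Type) [Fintype X] [MulAction G X], (rg X S)ᵀ = rg X S) ∧
  (∀ (X : Type) [Fintype X] [MulAction G X] (f : X × Fin r → ℝ), 0 ≤ f ᵥ* rg X S ⬝ᵥ f) ∧
  ∃ (c C : ℝ), 0 < c ∧ 0 ≤ C ∧ ∀ (X : Type) [Fintype X] [MulAction G X] (L : ℕ), 1 ≤ L →
    ∃ W : Submodule ℝ (X × Fin r → ℝ), W ≤ Zs (ob Λ X) r ℝ ∧
      ((Module.finrank ℝ (Zs (ob Λ X) r ℝ) : ℝ) - Module.finrank ℝ W) * L ≤ C * Fintype.card X ∧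
      ∀ f ∈ W, c * ∑ q, f q ^ 2 ≤ (L : ℝ) ^ p * (f ᵥ* rg X S ⬝ᵥ f)

theorem vec_sq {N : Type} [Fintype N] (v : N → ℝ) : v ⬝ᵥ v = ∑ q, v q ^ 2 := by
  unfold dotProduct
  exact Finset.sum_congr rfl fun q _ => by ring

theorem form_adj (A : Matrix (Fin r) (Fin r) (MonoidAlgebra ℤ G)) (X : Type) [Fintype X] [MulAction G X]
    (f : X × Fin r → ℝ) : f ᵥ* rg X (A * adjZ A) ⬝ᵥ f = ∑ q, (f ᵥ* rg X A) q ^ 2 := by
  rw [rg_mul, rg_adj u_lump, ← Matrix.vecMul_vecMul, Matrix.vecMul_transpose, ← vec_sq]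
  rw [dotProduct_comm, Matrix.dotProduct_mulVec]

/-- `A A*` -/
theorem flow_sq (Λ : Subgroup G) (p : ℕ) (A : Matrix (Fin r) (Fin r) (MonoidAlgebra ℤ G))
    (hA : Low Λ p A) : FLow Λ p (A * adjZ A) := by
  obtain ⟨c, C, hc, hC, h⟩ := hA
  refine ⟨?_, ?_, c, C, hc, hC, ?_⟩
  · intro X _ _
    rw [rg_mul, rg_adj u_lump, Matrix.transpose_mul, Matrix.transpose_transpose]
  · intro X _ _ f
    rw [form_adj]
    exact Finset.sum_nonneg fun q _ => sq_nonneg _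
  · intro X _ _ L hL
    obtain ⟨W, h1, h2, h3⟩ := h X L hL
    refine ⟨W, h1, h2, fun f hf => ?_⟩
    rw [form_adj]
    exact h3 f hf

/-- from the form to the norm -/
theorem low_of_flow (Λ : Subgroup G) (p : ℕ) (S : Matrix (Fin r) (Fin r) (MonoidAlgebra ℤ G))
    (hS : FLow Λ p S) : Low Λ (p * 2) S := by
  obtain ⟨-, -, c, C, hc, hC, h⟩ := hS
  refine ⟨c ^ 2, C, by positivity, hC, ?_⟩
  intro X _ _ L hL
  obtain ⟨W, hW1, hW2, hW3⟩ := h X L hL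
  have hL0 : (0 : ℝ) < L := by exact_mod_cast hL
  refine ⟨W, hW1, hW2, fun f hf => ?_⟩
  have h1 := hW3 f hf
  have h3 := Finset.sum_mul_sq_le_sq_mul_sq Finset.univ (fun q => (f ᵥ* rg X S) q) (fun q => f q)
  have h3' : (f ᵥ* rg X S ⬝ᵥ f) ^ 2 ≤ (∑ q, (f ᵥ* rg X S) q ^ 2) * ∑ q, f q ^ 2 := h3
  set F := ∑ q, f q ^ 2 with hF
  set Q := ∑ q, (f ᵥ* rg X S) q ^ 2 with hQ
  set s := f ᵥ* rg X S ⬝ᵥ f with hs
  have hF0 : 0 ≤ F := Finset.sum_nonneg fun q _ => sq_nonneg _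
  have hQ0 : 0 ≤ Q := Finset.sum_nonneg fun q _ => sq_nonneg _
  rcases eq_or_lt_of_le hF0 with h0 | h0
  · rw [← h0, mul_zero]
    positivity
  · have h4 : (c * F) ^ 2 ≤ ((L : ℝ) ^ p) ^ 2 * (Q * F) := by
      calc (c * F) ^ 2 ≤ ((L : ℝ) ^ p * s) ^ 2 := pow_le_pow_left₀ (by positivity) h1 2
        _ = ((L : ℝ) ^ p) ^ 2 * s ^ 2 := by ring
        _ ≤ _ := mul_le_mul_of_nonneg_left h3' (by positivity)
    rw [pow_mul]
    have h5 : (c ^ 2 * F) * F ≤ (((L : ℝ) ^ p) ^ 2 * Q) * F := by nlinarith [h4]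
    exact le_of_mul_le_mul_right h5 h0

/-- self-adjoint dominating matrices -/
theorem flow_dom (Λ : Subgroup G) (R : Matrix (Fin r) (Fin r) (MonoidAlgebra ℤ G))
    (hR : Dominates Λ R) (hadj : adjZ R = R) : FLow Λ 2 R := by
  obtain ⟨c, C, hc, hC, h⟩ := form_dom Λ R hR
  refine ⟨fun X _ _ => by rw [← rg_adj u_lump, hadj], ?_, 1 / c, C, by positivity, hC, ?_⟩
  · obtain ⟨T, D, m, B, -, hD, hB⟩ := hR
    intro X _ _ f
    have h1 := u_dom G T r D m R B hB X f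
    have hDpos : (0 : ℝ) < 2 * D := by positivity
    have h2 : 0 ≤ ∑ i, ∑ t ∈ T, ∑ x, (f (t • x, i) - f (x, i)) ^ 2 :=
      Finset.sum_nonneg fun i _ => Finset.sum_nonneg fun t _ => Finset.sum_nonneg fun x _ => sq_nonneg _
    by_contra hcon
    push Not at hcon
    nlinarith [mul_neg_of_pos_of_neg hDpos hcon]
  · intro X _ _ L hL
    obtain ⟨W, h1, h2, h3⟩ := h X L hL
    refine ⟨W, h1, h2, fun f hf => ?_⟩
    have h4 := h3 f hf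
    rw [div_mul_eq_mul_div, one_mul, div_le_iff₀ hc]
    calc ∑ q, f q ^ 2 ≤ c * (L : ℝ) ^ 2 * (f ᵥ* rg X R ⬝ᵥ f) := h4
      _ = _ := by ring

open Classical in
/-- the data on one level -/
theorem slevel (hsqrt : S_sqrt) (Λ : Subgroup G) [Λ.Normal]
    (S : Matrix (Fin r) (Fin r) (MonoidAlgebra ℤ G)) (p : ℕ) (c C : ℝ) (X : Type) [Fintype X]
    [MulAction G X] [Fintype (MulAction.orbitRel.Quotient Λ X)] (hsym : (rg X S)ᵀ = rg X S)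
    (hpos : ∀ f : X × Fin r → ℝ, 0 ≤ f ᵥ* rg X S ⬝ᵥ f)
    (hW : ∀ L : ℕ, 1 ≤ L → ∃ W : Submodule ℝ (X × Fin r → ℝ), W ≤ Zs (ob Λ X) r ℝ ∧
      ((Module.finrank ℝ (Zs (ob Λ X) r ℝ) : ℝ) - Module.finrank ℝ W) * L ≤ C * Fintype.card X ∧
      ∀ f ∈ W, c * ∑ q, f q ^ 2 ≤ (L : ℝ) ^ p * (f ᵥ* rg X S ⬝ᵥ f))
    (K : ℕ) (hK : 1 ≤ K)
    (hnorm : ∀ f : X × Fin r → ℝ, ∑ q, (f ᵥ* rg X S) q ^ 2 ≤ (K : ℝ) ^ 2 * ∑ p, f p ^ 2) :
    ∃ (d d' : ℕ) (ν : Fin d → ℝ) (μ : Fin d' → ℝ), d + d' = r * Fintype.card X ∧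
      d' ≤ r * Fintype.card (MulAction.orbitRel.Quotient Λ X) ∧
      (∀ k, 0 ≤ ν k ∧ ν k ≤ (K : ℝ)) ∧ (∀ k, 0 ≤ μ k ∧ μ k ≤ (K : ℝ)) ∧
      (∀ k : ℕ, ((rg X S) ^ k).trace = ∑ j, ν j ^ k + ∑ j, μ j ^ k) ∧
      Cnt p c C (Fintype.card X) d ν ∧ dt u_lump Λ S X = ∏ k, ν k ∧
      ∃ P : Matrix (X × Fin r) (X × Fin r) ℝ, rg X S = P * Pᵀ ∧
        ∀ f : X × Fin r → ℝ, ∑ q, (f ᵥ* P) q ^ 2 ≤ (K : ℝ) * ∑ p, f p ^ 2 := by
  obtain ⟨P, hP1, hP2, hP3⟩ := hsqrt (X × Fin r) (rg X S) hsym hpos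
  have hinv : ∀ f ∈ Zs (ob Λ X) r ℝ, f ᵥ* rg X S ∈ Zs (ob Λ X) r ℝ := (u_lump.2.1 G Λ r S X).2
  have h1 : ∀ f ∈ Zs (ob Λ X) r ℝ, P.vecMulLinear f ∈ Zs (ob Λ X) r ℝ := hP3 _ hinv
  have h2 : ∀ f ∈ Zs (ob Λ X) r ℝ, f ᵥ* Pᵀ ∈ Zs (ob Λ X) r ℝ := by
    rw [hP1]
    exact h1
  have hPP : rg X S = P * Pᵀ := by rw [hP1, hP2]
  have hform : ∀ f : X × Fin r → ℝ, ∑ q, (f ᵥ* P) q ^ 2 = f ᵥ* rg X S ⬝ᵥ f := by
    intro f
    rw [hPP, ← Matrix.vecMul_vecMul, Matrix.vecMul_transpose, ← vec_sq, dotProduct_comm (P *ᵥ _) f,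
      Matrix.dotProduct_mulVec]
  have hPn : ∀ f : X × Fin r → ℝ, ∑ q, (f ᵥ* P) q ^ 2 ≤ (K : ℝ) * ∑ p, f p ^ 2 := by
    intro f
    rw [hform]
    have h3 := Finset.sum_mul_sq_le_sq_mul_sq Finset.univ (fun q => (f ᵥ* rg X S) q) (fun q => f q)
    have h3' : (f ᵥ* rg X S ⬝ᵥ f) ^ 2 ≤ (∑ q, (f ᵥ* rg X S) q ^ 2) * ∑ q, f q ^ 2 := h3
    have h4 := hnorm f
    have hF0 : 0 ≤ ∑ q, f q ^ 2 := Finset.sum_nonneg fun q _ => sq_nonneg _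
    have h5 : (f ᵥ* rg X S ⬝ᵥ f) ^ 2 ≤ ((K : ℝ) * ∑ q, f q ^ 2) ^ 2 := by
      calc (f ᵥ* rg X S ⬝ᵥ f) ^ 2 ≤ (∑ q, (f ᵥ* rg X S) q ^ 2) * ∑ q, f q ^ 2 := h3'
        _ ≤ ((K : ℝ) ^ 2 * ∑ p, f p ^ 2) * ∑ q, f q ^ 2 := mul_le_mul_of_nonneg_right h4 hF0
        _ = _ := by ring
    exact (abs_le_of_sq_le_sq' h5 (by positivity)).2
  obtain ⟨d, d', ν, μ, hd, hdd, hν, hμ, hKb, htr, hprod, hcount⟩ :=
    Pool.Agent.D0H52.AC.eig (X × Fin r) P (Zs (ob Λ X) r ℝ) h1 h2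
  have hKb' := hKb (K : ℝ) hPn
  have hcardX : Fintype.card (X × Fin r) = Fintype.card X * r := by
    rw [Fintype.card_prod, Fintype.card_fin]
  refine ⟨d, d', ν, μ, ?_, ?_, fun k => ⟨hν k, hKb'.1 k⟩, fun k => ⟨hμ k, hKb'.2 k⟩, ?_, ?_, ?_,
    P, hPP, hPn⟩
  · rw [hdd, hcardX, mul_comm]
  · have h3 := u_lump.2.2.2 X (MulAction.orbitRel.Quotient Λ X) (ob Λ X) r
    rw [← hd, ← hcardX, ← hdd] at h3
    omega
  · intro k
    rw [← htr k, hPP]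
  · intro L hL T hT
    obtain ⟨W, hW1, hW2, hW3⟩ := hW L hL
    have hL0 : (0 : ℝ) < (L : ℝ) ^ p := by
      have : (0 : ℝ) < L := by exact_mod_cast hL
      positivity
    have h3 := hcount (c / (L : ℝ) ^ p) W hW1 (by
      intro f hf
      have := hW3 f hf
      rw [hform, div_mul_eq_mul_div, div_le_iff₀ hL0]
      linarith)
    have h4 : T ⊆ Finset.univ.filter fun k => ν k < c / (L : ℝ) ^ p := by
      intro k hk
      rw [Finset.mem_filter]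
      refine ⟨Finset.mem_univ k, ?_⟩
      rw [lt_div_iff₀ hL0]
      exact hT k hk
    have h5 := Finset.card_le_card h4
    have h6 : (#T : ℝ) ≤ (Module.finrank ℝ (Zs (ob Λ X) r ℝ) : ℝ) - Module.finrank ℝ W := by
      have : #T + Module.finrank ℝ W ≤ Module.finrank ℝ (Zs (ob Λ X) r ℝ) := by
        rw [← hd]
        omega
      have h7 : (#T : ℝ) + Module.finrank ℝ W ≤ Module.finrank ℝ (Zs (ob Λ X) r ℝ) := by
        exact_mod_cast this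
      linarith
    exact (mul_le_mul_of_nonneg_right h6 (Nat.cast_nonneg L)).trans hW2
  · rw [hprod]
    unfold dt
    have h3 : (rg X S).vecMulLinear.restrict (u_lump.2.1 G Λ r S X).2 =
        (P.vecMulLinear.restrict h1) ∘ₗ (P.vecMulLinear.restrict h1) := by
      apply LinearMap.ext
      intro x
      apply Subtype.ext
      change (x : X × Fin r → ℝ) ᵥ* rg X S = ((x : X × Fin r → ℝ) ᵥ* P) ᵥ* P
      rw [Matrix.vecMul_vecMul, hP2]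
    rw [h3, LinearMap.det_comp, abs_mul, abs_mul_abs_self, sq]

end Pool.Agent.D0H83.AC
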