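import Pool.Agent.D0H83.AC.Eff3
import Pool.Agent.D0H83.AC.Flow

set_option autoImplicit false

/-! # Project AC, third part: the estimate on one level, in terms of the radius -/

namespace Pool.Agent.D0H83.AC

open Matrix Finset Filter Topology Pool.Agent.Q181.TG Pool.Agent.Helper993.FK

variable {G : Type} [Group G] {r : ℕ}

theorem fixd_mono {S T : Set G} {m n : ℕ} (h : ball S m ⊆ ball T n) (X : Type) [Fintype X]
    [MulAction G X] : fixd S m X ⊆ fixd T n X := by
  classical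
  intro x hx
  rw [fixd, mem_filter] at hx ⊢
  obtain ⟨-, g, hg, h1, h2⟩ := hx
  exact ⟨mem_univ _, g, h hg, h1, h2⟩

theorem rate_aux (p : ℕ) (hp : 2 ≤ p) (K2 δ x : ℝ) (hK2 : 1 ≤ K2) (hx0 : 0 < x) (hx1 : x ≤ 1)
    (hδ0 : 0 < δ) (hδ4 : δ ≤ 4 * K2 * x ^ 2) :
    δ ^ (1 / (p : ℝ)) ≤ 4 * K2 * x ^ (2 / (p : ℝ)) ∧ x ≤ x ^ (2 / (p : ℝ)) := by
  have hp0 : (0 : ℝ) < p := by positivity
  have hp2 : (2 : ℝ) ≤ p := by exact_mod_cast hp
  have h1p : 1 / (p : ℝ) ≤ 1 := by
    rw [div_le_one hp0]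
    linarith
  have h2p : 2 / (p : ℝ) ≤ 1 := by
    rw [div_le_one hp0]
    exact hp2
  constructor
  · calc δ ^ (1 / (p : ℝ)) ≤ (4 * K2 * x ^ 2) ^ (1 / (p : ℝ)) :=
          Real.rpow_le_rpow hδ0.le hδ4 (by positivity)
      _ = (4 * K2) ^ (1 / (p : ℝ)) * (x ^ 2) ^ (1 / (p : ℝ)) :=
          Real.mul_rpow (by positivity) (by positivity)
      _ ≤ (4 * K2) * x ^ (2 / (p : ℝ)) := by
          have e1 : (x ^ 2) ^ (1 / (p : ℝ)) = x ^ (2 / (p : ℝ)) := by
            rw [← Real.rpow_natCast, ← Real.rpow_mul hx0.le]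
            congr 1
            push_cast
            ring
          rw [e1]
          refine mul_le_mul_of_nonneg_right ?_ (by positivity)
          have := Real.rpow_le_rpow_of_exponent_le (show (1 : ℝ) ≤ 4 * K2 by linarith) h1p
          rwa [Real.rpow_one] at this
  · have := Real.rpow_le_rpow_of_exponent_ge hx0 hx1 h2p
    rwa [Real.rpow_one] at this

open Classical in
/-- the orbits -/
theorem orb_use (hball : S_ball) (horbs : S_orbs) (S : Finset G) (hS : Subgroup.closure (S : Set G) = ⊤)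
    (Λ : Subgroup G) [Infinite Λ] (T : Finset G) (hT : Subgroup.closure (T : Set G) = Λ) :
    ∃ a : ℕ, 1 ≤ a ∧ ∀ M : ℕ, 3 ≤ M → ∀ (X : Type) [Fintype X] [MulAction G X]
      [Fintype (MulAction.orbitRel.Quotient Λ X)],
      (Fintype.card (MulAction.orbitRel.Quotient Λ X) : ℝ) ≤
        (Fintype.card X : ℝ) / M + #(fixd (S : Set G) (a * M) X) ∧
      ∑ b : MulAction.orbitRel.Quotient Λ X, Real.log (#{x | ob Λ X x = b}) ≤
        (Fintype.card X : ℝ) * (Real.log M / M) + #(fixd (S : Set G) (a * M) X) := by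
  obtain ⟨a2, ha2, hT2⟩ := hball.2.2.1 G (S : Set G) T (by rw [hS]; exact fun _ _ => trivial)
  refine ⟨a2 * 2, by omega, fun M hM X _ _ _ => ?_⟩
  have hF2 : (#(fixd (T : Set G) (2 * M) X) : ℝ) ≤ #(fixd (S : Set G) (a2 * 2 * M) X) := by
    have : #(fixd (T : Set G) (2 * M) X) ≤ #(fixd (S : Set G) (a2 * 2 * M) X) :=
      card_le_card (fixd_mono (by
        have := hball.2.2.2.1 G (S : Set G) T a2 (2 * M) hT2
        rwa [← Nat.mul_assoc] at this) X)
    exact_mod_cast this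
  obtain ⟨h1, h2⟩ := horbs G T Λ hT X M hM
  exact ⟨by linarith, by linarith⟩

open Classical in
/-- **The determinants.** -/
theorem eff_dt (hcheb : S_cheb) (hsum : S_sum) (hdiag : S_diag) (hball : S_ball) (horbs : S_orbs)
    (hsqrt : S_sqrt) (S : Finset G) (hS : Subgroup.closure (S : Set G) = ⊤)
    (hfree : ∀ n, ∃ (X : Type) (_ : Fintype X) (_ : MulAction G X), ∃ x : X, x ∉ fixd (S : Set G) n X)
    (Λ : Subgroup G) [Λ.Normal] [Infinite Λ] (T : Finset G) (hT : Subgroup.closure (T : Set G) = Λ)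
    (B : Matrix (Fin r) (Fin r) (MonoidAlgebra ℤ G)) (p : ℕ) (hp : 2 ≤ p) (hB : FLow Λ p B) :
    ∃ (a M₁ : ℕ) (K0 : ℝ), 1 ≤ a ∧ 3 ≤ M₁ ∧ 0 ≤ K0 ∧ ∀ M : ℕ, M₁ ≤ M → ∃ τ : ℝ,
      ∀ (X : Type) [Fintype X] [MulAction G X], 0 < dt u_lump Λ B X ∧
        |Real.log (dt u_lump Λ B X) - Fintype.card X * τ| ≤
          K0 * (Fintype.card X * (Real.log M / M) ^ (2 / (p : ℝ)) +
            Real.log M * #(fixd (S : Set G) (a * M) X)) := by
  obtain ⟨hadj, hform, c, C, hc, hC, hlow⟩ := hB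
  obtain ⟨K, hK, hKb⟩ := u_lump.2.2.1 G r r B
  have hK' : (1 : ℝ) ≤ (K : ℝ) := by exact_mod_cast hK
  set K2 : ℝ := (K : ℝ) with hK2d
  have hK2 : (1 : ℝ) ≤ K2 := hK'
  obtain ⟨M₁, hM₁, hch⟩ := cheb_use hcheb K2 hK2
  obtain ⟨E, hE0, hE⟩ := hsum p r c C hp hc hC
  -- the radii
  obtain ⟨a1, ha1, hsupp⟩ := hball.2.2.1 G (S : Set G)
    (univ.biUnion fun ij : Fin r × Fin r => (B ij.1 ij.2).coeff.support)
    (by rw [hS]; exact fun _ _ => trivial)
  have ha : ∀ i j, ∀ g ∈ (B i j).coeff.support, g ∈ ball (S : Set G) a1 := by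
    intro i j g hg
    refine hsupp ?_
    rw [mem_coe, mem_biUnion]
    exact ⟨(i, j), mem_univ _, hg⟩
  obtain ⟨a2, ha2, horb⟩ := orb_use hball horbs S hS Λ T hT
  set a := a1 + a2 with had
  set B1 : ℝ := 3 + Real.log (K2 + 1) with hB1
  have hB10 : 0 ≤ B1 := by
    have : 0 ≤ Real.log (K2 + 1) := Real.log_nonneg (by linarith)
    linarith
  set K0 : ℝ := E * (4 * K2) + r + 3 * r * B1 with hK0
  have hr0 : (0 : ℝ) ≤ r := Nat.cast_nonneg r
  have hK00 : 0 ≤ K0 := by positivity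
  refine ⟨a, M₁, K0, by omega, hM₁, hK00, fun M hM => ?_⟩
  have hM3 : 3 ≤ M := hM₁.trans hM
  obtain ⟨q, δ, hq1, hδ0, hδ1, hδ4, hq2, hq3⟩ := hch M hM
  have hlog := one_le_log hM3
  have hM0 : (0 : ℝ) < M := by positivity
  set x := Real.log M / M with hx
  have hx0 : 0 < x := by positivity
  have hx1 : x ≤ 1 := (log_div_le hM3).trans (by norm_num)
  obtain ⟨hr1, hr2⟩ := rate_aux p hp K2 δ x hK2 hx0 hx1 hδ0 hδ4
  set y := x ^ (2 / (p : ℝ)) with hy
  have hy0 : 0 < y := Real.rpow_pos_of_pos hx0 _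
  have hMx : 1 / (M : ℝ) ≤ x := div_le_div_of_nonneg_right hlog hM0.le
  have hsl := fun (X : Type) [Fintype X] [MulAction G X]
      [Fintype (MulAction.orbitRel.Quotient Λ X)] => slevel hsqrt Λ B p c C X (hadj X) (hform X)
    (fun L hL => hlow X L hL) K hK (hKb X).2
  -- the values over the group
  have htau : ∀ i, |tau B q i| ≤ B1 * Real.log M := by
    intro i
    obtain ⟨X, _, _, x, hx⟩ := hfree (a1 * M)
    have hfinY : Fintype (MulAction.orbitRel.Quotient Λ X) := Fintype.ofFinite _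
    obtain ⟨-, -, -, -, -, -, -, -, -, -, -, P, hP1, hP2⟩ := hsl X
    exact (trace_near hdiag hball B (S : Set G) a1 M ha q hq1 X K2 _ P hP1 hP2 hq3).1 i ⟨x, hx⟩
  refine ⟨∑ i, tau B q i, fun X _ _ => ?_⟩
  have hfinY : Fintype (MulAction.orbitRel.Quotient Λ X) := Fintype.ofFinite _
  obtain ⟨d, d', ν, μ, hdd, hd', hν, hμ, htr, hcnt, hD, P, hP1, hP2⟩ := hsl X
  have hdn : d ≤ r * Fintype.card X := by omega
  obtain ⟨hpos, hs⟩ := hE (Fintype.card X) d ν hdn hcnt
  have hD0 : 0 < dt u_lump Λ B X := by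
    rw [hD]
    exact Finset.prod_pos fun k _ => hpos k
  set N : ℝ := (Fintype.card X : ℝ) with hN
  have hN0 : 0 ≤ N := Nat.cast_nonneg _
  set F : ℝ := (#(fixd (S : Set G) (a * M) X) : ℝ) with hF
  have hF0 : 0 ≤ F := Nat.cast_nonneg _
  have hF1 : (#(fixd (S : Set G) (a1 * M) X) : ℝ) ≤ F := by
    have : #(fixd (S : Set G) (a1 * M) X) ≤ #(fixd (S : Set G) (a * M) X) :=
      card_le_card (fixd_mono (hball.1 G (S : Set G) _ _ (Nat.mul_le_mul_right M (by omega))) X)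
    rw [hF]
    exact_mod_cast this
  have hF2 : (#(fixd (S : Set G) (a2 * M) X) : ℝ) ≤ F := by
    have : #(fixd (S : Set G) (a2 * M) X) ≤ #(fixd (S : Set G) (a * M) X) :=
      card_le_card (fixd_mono (hball.1 G (S : Set G) _ _ (Nat.mul_le_mul_right M (by omega))) X)
    rw [hF]
    exact_mod_cast this
  obtain ⟨ho1, -⟩ := horb M hM3 X
  set Y : ℝ := (Fintype.card (MulAction.orbitRel.Quotient Λ X) : ℝ) with hY
  have hY0 : 0 ≤ Y := Nat.cast_nonneg _
  have hNM : N / M ≤ N * x := by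
    rw [div_eq_mul_one_div]
    exact mul_le_mul_of_nonneg_left hMx hN0
  have hNx : N * x ≤ N * y := mul_le_mul_of_nonneg_left hr2 hN0
  have hY1 : Y ≤ N / M + F := by linarith
  have hYl : Y * Real.log M ≤ N * y + Real.log M * F := by
    have h1 : Y * Real.log M ≤ (N / M + F) * Real.log M :=
      mul_le_mul_of_nonneg_right hY1 (by linarith)
    have h2 : (N / M + F) * Real.log M = N * x + Real.log M * F := by
      rw [hx]
      ring
    linarith
  refine ⟨hD0, ?_⟩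
  have e1 : Real.log (dt u_lump Λ B X) = ∑ k, Real.log (ν k) := by
    rw [hD, Real.log_prod (fun k _ => (hpos k).ne')]
  have ht := (trace_near hdiag hball B (S : Set G) a1 M ha q hq1 X K2 _ P hP1 hP2 hq3).2 htau
  rw [trace_poly _ q ν μ htr] at ht
  have h1 := one_level (E * N * δ ^ (1 / (p : ℝ))) (n := r * Fintype.card X) ν μ K2 δ (1 / M)
    (B1 * Real.log M) q (fun k => ⟨hpos k, (hν k).2⟩) hμ hδ0 hq2 hq3 (hs δ hδ0 hδ1) hdn
    (by linarith) _ _ ht
  rw [e1]
  refine h1.trans ?_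
  have h2 : E * N * δ ^ (1 / (p : ℝ)) ≤ E * (4 * K2) * (N * y) := by
    calc E * N * δ ^ (1 / (p : ℝ)) ≤ E * N * (4 * K2 * y) :=
          mul_le_mul_of_nonneg_left hr1 (by positivity)
      _ = _ := by ring
  have h3 : ((r * Fintype.card X : ℕ) : ℝ) * (1 / M) ≤ r * (N * y) := by
    push_cast
    calc (r : ℝ) * Fintype.card X * (1 / M) = r * (N / M) := by rw [hN]; ring
      _ ≤ r * (N * y) := mul_le_mul_of_nonneg_left (hNM.trans hNx) hr0
  have h4 : (d' : ℝ) * (B1 * Real.log M) ≤ r * B1 * (N * y + Real.log M * F) := by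
    have h5 : (d' : ℝ) ≤ r * Y := by
      rw [hY]
      exact_mod_cast hd'
    calc (d' : ℝ) * (B1 * Real.log M) ≤ (r * Y) * (B1 * Real.log M) :=
          mul_le_mul_of_nonneg_right h5 (by positivity)
      _ = r * B1 * (Y * Real.log M) := by ring
      _ ≤ _ := mul_le_mul_of_nonneg_left hYl (by positivity)
  have h6 : 2 * (r : ℝ) * (B1 * Real.log M) * (#(fixd (S : Set G) (a1 * M) X) : ℝ) ≤
      2 * r * B1 * (Real.log M * F) := by
    calc 2 * (r : ℝ) * (B1 * Real.log M) * (#(fixd (S : Set G) (a1 * M) X) : ℝ)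
        ≤ 2 * (r : ℝ) * (B1 * Real.log M) * F := mul_le_mul_of_nonneg_left hF1 (by positivity)
      _ = _ := by ring
  have hNy : 0 ≤ N * y := by positivity
  have hlF : 0 ≤ Real.log M * F := by positivity
  have g4 : 0 ≤ (E * (4 * K2) + r) * (Real.log M * F) := by positivity
  have g5 : 0 ≤ (2 * r * B1) * (N * y) := by positivity
  have g6 : K0 * (N * y + Real.log M * F) =
      (E * (4 * K2) * (N * y) + r * (N * y) + r * B1 * (N * y + Real.log M * F) +
        2 * r * B1 * (Real.log M * F)) +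
      ((E * (4 * K2) + r) * (Real.log M * F) + (2 * r * B1) * (N * y)) := by
    rw [hK0]
    ring
  rw [g6]
  linarith

open Classical in
/-- **The torsion.** -/
theorem eff_tc (hball : S_ball) (horbs : S_orbs)
    (S : Finset G) (hS : Subgroup.closure (S : Set G) = ⊤)
    (Λ : Subgroup G) [Λ.Normal] [Infinite Λ] (T : Finset G) (hT : Subgroup.closure (T : Set G) = Λ)
    (A : Matrix (Fin r) (Fin r) (MonoidAlgebra ℤ G)) :
    ∃ (a : ℕ) (K0 : ℝ), 1 ≤ a ∧ 0 ≤ K0 ∧ ∀ M : ℕ, 3 ≤ M →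
      ∀ (X : Type) [Fintype X] [MulAction G X], 0 < dt u_lump Λ A X →
        |Real.log (tc (Cok (reg X A))) - Real.log (dt u_lump Λ A X)| ≤
          K0 * (Fintype.card X * (Real.log M / M) +
            Real.log M * #(fixd (S : Set G) (a * M) X)) := by
  obtain ⟨K, hK, hKb⟩ := u_lump.2.2.1 G r r A
  have hK' : (1 : ℝ) ≤ (K : ℝ) := by exact_mod_cast hK
  have hlogK : 0 ≤ Real.log K := Real.log_nonneg hK'
  obtain ⟨a, ha, horb⟩ := orb_use hball horbs S hS Λ T hT
  have hr0 : (0 : ℝ) ≤ r := Nat.cast_nonneg r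
  refine ⟨a, r * Real.log K + r, ha, by positivity, fun M hM3 X _ _ hD0 => ?_⟩
  have hlog := one_le_log hM3
  have hM0 : (0 : ℝ) < M := by positivity
  have hfinY : Fintype (MulAction.orbitRel.Quotient Λ X) := Fintype.ofFinite _
  obtain ⟨ho1, ho2⟩ := horb M hM3 X
  set N : ℝ := (Fintype.card X : ℝ) with hN
  have hN0 : 0 ≤ N := Nat.cast_nonneg _
  set F : ℝ := (#(fixd (S : Set G) (a * M) X) : ℝ) with hF
  have hF0 : 0 ≤ F := Nat.cast_nonneg _
  set Y : ℝ := (Fintype.card (MulAction.orbitRel.Quotient Λ X) : ℝ) with hY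
  have hY0 : 0 ≤ Y := Nat.cast_nonneg _
  set x := Real.log M / M with hx
  have hMx : 1 / (M : ℝ) ≤ x := div_le_div_of_nonneg_right hlog hM0.le
  have hNM : N / M ≤ N * x := by
    rw [div_eq_mul_one_div]
    exact mul_le_mul_of_nonneg_left hMx hN0
  have hFl : F ≤ Real.log M * F := by nlinarith
  have hdet : LinearMap.det ((rg X A).vecMulLinear.restrict (u_lump.2.1 G Λ r A X).2) ≠ 0 := by
    intro h0
    unfold dt at hD0
    rw [h0] at hD0
    simp at hD0
  obtain ⟨hD3, hD4⟩ := Pool.Agent.D0H8.AC.t_tor X (MulAction.orbitRel.Quotient Λ X) r (ob Λ X) (reg X A) K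
    hK Quotient.mk_surjective (u_lump.2.1 G Λ r A X).1 (hKb X).1 (u_lump.2.1 G Λ r A X).2 hdet
  change (tc (Cok (reg X A)) : ℝ) ≤ dt u_lump Λ A X * _ at hD3
  change dt u_lump Λ A X ≤ _ at hD4
  replace hD4 : dt u_lump Λ A X ≤ tc (Cok (reg X A)) *
      ∏ b : MulAction.orbitRel.Quotient Λ X, (#{x | ob Λ X x = b} : ℝ) ^ r := by
    refine le_trans hD4 (le_of_eq ?_)
    congr 1
    refine Finset.prod_congr rfl fun b _ => ?_
    congr 3
    ext x
    simp only [Finset.mem_filter]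
  have hYpos : ∀ b : MulAction.orbitRel.Quotient Λ X, (0 : ℝ) < (#{x | ob Λ X x = b} : ℝ) := by
    intro b
    obtain ⟨x, hx⟩ := Quotient.mk_surjective b
    have : 0 < #{x | ob Λ X x = b} := Finset.card_pos.mpr ⟨x, by
      rw [Finset.mem_filter]
      exact ⟨Finset.mem_univ x, hx⟩⟩
    exact_mod_cast this
  have htpos : (0 : ℝ) < tc (Cok (reg X A)) := by
    by_contra hcon
    have h0 : (tc (Cok (reg X A)) : ℝ) = 0 := le_antisymm (not_lt.mp hcon) (Nat.cast_nonneg _)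
    rw [h0, zero_mul] at hD4
    exact absurd hD0 (not_lt.mpr hD4)
  have hup : Real.log (tc (Cok (reg X A))) ≤ Real.log (dt u_lump Λ A X) + (r * Real.log K) * Y := by
    have h1 := Real.log_le_log htpos hD3
    rw [Real.log_mul hD0.ne' (by positivity), Real.log_pow] at h1
    push_cast at h1
    linarith
  have hlo : Real.log (dt u_lump Λ A X) ≤ Real.log (tc (Cok (reg X A))) +
      r * ∑ b : MulAction.orbitRel.Quotient Λ X, Real.log (#{x : X | ob Λ X x = b}) := by
    have h1 := Real.log_le_log hD0 hD4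
    rw [Real.log_mul htpos.ne' (Finset.prod_pos fun b _ => pow_pos (hYpos b) r).ne',
      Real.log_prod (fun b _ => (pow_pos (hYpos b) r).ne')] at h1
    simp only [Real.log_pow] at h1
    rw [← Finset.mul_sum] at h1
    exact h1
  have hU0 : 0 ≤ N * x + Real.log M * F := by positivity
  have hY2 : Y ≤ N * x + Real.log M * F := by linarith
  have h3 : (r * Real.log K) * Y ≤ (r * Real.log K) * (N * x + Real.log M * F) :=
    mul_le_mul_of_nonneg_left hY2 (by positivity)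
  have h4 : (r : ℝ) * ∑ b : MulAction.orbitRel.Quotient Λ X, Real.log (#{x : X | ob Λ X x = b}) ≤
      r * (N * x + Real.log M * F) :=
    mul_le_mul_of_nonneg_left (by linarith) hr0
  have h5 : 0 ≤ (r * Real.log K) * (N * x + Real.log M * F) := by positivity
  have h6 : 0 ≤ (r : ℝ) * (N * x + Real.log M * F) := by positivity
  have h7 : (r * Real.log K + r) * (N * x + Real.log M * F) =
      (r * Real.log K) * (N * x + Real.log M * F) + r * (N * x + Real.log M * F) := by ring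
  rw [abs_le, h7]
  constructor <;> linarith

end Pool.Agent.D0H83.AC
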