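import Pool.Agent.D0H83.AC.Eff4
import Pool.Agent.D0H70.AC.Orbs

set_option autoImplicit false

/-! # Project AC, third part: rates of convergence -/

namespace Pool.Agent.D0H83.AC

open Matrix Finset Filter Topology Pool.Agent.Q181.TG Pool.Agent.Helper993.FK

variable {G : Type} [Group G] {r : ℕ}

/-- `u X` is `|X| ρ` up to an error which is at most `K |X| (log n / n)^θ` plus `K log n` times the number of points
of `X` which are fixed by a nontrivial word of length at most `n` -/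
def Rate (S : Finset G) (θ : ℝ) (u : (X : Type) → [Fintype X] → [MulAction G X] → ℝ) (ρ : ℝ) : Prop :=
  ∃ K : ℝ, 0 ≤ K ∧ ∀ (X : Type) [Fintype X] [MulAction G X] (n : ℕ), 2 ≤ n →
    |u X - Fintype.card X * ρ| ≤
      K * (Fintype.card X * (Real.log n / n) ^ θ + Real.log n * #(fixd (S : Set G) n X))

theorem log_div_pos {n : ℕ} (hn : 2 ≤ n) : 0 < Real.log n / n := by
  have h2 : (2 : ℝ) ≤ n := by exact_mod_cast hn
  have := Real.log_pos (show (1 : ℝ) < n by linarith)
  positivity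

theorem log_div_le_one {n : ℕ} (hn : 2 ≤ n) : Real.log n / n ≤ 1 := by
  have h2 : (2 : ℝ) ≤ n := by exact_mod_cast hn
  rw [div_le_one (by linarith)]
  have := Real.log_le_sub_one_of_pos (show (0 : ℝ) < n by linarith)
  linarith

theorem Rate.mono {S : Finset G} {θ θ' : ℝ} {u : (X : Type) → [Fintype X] → [MulAction G X] → ℝ} {ρ : ℝ}
    (h : Rate S θ u ρ) (hθ : θ' ≤ θ) : Rate S θ' u ρ := by
  obtain ⟨K, hK, h⟩ := h
  refine ⟨K, hK, fun X _ _ n hn => (h X n hn).trans (mul_le_mul_of_nonneg_left ?_ hK)⟩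
  have h1 := Real.rpow_le_rpow_of_exponent_ge (log_div_pos hn) (log_div_le_one hn) hθ
  have := mul_le_mul_of_nonneg_left h1 (Nat.cast_nonneg (α := ℝ) (Fintype.card X))
  linarith

theorem Rate.add {S : Finset G} {θ : ℝ} {u v : (X : Type) → [Fintype X] → [MulAction G X] → ℝ} {ρ σ : ℝ}
    (h : Rate S θ u ρ) (h' : Rate S θ v σ) : Rate S θ (fun X => u X + v X) (ρ + σ) := by
  obtain ⟨K, hK, h⟩ := h
  obtain ⟨K', hK', h'⟩ := h'
  refine ⟨K + K', add_nonneg hK hK', fun X _ _ n hn => ?_⟩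
  have h1 := h X n hn
  have h2 := h' X n hn
  have e : u X + v X - Fintype.card X * (ρ + σ) = (u X - Fintype.card X * ρ) + (v X - Fintype.card X * σ) := by
    ring
  rw [e, add_mul]
  exact (abs_add_le _ _).trans (add_le_add h1 h2)

theorem Rate.smul {S : Finset G} {θ : ℝ} {u : (X : Type) → [Fintype X] → [MulAction G X] → ℝ} {ρ : ℝ}
    (h : Rate S θ u ρ) (c : ℝ) : Rate S θ (fun X => c * u X) (c * ρ) := by
  obtain ⟨K, hK, h⟩ := h
  refine ⟨|c| * K, mul_nonneg (abs_nonneg c) hK, fun X _ _ n hn => ?_⟩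
  have h1 := h X n hn
  have e : c * u X - Fintype.card X * (c * ρ) = c * (u X - Fintype.card X * ρ) := by ring
  rw [e, abs_mul, mul_assoc]
  exact mul_le_mul_of_nonneg_left h1 (abs_nonneg c)

theorem Rate.congr {S : Finset G} {θ : ℝ} {u v : (X : Type) → [Fintype X] → [MulAction G X] → ℝ} {ρ : ℝ}
    (h : Rate S θ u ρ) (e : ∀ (X : Type) [Fintype X] [MulAction G X], v X = u X) : Rate S θ v ρ := by
  obtain ⟨K, hK, h⟩ := h
  refine ⟨K, hK, fun X _ _ n hn => ?_⟩
  rw [e X]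
  exact h X n hn

theorem Rate.zero (S : Finset G) (θ : ℝ) : Rate S θ (fun _ => 0) 0 := by
  refine ⟨0, le_rfl, fun X _ _ n hn => ?_⟩
  simp

theorem Rate.sum {ι : Type} (s : Finset ι) {S : Finset G} {θ : ℝ}
    {u : ι → (X : Type) → [Fintype X] → [MulAction G X] → ℝ} {ρ : ι → ℝ}
    (h : ∀ i ∈ s, Rate S θ (u i) (ρ i)) : Rate S θ (fun X => ∑ i ∈ s, u i X) (∑ i ∈ s, ρ i) := by
  classical
  induction s using Finset.induction_on with
  | empty =>
    simp only [Finset.sum_empty]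
    exact Rate.zero S θ
  | insert i s hi ih =>
    have h1 := (h i (Finset.mem_insert_self i s)).add (ih fun j hj => h j (Finset.mem_insert_of_mem hj))
    rw [Finset.sum_insert hi]
    exact h1.congr fun X _ _ => by rw [Finset.sum_insert hi]

/-- a squeeze -/
theorem Rate.squeeze {S : Finset G} {θ : ℝ} {u v w : (X : Type) → [Fintype X] → [MulAction G X] → ℝ} {ρ : ℝ}
    (h : Rate S θ u ρ) (h' : Rate S θ w ρ)
    (e : ∀ (X : Type) [Fintype X] [MulAction G X], u X ≤ v X ∧ v X ≤ w X) : Rate S θ v ρ := by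
  obtain ⟨K, hK, h⟩ := h
  obtain ⟨K', hK', h'⟩ := h'
  refine ⟨K + K', add_nonneg hK hK', fun X _ _ n hn => ?_⟩
  have h1 := h X n hn
  have h2 := h' X n hn
  have h3 := e X
  have h4 := (abs_nonneg _).trans h1
  have h5 := (abs_nonneg _).trans h2
  rw [add_mul]
  rw [abs_le] at h1 h2 ⊢
  constructor <;> linarith [h1.1, h1.2, h2.1, h2.2, h3.1, h3.2]

open Classical in
theorem far_fixd (S : Finset G) (n : ℕ) (X : ℕ → Type) [∀ i, Fintype (X i)] [∀ i, MulAction G (X i)]
    (h : Far G X) : Tendsto (fun i => (#(fixd (S : Set G) n (X i)) : ℝ) / Fintype.card (X i)) atTop (𝓝 0) := by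
  have hfin := Pool.Agent.D0H70.AC.ball_finite S n
  set Bl := hfin.toFinset.filter fun g => g ≠ 1 with hBl
  have h1 : Tendsto (fun i => ∑ g ∈ Bl, ((#{x : X i | g • x = x} : ℕ) : ℝ) / Fintype.card (X i)) atTop
      (𝓝 0) := by
    rw [show (0 : ℝ) = ∑ g ∈ Bl, (0 : ℝ) by simp]
    exact tendsto_finsetSum _ fun g hg => Pool.Agent.D0H25.AC.far_fix h g (mem_filter.1 hg).2
  refine squeeze_zero (fun i => by positivity) (fun i => ?_) h1
  rw [← sum_div]
  apply div_le_div_of_nonneg_right _ (Nat.cast_nonneg _)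
  have h2 : #(fixd (S : Set G) n (X i)) ≤ ∑ g ∈ Bl, #{x : X i | g • x = x} := by
    refine le_trans (card_le_card ?_) card_biUnion_le
    intro x hx
    rw [fixd, mem_filter] at hx
    obtain ⟨-, g, hg, hg1, hgx⟩ := hx
    rw [mem_biUnion]
    refine ⟨g, ?_, mem_filter.2 ⟨mem_univ _, hgx⟩⟩
    rw [hBl, mem_filter]
    exact ⟨hfin.mem_toFinset.2 hg, hg1⟩
  exact_mod_cast h2

theorem free_of_far (S : Finset G) (X : ℕ → Type) [∀ i, Fintype (X i)] [∀ i, Nonempty (X i)]
    [∀ i, MulAction G (X i)] (h : Far G X) (n : ℕ) :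
    ∃ (X : Type) (_ : Fintype X) (_ : MulAction G X), ∃ x : X, x ∉ fixd (S : Set G) n X := by
  have h1 := (far_fixd S n X h).eventually_lt_const (show (0 : ℝ) < 1 by norm_num)
  obtain ⟨i, hi⟩ := h1.exists
  refine ⟨X i, inferInstance, inferInstance, ?_⟩
  by_contra hcon
  push Not at hcon
  have h2 : fixd (S : Set G) n (X i) = univ := Finset.eq_univ_iff_forall.2 hcon
  have hX : (0 : ℝ) < Fintype.card (X i) := by exact_mod_cast Fintype.card_pos
  rw [h2, card_univ, div_self hX.ne'] at hi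
  exact lt_irrefl _ hi

theorem rate_of (hball : S_ball) (hext : S_ext) (S : Finset G) (a M₁ : ℕ) (K0 θ : ℝ) (ha : 1 ≤ a)
    (hM₁ : 3 ≤ M₁) (hK0 : 0 ≤ K0) (hθ : 0 < θ) (hθ1 : θ ≤ 1)
    (u : (X : Type) → [Fintype X] → [MulAction G X] → ℝ) (ρ : ℝ)
    (h : ∀ M : ℕ, M₁ ≤ M → ∀ (X : Type) [Fintype X] [MulAction G X],
      |u X - Fintype.card X * ρ| ≤ K0 * (Fintype.card X * (Real.log M / M) ^ θ +
        Real.log M * #(fixd (S : Set G) (a * M) X))) : Rate S θ u ρ := by
  obtain ⟨K, hK, h1⟩ := hext a M₁ K0 θ ha hM₁ hK0 hθ hθ1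
  refine ⟨K, hK, fun X _ _ n hn => ?_⟩
  refine h1 _ (Fintype.card X) (fun n => (#(fixd (S : Set G) n X) : ℝ)) (Nat.cast_nonneg _) ?_
    (fun n => Nat.cast_nonneg _) (fun n => ?_) (fun M hM => h M hM X) n hn
  · intro m n hmn
    have h3 := card_le_card (fixd_mono (hball.1 G (S : Set G) m n hmn) X)
    change (#(fixd (S : Set G) m X) : ℝ) ≤ #(fixd (S : Set G) n X)
    exact_mod_cast h3
  · exact_mod_cast card_le_univ _

open Classical in
/-- **The rate of convergence of the determinants.** -/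
theorem rate_dt (hcheb : S_cheb) (hsum : S_sum) (hdiag : S_diag) (hball : S_ball) (horbs : S_orbs)
    (hsqrt : S_sqrt) (hext : S_ext) (S : Finset G) (hS : Subgroup.closure (S : Set G) = ⊤)
    (Λ : Subgroup G) [Λ.Normal] [Infinite Λ] (T : Finset G) (hT : Subgroup.closure (T : Set G) = Λ)
    (B : Matrix (Fin r) (Fin r) (MonoidAlgebra ℤ G)) (p : ℕ) (hp : 2 ≤ p) (hB : FLow Λ p B)
    (X₀ : ℕ → Type) [∀ i, Fintype (X₀ i)] [∀ i, Nonempty (X₀ i)] [∀ i, MulAction G (X₀ i)]
    (hX₀ : Far G X₀) :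
    (∀ (X : Type) [Fintype X] [MulAction G X], 0 < dt u_lump Λ B X) ∧
    Rate S (2 / (p : ℝ)) (fun X => Real.log (dt u_lump Λ B X)) (Real.log (fkDet (rMul (B.map toQ)))) := by
  obtain ⟨a, M₁, K0, ha, hM₁, hK0, h⟩ := eff_dt hcheb hsum hdiag hball horbs hsqrt S hS
    (free_of_far S X₀ hX₀) Λ T hT B p hp hB
  have hp0 : (0 : ℝ) < p := by positivity
  have hp2 : (2 : ℝ) ≤ p := by exact_mod_cast hp
  obtain ⟨-, -, ⟨hlim, -⟩, -⟩ := main_low Λ B (p * 2) (low_of_flow Λ p B hB) X₀ hX₀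
  refine ⟨fun X _ _ => ?_, ?_⟩
  · obtain ⟨τ, hτ⟩ := h M₁ le_rfl
    exact (hτ X).1
  refine rate_of hball hext S a M₁ (2 * K0) (2 / p) ha hM₁ (by positivity) (by positivity)
    (by rw [div_le_one hp0]; exact hp2) _ _ fun M hM X _ _ => ?_
  obtain ⟨τ, hτ⟩ := h M hM
  set y := (Real.log M / M) ^ (2 / (p : ℝ)) with hy
  have hM3 : 3 ≤ M := hM₁.trans hM
  have hlog := one_le_log hM3
  have hy0 : 0 ≤ y := Real.rpow_nonneg (by positivity) _
  have h1 : |Real.log (fkDet (rMul (B.map toQ))) - τ| ≤ K0 * y := by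
    have h2 : Tendsto (fun i => |Real.log (dt u_lump Λ B (X₀ i)) / Fintype.card (X₀ i) - τ|) atTop
        (𝓝 |Real.log (fkDet (rMul (B.map toQ))) - τ|) := (hlim.sub_const τ).abs
    have h3 : Tendsto (fun i => K0 * y + K0 * Real.log M *
        ((#(fixd (S : Set G) (a * M) (X₀ i)) : ℝ) / Fintype.card (X₀ i))) atTop (𝓝 (K0 * y)) := by
      have := ((far_fixd S (a * M) X₀ hX₀).const_mul (K0 * Real.log M)).const_add (K0 * y)
      simpa using this
    refine le_of_tendsto_of_tendsto' h2 h3 fun i => ?_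
    have hX : (0 : ℝ) < Fintype.card (X₀ i) := by exact_mod_cast Fintype.card_pos
    have h4 := (hτ (X₀ i)).2
    have e1 : Real.log (dt u_lump Λ B (X₀ i)) / Fintype.card (X₀ i) - τ =
        (Real.log (dt u_lump Λ B (X₀ i)) - Fintype.card (X₀ i) * τ) / Fintype.card (X₀ i) := by
      field_simp
    rw [e1, abs_div, abs_of_pos hX, div_le_iff₀ hX]
    refine h4.trans (le_of_eq ?_)
    field_simp
  have h5 := (hτ X).2
  have hN : (0 : ℝ) ≤ Fintype.card X := Nat.cast_nonneg _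
  have e2 : Real.log (dt u_lump Λ B X) - Fintype.card X * Real.log (fkDet (rMul (B.map toQ))) =
      (Real.log (dt u_lump Λ B X) - Fintype.card X * τ) -
        Fintype.card X * (Real.log (fkDet (rMul (B.map toQ))) - τ) := by ring
  rw [e2]
  refine (abs_sub _ _).trans ?_
  rw [abs_mul, abs_of_nonneg hN]
  have h6 := mul_le_mul_of_nonneg_left h1 hN
  have h7 : 0 ≤ K0 * (Real.log M * (#(fixd (S : Set G) (a * M) X) : ℝ)) := by positivity
  calc _ ≤ K0 * (Fintype.card X * y + Real.log M * #(fixd (S : Set G) (a * M) X)) +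
        Fintype.card X * (K0 * y) := add_le_add h5 h6
    _ ≤ _ := by
      have e3 : 2 * K0 * (Fintype.card X * y + Real.log M * #(fixd (S : Set G) (a * M) X)) =
        K0 * (Fintype.card X * y + Real.log M * #(fixd (S : Set G) (a * M) X)) +
          Fintype.card X * (K0 * y) + K0 * (Real.log M * (#(fixd (S : Set G) (a * M) X) : ℝ)) := by ring
      rw [e3]
      linarith

open Classical in
/-- **The torsion.** -/
theorem rate_tc (hball : S_ball) (horbs : S_orbs) (hext : S_ext)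
    (S : Finset G) (hS : Subgroup.closure (S : Set G) = ⊤)
    (Λ : Subgroup G) [Λ.Normal] [Infinite Λ] (T : Finset G) (hT : Subgroup.closure (T : Set G) = Λ)
    (A : Matrix (Fin r) (Fin r) (MonoidAlgebra ℤ G))
    (hA : ∀ (X : Type) [Fintype X] [MulAction G X], 0 < dt u_lump Λ A X) :
    Rate S 1 (fun X => Real.log (tc (Cok (reg X A))) - Real.log (dt u_lump Λ A X)) 0 := by
  obtain ⟨a, K0, ha, hK0, h⟩ := eff_tc hball horbs S hS Λ T hT A
  refine rate_of hball hext S a 3 K0 1 ha le_rfl hK0 one_pos le_rfl _ _ fun M hM X _ _ => ?_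
  have h1 := h M hM X (hA X)
  rw [mul_zero, sub_zero, Real.rpow_one]
  exact h1

end Pool.Agent.D0H83.AC
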