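import Pool.Agent.D0H83.AC.Two
import Pool.Agent.D0H83.AC.Lowl

set_option autoImplicit false

/-! # Project AC: homology of the complexes over finite sets; part 1 of the final theorem -/

namespace Pool.Agent.D0H83.AC

open Matrix Finset Filter Topology Pool.Agent.Q181.TG Pool.Agent.Helper993.FK Pool.Agent.TH630.Tor

variable {G : Type} [Group G] {r : ℕ}

/-- The order of the torsion subgroup of the homology, at the middle term, of the complex
`ℤ^(X × ι) → ℤ^(X × κ) → ℤ^(X × θ)` of the finite `G`-set `X` with the boundary maps `v ↦ v ᵥ* reg X A`,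
`v ↦ v ᵥ* reg X B`. -/
noncomputable def torsMid {ι κ θ : Type} [Fintype κ] (A : Matrix ι κ (MonoidAlgebra ℤ G))
    (B : Matrix κ θ (MonoidAlgebra ℤ G)) (X : Type) [Fintype X] [MulAction G X] : ℕ :=
  tc (LinearMap.ker (reg X B).vecMulLinear ⧸
    (Submodule.span ℤ (Set.range (reg X A))).submoduleOf (LinearMap.ker (reg X B).vecMulLinear))

/-- The order of the torsion subgroup of the cokernel of `ℤ^(X × ι) → ℤ^(X × κ)`. -/
noncomputable def torsEnd {ι κ : Type} (A : Matrix ι κ (MonoidAlgebra ℤ G)) (X : Type)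
    [MulAction G X] : ℕ :=
  tc (Cok (reg X A))

/-- The order of the torsion subgroup of the homology `H_n(C ⊗ ℤ[X])` in degree `n` of the complex `C` over the
finite `G`-set `X`. -/
noncomputable def torsHn (C : FreeCx G) (n : ℕ) (X : Type) [Fintype X] [MulAction G X] : ℕ :=
  match n with
  | 0 => torsEnd (C.d 0) X
  | n + 1 => torsMid (C.d (n + 1)) (C.d n) X

theorem torsHn_eq (C : FreeCx G) (n : ℕ) (X : Type) [Fintype X] [MulAction G X] :
    torsHn C n X = tc (Cok (reg X (C.d n))) := by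
  classical
  cases n with
  | zero => rfl
  | succ n =>
    refine Pool.Agent.Q66.TG.t_hom _ _ _ (reg X (C.d (n + 1))) (reg X (C.d n)) ?_
    rw [← Pool.Agent.Q151.TG.reg_mul, C.d_comp_d]
    ext p q
    simp [reg]

/-- `A` divides a product of `m` matrices which dominate Laplacians of `Λ`: `E A E' = R₁ ⋯ R_m`. -/
def Divides (Λ : Subgroup G) (m : ℕ) (A : Matrix (Fin r) (Fin r) (MonoidAlgebra ℤ G)) : Prop :=
  ∃ (l : List (Matrix (Fin r) (Fin r) (MonoidAlgebra ℤ G)))
    (E E' : Matrix (Fin r) (Fin r) (MonoidAlgebra ℤ G)),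
    l.length = m ∧ (∀ R ∈ l, Dominates Λ R) ∧ E * A * E' = l.prod

theorem part1 (Λ : Subgroup G) [Λ.Normal] [Infinite Λ]
    (X : ℕ → Type) [∀ n, Fintype (X n)] [∀ n, Nonempty (X n)] [∀ n, MulAction G (X n)]
    (hX : Far G X) (C : FreeCx G) (k : ℕ)
    (h : C.rank (k + 1) = C.rank k) (hC : ∀ n, n ≠ k → n ≠ k + 1 → C.rank n = 0) (m : ℕ) (hm : 1 ≤ m)
    (hA : Divides Λ m (sqm C k h)) :
    C.DetL2Acyclic ∧
    (∃ K δ₀ : ℝ, 0 < δ₀ ∧ ∀ δ : ℝ, 0 < δ → δ ≤ δ₀ →
      (specMeas unitVec (rMul ((sqm C k h).map toQ)) (Set.Iic δ)).toReal ≤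
        K * δ ^ (1 / (4 * m : ℝ))) ∧
    Tendsto (fun i => (-1) ^ k * (Real.log (torsHn C k (X i)) / Fintype.card (X i))) atTop
      (𝓝 C.l2torsion) := by
  obtain ⟨l, E, E', hl, hR, hE⟩ := hA
  have hlow : Low Λ (4 * m) (sqm C k h) := by
    rw [← hl]
    exact low_of_factor Λ l E _ E' hR hE
  obtain ⟨h1, h2⟩ := two_term Λ C k h hC _ hlow X hX
  obtain ⟨-, -, -, h3, c, K, hc, hK, h4⟩ := main_low Λ _ _ hlow X hX
  refine ⟨h1, ?_, ?_⟩
  · obtain ⟨K', δ₀, hδ₀, h5⟩ := density _ (4 * m) (by omega) c K hc hK h4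
    refine ⟨K', δ₀, hδ₀, ?_⟩
    intro δ hδ hδ'
    have := h5 δ hδ hδ'
    push_cast at this
    exact this
  · rw [h2]
    refine (h3.const_mul ((-1) ^ k)).congr fun i => ?_
    congr 3
    rw [torsHn_eq]
    -- the two cokernels
    have h6 : tc (Cok (reg (X i) (sqm C k h))) = tc (Cok (reg (X i) (C.d k))) := by
      unfold tc
      have h7 : Set.range (reg (X i) (sqm C k h)) = Set.range (reg (X i) (C.d k)) := by
        ext v
        constructor
        · rintro ⟨p, rfl⟩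
          exact ⟨(p.1, Fin.cast h.symm p.2), rfl⟩
        · rintro ⟨p, rfl⟩
          exact ⟨(p.1, Fin.cast h p.2), rfl⟩
      unfold Cok
      rw [h7]
    exact_mod_cast h6

end Pool.Agent.D0H83.AC
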