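import Pool.Agent.D0H83.AC.Eff5
import Pool.Agent.D0H83.AC.Hom

set_option autoImplicit false

/-! # Project AC, third part: rates of convergence for complexes with two terms -/

namespace Pool.Agent.D0H83.AC

open Matrix Finset Filter Topology Pool.Agent.Q181.TG Pool.Agent.Helper993.FK Pool.Agent.TH630.Tor

variable {G : Type} [Group G] {r : ℕ}

/-- all the modules -/
def Mods : Prop := S_cheb ∧ S_sum ∧ S_diag ∧ S_ball ∧ S_orbs ∧ S_sqrt ∧ S_ext

theorem rate_flow (hm : Mods) (S : Finset G) (hS : Subgroup.closure (S : Set G) = ⊤)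
    (Λ : Subgroup G) [Λ.Normal] [Infinite Λ] (T : Finset G) (hT : Subgroup.closure (T : Set G) = Λ)
    (B : Matrix (Fin r) (Fin r) (MonoidAlgebra ℤ G)) (p : ℕ) (hp : 2 ≤ p) (hB : FLow Λ p B)
    (X₀ : ℕ → Type) [∀ i, Fintype (X₀ i)] [∀ i, Nonempty (X₀ i)] [∀ i, MulAction G (X₀ i)]
    (hX₀ : Far G X₀) :
    (∀ (X : Type) [Fintype X] [MulAction G X], 0 < dt u_lump Λ B X) ∧
    Rate S (2 / (p : ℝ)) (fun X => Real.log (dt u_lump Λ B X)) (Real.log (fkDet (rMul (B.map toQ)))) :=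
  rate_dt hm.1 hm.2.1 hm.2.2.1 hm.2.2.2.1 hm.2.2.2.2.1 hm.2.2.2.2.2.1 hm.2.2.2.2.2.2 S hS Λ T hT B p hp hB
    X₀ hX₀

theorem two_div_le (p : ℕ) (hp : 2 ≤ p) : 2 / (p : ℝ) ≤ 1 := by
  have hp2 : (2 : ℝ) ≤ p := by exact_mod_cast hp
  rw [div_le_one (by linarith)]
  exact hp2

/-- the torsion of the cokernel, from the determinant -/
theorem rate_tor (hm : Mods) (S : Finset G) (hS : Subgroup.closure (S : Set G) = ⊤)
    (Λ : Subgroup G) [Λ.Normal] [Infinite Λ] (T : Finset G) (hT : Subgroup.closure (T : Set G) = Λ)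
    (A : Matrix (Fin r) (Fin r) (MonoidAlgebra ℤ G)) (θ ρ : ℝ) (hθ : θ ≤ 1)
    (hA : ∀ (X : Type) [Fintype X] [MulAction G X], 0 < dt u_lump Λ A X)
    (h : Rate S θ (fun X => Real.log (dt u_lump Λ A X)) ρ) :
    Rate S θ (fun X => Real.log (tc (Cok (reg X A)))) ρ := by
  have h1 := (rate_tc hm.2.2.2.1 hm.2.2.2.2.1 hm.2.2.2.2.2.2 S hS Λ T hT A hA).mono hθ
  have h2 := h1.add h
  rw [zero_add] at h2
  exact h2.congr fun X _ _ => by ring

/-- the general case -/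
theorem rate_low (hm : Mods) (S : Finset G) (hS : Subgroup.closure (S : Set G) = ⊤)
    (Λ : Subgroup G) [Λ.Normal] [Infinite Λ] (T : Finset G) (hT : Subgroup.closure (T : Set G) = Λ)
    (A : Matrix (Fin r) (Fin r) (MonoidAlgebra ℤ G)) (p : ℕ) (hp : 2 ≤ p) (hA : Low Λ p A)
    (X₀ : ℕ → Type) [∀ i, Fintype (X₀ i)] [∀ i, Nonempty (X₀ i)] [∀ i, MulAction G (X₀ i)]
    (hX₀ : Far G X₀) :
    (∀ (X : Type) [Fintype X] [MulAction G X], 0 < dt u_lump Λ A X) ∧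
    Rate S (2 / (p : ℝ)) (fun X => Real.log (dt u_lump Λ A X)) (Real.log (fkDet (rMul (A.map toQ)))) := by
  obtain ⟨h1, h2⟩ := rate_flow hm S hS Λ T hT (A * adjZ A) p hp (flow_sq Λ p A hA) X₀ hX₀
  have hd : ∀ (X : Type) [Fintype X] [MulAction G X],
      dt u_lump Λ (A * adjZ A) X = dt u_lump Λ A X * dt u_lump Λ A X := by
    intro X _ _
    rw [dt_mul, dt_adj]
  have hpos : ∀ (X : Type) [Fintype X] [MulAction G X], 0 < dt u_lump Λ A X := by
    intro X _ _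
    have h3 := h1 X
    rw [hd X] at h3
    have h4 : 0 ≤ dt u_lump Λ A X := abs_nonneg _
    rcases eq_or_lt_of_le h4 with h5 | h5
    · rw [← h5] at h3
      simp at h3
    · exact h5
  refine ⟨hpos, ?_⟩
  obtain ⟨hs1, -⟩ := fk_sq Λ A p hA X₀ hX₀
  have h6 := h2.smul (1 / 2)
  rw [hs1] at h6
  have h7 : (1 / 2 : ℝ) * (2 * Real.log (fkDet (rMul (A.map toQ)))) = Real.log (fkDet (rMul (A.map toQ))) := by
    ring
  rw [h7] at h6
  refine h6.congr fun X _ _ => ?_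
  rw [hd X, Real.log_mul (hpos X).ne' (hpos X).ne']
  ring

/-- the two cokernels -/
theorem tors_sqm (C : FreeCx G) (k : ℕ) (h : C.rank (k + 1) = C.rank k) (X : Type) [Fintype X]
    [MulAction G X] : torsHn C k X = tc (Cok (reg X (sqm C k h))) := by
  rw [torsHn_eq]
  unfold tc
  have h7 : Set.range (reg X (sqm C k h)) = Set.range (reg X (C.d k)) := by
    ext v
    constructor
    · rintro ⟨p, rfl⟩
      exact ⟨(p.1, Fin.cast h.symm p.2), rfl⟩
    · rintro ⟨p, rfl⟩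
      exact ⟨(p.1, Fin.cast h p.2), rfl⟩
  unfold Cok
  rw [h7]

/-- a finite generating set of `Λ` -/
theorem gens_of_dom (Λ : Subgroup G) (R : Matrix (Fin r) (Fin r) (MonoidAlgebra ℤ G))
    (hR : Dominates Λ R) : ∃ T : Finset G, Subgroup.closure (T : Set G) = Λ := by
  obtain ⟨T, -, -, -, hT, -⟩ := hR
  exact ⟨T, hT⟩

/-- **Complexes with two terms, self-adjoint.** -/
theorem rate_two_self (hm : Mods) (S : Finset G) (hS : Subgroup.closure (S : Set G) = ⊤)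
    (Λ : Subgroup G) [Λ.Normal] [Infinite Λ] (C : FreeCx G) (k : ℕ) (h : C.rank (k + 1) = C.rank k)
    (hC : ∀ n, n ≠ k → n ≠ k + 1 → C.rank n = 0)
    (hR : Dominates Λ (sqm C k h)) (hadj : adjZ (sqm C k h) = sqm C k h)
    (X₀ : ℕ → Type) [∀ i, Fintype (X₀ i)] [∀ i, Nonempty (X₀ i)] [∀ i, MulAction G (X₀ i)]
    (hX₀ : Far G X₀) :
    Rate S 1 (fun X => (-1) ^ k * Real.log (torsHn C k X)) C.l2torsion := by
  obtain ⟨T, hT⟩ := gens_of_dom Λ _ hR
  obtain ⟨h1, h2⟩ := rate_flow hm S hS Λ T hT (sqm C k h) 2 le_rfl (flow_dom Λ _ hR hadj) X₀ hX₀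
  have e1 : 2 / ((2 : ℕ) : ℝ) = 1 := by norm_num
  rw [e1] at h2
  have h3 := rate_tor hm S hS Λ T hT (sqm C k h) 1 _ le_rfl h1 h2
  obtain ⟨-, h4⟩ := two_term Λ C k h hC 4 (low_dom u_glb u_dom Λ _ hR) X₀ hX₀
  rw [h4]
  refine (h3.smul ((-1) ^ k)).congr fun X _ _ => ?_
  rw [tors_sqm C k h X]

/-- **Complexes with two terms, products and divisors.** -/
theorem rate_two (hm : Mods) (S : Finset G) (hS : Subgroup.closure (S : Set G) = ⊤)
    (Λ : Subgroup G) [Λ.Normal] [Infinite Λ] (C : FreeCx G) (k : ℕ) (h : C.rank (k + 1) = C.rank k)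
    (hC : ∀ n, n ≠ k → n ≠ k + 1 → C.rank n = 0) (m : ℕ) (hm1 : 1 ≤ m) (hA : Divides Λ m (sqm C k h))
    (X₀ : ℕ → Type) [∀ i, Fintype (X₀ i)] [∀ i, Nonempty (X₀ i)] [∀ i, MulAction G (X₀ i)]
    (hX₀ : Far G X₀) :
    Rate S (1 / (2 * m : ℝ)) (fun X => (-1) ^ k * Real.log (torsHn C k X)) C.l2torsion := by
  obtain ⟨l, E, E', hl, hR, hE⟩ := hA
  have hlow : Low Λ (4 * m) (sqm C k h) := by
    rw [← hl]
    exact low_of_factor Λ l E _ E' hR hE
  have hne : l ≠ [] := by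
    intro h0
    rw [h0, List.length_nil] at hl
    omega
  obtain ⟨T, hT⟩ := gens_of_dom Λ _ (hR _ (List.head_mem hne))
  obtain ⟨h1, h2⟩ := rate_low hm S hS Λ T hT (sqm C k h) (4 * m) (by omega) hlow X₀ hX₀
  have e1 : 2 / ((4 * m : ℕ) : ℝ) = 1 / (2 * m : ℝ) := by
    have : (0 : ℝ) < m := by exact_mod_cast hm1
    push_cast
    field_simp
    norm_num
  have h3 := rate_tor hm S hS Λ T hT (sqm C k h) _ _ (two_div_le (4 * m) (by omega)) h1 h2
  rw [e1] at h3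
  obtain ⟨-, h4⟩ := two_term Λ C k h hC _ hlow X₀ hX₀
  rw [h4]
  refine (h3.smul ((-1) ^ k)).congr fun X _ _ => ?_
  rw [tors_sqm C k h X]

end Pool.Agent.D0H83.AC
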