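import Pool.Agent.D0H83.AC.Fa3

set_option autoImplicit false

/-! # Project AC, module FA, fourth file: the induction -/

namespace Pool.Agent.D0H83.AC

open Matrix Finset Pool.Agent.Q181.TG

theorem alt_sum_t (M : ℕ) (a a' : ℕ → ℝ) (r0 : ℝ) (h0 : a' 0 = a 1 + r0 - a 0)
    (h1 : ∀ n, a' (n + 1) = a (n + 2)) :
    ∑ n ∈ range (M + 2), (-1 : ℝ) ^ n * a' n = r0 - ∑ n ∈ range (M + 3), (-1 : ℝ) ^ n * a n := by
  rw [Finset.sum_range_succ', Finset.sum_range_succ' _ (M + 2), Finset.sum_range_succ' _ (M + 1)]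
  have h3 : ∑ k ∈ range (M + 1), (-1 : ℝ) ^ (k + 1) * a' (k + 1) =
      - ∑ k ∈ range (M + 1), (-1 : ℝ) ^ (k + 1 + 1) * a (k + 1 + 1) := by
    rw [← Finset.sum_neg_distrib]
    refine Finset.sum_congr rfl fun k _ => ?_
    rw [h1 k, pow_succ _ (k + 1)]
    ring
  rw [h3]
  simp only [zero_add, h0, pow_zero, pow_one]
  ring

/-- the statement proved by induction on the length -/
def FaP (N : ℕ) : Prop := ∀ (I : ℕ → Type) [∀ n, Fintype (I n)] [∀ n, DecidableEq (I n)]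
  (D : ∀ n, Matrix (I (n + 1)) (I n) ℤ) (E : ∀ n, Matrix (I n) (I (n + 1)) ℤ)
  (Gm : ∀ n, Matrix (I n) (I n) ℤ), (∀ n, N < n → IsEmpty (I n)) → (∀ n, 0 < (Gm n).det) →
  (∀ n, (Gm n)ᵀ = Gm n) →
  (∀ n, D n * Gm n = Gm (n + 1) * (E n)ᵀ) → (∀ n, D (n + 1) * D n = 0) →
  (∀ n, (lapI D E n).det ≠ 0) →
  (∑ n ∈ range (N + 1), (-1 : ℝ) ^ n * Real.log |((lapI D E n).det : ℝ)| = 0) ∧
  ∑ n ∈ range (N + 1), (-1 : ℝ) ^ n * Real.log (tc (Cok (D n))) =
    -(1 / 2) * ∑ n ∈ range (N + 1), (-1 : ℝ) ^ n * n * Real.log |((lapI D E n).det : ℝ)| -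
      (1 / 2) * ∑ n ∈ range (N + 1), (-1 : ℝ) ^ n * Real.log ((Gm n).det : ℝ)

theorem faP0 : FaP 0 := by
  intro I _ _ D E Gm hI hG hGs hadj hDD hL
  haveI h1 : IsEmpty (I 1) := hI 1 one_pos
  have h0 : IsEmpty (I 0) := by
    by_contra hne
    rw [not_isEmpty_iff] at hne
    apply hL 0
    have h2 : lapI D E 0 = 0 := by
      change E 0 * D 0 = 0
      ext i j
      rw [Matrix.mul_apply]
      simp
    rw [h2]
    haveI := hne
    exact Matrix.det_zero
  have e1 : tc (Cok (D 0)) = 1 := tc_empty (D 0)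
  simp [e1, Matrix.det_isEmpty]

theorem faP1 : FaP 1 := by
  intro I _ _ D E Gm hI hG hGs hadj hDD hL
  haveI h2 : IsEmpty (I 2) := hI 2 (by norm_num)
  have l1 : lapI D E 1 = D 0 * E 0 := by
    change E 1 * D 1 + D 0 * E 0 = D 0 * E 0
    have : E 1 * D 1 = 0 := by
      ext i j
      rw [Matrix.mul_apply]
      simp
    rw [this, zero_add]
  have l0 : lapI D E 0 = E 0 * D 0 := rfl
  obtain ⟨s1, s2⟩ := two_terms (D 0) (E 0) (Gm 0) (Gm 1) (hG 0) (hG 1) (hadj 0) (hL 0) (l1 ▸ hL 1)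
  have e1 : tc (Cok (D 1)) = 1 := tc_empty (D 1)
  rw [Finset.sum_range_succ, Finset.sum_range_one, Finset.sum_range_succ, Finset.sum_range_one,
    Finset.sum_range_succ, Finset.sum_range_one, Finset.sum_range_succ, Finset.sum_range_one, l1, l0, e1, s1, s2]
  constructor
  · ring
  · simp
    ring

theorem faP_succ (M : ℕ) (ih : FaP (M + 1)) : FaP (M + 2) := by
  intro I _ _ D E Gm hI hG hGs hadj hDD hL
  have hEE := ee_zero D E Gm hG hadj hDD
  obtain ⟨S, T⟩ := ih (fI I) (fD D E) (fE D E) (fG Gm) (by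
      intro n hn
      match n, hn with
      | k + 2, hk => exact hI (k + 3) (by omega)) (by
      intro n
      match n with
      | 0 => exact hG 1
      | 1 =>
        rw [fold_g1]
        exact mul_pos (hG 2) (hG 0)
      | k + 2 => exact hG (k + 3)) (fold_sym Gm hGs) (fold_adj D E Gm hGs hadj)
      (fold_dd D E hDD) (by
      intro n
      match n with
      | 0 =>
        rw [fold_det0]
        exact hL 1
      | 1 =>
        rw [fold_det1 D E hDD hEE]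
        exact mul_ne_zero (hL 2) (hL 0)
      | k + 2 =>
        rw [fold_det2]
        exact hL (k + 3))
  set r : ℕ → ℝ := fun n => Real.log |((lapI D E n).det : ℝ)| with hr
  set r' : ℕ → ℝ := fun n => Real.log |((lapI (fD D E) (fE D E) n).det : ℝ)| with hr'
  set g : ℕ → ℝ := fun n => Real.log ((Gm n).det : ℝ) with hg
  set g' : ℕ → ℝ := fun n => Real.log ((fG Gm n).det : ℝ) with hg'
  set t : ℕ → ℝ := fun n => Real.log (tc (Cok (D n))) with ht
  set t' : ℕ → ℝ := fun n => Real.log (tc (Cok (fD D E n))) with ht'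
  have hLr : ∀ n, |((lapI D E n).det : ℝ)| ≠ 0 := fun n => by
    rw [abs_ne_zero]
    exact_mod_cast hL n
  have r0 : r' 0 = r 1 := by
    simp only [hr, hr', fold_det0]
  have r1 : r' 1 = r 2 + r 0 := by
    simp only [hr, hr']
    rw [fold_det1 D E hDD hEE, Int.cast_mul, abs_mul, Real.log_mul (hLr 2) (hLr 0)]
  have r2 : ∀ n, r' (n + 2) = r (n + 3) := by
    intro n
    simp only [hr, hr', fold_det2]
  have hGr : ∀ n, ((Gm n).det : ℝ) ≠ 0 := fun n => by
    exact_mod_cast (hG n).ne'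
  have g0 : g' 0 = g 1 := rfl
  have g1 : g' 1 = g 2 + g 0 := by
    simp only [hg, hg']
    rw [fold_g1, Int.cast_mul, Real.log_mul (hGr 2) (hGr 0)]
  have g2 : ∀ n, g' (n + 2) = g (n + 3) := fun n => rfl
  have hT : ∀ n, (tc (Cok (D n)) : ℝ) ≠ 0 := fun n => by
    exact_mod_cast (tc_pos_cok (D n)).ne'
  have t0 : t' 0 = t 1 + r 0 - t 0 := by
    have k : tc (Cok (fromRows (D 1) (E 0))) * tc (Cok (D 0)) = tc (Cok (D 1)) * (E 0 * D 0).det.natAbs :=
      key_index (D 1) (D 0) (E 0) (E 1) (hDD 0) (hL 0) (hL 1)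
    have k1 : (tc (Cok (fD D E 0)) : ℝ) * tc (Cok (D 0)) = tc (Cok (D 1)) * |((lapI D E 0).det : ℝ)| := by
      have k2 := congrArg (fun x : ℕ => (x : ℝ)) k
      simp only [Nat.cast_mul, Nat.cast_natAbs, Int.cast_abs] at k2
      exact k2
    have k3 : (tc (Cok (fD D E 0)) : ℝ) ≠ 0 := by
      intro h
      rw [h, zero_mul] at k1
      exact mul_ne_zero (hT 1) (hLr 0) k1.symm
    have k4 := congrArg Real.log k1
    rw [Real.log_mul k3 (hT 0), Real.log_mul (hT 1) (hLr 0)] at k4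
    simp only [ht, ht', hr]
    linarith
  have t1 : ∀ n, t' (n + 1) = t (n + 2) := by
    intro n
    match n with
    | 0 =>
      have k : tc (Cok (fromCols (D 2) (0 : Matrix (I 3) (I 0) ℤ))) = tc (Cok (D 2)) := tc_fromCols (D 2)
      have k1 : tc (Cok (fD D E 1)) = tc (Cok (D 2)) := k
      simp only [ht, ht', zero_add, k1]
    | k + 1 => rfl
  have q1 := alt_sum M r r' r0 r1 r2
  have q2 := alt_sum_w M r r' r1 r2
  have q3 := alt_sum M g g' g0 g1 g2
  have q4 := alt_sum_t M t t' (r 0) t0 t1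
  have S' : ∑ n ∈ range (M + 2 + 1), (-1 : ℝ) ^ n * r n = 0 := by
    have : ∑ n ∈ range (M + 2), (-1 : ℝ) ^ n * r' n = 0 := S
    rw [q1] at this
    linarith
  refine ⟨S', ?_⟩
  have T' : ∑ n ∈ range (M + 2), (-1 : ℝ) ^ n * t' n =
      -(1 / 2) * ∑ n ∈ range (M + 2), (-1 : ℝ) ^ n * n * r' n -
      (1 / 2) * ∑ n ∈ range (M + 2), (-1 : ℝ) ^ n * g' n := T
  rw [q4, q2, q3] at T'
  have S'' : ∑ n ∈ range (M + 3), (-1 : ℝ) ^ n * r n = 0 := S'
  rw [S''] at T'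
  change ∑ n ∈ range (M + 3), (-1 : ℝ) ^ n * t n =
      -(1 / 2) * ∑ n ∈ range (M + 3), (-1 : ℝ) ^ n * n * r n -
      (1 / 2) * ∑ n ∈ range (M + 3), (-1 : ℝ) ^ n * g n
  linarith

theorem faP : ∀ N, FaP N
  | 0 => faP0
  | 1 => faP1
  | M + 2 => faP_succ M (faP (M + 1))

theorem t_fa : S_fa := fun N I _ _ D E Gm hI hG hGs hadj hDD hL =>
  (faP N I D E Gm hI hG hGs hadj hDD hL).2

end Pool.Agent.D0H83.AC
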