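import Pool.Agent.D0H83.AC.Fin3
import Pool.Agent.D0H83.AC.Fa4
import Pool.Agent.D0H83.AC.Deg
import Pool.Agent.D0H52.AC.Red
import Pool.Agent.D0H52.AC.Cmp

set_option autoImplicit false

/-! # Project AC, part 2: the bound in each degree, and the unconditional form -/

namespace Pool.Agent.D0H83.AC

open Matrix Finset Filter Topology Pool.Agent.Q181.TG Pool.Agent.Helper993.FK Pool.Agent.TH630.Tor
open Pool.Agent.TH630.Tor.FreeCx (lapM laplacian_eq)

attribute [-instance] Pool.Agent.D0H8.AC.instFx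

variable {G : Type} [Group G]

theorem u_red : S_red := Pool.Agent.D0H52.AC.red
theorem u_cmp : S_cmp := Pool.Agent.D0H52.AC.cmp

theorem reg_zero' {s r : ℕ} (X : Type) [Fintype X] [MulAction G X] :
    reg X (0 : Matrix (Fin s) (Fin r) (MonoidAlgebra ℤ G)) = 0 := by
  ext p q
  simp [reg]

open Classical in
/-- the bound of the torsion in one degree, on one finite level -/
theorem level_deg (Λ : Subgroup G) [Λ.Normal] (C : FreeCx G)
    (h : ∀ n, Matrix (Fin (C.rank n)) (Fin (C.rank (n + 1))) (MonoidAlgebra ℤ G)) (X : Type)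
    [Fintype X] [MulAction G X] [Fintype (MulAction.orbitRel.Quotient Λ X)]
    (ρ : MulAction.orbitRel.Quotient Λ X → X) (hρ : ∀ b, ob Λ X (ρ b) = b)
    (hdt : ∀ n, 0 < dt u_lump Λ (homR C h n) X) (n : ℕ) :
    (tc (Cok (red (ob Λ X) ρ (reg X (C.d n)))) : ℝ) ≤ dt u_lump Λ (homR C h n) X := by
  obtain ⟨h1, h2⟩ := u_red
  obtain ⟨hmul, -, -, hsq⟩ := h1 X (MulAction.orbitRel.Quotient Λ X) (ob Λ X) ρ hρ
  have hl : ∀ {s r : ℕ} (A : Matrix (Fin s) (Fin r) (MonoidAlgebra ℤ G)), Lump2 (ob Λ X) (reg X A) :=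
    fun {s r} A => h2 G Λ s r A X
  let D : ∀ n, Matrix (NR (ob Λ X) ρ (C.rank (n + 1))) (NR (ob Λ X) ρ (C.rank n)) ℤ :=
    fun n => red (ob Λ X) ρ (reg X (C.d n))
  let H : ∀ n, Matrix (NR (ob Λ X) ρ (C.rank n)) (NR (ob Λ X) ρ (C.rank (n + 1))) ℤ :=
    fun n => red (ob Λ X) ρ (reg X (h n))
  let F : ∀ n, Matrix (NR (ob Λ X) ρ (C.rank n)) (NR (ob Λ X) ρ (C.rank n)) ℤ :=
    fun n => red (ob Λ X) ρ (reg X (homR C h n))
  have hF0 : F 0 = H 0 * D 0 := by
    change red (ob Λ X) ρ (reg X (h 0 * C.d 0)) = _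
    rw [Pool.Agent.Q151.TG.reg_mul, hmul _ _ _ _ _ (hl _) (hl _)]
  have hFs : ∀ n, F (n + 1) = H (n + 1) * D (n + 1) + D n * H n := by
    intro n
    change red (ob Λ X) ρ (reg X (h (n + 1) * C.d (n + 1) + C.d n * h n)) = _
    rw [reg_add', red_add, Pool.Agent.Q151.TG.reg_mul, Pool.Agent.Q151.TG.reg_mul,
      hmul _ _ _ _ _ (hl _) (hl _), hmul _ _ _ _ _ (hl _) (hl _)]
  have hDD : ∀ n, D (n + 1) * D n = 0 := by
    intro n
    change red (ob Λ X) ρ (reg X (C.d (n + 1))) * red (ob Λ X) ρ (reg X (C.d n)) = 0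
    rw [← hmul _ _ _ _ _ (hl _) (hl _), ← Pool.Agent.Q151.TG.reg_mul, C.d_comp_d, reg_zero', red_zero]
  have hFdet : ∀ n, |((F n).det : ℝ)| = dt u_lump Λ (homR C h n) X := by
    intro n
    exact (hsq _ (reg X (homR C h n)) (hl _) _).symm
  have hFne : ∀ n, (F n).det ≠ 0 := by
    intro n h0
    have := hdt n
    rw [← hFdet n, h0] at this
    simp at this
  have hcomm : ∀ n, F (n + 1) * D n = D n * F n := by
    intro n
    have e1 : F (n + 1) * D n = D n * (H n * D n) := by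
      rw [hFs, Matrix.add_mul, Matrix.mul_assoc, hDD, Matrix.mul_zero, zero_add, Matrix.mul_assoc]
    rw [e1]
    cases n with
    | zero => rw [hF0]
    | succ n => rw [hFs, Matrix.mul_add, ← Matrix.mul_assoc (D (n + 1)) (D n), hDD, Matrix.zero_mul,
        add_zero]
  have key : tc (Cok (D n)) ≤ (F n).det.natAbs := by
    cases n with
    | zero =>
      have e := cok_le (D 0) (0 : Matrix _ (Fin 0) ℤ) (H 0) 0 1 (by rw [Matrix.mul_zero])
        (by rw [Matrix.zero_mul, add_zero, ← hF0]; exact hFne 0) (by simp)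
        (by rw [Matrix.mul_zero, Matrix.zero_mul])
      rwa [Matrix.zero_mul, add_zero, ← hF0] at e
    | succ n =>
      have e := cok_le (D (n + 1)) (D n) (H (n + 1)) (H n) (F n) (hDD n)
        (by rw [← hFs]; exact hFne _) (hFne n) (by rw [← hFs]; exact hcomm n)
      rwa [← hFs] at e
  rw [← hFdet n]
  have e3 : ((F n).det.natAbs : ℝ) = |((F n).det : ℝ)| := by
    rw [Nat.cast_natAbs, Int.cast_abs]
  rw [← e3]
  exact_mod_cast key

/-- the bound in each degree, for Farber sequences -/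
theorem part3 (Λ : Subgroup G) [Λ.Normal] [Infinite Λ]
    (X : ℕ → Type) [∀ n, Fintype (X n)] [∀ n, Nonempty (X n)] [∀ n, MulAction G (X n)]
    (hX : Far G X) (C : FreeCx G)
    (h : ∀ n, Matrix (Fin (C.rank n)) (Fin (C.rank (n + 1))) (MonoidAlgebra ℤ G))
    (hh : ∀ n, Dominates Λ (homR C h n)) (n : ℕ) (ε : ℝ) (hε : 0 < ε) :
    ∀ᶠ i in atTop, Real.log (torsHn C n (X i)) / Fintype.card (X i) ≤
      Real.log (fkDet (rMul ((homR C h n).map toQ))) + ε := by
  classical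
  have hfinY : ∀ n, Fintype (MulAction.orbitRel.Quotient Λ (X n)) := fun n => Fintype.ofFinite _
  obtain ⟨hy, -⟩ := Pool.Agent.D0H25.AC.t_far G Λ X hX
  have hρ : ∀ i, ∃ ρ : MulAction.orbitRel.Quotient Λ (X i) → X i, ∀ b, ob Λ (X i) (ρ b) = b :=
    fun i => ⟨Quotient.out, fun b => Quotient.out_eq b⟩
  choose ρ hρ using hρ
  have hm := fun n => main_low Λ (homR C h n) 4 (low_dom u_glb u_dom Λ _ (hh n)) X hX
  have hdt : ∀ n i, 0 < dt u_lump Λ (homR C h n) (X i) := fun n => (hm n).2.2.1.2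
  have hn' : ∀ i, (0 : ℝ) < Fintype.card (X i) := fun i => by exact_mod_cast Fintype.card_pos
  obtain ⟨K, hK, hKb⟩ := u_lump.2.2.1 G _ _ (C.d n)
  have hK' : (1 : ℝ) ≤ (K : ℝ) := by exact_mod_cast hK
  have hlim : Tendsto (fun i => Real.log (dt u_lump Λ (homR C h n) (X i)) / Fintype.card (X i) +
      (C.rank (n + 1) * Real.log K) *
        ((Fintype.card (MulAction.orbitRel.Quotient Λ (X i)) : ℝ) / Fintype.card (X i))) atTop
      (𝓝 (Real.log (fkDet (rMul ((homR C h n).map toQ))))) := by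
    have := (hm n).2.2.1.1.add (hy.const_mul (C.rank (n + 1) * Real.log K))
    simpa using this
  have hev := hlim.eventually_lt_const (show Real.log (fkDet (rMul ((homR C h n).map toQ))) <
    Real.log (fkDet (rMul ((homR C h n).map toQ))) + ε by linarith)
  filter_upwards [hev] with i hi
  refine le_trans ?_ hi.le
  obtain ⟨t1, -⟩ := u_cmp (X i) (MulAction.orbitRel.Quotient Λ (X i)) _ _ (ob Λ (X i)) (ρ i)
    (reg (X i) (C.d n)) K hK (hρ i) (u_red.2 G Λ _ _ (C.d n) (X i)) (hKb (X i)).1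
  have p1 : (1 : ℝ) ≤ tc (Cok (reg (X i) (C.d n))) := by
    exact_mod_cast Pool.Agent.Q96.TG.t_tc.2.2.1 _ _ _
  have p2 : (1 : ℝ) ≤ tc (Cok (red (ob Λ (X i)) (ρ i) (reg (X i) (C.d n)))) := by
    exact_mod_cast Pool.Agent.Q96.TG.t_tc.2.2.1 _ _ _
  have h1 := Real.log_le_log (by linarith) t1
  rw [Real.log_mul (by linarith) (by positivity), Real.log_pow] at h1
  push_cast at h1
  have h2 := Real.log_le_log (by linarith) (level_deg Λ C h (X i) (ρ i) (hρ i) (fun n => hdt n i) n)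
  have e1 : Real.log (dt u_lump Λ (homR C h n) (X i)) / Fintype.card (X i) +
      (C.rank (n + 1) * Real.log K) *
        ((Fintype.card (MulAction.orbitRel.Quotient Λ (X i)) : ℝ) / Fintype.card (X i)) =
      (Real.log (dt u_lump Λ (homR C h n) (X i)) + C.rank (n + 1) *
        Fintype.card (MulAction.orbitRel.Quotient Λ (X i)) * Real.log K) / Fintype.card (X i) := by
    field_simp
  rw [e1, torsHn_eq]
  refine div_le_div_of_nonneg_right ?_ (hn' i).le
  linarith

end Pool.Agent.D0H83.AC
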