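import Pool.Agent.D0H83.AC.Eff6
import Pool.Agent.D0H83.AC.Fin4

set_option autoImplicit false

/-! # Project AC, third part: rates of convergence for complexes of any length -/

namespace Pool.Agent.D0H83.AC

open Matrix Finset Filter Topology Pool.Agent.Q181.TG Pool.Agent.Helper993.FK Pool.Agent.TH630.Tor
open Pool.Agent.TH630.Tor.FreeCx (lapM laplacian_eq)

attribute [-instance] Pool.Agent.D0H8.AC.instFx

variable {G : Type} [Group G] {r : ℕ}

/-- from the form of `R` to the form of `S` -/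
theorem flow_of_form (Λ : Subgroup G) (R S : Matrix (Fin r) (Fin r) (MonoidAlgebra ℤ G))
    (hR : Dominates Λ R) (K : ℝ) (hK : 0 < K)
    (hsym : ∀ (X : Type) [Fintype X] [MulAction G X], (rg X S)ᵀ = rg X S)
    (hpos : ∀ (X : Type) [Fintype X] [MulAction G X] (f : X × Fin r → ℝ), 0 ≤ f ᵥ* rg X S ⬝ᵥ f)
    (h : ∀ (X : Type) [Fintype X] [MulAction G X] (f : X × Fin r → ℝ),
      (f ᵥ* rg X R ⬝ᵥ f) ^ 2 ≤ K * (∑ q, f q ^ 2) * (f ᵥ* rg X S ⬝ᵥ f)) : FLow Λ 4 S := by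
  classical
  obtain ⟨c, C, hc, hC, hW⟩ := form_dom Λ R hR
  refine ⟨hsym, hpos, 1 / (c ^ 2 * K), C, by positivity, hC, ?_⟩
  intro X _ _ L hL
  obtain ⟨W, hW1, hW2, hW3⟩ := hW X L hL
  have hL0 : (0 : ℝ) < L := by exact_mod_cast hL
  refine ⟨W, hW1, hW2, ?_⟩
  intro f hf
  have h1 := hW3 f hf
  have h2 := h X f
  have hs0 := hpos X f
  set F := ∑ q, f q ^ 2 with hF
  set s := f ᵥ* rg X S ⬝ᵥ f with hs
  have hF0 : 0 ≤ F := Finset.sum_nonneg fun q _ => sq_nonneg _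
  rcases eq_or_lt_of_le hF0 with h0 | h0
  · rw [← h0, mul_zero]
    positivity
  · have h4 : F ^ 2 ≤ (c * (L : ℝ) ^ 2) ^ 2 * (K * F * s) := by
      calc F ^ 2 ≤ (c * (L : ℝ) ^ 2 * (f ᵥ* rg X R ⬝ᵥ f)) ^ 2 := pow_le_pow_left₀ hF0 h1 2
        _ = (c * (L : ℝ) ^ 2) ^ 2 * (f ᵥ* rg X R ⬝ᵥ f) ^ 2 := by ring
        _ ≤ _ := mul_le_mul_of_nonneg_left h2 (by positivity)
    have h5 : F ≤ (c ^ 2 * K * (L : ℝ) ^ 4) * s := by
      have : F * F ≤ ((c ^ 2 * K * (L : ℝ) ^ 4) * s) * F := by nlinarith [h4]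
      exact le_of_mul_le_mul_right this h0
    rw [one_div, inv_mul_le_iff₀ (by positivity)]
    refine h5.trans (le_of_eq ?_)
    ring

theorem rg_add' {s t : ℕ} (X : Type) [Fintype X] [MulAction G X]
    (A B : Matrix (Fin s) (Fin t) (MonoidAlgebra ℤ G)) : rg X (A + B) = rg X A + rg X B := by
  ext p q
  unfold rg
  rw [Matrix.map_apply, reg_add', Matrix.add_apply, Matrix.add_apply, Matrix.map_apply, Matrix.map_apply]
  push_cast
  rfl

theorem rg_adj' {s t : ℕ} (A : Matrix (Fin s) (Fin t) (MonoidAlgebra ℤ G)) (X : Type) [Fintype X]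
    [MulAction G X] : rg X (adjZ A) = (rg X A)ᵀ := by
  unfold rg
  rw [u_lump.1]
  rfl

/-- the Laplacian form -/
theorem lap_form {a b : ℕ} (d : Matrix (Fin a) (Fin r) (MonoidAlgebra ℤ G))
    (d' : Matrix (Fin r) (Fin b) (MonoidAlgebra ℤ G)) (X : Type) [Fintype X] [MulAction G X] :
    (rg X (adjZ d * d + d' * adjZ d'))ᵀ = rg X (adjZ d * d + d' * adjZ d') ∧
    ∀ f : X × Fin r → ℝ, 0 ≤ f ᵥ* rg X (adjZ d * d + d' * adjZ d') ⬝ᵥ f := by
  constructor
  · rw [rg_add', rg_mul, rg_mul, rg_adj', rg_adj', Matrix.transpose_add, Matrix.transpose_mul,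
      Matrix.transpose_mul, Matrix.transpose_transpose, Matrix.transpose_transpose]
  · intro f
    have e2 : f ᵥ* rg X (adjZ d * d + d' * adjZ d') ⬝ᵥ f =
        ∑ q, (f ᵥ* rg X (adjZ d)) q ^ 2 + ∑ q, (f ᵥ* rg X d') q ^ 2 := by
      rw [rg_add', rg_mul, rg_mul, Matrix.vecMul_add, add_dotProduct, ← Matrix.vecMul_vecMul,
        ← Matrix.vecMul_vecMul, rg_adj', rg_adj', ← vec_sq, ← vec_sq]
      congr 1
      · rw [← Matrix.dotProduct_mulVec, ← Matrix.vecMul_transpose]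
      · rw [Matrix.vecMul_transpose, dotProduct_comm, Matrix.dotProduct_mulVec]
    rw [e2]
    exact add_nonneg (Finset.sum_nonneg fun q _ => sq_nonneg _) (Finset.sum_nonneg fun q _ => sq_nonneg _)

theorem flow_lap (Λ : Subgroup G) (C : FreeCx G) (hC : NullDominated Λ C) (n : ℕ) :
    FLow Λ 4 (C.lapM n) := by
  obtain ⟨h, hh⟩ := hC
  cases n with
  | zero =>
    obtain ⟨K, hK, h1⟩ := homotopy_form (h 0) (C.d 0)
      (0 : Matrix (Fin (C.rank 0)) (Fin 0) (MonoidAlgebra ℤ G))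
      (0 : Matrix (Fin 0) (Fin (C.rank 0)) (MonoidAlgebra ℤ G))
    have h2 := fun (X : Type) [Fintype X] [MulAction G X] => lap_form (C.d 0)
      (0 : Matrix (Fin (C.rank 0)) (Fin 0) (MonoidAlgebra ℤ G)) X
    simp only [Matrix.zero_mul, add_zero] at h1 h2
    exact flow_of_form Λ (homR C h 0) (C.lapM 0) (hh 0) K hK (fun X _ _ => (h2 X).1)
      (fun X _ _ => (h2 X).2) h1
  | succ n =>
    obtain ⟨K, hK, h1⟩ := homotopy_form (h (n + 1)) (C.d (n + 1)) (C.d n) (h n)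
    have h2 := fun (X : Type) [Fintype X] [MulAction G X] => lap_form (C.d (n + 1)) (C.d n) X
    exact flow_of_form Λ (homR C h (n + 1)) (C.lapM (n + 1)) (hh (n + 1)) K hK (fun X _ _ => (h2 X).1)
      (fun X _ _ => (h2 X).2) h1

/-- the number of the orbits of `Λ` -/
noncomputable def yo (Λ : Subgroup G) (X : Type) [Fintype X] [MulAction G X] : ℝ :=
  (Nat.card (MulAction.orbitRel.Quotient Λ X) : ℝ)

open Classical in
/-- the sum of the logarithms of the sizes of the orbits of `Λ` -/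
noncomputable def so (Λ : Subgroup G) (X : Type) [Fintype X] [MulAction G X] : ℝ :=
  letI := Fintype.ofFinite (MulAction.orbitRel.Quotient Λ X)
  ∑ b : MulAction.orbitRel.Quotient Λ X, Real.log (#{x | ob Λ X x = b})

open Classical in
theorem so_eq (Λ : Subgroup G) (X : Type) [Fintype X] [MulAction G X]
    [inst : Fintype (MulAction.orbitRel.Quotient Λ X)] :
    so Λ X = ∑ b : MulAction.orbitRel.Quotient Λ X, Real.log (#{x | ob Λ X x = b}) := by
  unfold so
  have : Fintype.ofFinite (MulAction.orbitRel.Quotient Λ X) = inst := Subsingleton.elim _ _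
  rw [this]

theorem rate_orb (hm : Mods) (S : Finset G) (hS : Subgroup.closure (S : Set G) = ⊤)
    (Λ : Subgroup G) [Infinite Λ] (T : Finset G) (hT : Subgroup.closure (T : Set G) = Λ) :
    Rate S 1 (fun X => yo Λ X) 0 ∧ Rate S 1 (fun X => so Λ X) 0 := by
  classical
  obtain ⟨a, ha, horb⟩ := orb_use hm.2.2.2.1 hm.2.2.2.2.1 S hS Λ T hT
  have key : ∀ M : ℕ, 3 ≤ M → ∀ (X : Type) [Fintype X] [MulAction G X],
      |yo Λ X| ≤ 1 * (Fintype.card X * (Real.log M / M) ^ (1 : ℝ) +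
        Real.log M * #(fixd (S : Set G) (a * M) X)) ∧
      |so Λ X| ≤ 1 * (Fintype.card X * (Real.log M / M) ^ (1 : ℝ) +
        Real.log M * #(fixd (S : Set G) (a * M) X)) := by
    intro M hM X _ _
    have hfinY : Fintype (MulAction.orbitRel.Quotient Λ X) := Fintype.ofFinite _
    obtain ⟨h1, h2⟩ := horb M hM X
    have hlog := one_le_log hM
    have hM0 : (0 : ℝ) < M := by positivity
    have hMx : 1 / (M : ℝ) ≤ Real.log M / M := div_le_div_of_nonneg_right hlog hM0.le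
    have hN0 : (0 : ℝ) ≤ Fintype.card X := Nat.cast_nonneg _
    have hNM : (Fintype.card X : ℝ) / M ≤ Fintype.card X * (Real.log M / M) := by
      rw [div_eq_mul_one_div]
      exact mul_le_mul_of_nonneg_left hMx hN0
    have hF0 : (0 : ℝ) ≤ #(fixd (S : Set G) (a * M) X) := Nat.cast_nonneg _
    have hFl : (#(fixd (S : Set G) (a * M) X) : ℝ) ≤ Real.log M * #(fixd (S : Set G) (a * M) X) := by
      nlinarith
    have h3 : 0 ≤ so Λ X := by
      rw [so_eq]
      exact Finset.sum_nonneg fun b _ => Real.log_natCast_nonneg _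
    have h4 : 0 ≤ yo Λ X := Nat.cast_nonneg _
    rw [Real.rpow_one, one_mul, abs_of_nonneg h3, abs_of_nonneg h4, so_eq]
    unfold yo
    rw [Nat.card_eq_fintype_card]
    constructor <;> linarith
  constructor
  · refine rate_of hm.2.2.2.1 hm.2.2.2.2.2.2 S a 3 1 1 ha le_rfl zero_le_one one_pos le_rfl _ _
      fun M hM X _ _ => ?_
    rw [mul_zero, sub_zero]
    exact (key M hM X).1
  · refine rate_of hm.2.2.2.1 hm.2.2.2.2.2.2 S a 3 1 1 ha le_rfl zero_le_one one_pos le_rfl _ _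
      fun M hM X _ _ => ?_
    rw [mul_zero, sub_zero]
    exact (key M hM X).2

/-- the torsion of the reduced matrix -/
noncomputable def wo (Λ : Subgroup G) (C : FreeCx G) (n : ℕ) (X : Type) [Fintype X] [MulAction G X] : ℝ :=
  Real.log (tc (Cok (red (ob Λ X) Quotient.out (reg X (C.d n)))))

open Classical in
theorem comp_wo (Λ : Subgroup G) [Λ.Normal] (C : FreeCx G) (n : ℕ) : ∃ c : ℝ, 0 ≤ c ∧
    ∀ (X : Type) [Fintype X] [MulAction G X],
      -(C.rank (n + 1) * so Λ X) ≤ Real.log (torsHn C n X) - wo Λ C n X ∧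
      Real.log (torsHn C n X) - wo Λ C n X ≤ c * yo Λ X := by
  obtain ⟨K, hK, hKb⟩ := u_lump.2.2.1 G _ _ (C.d n)
  have hK' : (1 : ℝ) ≤ (K : ℝ) := by exact_mod_cast hK
  have hlogK : 0 ≤ Real.log K := Real.log_nonneg hK'
  refine ⟨C.rank (n + 1) * Real.log K, by positivity, fun X _ _ => ?_⟩
  have hfinY : Fintype (MulAction.orbitRel.Quotient Λ X) := Fintype.ofFinite _
  have hρ : ∀ b : MulAction.orbitRel.Quotient Λ X, ob Λ X (Quotient.out b) = b := fun b => Quotient.out_eq b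
  have hYpos : ∀ b : MulAction.orbitRel.Quotient Λ X, (0 : ℝ) < (#{x | ob Λ X x = b} : ℝ) := by
    intro b
    have : 0 < #{x | ob Λ X x = b} := Finset.card_pos.mpr ⟨Quotient.out b, by
      rw [Finset.mem_filter]
      exact ⟨Finset.mem_univ _, hρ b⟩⟩
    exact_mod_cast this
  obtain ⟨t1, t2⟩ := u_cmp X (MulAction.orbitRel.Quotient Λ X) _ _ (ob Λ X) Quotient.out
    (reg X (C.d n)) K hK hρ (u_red.2 G Λ _ _ (C.d n) X) (hKb X).1
  have p1 : (1 : ℝ) ≤ tc (Cok (reg X (C.d n))) := by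
    exact_mod_cast Pool.Agent.Q96.TG.t_tc.2.2.1 _ _ _
  have p2 : (1 : ℝ) ≤ tc (Cok (red (ob Λ X) Quotient.out (reg X (C.d n)))) := by
    exact_mod_cast Pool.Agent.Q96.TG.t_tc.2.2.1 _ _ _
  have e0 : (∏ b : MulAction.orbitRel.Quotient Λ X, (#{x | ob Λ X x = b} : ℝ) ^ C.rank (n + 1)) ≠
      0 := (Finset.prod_pos fun b _ => pow_pos (hYpos b) _).ne'
  have t2' : (tc (Cok (red (ob Λ X) Quotient.out (reg X (C.d n)))) : ℝ) ≤
      tc (Cok (reg X (C.d n))) *
        ∏ b : MulAction.orbitRel.Quotient Λ X, (#{x | ob Λ X x = b} : ℝ) ^ C.rank (n + 1) := by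
    refine le_trans t2 (le_of_eq ?_)
    congr 1
    refine Finset.prod_congr rfl fun b _ => ?_
    congr 3
    ext x
    simp only [Finset.mem_filter]
  unfold wo yo
  rw [torsHn_eq, so_eq, Nat.card_eq_fintype_card]
  constructor
  · have h1 := Real.log_le_log (by linarith) t2'
    rw [Real.log_mul (by linarith) e0,
      Real.log_prod (fun b _ => (pow_pos (hYpos b) _).ne')] at h1
    simp only [Real.log_pow] at h1
    rw [← Finset.mul_sum] at h1
    linarith
  · have h1 := Real.log_le_log (by linarith) t1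
    rw [Real.log_mul (by linarith) (by positivity), Real.log_pow] at h1
    push_cast at h1
    linarith

theorem rate_comp (hm : Mods) (S : Finset G) (hS : Subgroup.closure (S : Set G) = ⊤)
    (Λ : Subgroup G) [Λ.Normal] [Infinite Λ] (T : Finset G) (hT : Subgroup.closure (T : Set G) = Λ)
    (C : FreeCx G) (n : ℕ) : Rate S 1 (fun X => Real.log (torsHn C n X) - wo Λ C n X) 0 := by
  obtain ⟨h1, h2⟩ := rate_orb hm S hS Λ T hT
  obtain ⟨c, hc, h3⟩ := comp_wo Λ C n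
  have h4 := h2.smul (-(C.rank (n + 1) : ℝ))
  have h5 := h1.smul c
  rw [mul_zero] at h4 h5
  refine Rate.squeeze h4 h5 fun X _ _ => ?_
  have h6 := h3 X
  exact ⟨by linarith [h6.1], h6.2⟩

/-- **The alternating sum, with a rate.** -/
theorem rate_alt (hm : Mods) (S : Finset G) (hS : Subgroup.closure (S : Set G) = ⊤)
    (Λ : Subgroup G) [Λ.Normal] [Infinite Λ] (T : Finset G) (hT : Subgroup.closure (T : Set G) = Λ)
    (C : FreeCx G) (hC : NullDominated Λ C)
    (X₀ : ℕ → Type) [∀ i, Fintype (X₀ i)] [∀ i, Nonempty (X₀ i)] [∀ i, MulAction G (X₀ i)]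
    (hX₀ : Far G X₀) :
    Rate S (1 / 2) (fun X => ∑ n ∈ range (C.dim + 1), (-1 : ℝ) ^ n * Real.log (torsHn C n X))
      C.l2torsion := by
  classical
  have hd := fun n => rate_flow hm S hS Λ T hT (C.lapM n) 4 (by norm_num) (flow_lap Λ C hC n) X₀ hX₀
  have e4 : 2 / ((4 : ℕ) : ℝ) = 1 / 2 := by norm_num
  have h1 : Rate S (1 / 2) (fun X => ∑ n ∈ range (C.dim + 1),
      (-1 : ℝ) ^ n * (Real.log (torsHn C n X) - wo Λ C n X))
      (∑ n ∈ range (C.dim + 1), (-1 : ℝ) ^ n * 0) :=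
    Rate.sum _ fun n _ => ((rate_comp hm S hS Λ T hT C n).mono (by norm_num)).smul _
  have h2 : Rate S (1 / 2) (fun X => ∑ n ∈ range (C.dim + 1),
      ((-1 : ℝ) ^ n * n) * Real.log (dt u_lump Λ (C.lapM n) X))
      (∑ n ∈ range (C.dim + 1), ((-1 : ℝ) ^ n * n) * Real.log (fkDet (C.laplacian n))) := by
    refine Rate.sum _ fun n _ => ?_
    have h3 := (hd n).2
    rw [e4, ← laplacian_eq] at h3
    exact h3.smul _
  have h3 := (rate_orb hm S hS Λ T hT).2.mono (show (1 / 2 : ℝ) ≤ 1 by norm_num)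
  have h4 := (h1.add (h2.smul (-(1 / 2)))).add
    (h3.smul (-((1 / 2) * ∑ n ∈ range (C.dim + 1), (-1 : ℝ) ^ n * C.rank n)))
  have e1 : ∑ n ∈ range (C.dim + 1), (-1 : ℝ) ^ n * 0 +
      -(1 / 2) * ∑ n ∈ range (C.dim + 1), ((-1 : ℝ) ^ n * n) * Real.log (fkDet (C.laplacian n)) +
      -((1 / 2) * ∑ n ∈ range (C.dim + 1), (-1 : ℝ) ^ n * C.rank n) * 0 = C.l2torsion := by
    unfold FreeCx.l2torsion
    simp
  rw [e1] at h4
  refine h4.congr fun X _ _ => ?_
  have hfinY : Fintype (MulAction.orbitRel.Quotient Λ X) := Fintype.ofFinite _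
  have key := level2 t_fa u_red Λ C X Quotient.out (fun b => Quotient.out_eq b) (fun n => (hd n).1 X)
  have e2 : (∑ n ∈ range (C.dim + 1), (-1 : ℝ) ^ n * Real.log (torsHn C n X)) =
      (∑ n ∈ range (C.dim + 1), (-1 : ℝ) ^ n * (Real.log (torsHn C n X) - wo Λ C n X)) +
      ∑ n ∈ range (C.dim + 1), (-1 : ℝ) ^ n * wo Λ C n X := by
    rw [← Finset.sum_add_distrib]
    refine Finset.sum_congr rfl fun n _ => ?_
    ring
  rw [e2]
  unfold wo at *
  rw [key, so_eq]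
  ring

/-- **The growth in one degree, with a rate.** -/
theorem rate_deg (hm : Mods) (S : Finset G) (hS : Subgroup.closure (S : Set G) = ⊤)
    (Λ : Subgroup G) [Λ.Normal] [Infinite Λ] (C : FreeCx G)
    (h : ∀ n, Matrix (Fin (C.rank n)) (Fin (C.rank (n + 1))) (MonoidAlgebra ℤ G))
    (hh : ∀ n, Dominates Λ (homR C h n))
    (X₀ : ℕ → Type) [∀ i, Fintype (X₀ i)] [∀ i, Nonempty (X₀ i)] [∀ i, MulAction G (X₀ i)]
    (hX₀ : Far G X₀) (n : ℕ) : ∃ u : (X : Type) → [Fintype X] → [MulAction G X] → ℝ,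
    Rate S (1 / 2) u (Real.log (fkDet (rMul ((homR C h n).map toQ)))) ∧
    ∀ (X : Type) [Fintype X] [MulAction G X], Real.log (torsHn C n X) ≤ u X := by
  obtain ⟨T, hT⟩ := gens_of_dom Λ _ (hh 0)
  obtain ⟨h1, -⟩ := rate_orb hm S hS Λ T hT
  have hd := fun n => rate_low hm S hS Λ T hT (homR C h n) 4 (by norm_num)
    (low_dom u_glb u_dom Λ _ (hh n)) X₀ hX₀
  have e4 : 2 / ((4 : ℕ) : ℝ) = 1 / 2 := by norm_num
  obtain ⟨c, hc, h3⟩ := comp_wo Λ C n
  have h4 := (hd n).2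
  rw [e4] at h4
  have h5 := h4.add ((h1.mono (show (1 / 2 : ℝ) ≤ 1 by norm_num)).smul c)
  rw [mul_zero, add_zero] at h5
  refine ⟨_, h5, fun X _ _ => ?_⟩
  have hfinY : Fintype (MulAction.orbitRel.Quotient Λ X) := Fintype.ofFinite _
  have h6 := (h3 X).2
  have p2 : (1 : ℝ) ≤ tc (Cok (red (ob Λ X) Quotient.out (reg X (C.d n)))) := by
    exact_mod_cast Pool.Agent.Q96.TG.t_tc.2.2.1 _ _ _
  have h7 := Real.log_le_log (by linarith) (level_deg Λ C h X Quotient.out (fun b => Quotient.out_eq b)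
    (fun n => (hd n).1 X) n)
  unfold wo at h6
  linarith

end Pool.Agent.D0H83.AC
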