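import Pool.Agent.D0H83.AC.Eff7
import Pool.Agent.D0H70.AC.Cycu

set_option autoImplicit false

/-! # Project AC, third part: the Laplacian of the infinite cyclic group -/

namespace Pool.Agent.D0H83.AC

open Matrix Finset Filter Topology Pool.Agent.Q181.TG Pool.Agent.Helper993.FK Pool.Agent.TH630.Tor

/-- the generator -/
abbrev tg : Multiplicative ℤ := Multiplicative.ofAdd (1 : ℤ)

theorem two_eq : (2 : MonoidAlgebra ℤ (Multiplicative ℤ)) = MonoidAlgebra.single 1 2 := by
  have h : (2 : MonoidAlgebra ℤ (Multiplicative ℤ)) = 1 + 1 := by norm_num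
  rw [h, MonoidAlgebra.one_def, ← MonoidAlgebra.single_add]
  norm_num

theorem cyc_adj : adjZ cyc = cyc := by
  ext1 i j
  rw [adjZ_apply]
  change MonoidAlgebra.mapDomain (fun g => g⁻¹) (2 - MonoidAlgebra.single tg (1 : ℤ) -
    MonoidAlgebra.single tg⁻¹ 1) = 2 - MonoidAlgebra.single tg 1 - MonoidAlgebra.single tg⁻¹ 1
  rw [two_eq, sub_eq_add_neg, sub_eq_add_neg, ← MonoidAlgebra.single_neg, ← MonoidAlgebra.single_neg,
    MonoidAlgebra.mapDomain_add, MonoidAlgebra.mapDomain_add, MonoidAlgebra.mapDomain_single,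
    MonoidAlgebra.mapDomain_single, MonoidAlgebra.mapDomain_single, inv_inv, inv_one]
  abel

theorem mapDomain_one_sub (g : Multiplicative ℤ) : MonoidAlgebra.mapDomain (fun g => g⁻¹)
    (1 - MonoidAlgebra.single g (1 : ℤ)) = 1 - MonoidAlgebra.single g⁻¹ 1 := by
  rw [MonoidAlgebra.one_def, sub_eq_add_neg, ← MonoidAlgebra.single_neg,
    MonoidAlgebra.mapDomain_add, MonoidAlgebra.mapDomain_single,
    MonoidAlgebra.mapDomain_single, inv_one, sub_eq_add_neg, ← MonoidAlgebra.single_neg]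

theorem one_sub_mul (g : Multiplicative ℤ) :
    (1 - MonoidAlgebra.single g (1 : ℤ)) * (1 - MonoidAlgebra.single g⁻¹ 1) =
      2 - MonoidAlgebra.single g 1 - MonoidAlgebra.single g⁻¹ 1 := by
  have h : MonoidAlgebra.single g (1 : ℤ) * MonoidAlgebra.single g⁻¹ 1 = 1 := by
    rw [MonoidAlgebra.single_mul_single, mul_inv_cancel, one_mul, MonoidAlgebra.one_def]
  have e : (1 - MonoidAlgebra.single g (1 : ℤ)) * (1 - MonoidAlgebra.single g⁻¹ 1) =
      1 - MonoidAlgebra.single g 1 - MonoidAlgebra.single g⁻¹ 1 +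
        MonoidAlgebra.single g (1 : ℤ) * MonoidAlgebra.single g⁻¹ 1 := by ring
  rw [e, h]
  ring

theorem cyc_dom : Dominates (⊤ : Subgroup (Multiplicative ℤ)) cyc := by
  refine ⟨{tg}, 1, 1, Matrix.of fun _ _ => 1 - MonoidAlgebra.single tg 1, closure_gen, one_pos, ?_⟩
  rw [cyc_adj, one_smul]
  ext1 i j
  have hij : i = j := Subsingleton.elim i j
  subst hij
  rw [Matrix.add_apply, Matrix.add_apply, Matrix.diagonal_apply_eq, Matrix.mul_apply,
    Fintype.sum_unique, adjZ_apply]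
  change (2 - MonoidAlgebra.single tg (1 : ℤ) - MonoidAlgebra.single tg⁻¹ 1) +
    (2 - MonoidAlgebra.single tg (1 : ℤ) - MonoidAlgebra.single tg⁻¹ 1) = lap {tg} +
      (1 - MonoidAlgebra.single tg (1 : ℤ)) *
        MonoidAlgebra.mapDomain (fun g => g⁻¹) (1 - MonoidAlgebra.single tg (1 : ℤ))
  rw [mapDomain_one_sub, one_sub_mul, lap, Finset.sum_singleton]

theorem tc_cyc (N : ℕ) (hN : 1 ≤ N) [Fintype (Multiplicative ℤ ⧸ sbg N)] :
    tc (Cok (reg (Multiplicative ℤ ⧸ sbg N) cyc)) = N :=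
  le_antisymm (Pool.Agent.D0H70.AC.t_cycu N hN) (Pool.Agent.D0H82.AC.t_cyc N hN).1

theorem finite_sbg (N : ℕ) (hN : 1 ≤ N) : Finite (Multiplicative ℤ ⧸ sbg N) := by
  have h : Finite (Multiplicative ℤ ⧸ Subgroup.zpowers (Multiplicative.ofAdd (N : ℤ))) := by
    have hN' : NeZero N := ⟨by omega⟩
    have e := Int.quotientZMultiplesNatEquivZMod N
    have h1 : Finite (ℤ ⧸ AddSubgroup.zmultiples (N : ℤ)) := Finite.of_equiv _ e.symm.toEquiv
    exact h1
  exact h

/-- the quotients converge to the free action -/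
theorem far_cyc [∀ i, Fintype (Multiplicative ℤ ⧸ sbg (i + 1))] :
    Far (Multiplicative ℤ) (fun i => Multiplicative ℤ ⧸ sbg (i + 1)) := by
  refine far_of_fixd {tg} closure_gen _ fun n => ?_
  filter_upwards [eventually_ge_atTop n] with i hi
  have := (Pool.Agent.D0H82.AC.t_cyc (i + 1) (by omega)).2.2 n (by omega)
  rw [Finset.coe_singleton]
  exact this

theorem infinite_top : Infinite (⊤ : Subgroup (Multiplicative ℤ)) := by
  have h : Infinite (Multiplicative ℤ) := inferInstance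
  exact Infinite.of_injective (fun x : Multiplicative ℤ => (⟨x, Subgroup.mem_top x⟩ :
    (⊤ : Subgroup (Multiplicative ℤ)))) fun x y h => congrArg Subtype.val h

theorem log_fk_cyc : Real.log (fkDet (rMul (cyc.map toQ))) = 0 := by
  have hfin : ∀ i, Fintype (Multiplicative ℤ ⧸ sbg (i + 1)) := fun i => by
    have := finite_sbg (i + 1) (by omega)
    exact Fintype.ofFinite _
  have := infinite_top
  obtain ⟨-, -, -, h1, -⟩ := main_low (⊤ : Subgroup (Multiplicative ℤ)) cyc 4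
    (low_dom u_glb u_dom _ _ cyc_dom) (fun i => Multiplicative ℤ ⧸ sbg (i + 1)) far_cyc
  have h2 : Tendsto (fun i : ℕ => Real.log ((i + 1 : ℕ) : ℝ) / ((i + 1 : ℕ) : ℝ)) atTop (𝓝 0) :=
    tendsto_log_div.comp (tendsto_add_atTop_nat 1)
  refine tendsto_nhds_unique h1 (h2.congr fun i => ?_)
  rw [tc_cyc (i + 1) (by omega), (Pool.Agent.D0H82.AC.t_cyc (i + 1) (by omega)).2.1]

theorem cyc_two (n : ℕ) (hn : n ≠ 0) (hn1 : n ≠ 1) : cycCx.rank n = 0 := by
  match n, hn, hn1 with
  | 0, h, _ => exact absurd rfl h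
  | 1, _, h => exact absurd rfl h
  | n + 2, _, _ => rfl

theorem sqm_cyc : sqm cycCx 0 rfl = cyc := by
  ext1 i j
  rfl

theorem tors_cyc : cycCx.l2torsion = 0 := by
  have hfin : ∀ i, Fintype (Multiplicative ℤ ⧸ sbg (i + 1)) := fun i => by
    have := finite_sbg (i + 1) (by omega)
    exact Fintype.ofFinite _
  have := infinite_top
  obtain ⟨-, h4⟩ := two_term (⊤ : Subgroup (Multiplicative ℤ)) cycCx 0 rfl
    (fun n hn hn1 => cyc_two n hn (by simpa using hn1)) 4 (by
      rw [sqm_cyc]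
      exact low_dom u_glb u_dom _ _ cyc_dom) (fun i => Multiplicative ℤ ⧸ sbg (i + 1)) far_cyc
  have h5 : Real.log (fkDet (rMul ((sqm cycCx 0 rfl).map toQ))) = 0 := log_fk_cyc
  rw [h4, h5, mul_zero]

end Pool.Agent.D0H83.AC
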