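import Pool.Agent.D0H83.AC.Stm2

set_option autoImplicit false

/-! # Project AC, module FA: torsion of a complex of lattices, by folding -/

namespace Pool.Agent.D0H83.AC

open Matrix Finset Pool.Agent.Q181.TG

/-- torsion of a quotient: `Z / B` torsion, `U / Z` torsion-free -/
theorem tc_quot {U : Type} [AddCommGroup U] (B Z : Submodule ℤ U)
    (hZ : ∀ (u : U) (k : ℕ), 0 < k → k • u ∈ Z → u ∈ Z) (hB : ∀ z ∈ Z, ∃ k : ℕ, 0 < k ∧ k • z ∈ B)
    (hBZ : B ≤ Z) : tc (U ⧸ B) = B.toAddSubgroup.relIndex Z.toAddSubgroup := by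
  unfold tc
  have h1 : AddCommGroup.torsion (U ⧸ B) = Z.toAddSubgroup.map (B.mkQ.toAddMonoidHom) := by
    ext y
    constructor
    · intro hy
      obtain ⟨u, rfl⟩ := Submodule.Quotient.mk_surjective _ y
      obtain ⟨k, hk, hk'⟩ := isOfFinAddOrder_iff_nsmul_eq_zero.mp hy
      have h2 : (Submodule.Quotient.mk (k • u) : U ⧸ B) = 0 := hk'
      rw [Submodule.Quotient.mk_eq_zero] at h2
      exact ⟨u, hZ u k hk (hBZ h2), rfl⟩
    · rintro ⟨u, hu, rfl⟩
      obtain ⟨k, hk, hk'⟩ := hB u hu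
      refine isOfFinAddOrder_iff_nsmul_eq_zero.mpr ⟨k, hk, ?_⟩
      have h2 : (Submodule.Quotient.mk (k • u) : U ⧸ B) = 0 := by
        rw [Submodule.Quotient.mk_eq_zero]
        exact hk'
      exact h2
  rw [h1, ← AddSubgroup.relIndex_ker]
  congr 1
  ext u
  rw [AddMonoidHom.mem_ker]
  change (Submodule.Quotient.mk u : U ⧸ B) = 0 ↔ _
  rw [Submodule.Quotient.mk_eq_zero]
  rfl

/-- torsion-free quotient by nothing -/
theorem tc_empty {α β : Type} [IsEmpty α] (M : Matrix α β ℤ) : tc (Cok M) = 1 := by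
  have h0 : Submodule.span ℤ (Set.range M) = ⊥ := by
    rw [Set.range_eq_empty, Submodule.span_empty]
  have h1 := tc_quot (Submodule.span ℤ (Set.range M)) ⊥ (by
    intro u k hk hu
    rw [Submodule.mem_bot] at hu ⊢
    exact (smul_eq_zero.mp hu).resolve_left hk.ne') (by
    intro z hz
    exact ⟨1, one_pos, by
      rw [Submodule.mem_bot] at hz
      rw [hz, smul_zero]
      exact Submodule.zero_mem _⟩) h0.le
  unfold Cok
  rw [h1, h0]
  exact AddSubgroup.relIndex_self _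

/-- adding zero columns -/
theorem tc_fromCols {α β γ : Type} [Fintype α] (M : Matrix α β ℤ) :
    tc (Cok (fromCols M (0 : Matrix α γ ℤ))) = tc (Cok M) := by
  classical
  let φ : (β → ℤ) →ₗ[ℤ] (β ⊕ γ → ℤ) :=
    { toFun := fun v => Sum.elim v 0
      map_add' := by
        intro v w
        ext (i | i) <;> simp
      map_smul' := by
        intro c v
        ext (i | i) <;> simp }
  have hmem : ∀ v u, (Sum.elim v u : β ⊕ γ → ℤ) ∈ Submodule.span ℤ (Set.range (fromCols M (0 : Matrix α γ ℤ)))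
      ↔ v ∈ Submodule.span ℤ (Set.range M) ∧ u = 0 := by
    intro v u
    rw [Pool.Agent.Q151.TG.mem_span_iff, Pool.Agent.Q151.TG.mem_span_iff]
    constructor
    · rintro ⟨w, hw⟩
      rw [Matrix.vecMul_fromCols] at hw
      refine ⟨⟨w, ?_⟩, ?_⟩
      · funext i
        exact congrFun hw (Sum.inl i)
      · funext i
        have := congrFun hw (Sum.inr i)
        simp at this
        exact this.symm
    · rintro ⟨⟨w, hw⟩, rfl⟩
      refine ⟨w, ?_⟩
      rw [Matrix.vecMul_fromCols, hw, Matrix.vecMul_zero]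
  let ψ : Cok M →ₗ[ℤ] Cok (fromCols M (0 : Matrix α γ ℤ)) :=
    Submodule.mapQ _ _ φ (by
      intro v hv
      exact (hmem v 0).mpr ⟨hv, rfl⟩)
  refine (Pool.Agent.Q66.TG.tc_eq ψ.toAddMonoidHom ?_ ?_).symm
  · change Function.Injective ψ
    rw [← LinearMap.ker_eq_bot, LinearMap.ker_eq_bot']
    intro x hx
    obtain ⟨v, rfl⟩ := Submodule.Quotient.mk_surjective _ x
    have h1 : ψ (Submodule.Quotient.mk v) = Submodule.Quotient.mk (φ v) := rfl
    rw [h1, Submodule.Quotient.mk_eq_zero] at hx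
    rw [Submodule.Quotient.mk_eq_zero]
    exact ((hmem v 0).mp hx).1
  · intro y hy
    obtain ⟨v, rfl⟩ := Submodule.Quotient.mk_surjective _ y
    obtain ⟨k, hk, hkv⟩ := isOfFinAddOrder_iff_nsmul_eq_zero.mp hy
    have h1 : (Submodule.Quotient.mk (k • v) : Cok (fromCols M (0 : Matrix α γ ℤ))) = 0 := hkv
    rw [Submodule.Quotient.mk_eq_zero] at h1
    have h2 : k • v = Sum.elim (k • (v ∘ Sum.inl)) (k • (v ∘ Sum.inr)) := by
      ext (i | i) <;> simp
    rw [h2, hmem] at h1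
    have h3 : v ∘ Sum.inr = 0 := (smul_eq_zero.mp h1.2).resolve_left hk.ne'
    refine ⟨Submodule.Quotient.mk (v ∘ Sum.inl), ?_⟩
    have h4 : φ (v ∘ Sum.inl) = v := by
      ext (i | i)
      · rfl
      · exact (congrFun h3 i).symm
    change (Submodule.Quotient.mk (φ (v ∘ Sum.inl)) : Cok (fromCols M (0 : Matrix α γ ℤ))) = _
    rw [h4]

/-- square matrices -/
theorem tc_square {α : Type} [Fintype α] [DecidableEq α] (M : Matrix α α ℤ) (hM : M.det ≠ 0) :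
    tc (Cok M) = M.det.natAbs ∧
      (LinearMap.range M.vecMulLinear).toAddSubgroup.index = M.det.natAbs := by
  have h1 := Pool.Agent.Y692.FKT.index_vecMul M hM
  have hfin : Finite ((α → ℤ) ⧸ LinearMap.range M.vecMulLinear) := by
    apply Nat.finite_of_card_ne_zero
    rw [h1]
    exact Int.natAbs_ne_zero.mpr hM
  have h2 : (LinearMap.range M.vecMulLinear).toAddSubgroup.index = M.det.natAbs := by
    rw [← h1]
    rfl
  refine ⟨?_, h2⟩
  have h3 := tc_quot (LinearMap.range M.vecMulLinear) ⊤ (fun _ _ _ _ => Submodule.mem_top) (by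
    intro z _
    have h4 : IsOfFinAddOrder (Submodule.Quotient.mk z : (α → ℤ) ⧸ LinearMap.range M.vecMulLinear) :=
      isOfFinAddOrder_of_finite _
    obtain ⟨k, hk, hk'⟩ := isOfFinAddOrder_iff_nsmul_eq_zero.mp h4
    refine ⟨k, hk, ?_⟩
    have h5 : (Submodule.Quotient.mk (k • z) : (α → ℤ) ⧸ LinearMap.range M.vecMulLinear) = 0 := hk'
    rwa [Submodule.Quotient.mk_eq_zero] at h5) le_top
  unfold Cok
  rw [← cok_range, h3, ← h2]
  exact AddSubgroup.relIndex_top_right _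

section fold

/-- the index types of the folded complex -/
def fI (I : ℕ → Type) : ℕ → Type
  | 0 => I 1
  | 1 => I 2 ⊕ I 0
  | n + 2 => I (n + 3)

instance fF (I : ℕ → Type) [h : ∀ n, Fintype (I n)] : ∀ n, Fintype (fI I n)
  | 0 => h 1
  | 1 => inferInstanceAs (Fintype (I 2 ⊕ I 0))
  | n + 2 => h (n + 3)

instance fDec (I : ℕ → Type) [h : ∀ n, DecidableEq (I n)] : ∀ n, DecidableEq (fI I n)
  | 0 => h 1
  | 1 => inferInstanceAs (DecidableEq (I 2 ⊕ I 0))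
  | n + 2 => h (n + 3)

variable {I : ℕ → Type}

def fD (D : ∀ n, Matrix (I (n + 1)) (I n) ℤ) (E : ∀ n, Matrix (I n) (I (n + 1)) ℤ) :
    ∀ n, Matrix (fI I (n + 1)) (fI I n) ℤ
  | 0 => (fromRows (D 1) (E 0) : Matrix (I 2 ⊕ I 0) (I 1) ℤ)
  | 1 => (fromCols (D 2) 0 : Matrix (I 3) (I 2 ⊕ I 0) ℤ)
  | n + 2 => D (n + 3)

def fE (D : ∀ n, Matrix (I (n + 1)) (I n) ℤ) (E : ∀ n, Matrix (I n) (I (n + 1)) ℤ) :
    ∀ n, Matrix (fI I n) (fI I (n + 1)) ℤ
  | 0 => (fromCols (E 1) (D 0) : Matrix (I 1) (I 2 ⊕ I 0) ℤ)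
  | 1 => (fromRows (E 2) 0 : Matrix (I 2 ⊕ I 0) (I 3) ℤ)
  | n + 2 => E (n + 3)

def fG (Gm : ∀ n, Matrix (I n) (I n) ℤ) : ∀ n, Matrix (fI I n) (fI I n) ℤ
  | 0 => Gm 1
  | 1 => (fromBlocks (Gm 2) 0 0 (Gm 0) : Matrix (I 2 ⊕ I 0) (I 2 ⊕ I 0) ℤ)
  | n + 2 => Gm (n + 3)

theorem alt_sum (M : ℕ) (a a' : ℕ → ℝ) (h0 : a' 0 = a 1) (h1 : a' 1 = a 2 + a 0)
    (h2 : ∀ n, a' (n + 2) = a (n + 3)) :
    ∑ n ∈ range (M + 2), (-1 : ℝ) ^ n * a' n = - ∑ n ∈ range (M + 3), (-1 : ℝ) ^ n * a n := by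
  rw [Finset.sum_range_succ', Finset.sum_range_succ', Finset.sum_range_succ' _ (M + 2),
    Finset.sum_range_succ' _ (M + 1), Finset.sum_range_succ' _ M]
  have h3 : ∑ k ∈ range M, (-1 : ℝ) ^ (k + 1 + 1) * a' (k + 1 + 1) =
      - ∑ k ∈ range M, (-1 : ℝ) ^ (k + 1 + 1 + 1) * a (k + 1 + 1 + 1) := by
    rw [← Finset.sum_neg_distrib]
    refine Finset.sum_congr rfl fun k _ => ?_
    rw [h2 k, pow_succ]
    ring
  rw [h3]
  simp only [zero_add, h0, h1, pow_zero, pow_one, Nat.reduceAdd]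
  ring

theorem alt_sum_w (M : ℕ) (a a' : ℕ → ℝ) (h1 : a' 1 = a 2 + a 0)
    (h2 : ∀ n, a' (n + 2) = a (n + 3)) :
    ∑ n ∈ range (M + 2), (-1 : ℝ) ^ n * n * a' n =
      - ∑ n ∈ range (M + 3), (-1 : ℝ) ^ n * n * a n + ∑ n ∈ range (M + 3), (-1 : ℝ) ^ n * a n -
        2 * a 0 := by
  rw [Finset.sum_range_succ', Finset.sum_range_succ', Finset.sum_range_succ' _ (M + 2),
    Finset.sum_range_succ' _ (M + 1), Finset.sum_range_succ' _ M,
    Finset.sum_range_succ' (fun n => (-1 : ℝ) ^ n * a n) (M + 2),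
    Finset.sum_range_succ' _ (M + 1), Finset.sum_range_succ' _ M]
  have h3 : ∑ k ∈ range M, (-1 : ℝ) ^ (k + 1 + 1) * ((k + 1 + 1 : ℕ) : ℝ) * a' (k + 1 + 1) =
      - ∑ k ∈ range M, (-1 : ℝ) ^ (k + 1 + 1 + 1) * ((k + 1 + 1 + 1 : ℕ) : ℝ) * a (k + 1 + 1 + 1) +
        ∑ k ∈ range M, (-1 : ℝ) ^ (k + 1 + 1 + 1) * a (k + 1 + 1 + 1) := by
    rw [← Finset.sum_neg_distrib, ← Finset.sum_add_distrib]
    refine Finset.sum_congr rfl fun k _ => ?_
    rw [h2 k]
    push_cast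
    ring
  rw [h3]
  simp only [zero_add, h1, pow_zero, pow_one, Nat.reduceAdd, Nat.cast_zero, Nat.cast_one, Nat.cast_ofNat]
  ring

end fold

end Pool.Agent.D0H83.AC
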