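import Pool.Agent.D0H83.AC.Fa
import Pool.Agent.Q66.TG.Small

set_option autoImplicit false

/-! # Project AC, module FA, second file: the folded complex and the induction -/

namespace Pool.Agent.D0H83.AC

open Matrix Finset Pool.Agent.Q181.TG

theorem tc_pos_cok {α β : Type} [Fintype β] (M : Matrix α β ℤ) : 0 < tc (Cok M) := by
  have h2 : AddGroup.FG (Cok M) := Module.Finite.iff_addGroup_fg.mp inferInstance
  exact (Pool.Agent.Q66.TG.tc_smul (E := Cok M)).1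

/-- the range of a matrix, as a subgroup -/
theorem tc_index {α β : Type} [Fintype α] (M : Matrix α β ℤ)
    (h : ∀ z : β → ℤ, ∃ k : ℕ, 0 < k ∧ k • z ∈ LinearMap.range M.vecMulLinear) :
    tc (Cok M) = (LinearMap.range M.vecMulLinear).toAddSubgroup.index := by
  have h3 := tc_quot (LinearMap.range M.vecMulLinear) ⊤ (fun _ _ _ _ => Submodule.mem_top)
    (fun z _ => h z) le_top
  unfold Cok
  rw [← cok_range, h3]
  exact AddSubgroup.relIndex_top_right _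

theorem natAbs_smul_mem {U : Type} [AddCommGroup U] (B : Submodule ℤ U) (d : ℤ) (hd : d ≠ 0) (z : U)
    (h : d • z ∈ B) : ∃ k : ℕ, 0 < k ∧ k • z ∈ B := by
  refine ⟨d.natAbs, Int.natAbs_pos.mpr hd, ?_⟩
  rw [← natCast_zsmul]
  rcases Int.natAbs_eq d with h1 | h1
  · rw [← h1]
    exact h
  · have h2 : ((d.natAbs : ℤ)) = -d := by omega
    rw [h2, neg_smul]
    exact B.neg_mem h

/-- the key identity of the fold -/
theorem key_index {a b c : Type} [Fintype a] [DecidableEq a] [Fintype b] [DecidableEq b]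
    [Fintype c] (D1 : Matrix c b ℤ) (D0 : Matrix b a ℤ) (E0 : Matrix a b ℤ)
    (E1 : Matrix b c ℤ) (h10 : D1 * D0 = 0) (h0 : (E0 * D0).det ≠ 0)
    (h1 : (E1 * D1 + D0 * E0).det ≠ 0) :
    tc (Cok (fromRows D1 E0)) * tc (Cok D0) = tc (Cok D1) * (E0 * D0).det.natAbs := by
  set Δ1 := E1 * D1 + D0 * E0 with hΔ1
  set Δ0 := E0 * D0 with hΔ0
  -- the subgroups
  set B : AddSubgroup (b → ℤ) := (LinearMap.range D1.vecMulLinear).toAddSubgroup with hB
  set P : AddSubgroup (b → ℤ) := (LinearMap.range E0.vecMulLinear).toAddSubgroup with hP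
  let d0 : (b → ℤ) →+ (a → ℤ) := D0.vecMulLinear.toAddMonoidHom
  have hd0 : ∀ v, d0 v = v ᵥ* D0 := fun v => rfl
  set Z : AddSubgroup (b → ℤ) := d0.ker with hZ
  have mB : ∀ v, v ∈ B ↔ ∃ w, w ᵥ* D1 = v := fun v => Iff.rfl
  have mP : ∀ v, v ∈ P ↔ ∃ w, w ᵥ* E0 = v := fun v => Iff.rfl
  have mZ : ∀ v, v ∈ Z ↔ v ᵥ* D0 = 0 := fun v => Iff.rfl
  have hBZ : B ≤ Z := by
    rintro v ⟨w, rfl⟩
    change (w ᵥ* D1) ᵥ* D0 = 0
    rw [vecMul_vecMul, h10, vecMul_zero]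
  -- the adjugate trick
  have hdec : ∀ z : b → ℤ, Δ1.det • z = ((z ᵥ* Δ1.adjugate) ᵥ* E1) ᵥ* D1 + ((z ᵥ* Δ1.adjugate) ᵥ* D0) ᵥ* E0 := by
    intro z
    rw [vecMul_vecMul, vecMul_vecMul, vecMul_vecMul, vecMul_vecMul, ← vecMul_add,
      ← Matrix.mul_add, ← hΔ1, adjugate_mul, vecMul_smul, vecMul_one]
  have hcomm : Δ1 * D0 = D0 * Δ0 := by
    rw [hΔ1, Matrix.add_mul, Matrix.mul_assoc, h10, Matrix.mul_zero, zero_add, Matrix.mul_assoc]
  have hadj0 : ∀ z : b → ℤ, z ᵥ* D0 = 0 → (z ᵥ* Δ1.adjugate) ᵥ* D0 = 0 := by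
    intro z hz
    have e1 : ((z ᵥ* Δ1.adjugate) ᵥ* D0) ᵥ* Δ0 = 0 := by
      rw [vecMul_vecMul, ← hcomm, ← vecMul_vecMul, vecMul_vecMul z, adjugate_mul, vecMul_smul, vecMul_one,
        smul_vecMul, hz, smul_zero]
    exact Matrix.eq_zero_of_vecMul_eq_zero h0 e1
  have hZB : ∀ z ∈ Z, ∃ k : ℕ, 0 < k ∧ k • z ∈ LinearMap.range D1.vecMulLinear := by
    intro z hz
    refine natAbs_smul_mem _ Δ1.det h1 z ?_
    rw [hdec z, hadj0 z hz, zero_vecMul, add_zero]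
    exact ⟨_, rfl⟩
  -- the range of `fromRows D1 E0`
  have hR : (LinearMap.range (fromRows D1 E0).vecMulLinear).toAddSubgroup = B ⊔ P := by
    ext v
    rw [AddSubgroup.mem_sup]
    constructor
    · rintro ⟨w, rfl⟩
      refine ⟨(w ∘ Sum.inl) ᵥ* D1, ⟨_, rfl⟩, (w ∘ Sum.inr) ᵥ* E0, ⟨_, rfl⟩, ?_⟩
      exact (vecMul_fromRows _ _ _).symm
    · rintro ⟨_, ⟨x, rfl⟩, _, ⟨y, rfl⟩, rfl⟩
      refine ⟨Sum.elim x y, ?_⟩
      change (Sum.elim x y) ᵥ* (fromRows D1 E0) = _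
      rw [vecMul_fromRows]
      rfl
  -- all torsion numbers as indices
  have t1 : tc (Cok (fromRows D1 E0)) = (B ⊔ P).index := by
    rw [tc_index (fromRows D1 E0), hR]
    intro z
    refine natAbs_smul_mem _ Δ1.det h1 z ?_
    have : Δ1.det • z ∈ B ⊔ P := by
      rw [hdec z]
      exact AddSubgroup.add_mem_sup ⟨_, rfl⟩ ⟨_, rfl⟩
    rw [← hR] at this
    exact this
  have t2 : tc (Cok D1) = B.relIndex Z := by
    have h3 := tc_quot (LinearMap.range D1.vecMulLinear) (LinearMap.ker D0.vecMulLinear) (by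
      intro u k hk hu
      rw [LinearMap.mem_ker] at hu ⊢
      rw [map_nsmul] at hu
      exact (smul_eq_zero.mp hu).resolve_left hk.ne') (fun z hz => hZB z hz) (fun z hz => hBZ hz)
    unfold Cok
    rw [← cok_range, h3]
    rfl
  obtain ⟨_, hW⟩ := tc_square Δ0 h0
  set W : AddSubgroup (a → ℤ) := (LinearMap.range Δ0.vecMulLinear).toAddSubgroup with hWdef
  have hWle : W ≤ d0.range := by
    rintro v ⟨w, rfl⟩
    refine ⟨w ᵥ* E0, ?_⟩
    change (w ᵥ* E0) ᵥ* D0 = w ᵥ* Δ0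
    rw [vecMul_vecMul]
  have hrange0 : (LinearMap.range D0.vecMulLinear).toAddSubgroup = d0.range := by
    ext v
    exact Iff.rfl
  have t3 : tc (Cok D0) = d0.range.index := by
    rw [tc_index D0, hrange0]
    intro z
    refine natAbs_smul_mem _ Δ0.det h0 z ?_
    have : Δ0.det • z = ((z ᵥ* Δ0.adjugate) ᵥ* E0) ᵥ* D0 := by
      rw [vecMul_vecMul, vecMul_vecMul, ← hΔ0, adjugate_mul, vecMul_smul, vecMul_one]
    rw [this]
    exact ⟨_, rfl⟩
  -- the index computation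
  have i1 : (B ⊔ P).relIndex (Z ⊔ P) * (Z ⊔ P).index = (B ⊔ P).index :=
    AddSubgroup.relIndex_mul_index (sup_le_sup_right hBZ P)
  have i2 : (B ⊔ P) ⊓ Z = B := by
    apply le_antisymm
    · rintro v ⟨hv1, hv2⟩
      obtain ⟨x, hx, y, ⟨w, rfl⟩, rfl⟩ := AddSubgroup.mem_sup.mp hv1
      have h5 : (w ᵥ* E0) ᵥ* D0 = 0 := by
        have h6 : (x + w ᵥ* E0) ᵥ* D0 = 0 := hv2
        have h7 : x ᵥ* D0 = 0 := hBZ hx
        rw [add_vecMul, h7, zero_add] at h6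
        exact h6
      rw [vecMul_vecMul, ← hΔ0] at h5
      have h8 : w = 0 := Matrix.eq_zero_of_vecMul_eq_zero h0 h5
      rw [h8]
      change x + (0 : a → ℤ) ᵥ* E0 ∈ B
      rw [zero_vecMul, add_zero]
      exact hx
    · exact le_inf le_sup_left hBZ
  have i3 : (B ⊔ P).relIndex (Z ⊔ P) = B.relIndex Z := by
    have h9 : Z ⊔ P = Z ⊔ (B ⊔ P) := by
      rw [← sup_assoc, sup_eq_left.mpr hBZ]
    rw [h9, AddSubgroup.relIndex_sup_right, ← AddSubgroup.inf_relIndex_right, i2]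
  have i4 : (Z ⊔ P).index = W.relIndex d0.range := by
    rw [← AddSubgroup.index_comap]
    congr 1
    ext v
    rw [AddSubgroup.mem_comap, AddSubgroup.mem_sup]
    constructor
    · rintro ⟨x, hx, y, ⟨w, rfl⟩, rfl⟩
      refine ⟨w, ?_⟩
      change w ᵥ* Δ0 = (x + w ᵥ* E0) ᵥ* D0
      rw [add_vecMul, (mZ x).mp hx, zero_add, vecMul_vecMul]
    · rintro ⟨w, hw⟩
      have hw' : w ᵥ* Δ0 = v ᵥ* D0 := hw
      refine ⟨v - w ᵥ* E0, ?_, w ᵥ* E0, ⟨w, rfl⟩, sub_add_cancel _ _⟩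
      rw [mZ, sub_vecMul, ← hw', vecMul_vecMul, sub_self]
  have i5 : W.relIndex d0.range * d0.range.index = W.index := AddSubgroup.relIndex_mul_index hWle
  rw [t1, t2, t3, ← hW, ← i5, ← i1, i3, i4]
  ring

end Pool.Agent.D0H83.AC
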