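import Pool.Agent.D0H83.AC.Fa2

set_option autoImplicit false

/-! # Project AC, module FA, third file: base cases -/

namespace Pool.Agent.D0H83.AC

open Matrix Finset Pool.Agent.Q181.TG

/-- complexes with two terms -/
theorem two_terms {a b : Type} [Fintype a] [DecidableEq a] [Fintype b] [DecidableEq b]
    (D0 : Matrix b a ℤ) (E0 : Matrix a b ℤ) (G0 : Matrix a a ℤ) (G1 : Matrix b b ℤ)
    (hG0 : 0 < G0.det) (hG1 : 0 < G1.det) (hadj : D0 * G0 = G1 * E0ᵀ)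
    (h0 : (E0 * D0).det ≠ 0) (h1 : (D0 * E0).det ≠ 0) :
    |((E0 * D0).det : ℝ)| = |((D0 * E0).det : ℝ)| ∧
      Real.log (tc (Cok D0)) = (1 / 2) * Real.log |((D0 * E0).det : ℝ)| -
        (1 / 2) * (Real.log (G0.det : ℝ) - Real.log (G1.det : ℝ)) := by
  -- the cardinalities agree
  have c1 : Fintype.card a ≤ Fintype.card b := by
    have hinj : Function.Injective E0.vecMulLinear := by
      rw [← LinearMap.ker_eq_bot, LinearMap.ker_eq_bot']
      intro v hv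
      have hv' : v ᵥ* E0 = 0 := hv
      apply Matrix.eq_zero_of_vecMul_eq_zero h0
      rw [← vecMul_vecMul, hv', zero_vecMul]
    have := LinearMap.finrank_le_finrank_of_injective hinj
    simpa using this
  have c2 : Fintype.card b ≤ Fintype.card a := by
    have hinj : Function.Injective D0.vecMulLinear := by
      rw [← LinearMap.ker_eq_bot, LinearMap.ker_eq_bot']
      intro v hv
      have hv' : v ᵥ* D0 = 0 := hv
      apply Matrix.eq_zero_of_vecMul_eq_zero h1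
      rw [← vecMul_vecMul, hv', zero_vecMul]
    have := LinearMap.finrank_le_finrank_of_injective hinj
    simpa using this
  let e : a ≃ b := Fintype.equivOfCardEq (le_antisymm c1 c2)
  set D' : Matrix a a ℤ := D0.submatrix e id with hD'
  set E' : Matrix a a ℤ := E0.submatrix id e with hE'
  have m1 : E0 * D0 = E' * D' := by
    have := Matrix.submatrix_mul_equiv E0 D0 id e id
    rw [hE', hD', this]
    rfl
  have m2 : (D0 * E0).det = (D' * E').det := by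
    rw [← Matrix.det_submatrix_equiv_self e (D0 * E0)]
    congr 1
  have m3 : D' * G0 = (G1.submatrix e e) * E'ᵀ := by
    have h5 : D' * G0 = (D0 * G0).submatrix e id := rfl
    have h6 := Matrix.submatrix_mul_equiv G1 E0ᵀ e e id
    rw [h5, hadj, ← h6]
    rfl
  have d1 : (E0 * D0).det = E'.det * D'.det := by rw [m1, det_mul]
  have d2 : (D0 * E0).det = D'.det * E'.det := by rw [m2, det_mul]
  have d3 : D'.det * G0.det = G1.det * E'.det := by
    have := congrArg Matrix.det m3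
    rwa [det_mul, det_mul, Matrix.det_submatrix_equiv_self, det_transpose] at this
  have nD : D'.det ≠ 0 := by
    intro h
    rw [d1, h, mul_zero] at h0
    exact h0 rfl
  have nE : E'.det ≠ 0 := by
    intro h
    rw [d1, h, zero_mul] at h0
    exact h0 rfl
  have t1 : tc (Cok D0) = D'.det.natAbs := by
    rw [← (tc_square D' nD).1]
    have h7 : Set.range D0 = Set.range D' := by
      ext v
      constructor
      · rintro ⟨i, rfl⟩
        refine ⟨e.symm i, ?_⟩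
        funext j
        simp [hD']
      · rintro ⟨i, rfl⟩
        exact ⟨e i, rfl⟩
    unfold Cok
    rw [h7]
  have rD : (0 : ℝ) < |(D'.det : ℝ)| := abs_pos.mpr (by exact_mod_cast nD)
  have rE : (0 : ℝ) < |(E'.det : ℝ)| := abs_pos.mpr (by exact_mod_cast nE)
  have rG0 : (0 : ℝ) < (G0.det : ℝ) := by exact_mod_cast hG0
  have rG1 : (0 : ℝ) < (G1.det : ℝ) := by exact_mod_cast hG1
  have l1 : Real.log |(D'.det : ℝ)| + Real.log (G0.det : ℝ) =
      Real.log (G1.det : ℝ) + Real.log |(E'.det : ℝ)| := by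
    rw [← Real.log_mul rD.ne' rG0.ne', ← Real.log_mul rG1.ne' rE.ne']
    congr 1
    have := congrArg (fun z : ℤ => |(z : ℝ)|) d3
    simp only [Int.cast_mul, abs_mul] at this
    rwa [abs_of_pos rG0, abs_of_pos rG1] at this
  refine ⟨?_, ?_⟩
  · rw [d1, d2, mul_comm]
  · have l2 : Real.log (tc (Cok D0)) = Real.log |(D'.det : ℝ)| := by
      rw [t1]
      congr 1
      rw [Nat.cast_natAbs, Int.cast_abs]
    have l3 : Real.log |((D0 * E0).det : ℝ)| = Real.log |(D'.det : ℝ)| + Real.log |(E'.det : ℝ)| := by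
      rw [d2, Int.cast_mul, abs_mul, Real.log_mul rD.ne' rE.ne']
    rw [l2, l3]
    linarith

section gen

variable {a b c d e : Type} [Fintype a] [Fintype b] [Fintype c] [Fintype d] [Fintype e]

theorem g_adj0 (D1 : Matrix c b ℤ) (E0 : Matrix a b ℤ) (E1 : Matrix b c ℤ) (D0 : Matrix b a ℤ)
    (G0 : Matrix a a ℤ) (G1 : Matrix b b ℤ) (G2 : Matrix c c ℤ) (h0 : G0ᵀ = G0) (h1 : G1ᵀ = G1)
    (k0 : D0 * G0 = G1 * E0ᵀ) (k1 : D1 * G1 = G2 * E1ᵀ) :
    fromRows D1 E0 * G1 = fromBlocks G2 0 0 G0 * (fromCols E1 D0)ᵀ := by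
  have h2 : E0 * G1 = G0 * D0ᵀ := by
    have := congrArg transpose k0
    rw [transpose_mul, transpose_mul, transpose_transpose, h0, h1] at this
    exact this.symm
  rw [transpose_fromCols, fromBlocks_mul_fromRows, fromRows_mul, Matrix.zero_mul,
    Matrix.zero_mul, add_zero, zero_add, k1, h2]

theorem g_adj1 (D2 : Matrix d c ℤ) (E2 : Matrix c d ℤ)
    (G0 : Matrix a a ℤ) (G2 : Matrix c c ℤ) (G3 : Matrix d d ℤ)
    (k2 : D2 * G2 = G3 * E2ᵀ) :
    fromCols D2 (0 : Matrix d a ℤ) * fromBlocks G2 0 0 G0 =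
      G3 * (fromRows E2 (0 : Matrix a d ℤ))ᵀ := by
  rw [transpose_fromRows, fromCols_mul_fromBlocks, mul_fromCols, Matrix.zero_mul, Matrix.zero_mul,
    Matrix.mul_zero, add_zero, add_zero, k2, transpose_zero, Matrix.mul_zero]

theorem g_dd0 (D2 : Matrix d c ℤ) (D1 : Matrix c b ℤ) (E0 : Matrix a b ℤ) (h : D2 * D1 = 0) :
    fromCols D2 (0 : Matrix d a ℤ) * fromRows D1 E0 = 0 := by
  rw [fromCols_mul_fromRows, h, Matrix.zero_mul, add_zero]

theorem g_dd1 (D3 : Matrix e d ℤ) (D2 : Matrix d c ℤ) (h : D3 * D2 = 0) :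
    D3 * fromCols D2 (0 : Matrix d a ℤ) = 0 := by
  rw [mul_fromCols, h, Matrix.mul_zero]
  exact fromCols_zero

theorem g_lap0 (D0 : Matrix b a ℤ) (E0 : Matrix a b ℤ) (D1 : Matrix c b ℤ) (E1 : Matrix b c ℤ) :
    fromCols E1 D0 * fromRows D1 E0 = E1 * D1 + D0 * E0 := by
  rw [fromCols_mul_fromRows]

theorem g_lap1 (D0 : Matrix b a ℤ) (E0 : Matrix a b ℤ) (D1 : Matrix c b ℤ) (E1 : Matrix b c ℤ)
    (D2 : Matrix d c ℤ) (E2 : Matrix c d ℤ) (hd : D1 * D0 = 0) (he : E0 * E1 = 0) :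
    fromRows E2 (0 : Matrix a d ℤ) * fromCols D2 (0 : Matrix d a ℤ) +
      fromRows D1 E0 * fromCols E1 D0 = fromBlocks (E2 * D2 + D1 * E1) 0 0 (E0 * D0) := by
  rw [fromRows_mul_fromCols, fromRows_mul_fromCols, hd, he]
  simp [fromBlocks_add]

theorem g_lap2 (D2 : Matrix d c ℤ) (E2 : Matrix c d ℤ) (D3 : Matrix e d ℤ) (E3 : Matrix d e ℤ) :
    E3 * D3 + fromCols D2 (0 : Matrix d a ℤ) * fromRows E2 (0 : Matrix a d ℤ) = E3 * D3 + D2 * E2 := by
  rw [fromCols_mul_fromRows, Matrix.zero_mul, add_zero]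

end gen

section fold

variable {I : ℕ → Type} [∀ n, Fintype (I n)]
  (D : ∀ n, Matrix (I (n + 1)) (I n) ℤ) (E : ∀ n, Matrix (I n) (I (n + 1)) ℤ)
  (Gm : ∀ n, Matrix (I n) (I n) ℤ)

theorem fold_adj (hGs : ∀ n, (Gm n)ᵀ = Gm n) (hadj : ∀ n, D n * Gm n = Gm (n + 1) * (E n)ᵀ) :
    ∀ n, fD D E n * fG Gm n = fG Gm (n + 1) * (fE D E n)ᵀ
  | 0 => g_adj0 (D 1) (E 0) (E 1) (D 0) (Gm 0) (Gm 1) (Gm 2) (hGs 0) (hGs 1) (hadj 0) (hadj 1)
  | 1 => g_adj1 (D 2) (E 2) (Gm 0) (Gm 2) (Gm 3) (hadj 2)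
  | n + 2 => hadj (n + 3)

theorem fold_dd (hDD : ∀ n, D (n + 1) * D n = 0) : ∀ n, fD D E (n + 1) * fD D E n = 0
  | 0 => g_dd0 (D 2) (D 1) (E 0) (hDD 1)
  | 1 => g_dd1 (D 3) (D 2) (hDD 2)
  | n + 2 => hDD (n + 3)

theorem fold_sym (hGs : ∀ n, (Gm n)ᵀ = Gm n) : ∀ n, (fG Gm n)ᵀ = fG Gm n
  | 0 => hGs 1
  | 1 => by
    have h : (fromBlocks (Gm 2) 0 0 (Gm 0))ᵀ = fromBlocks (Gm 2) 0 0 (Gm 0) := by
      rw [fromBlocks_transpose, hGs, hGs, transpose_zero, transpose_zero]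
    exact h
  | n + 2 => hGs (n + 3)

theorem fold_lap0 : lapI (fD D E) (fE D E) 0 = lapI D E 1 :=
  g_lap0 (D 0) (E 0) (D 1) (E 1)

theorem fold_lap1 (hDD : ∀ n, D (n + 1) * D n = 0) (hEE : ∀ n, E n * E (n + 1) = 0) :
    lapI (fD D E) (fE D E) 1 = (fromBlocks (lapI D E 2) 0 0 (lapI D E 0) : Matrix (I 2 ⊕ I 0) (I 2 ⊕ I 0) ℤ) :=
  g_lap1 (D 0) (E 0) (D 1) (E 1) (D 2) (E 2) (hDD 0) (hEE 0)

theorem fold_lap2 : ∀ n, lapI (fD D E) (fE D E) (n + 2) = lapI D E (n + 3)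
  | 0 => g_lap2 (D 2) (E 2) (D 3) (E 3)
  | _ + 1 => rfl

variable [∀ n, DecidableEq (I n)]

theorem fold_det0 : (lapI (fD D E) (fE D E) 0).det = (lapI D E 1).det := by
  rw [fold_lap0]
  rfl

theorem fold_det1 (hDD : ∀ n, D (n + 1) * D n = 0) (hEE : ∀ n, E n * E (n + 1) = 0) :
    (lapI (fD D E) (fE D E) 1).det = (lapI D E 2).det * (lapI D E 0).det := by
  rw [fold_lap1 D E hDD hEE]
  have h : (fromBlocks (lapI D E 2) 0 0 (lapI D E 0)).det = (lapI D E 2).det * (lapI D E 0).det :=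
    det_fromBlocks_zero₂₁ _ _ _
  exact h

theorem fold_det2 (n : ℕ) : (lapI (fD D E) (fE D E) (n + 2)).det = (lapI D E (n + 3)).det := by
  rw [fold_lap2]
  rfl

theorem fold_g1 : (fG Gm 1).det = (Gm 2).det * (Gm 0).det := by
  have h : (fromBlocks (Gm 2) 0 0 (Gm 0)).det = (Gm 2).det * (Gm 0).det :=
    det_fromBlocks_zero₂₁ _ _ _
  exact h

theorem ee_zero (hG : ∀ n, 0 < (Gm n).det)
    (hadj : ∀ n, D n * Gm n = Gm (n + 1) * (E n)ᵀ) (hDD : ∀ n, D (n + 1) * D n = 0) (n : ℕ) :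
    E n * E (n + 1) = 0 := by
  have h1 : Gm (n + 2) * ((E (n + 1))ᵀ * (E n)ᵀ) = 0 := by
    rw [← Matrix.mul_assoc, ← hadj (n + 1), Matrix.mul_assoc, ← hadj n, ← Matrix.mul_assoc, hDD n,
      Matrix.zero_mul]
  have h2 : (Gm (n + 2)).det • ((E (n + 1))ᵀ * (E n)ᵀ) = 0 := by
    have h3 := congrArg (fun M => (Gm (n + 2)).adjugate * M) h1
    simp only [Matrix.mul_zero] at h3
    rw [← Matrix.mul_assoc, adjugate_mul, Matrix.smul_mul, Matrix.one_mul] at h3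
    exact h3
  have h4 := (smul_eq_zero.mp h2).resolve_left (hG (n + 2)).ne'
  rw [← transpose_mul, transpose_eq_zero] at h4
  exact h4

end fold

end Pool.Agent.D0H83.AC
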