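import Pool.Agent.D0H83.AC.Stm

set_option autoImplicit false

/-!
# Project AC, second part: complexes. Statements of the modules 16 - 19, with proofs in plain text

Row vectors throughout; a matrix with rows indexed by `J` and columns indexed by `I` is the map
`ℤ^J → ℤ^I, v ↦ v ᵥ* M`.
-/

namespace Pool.Agent.D0H83.AC

open Matrix Finset Filter Topology Pool.Agent.Q181.TG Pool.Agent.Helper993.FK

/-- the Laplacians `E 0 * D 0`, `E (n+1) * D (n+1) + D n * E n` of a complex `D` with adjoints `E` -/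
def lapI {I : ℕ → Type} [∀ n, Fintype (I n)] (D : ∀ n, Matrix (I (n + 1)) (I n) ℤ)
    (E : ∀ n, Matrix (I n) (I (n + 1)) ℤ) : ∀ n, Matrix (I n) (I n) ℤ
  | 0 => E 0 * D 0
  | n + 1 => E (n + 1) * D (n + 1) + D n * E n

/-- (16 FA) Torsion of a finite complex of lattices, by folding. `D n : ℤ^(I (n+1)) → ℤ^(I n)`, `E n` in the other
direction, adjoint with respect to the forms `Gm n`.
PROOF. Write `U n = ℤ^(I n)`, `d`, `e` for the maps, `Δ n = lapI D E n`, `Z n = ker d`, `B n = im d` in `U n`.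
`E n * E (n+1) = 0` (from `D (n+1) * D n = 0` and the adjointness, as `det Gm ≠ 0`). Prove by induction on `N`,
simultaneously:
 (S) `∑ (-1)^n log |det Δ n| = 0` and (T) the formula.
`tc (Cok (D n)) = card (Z n / B n)`: the torsion of `U n / B n` is `Z n / B n`, which is finite: `Δ` is injective on `Z n`
and maps it into `B n` (rank count); compare `Pool.Agent.Q66.TG.t_hom`.
`N = 0`: `I 1` is empty, so `Δ 0 = 0` and `I 0` is empty, everything is `0`.
`N = 1`: `I 2` is empty, `Δ 0 = E 0 * D 0`, `Δ 1 = D 0 * E 0` are invertible over `ℚ`, so `card (I 0) = card (I 1)`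
(both injective), `D 0`, `E 0` are square after a reindexing, `|det Δ 0| = |det D 0| |det E 0| = |det Δ 1|`,
`det D 0 · det Gm 0 = det Gm 1 · det E 0`, and `tc (Cok (D 0)) = |det D 0|` (`index_vecMul`; the cokernel is finite),
`tc (Cok (D 1)) = 1`.
`N ≥ 2`: fold at the bottom: the new complex has `I' 0 = I 1`, `I' 1 = I 2 ⊕ I 0`, `I' (n+2) = I (n+3)`,
`D' 0 = fromRows (D 1) (E 0)`, `D' 1 = fromCols (D 2) 0`, `D' (n+2) = D (n+3)`, `E' 0 = fromCols (E 1) (D 0)`,
`E' 1 = fromRows (E 2) 0`, `E' (n+2) = E (n+3)`, `Gm' 0 = Gm 1`, `Gm' 1 = fromBlocks (Gm 2) 0 0 (Gm 0)`,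
`Gm' (n+2) = Gm (n+3)` (define all of them by pattern matching). It satisfies the hypotheses for `N - 1`, with
`Δ' 0 = Δ 1`, `Δ' 1 = fromBlocks (Δ 2) 0 0 (Δ 0)`, `Δ' (n+2) = Δ (n+3)`. With `r n = log |det Δ n|`, `g n = log det Gm n`,
`t n = log tc (Cok (D n))`: `r' = (r 1, r 2 + r 0, r 3, …)`, the same for `g'`, and
`t' 0 = t 1 + r 0 - t 0`, `t' n = t (n + 1)` for `n ≥ 1`. So the alternating sums of `r`, `g` change sign,
`∑ (-1)^n t' n = r 0 - ∑ (-1)^n t n`, and (T) for the new complex and (S) give (T).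
`t' 1 = t 2`: `Cok (D' 1) = Cok (D 2) × U 0`, torsion-free second factor. `t' 0`: `U 1 / (B 1 + e U 0)` is finite of order
`card (U 1 / (Z 1 + e U 0)) · card (Z 1 / B 1)` as `Z 1 ∩ (B 1 + e U 0) = B 1` (`d e u = 0` implies `u = 0`), and
`d : U 1 / (Z 1 + e U 0) ≃ d U 1 / d e U 0` has order `|det Δ 0| / card (U 0 / d U 1)`
(`d e U 0 = U 0 Δ 0`, `index_vecMul`; `t 0 = log card (U 0 / d U 1)`). -/
def S_fa : Prop := ∀ (N : ℕ) (I : ℕ → Type) [∀ n, Fintype (I n)] [∀ n, DecidableEq (I n)]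
  (D : ∀ n, Matrix (I (n + 1)) (I n) ℤ) (E : ∀ n, Matrix (I n) (I (n + 1)) ℤ)
  (Gm : ∀ n, Matrix (I n) (I n) ℤ), (∀ n, N < n → IsEmpty (I n)) → (∀ n, 0 < (Gm n).det) →
  (∀ n, (Gm n)ᵀ = Gm n) →
  (∀ n, D n * Gm n = Gm (n + 1) * (E n)ᵀ) → (∀ n, D (n + 1) * D n = 0) →
  (∀ n, (lapI D E n).det ≠ 0) →
  ∑ n ∈ range (N + 1), (-1 : ℝ) ^ n * Real.log (tc (Cok (D n))) =
    -(1 / 2) * ∑ n ∈ range (N + 1), (-1 : ℝ) ^ n * n * Real.log |((lapI D E n).det : ℝ)| -
      (1 / 2) * ∑ n ∈ range (N + 1), (-1 : ℝ) ^ n * Real.log ((Gm n).det : ℝ)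

open Classical in
/-- The matrix `M` respects the partition of `X` into the fibres of `o` (rectangular matrices). -/
def Lump2 {X Y : Type} [Fintype X] {s r : ℕ} (o : X → Y) (M : Matrix (X × Fin s) (X × Fin r) ℤ) :
    Prop :=
  (∀ x x' i b j, o x = o x' →
    ∑ y with o y = b, M (x, i) (y, j) = ∑ y with o y = b, M (x', i) (y, j)) ∧
  (∀ y y' j b i, o y = o y' →
    ∑ x with o x = b, M (x, i) (y, j) = ∑ x with o x = b, M (x, i) (y', j))

/-- the indices which are not roots; `ρ b` is the root of the fibre of `b` -/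
abbrev NR {X Y : Type} (o : X → Y) (ρ : Y → X) (r : ℕ) : Type := {x : X // x ≠ ρ (o x)} × Fin r

/-- the matrix of `f ↦ f M` on the integral functions with vanishing sums over the fibres of `o`, in the basis
`e_x - e_(ρ (o x))`, `x` not a root -/
def red {X Y : Type} {s r : ℕ} (o : X → Y) (ρ : Y → X) (M : Matrix (X × Fin s) (X × Fin r) ℤ) :
    Matrix (NR o ρ s) (NR o ρ r) ℤ :=
  fun p q => M (p.1.1, p.2) (q.1.1, q.2) - M (ρ (o p.1.1), p.2) (q.1.1, q.2)

open Classical in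
/-- the Gram matrix of the basis -/
noncomputable def gram {X Y : Type} (o : X → Y) (ρ : Y → X) (r : ℕ) : Matrix (NR o ρ r) (NR o ρ r) ℤ :=
  fun p q => if p.2 = q.2 ∧ o p.1.1 = o q.1.1 then (if p.1 = q.1 then 2 else 1) else 0

open Classical in
/-- (17 RED) Facts about the reduced matrices. (compare the proof of `Pool.Agent.D0H8.AC.t_tor`.)
(a) `b_p M = ∑_q red M p q • b_q` by the first half of `Lump2` (`b_p = e_x - e_(root)`), so `red` is multiplicative;
(b) `⟪b_p M, b_q⟫ = ⟪b_p, b_q Mᵀ⟫`; (c) the Gram matrix is block diagonal, blocks `1 + J` of size `ℓ_b - 1`, determinant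
`ℓ_b`; (d) restriction to the non-roots is an isomorphism `Zs o r ℝ ≃ (NR → ℝ)` which transports `f ↦ f M` to
`g ↦ g ᵥ* red M`; (e) rectangular version of `S_lump`. -/
def S_red : Prop :=
  (∀ (X Y : Type) [Fintype X] [Fintype Y] (o : X → Y) (ρ : Y → X), (∀ b, o (ρ b) = b) →
    (∀ (s r t : ℕ) (M : Matrix (X × Fin s) (X × Fin r) ℤ) (M' : Matrix (X × Fin r) (X × Fin t) ℤ),
      Lump2 o M → Lump2 o M' → red o ρ (M * M') = red o ρ M * red o ρ M') ∧
    (∀ (s r : ℕ) (M : Matrix (X × Fin s) (X × Fin r) ℤ), Lump2 o M →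
      red o ρ M * gram o ρ r = gram o ρ s * (red o ρ Mᵀ)ᵀ) ∧
    (∀ r : ℕ, (gram o ρ r).det = ∏ b : Y, (#{x | o x = b} : ℤ) ^ r) ∧
    (∀ (r : ℕ) (M : Matrix (X × Fin r) (X × Fin r) ℤ), Lump2 o M →
      ∀ (h1 : ∀ f ∈ Zs o r ℝ, (M.map (Int.cast : ℤ → ℝ)).vecMulLinear f ∈ Zs o r ℝ),
        |LinearMap.det ((M.map (Int.cast : ℤ → ℝ)).vecMulLinear.restrict h1)| =
          |((red o ρ M).det : ℝ)|)) ∧
  (∀ (G : Type) [Group G] (Λ : Subgroup G) [Λ.Normal] (s r : ℕ)
    (A : Matrix (Fin s) (Fin r) (MonoidAlgebra ℤ G)) (X : Type) [Fintype X] [MulAction G X],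
    Lump2 (ob Λ X) (reg X A))

open Classical in
/-- (18 CMP) Torsion of the cokernels of `M` and of the reduced matrix. (compare the proof of
`Pool.Agent.D0H8.AC.t_tor`; here `M` is rectangular and the cokernels may be infinite.)
PROOF. `U_s`, `U_r` = integral functions with vanishing sums over the fibres, `A = U_r / U_s M ≃ Cok (red M)`,
`B = Cok M`, `C = Cok M_Y` (`M_Y (b,i) (b',j) = ∑_(y ∈ b') M (x,i) (y,j)`, `x ∈ b`): `A → B → C → 0` exact. The kernel
of `A → B` consists of the classes of the `v M ∈ U_r`, i.e. `s(v) M_Y = 0` (`s` = sums over the fibres), and is a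
quotient of `ker M_Y / {k : ℓ_b ∣ k (b, i)}`: if `ℓ_b ∣ s(v) (b, i)` then `v = v₀ + u`, `u ∈ U_s`, `v₀` constant on the
fibres, and `v₀ M` is constant on the fibres with vanishing sums, so `v₀ M = 0`. So the kernel has order at most
`∏ ℓ_b ^ s`; so `card tors A ≤ card (kernel) · card tors B`; and an element of `A` with torsion image in `B` is
torsion, so `card tors B ≤ card tors A · card tors C`, `card tors C ≤ K^(s card Y)`
(`Pool.Agent.Y692.FKT.tO_le`). -/
def S_cmp : Prop := ∀ (X Y : Type) [Fintype X] [Fintype Y] (s r : ℕ) (o : X → Y) (ρ : Y → X)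
  (M : Matrix (X × Fin s) (X × Fin r) ℤ) (K : ℕ), 1 ≤ K → (∀ b, o (ρ b) = b) → Lump2 o M →
  (∀ p, ∑ q, (M p q).natAbs ≤ K) →
  (tc (Cok M) : ℝ) ≤ tc (Cok (red o ρ M)) * (K : ℝ) ^ (s * Fintype.card Y) ∧
    (tc (Cok (red o ρ M)) : ℝ) ≤ tc (Cok M) * ∏ b : Y, (#{x | o x = b} : ℝ) ^ s

end Pool.Agent.D0H83.AC
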