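import Pool.Agent.D0H83.AC.Hom
import Pool.Agent.D0H83.AC.Stm2
import Pool.Agent.Q96.TG.TC

set_option autoImplicit false

/-! # Project AC, part 2: complexes of any length -/

namespace Pool.Agent.D0H83.AC

open Matrix Finset Filter Topology Pool.Agent.Q181.TG Pool.Agent.Helper993.FK Pool.Agent.TH630.Tor
open Pool.Agent.TH630.Tor.FreeCx (lapM laplacian_eq)

attribute [-instance] Pool.Agent.D0H8.AC.instFx

variable {G : Type} [Group G]

/-- the matrices `h 0 * d 0`, `h (n+1) * d (n+1) + d n * h n` of the null-homotopic map defined by `h` -/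
noncomputable def homR (C : FreeCx G)
    (h : ∀ n, Matrix (Fin (C.rank n)) (Fin (C.rank (n + 1))) (MonoidAlgebra ℤ G)) :
    ∀ n, Matrix (Fin (C.rank n)) (Fin (C.rank n)) (MonoidAlgebra ℤ G)
  | 0 => h 0 * C.d 0
  | n + 1 => h (n + 1) * C.d (n + 1) + C.d n * h n

/-- `C` has a null-homotopic self-map whose matrices dominate Laplacians of `Λ` in all degrees -/
def NullDominated (Λ : Subgroup G) (C : FreeCx G) : Prop :=
  ∃ h : ∀ n, Matrix (Fin (C.rank n)) (Fin (C.rank (n + 1))) (MonoidAlgebra ℤ G),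
    ∀ n, Dominates Λ (homR C h n)

theorem low_lap (Λ : Subgroup G) (C : FreeCx G) (hC : NullDominated Λ C) (n : ℕ) :
    Low Λ 8 (C.lapM n) := by
  obtain ⟨h, hh⟩ := hC
  cases n with
  | zero =>
    obtain ⟨K, hK, h1⟩ := homotopy_form (h 0) (C.d 0)
      (0 : Matrix (Fin (C.rank 0)) (Fin 0) (MonoidAlgebra ℤ G))
      (0 : Matrix (Fin 0) (Fin (C.rank 0)) (MonoidAlgebra ℤ G))
    rw [Matrix.zero_mul, Matrix.zero_mul, add_zero, add_zero] at h1
    exact low_of_form Λ (homR C h 0) (C.lapM 0) (hh 0) K hK h1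
  | succ n =>
    obtain ⟨K, hK, h1⟩ := homotopy_form (h (n + 1)) (C.d (n + 1)) (C.d n) (h n)
    exact low_of_form Λ (homR C h (n + 1)) (C.lapM (n + 1)) (hh (n + 1)) K hK h1

theorem red_add {X Y : Type} {s r : ℕ} (o : X → Y) (ρ : Y → X)
    (M M' : Matrix (X × Fin s) (X × Fin r) ℤ) : red o ρ (M + M') = red o ρ M + red o ρ M' := by
  ext p q
  simp only [red, Matrix.add_apply]
  ring

theorem red_zero {X Y : Type} {s r : ℕ} (o : X → Y) (ρ : Y → X) :
    red o ρ (0 : Matrix (X × Fin s) (X × Fin r) ℤ) = 0 := by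
  ext p q
  simp [red]

theorem gram_symm {X Y : Type} (o : X → Y) (ρ : Y → X) (r : ℕ) : (gram o ρ r)ᵀ = gram o ρ r := by
  ext p q
  rw [Matrix.transpose_apply]
  unfold gram
  by_cases h1 : p.2 = q.2 ∧ o p.1.1 = o q.1.1
  · rw [if_pos h1, if_pos ⟨h1.1.symm, h1.2.symm⟩]
    by_cases h2 : p.1 = q.1
    · rw [if_pos h2, if_pos h2.symm]
    · rw [if_neg h2, if_neg (fun h => h2 h.symm)]
  · rw [if_neg h1, if_neg (fun h => h1 ⟨h.1.symm, h.2.symm⟩)]

theorem reg_add' {s r : ℕ} (X : Type) [Fintype X] [MulAction G X]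
    (A B : Matrix (Fin s) (Fin r) (MonoidAlgebra ℤ G)) : reg X (A + B) = reg X A + reg X B := by
  classical
  ext p q
  rw [Matrix.add_apply, Pool.Agent.Q151.TG.reg_eq, Pool.Agent.Q151.TG.reg_eq, Pool.Agent.Q151.TG.reg_eq,
    Matrix.add_apply, map_add, Matrix.add_apply]

open Classical in
/-- the formula on one finite level -/
theorem level2 (hfa : S_fa) (hred : S_red) (Λ : Subgroup G) [Λ.Normal] (C : FreeCx G) (X : Type)
    [Fintype X] [MulAction G X] [Fintype (MulAction.orbitRel.Quotient Λ X)]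
    (ρ : MulAction.orbitRel.Quotient Λ X → X) (hρ : ∀ b, ob Λ X (ρ b) = b)
    (hdt : ∀ n, 0 < dt u_lump Λ (C.lapM n) X) :
    ∑ n ∈ range (C.dim + 1), (-1 : ℝ) ^ n * Real.log (tc (Cok (red (ob Λ X) ρ (reg X (C.d n))))) =
    -(1 / 2) * ∑ n ∈ range (C.dim + 1), (-1 : ℝ) ^ n * n * Real.log (dt u_lump Λ (C.lapM n) X) -
      (1 / 2) * (∑ n ∈ range (C.dim + 1), (-1 : ℝ) ^ n * C.rank n) *
        ∑ b : MulAction.orbitRel.Quotient Λ X, Real.log (#{x | ob Λ X x = b}) := by
  obtain ⟨h1, h2⟩ := hred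
  obtain ⟨hmul, hadj, hdet0, hsq⟩ := h1 X (MulAction.orbitRel.Quotient Λ X) (ob Λ X) ρ hρ
  have hdet : ∀ r : ℕ, (gram (ob Λ X) ρ r).det =
      ∏ b : MulAction.orbitRel.Quotient Λ X, (#{x | ob Λ X x = b} : ℤ) ^ r := by
    intro r
    rw [hdet0]
    refine Finset.prod_congr rfl fun b _ => ?_
    congr 3
    ext x
    simp only [Finset.mem_filter]
  have hl : ∀ {s r : ℕ} (A : Matrix (Fin s) (Fin r) (MonoidAlgebra ℤ G)), Lump2 (ob Λ X) (reg X A) :=
    fun {s r} A => h2 G Λ s r A X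
  let D : ∀ n, Matrix (NR (ob Λ X) ρ (C.rank (n + 1))) (NR (ob Λ X) ρ (C.rank n)) ℤ :=
    fun n => red (ob Λ X) ρ (reg X (C.d n))
  let E : ∀ n, Matrix (NR (ob Λ X) ρ (C.rank n)) (NR (ob Λ X) ρ (C.rank (n + 1))) ℤ :=
    fun n => red (ob Λ X) ρ (reg X (adjZ (C.d n)))
  have hlap : ∀ n, lapI D E n = red (ob Λ X) ρ (reg X (C.lapM n)) := by
    intro n
    cases n with
    | zero =>
      change E 0 * D 0 = red (ob Λ X) ρ (reg X (adjZ (C.d 0) * C.d 0))
      rw [Pool.Agent.Q151.TG.reg_mul, hmul _ _ _ _ _ (hl _) (hl _)]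
    | succ n =>
      change E (n + 1) * D (n + 1) + D n * E n =
        red (ob Λ X) ρ (reg X (adjZ (C.d (n + 1)) * C.d (n + 1) + C.d n * adjZ (C.d n)))
      rw [reg_add', red_add, Pool.Agent.Q151.TG.reg_mul, Pool.Agent.Q151.TG.reg_mul,
        hmul _ _ _ _ _ (hl _) (hl _), hmul _ _ _ _ _ (hl _) (hl _)]
  have hlapdet : ∀ n, |((lapI D E n).det : ℝ)| = dt u_lump Λ (C.lapM n) X := by
    intro n
    rw [hlap n]
    exact (hsq _ (reg X (C.lapM n)) (hl _) _).symm
  have hYpos : ∀ b : MulAction.orbitRel.Quotient Λ X, 0 < #{x | ob Λ X x = b} := by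
    intro b
    exact Finset.card_pos.mpr ⟨ρ b, by
      rw [Finset.mem_filter]
      exact ⟨Finset.mem_univ _, hρ b⟩⟩
  have key := hfa C.dim (fun n => NR (ob Λ X) ρ (C.rank n)) D E (fun n => gram (ob Λ X) ρ (C.rank n))
    (by
      intro n hn
      have h0 := C.rank_eq_zero n hn
      refine ⟨fun p => ?_⟩
      have : IsEmpty (Fin (C.rank n)) := by rw [h0]; infer_instance
      exact this.elim p.2)
    (by
      intro n
      rw [hdet]
      exact Finset.prod_pos fun b _ => pow_pos (by exact_mod_cast hYpos b) _)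
    (fun n => gram_symm _ _ _)
    (by
      intro n
      have := hadj _ _ (reg X (C.d n)) (hl _)
      rw [← u_lump.1] at this
      exact this)
    (by
      intro n
      change red (ob Λ X) ρ (reg X (C.d (n + 1))) * red (ob Λ X) ρ (reg X (C.d n)) = 0
      rw [← hmul _ _ _ _ _ (hl _) (hl _), ← Pool.Agent.Q151.TG.reg_mul, C.d_comp_d]
      have h0 : reg X (0 : Matrix (Fin (C.rank (n + 1 + 1))) (Fin (C.rank n)) (MonoidAlgebra ℤ G)) = 0 := by
        ext p q
        simp [reg]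
      rw [h0, red_zero])
    (by
      intro n h0
      have := hdt n
      rw [← hlapdet n, h0] at this
      simp at this)
  have e1 : ∀ n, Real.log ((gram (ob Λ X) ρ (C.rank n)).det : ℝ) =
      C.rank n * ∑ b : MulAction.orbitRel.Quotient Λ X, Real.log (#{x | ob Λ X x = b}) := by
    intro n
    rw [hdet]
    push_cast
    rw [Real.log_prod (fun b _ => by
      have h3 : (0 : ℝ) < (#{x | ob Λ X x = b} : ℝ) := by exact_mod_cast hYpos b
      exact (pow_pos h3 (C.rank n)).ne'), Finset.mul_sum]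
    refine Finset.sum_congr rfl fun b _ => ?_
    rw [Real.log_pow]
  rw [key]
  simp only [hlapdet, e1]
  congr 1
  rw [mul_assoc, Finset.sum_mul]
  congr 1
  refine Finset.sum_congr rfl fun n _ => ?_
  ring

end Pool.Agent.D0H83.AC
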