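import Pool.Agent.D0H83.AC.Fin2

set_option autoImplicit false

/-! # Project AC, part 2: the limit -/

namespace Pool.Agent.D0H83.AC

open Matrix Finset Filter Topology Pool.Agent.Q181.TG Pool.Agent.Helper993.FK Pool.Agent.TH630.Tor
open Pool.Agent.TH630.Tor.FreeCx (lapM laplacian_eq)

attribute [-instance] Pool.Agent.D0H8.AC.instFx

variable {G : Type} [Group G]

theorem acyc (Λ : Subgroup G) [Λ.Normal] [Infinite Λ]
    (X : ℕ → Type) [∀ n, Fintype (X n)] [∀ n, Nonempty (X n)] [∀ n, MulAction G (X n)]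
    (hX : Far G X) (C : FreeCx G) (hC : NullDominated Λ C) : C.DetL2Acyclic := by
  intro n
  obtain ⟨h1, h2, -⟩ := main_low Λ (C.lapM n) 8 (low_lap Λ C hC n) X hX
  rw [FreeCx.l2betti, laplacian_eq]
  exact ⟨FreeCx.dimKer_of_inj _ h1, h2⟩

theorem part2 (hfa : S_fa) (hred : S_red) (hcmp : S_cmp) (Λ : Subgroup G) [Λ.Normal] [Infinite Λ]
    (X : ℕ → Type) [∀ n, Fintype (X n)] [∀ n, Nonempty (X n)] [∀ n, MulAction G (X n)]
    (hX : Far G X) (C : FreeCx G) (hC : NullDominated Λ C) :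
    Tendsto (fun i => (∑ n ∈ range (C.dim + 1), (-1 : ℝ) ^ n * Real.log (torsHn C n (X i))) /
      Fintype.card (X i)) atTop (𝓝 C.l2torsion) := by
  classical
  have hfinY : ∀ n, Fintype (MulAction.orbitRel.Quotient Λ (X n)) := fun n => Fintype.ofFinite _
  obtain ⟨hy, hlen⟩ := Pool.Agent.D0H25.AC.t_far G Λ X hX
  set S : ℕ → ℝ := fun i => ∑ b : MulAction.orbitRel.Quotient Λ (X i),
    Real.log (#{x : X i | ob Λ (X i) x = b}) with hS
  set y : ℕ → ℝ := fun i => (Fintype.card (MulAction.orbitRel.Quotient Λ (X i)) : ℝ) with hydef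
  have hn' : ∀ i, (0 : ℝ) < Fintype.card (X i) := fun i => by exact_mod_cast Fintype.card_pos
  have hρ : ∀ i, ∃ ρ : MulAction.orbitRel.Quotient Λ (X i) → X i, ∀ b, ob Λ (X i) (ρ b) = b :=
    fun i => ⟨Quotient.out, fun b => Quotient.out_eq b⟩
  choose ρ hρ using hρ
  have hm := fun n => main_low Λ (C.lapM n) 8 (low_lap Λ C hC n) X hX
  have hdt : ∀ n i, 0 < dt u_lump Λ (C.lapM n) (X i) := fun n => (hm n).2.2.1.2
  have hdl : ∀ n, Tendsto (fun i => Real.log (dt u_lump Λ (C.lapM n) (X i)) / Fintype.card (X i)) atTop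
      (𝓝 (Real.log (fkDet (C.laplacian n)))) := by
    intro n
    rw [laplacian_eq]
    exact (hm n).2.2.1.1
  have hYpos : ∀ i (b : MulAction.orbitRel.Quotient Λ (X i)),
      (0 : ℝ) < (#{x | ob Λ (X i) x = b} : ℝ) := by
    intro i b
    have : 0 < #{x | ob Λ (X i) x = b} := Finset.card_pos.mpr ⟨ρ i b, by
      rw [Finset.mem_filter]
      exact ⟨Finset.mem_univ _, hρ i b⟩⟩
    exact_mod_cast this
  -- comparison of the torsions
  have hcomp : ∀ n, Tendsto (fun i => (Real.log (torsHn C n (X i)) -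
      Real.log (tc (Cok (red (ob Λ (X i)) (ρ i) (reg (X i) (C.d n)))))) / Fintype.card (X i)) atTop
      (𝓝 0) := by
    intro n
    obtain ⟨K, hK, hKb⟩ := u_lump.2.2.1 G _ _ (C.d n)
    have hK' : (1 : ℝ) ≤ (K : ℝ) := by exact_mod_cast hK
    have hlogK : 0 ≤ Real.log K := Real.log_nonneg hK'
    have hb1 : ∀ i, Real.log (torsHn C n (X i)) -
        Real.log (tc (Cok (red (ob Λ (X i)) (ρ i) (reg (X i) (C.d n))))) ≤
        (C.rank (n + 1) * Real.log K) * y i := by
      intro i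
      obtain ⟨t1, t2⟩ := hcmp (X i) (MulAction.orbitRel.Quotient Λ (X i)) _ _ (ob Λ (X i)) (ρ i)
        (reg (X i) (C.d n)) K hK (hρ i) (hred.2 G Λ _ _ (C.d n) (X i)) (hKb (X i)).1
      have p1 : (1 : ℝ) ≤ tc (Cok (reg (X i) (C.d n))) := by
        exact_mod_cast Pool.Agent.Q96.TG.t_tc.2.2.1 _ _ _
      have p2 : (1 : ℝ) ≤ tc (Cok (red (ob Λ (X i)) (ρ i) (reg (X i) (C.d n)))) := by
        exact_mod_cast Pool.Agent.Q96.TG.t_tc.2.2.1 _ _ _
      rw [torsHn_eq]
      have h1 := Real.log_le_log (by linarith) t1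
      rw [Real.log_mul (by linarith) (by positivity), Real.log_pow] at h1
      push_cast at h1
      linarith
    have hb2 : ∀ i, -(C.rank (n + 1) * S i) ≤ Real.log (torsHn C n (X i)) -
        Real.log (tc (Cok (red (ob Λ (X i)) (ρ i) (reg (X i) (C.d n))))) := by
      intro i
      obtain ⟨t1, t2⟩ := hcmp (X i) (MulAction.orbitRel.Quotient Λ (X i)) _ _ (ob Λ (X i)) (ρ i)
        (reg (X i) (C.d n)) K hK (hρ i) (hred.2 G Λ _ _ (C.d n) (X i)) (hKb (X i)).1
      have p1 : (1 : ℝ) ≤ tc (Cok (reg (X i) (C.d n))) := by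
        exact_mod_cast Pool.Agent.Q96.TG.t_tc.2.2.1 _ _ _
      have p2 : (1 : ℝ) ≤ tc (Cok (red (ob Λ (X i)) (ρ i) (reg (X i) (C.d n)))) := by
        exact_mod_cast Pool.Agent.Q96.TG.t_tc.2.2.1 _ _ _
      rw [torsHn_eq]
      have e0 : (∏ b : MulAction.orbitRel.Quotient Λ (X i), (#{x | ob Λ (X i) x = b} : ℝ) ^ C.rank (n + 1)) ≠
          0 := (Finset.prod_pos fun b _ => pow_pos (hYpos i b) _).ne'
      have t2' : (tc (Cok (red (ob Λ (X i)) (ρ i) (reg (X i) (C.d n)))) : ℝ) ≤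
          tc (Cok (reg (X i) (C.d n))) *
            ∏ b : MulAction.orbitRel.Quotient Λ (X i), (#{x | ob Λ (X i) x = b} : ℝ) ^ C.rank (n + 1) := by
        refine le_trans t2 (le_of_eq ?_)
        congr 1
        refine Finset.prod_congr rfl fun b _ => ?_
        congr 3
        ext x
        simp only [Finset.mem_filter]
      have h1 := Real.log_le_log (by linarith) t2'
      rw [Real.log_mul (by linarith) e0,
        Real.log_prod (fun b _ => (pow_pos (hYpos i b) _).ne')] at h1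
      simp only [Real.log_pow] at h1
      rw [← Finset.mul_sum] at h1
      have hSi : S i = ∑ b : MulAction.orbitRel.Quotient Λ (X i),
        Real.log (#{x : X i | ob Λ (X i) x = b}) := rfl
      rw [hSi]
      linarith
    have l1 : Tendsto (fun i => (C.rank (n + 1) * Real.log K) * (y i / Fintype.card (X i))) atTop (𝓝 0) := by
      simpa using hy.const_mul (C.rank (n + 1) * Real.log K)
    have l2 : Tendsto (fun i => -(C.rank (n + 1) : ℝ) * (S i / Fintype.card (X i))) atTop (𝓝 0) := by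
      simpa using hlen.const_mul (-(C.rank (n + 1) : ℝ))
    refine tendsto_of_tendsto_of_tendsto_of_le_of_le l2 l1 (fun i => ?_) (fun i => ?_)
    · show -(C.rank (n + 1) : ℝ) * (S i / Fintype.card (X i)) ≤ _
      rw [← mul_div_assoc]
      refine div_le_div_of_nonneg_right ?_ (hn' i).le
      have := hb2 i
      linarith
    · show _ ≤ (C.rank (n + 1) * Real.log K) * (y i / Fintype.card (X i))
      rw [← mul_div_assoc]
      exact div_le_div_of_nonneg_right (hb1 i) (hn' i).le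
  -- the formula on the finite levels
  have hlev : ∀ i, (∑ n ∈ range (C.dim + 1), (-1 : ℝ) ^ n * Real.log (torsHn C n (X i))) /
      Fintype.card (X i) =
      (∑ n ∈ range (C.dim + 1), (-1 : ℝ) ^ n * ((Real.log (torsHn C n (X i)) -
        Real.log (tc (Cok (red (ob Λ (X i)) (ρ i) (reg (X i) (C.d n)))))) / Fintype.card (X i))) +
      (-(1 / 2) * ∑ n ∈ range (C.dim + 1), (-1 : ℝ) ^ n * n *
        (Real.log (dt u_lump Λ (C.lapM n) (X i)) / Fintype.card (X i)) -
      (1 / 2) * (∑ n ∈ range (C.dim + 1), (-1 : ℝ) ^ n * C.rank n) * (S i / Fintype.card (X i))) := by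
    intro i
    have key := level2 hfa hred Λ C (X i) (ρ i) (hρ i) (fun n => hdt n i)
    have e1 : (∑ n ∈ range (C.dim + 1), (-1 : ℝ) ^ n * Real.log (torsHn C n (X i))) =
        (∑ n ∈ range (C.dim + 1), (-1 : ℝ) ^ n * (Real.log (torsHn C n (X i)) -
          Real.log (tc (Cok (red (ob Λ (X i)) (ρ i) (reg (X i) (C.d n))))))) +
        ∑ n ∈ range (C.dim + 1), (-1 : ℝ) ^ n *
          Real.log (tc (Cok (red (ob Λ (X i)) (ρ i) (reg (X i) (C.d n))))) := by
      rw [← Finset.sum_add_distrib]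
      refine Finset.sum_congr rfl fun n _ => ?_
      ring
    rw [e1, key, add_div, sub_div, Finset.sum_div]
    congr 1
    · refine Finset.sum_congr rfl fun n _ => ?_
      ring
    · congr 1
      · rw [mul_div_assoc, Finset.sum_div]
        congr 1
        refine Finset.sum_congr rfl fun n _ => ?_
        ring
      · rw [mul_div_assoc]
  simp_rw [hlev]
  have t1 : Tendsto (fun i => ∑ n ∈ range (C.dim + 1), (-1 : ℝ) ^ n * ((Real.log (torsHn C n (X i)) -
      Real.log (tc (Cok (red (ob Λ (X i)) (ρ i) (reg (X i) (C.d n)))))) / Fintype.card (X i))) atTop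
      (𝓝 (∑ n ∈ range (C.dim + 1), (-1 : ℝ) ^ n * 0)) :=
    tendsto_finsetSum _ fun n _ => (hcomp n).const_mul _
  have t2 : Tendsto (fun i => ∑ n ∈ range (C.dim + 1), (-1 : ℝ) ^ n * n *
      (Real.log (dt u_lump Λ (C.lapM n) (X i)) / Fintype.card (X i))) atTop
      (𝓝 (∑ n ∈ range (C.dim + 1), (-1 : ℝ) ^ n * n * Real.log (fkDet (C.laplacian n)))) :=
    tendsto_finsetSum _ fun n _ => (hdl n).const_mul _
  have t3 := t1.add ((t2.const_mul (-(1 / 2))).sub (hlen.const_mul
    ((1 / 2) * (∑ n ∈ range (C.dim + 1), (-1 : ℝ) ^ n * C.rank n))))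
  have e2 : (∑ n ∈ range (C.dim + 1), (-1 : ℝ) ^ n * 0) +
      (-(1 / 2) * (∑ n ∈ range (C.dim + 1), (-1 : ℝ) ^ n * n * Real.log (fkDet (C.laplacian n))) -
        (1 / 2) * (∑ n ∈ range (C.dim + 1), (-1 : ℝ) ^ n * C.rank n) * 0) = C.l2torsion := by
    unfold FreeCx.l2torsion
    simp
  rw [e2] at t3
  exact t3

end Pool.Agent.D0H83.AC
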