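import Pool.Agent.D0H83.AC.Tame

set_option autoImplicit false

/-! # Project AC: the numerical part of the assembly -/

namespace Pool.Agent.D0H83.AC

open Matrix Finset Filter Topology Pool.Agent.Q181.TG Pool.Agent.Helper993.FK

/-- the condition on the small eigenvalues -/
def Cnt (p : ℕ) (c C : ℝ) (n d : ℕ) (ν : Fin d → ℝ) : Prop :=
  ∀ L : ℕ, 1 ≤ L → ∀ S : Finset (Fin d), (∀ k ∈ S, ν k * (L : ℝ) ^ p < c) → (#S : ℝ) * L ≤ C * n

theorem abs_log_bound (hnum : S_num) (p : ℕ) (c C : ℝ) (hc : 0 < c) (hC : 0 ≤ C) (r : ℕ) (K : ℝ)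
    (hK : 1 ≤ K) : ∃ B : ℝ, 0 ≤ B ∧ ∀ (n d : ℕ) (ν : Fin d → ℝ), d ≤ r * n → (∀ k, ν k ≤ K) →
      Cnt p c C n d ν → (∀ k, 0 < ν k) ∧ ∑ k, |Real.log (ν k)| ≤ B * n := by
  obtain ⟨η₀, hη₀, h⟩ := hnum p c C hc hC 1 one_pos
  set η := min η₀ 1 with hη
  have hη0 : 0 < η := lt_min hη₀ one_pos
  have hη1 : η ≤ 1 := min_le_right _ _
  have hlogη : Real.log η ≤ 0 := Real.log_nonpos hη0.le hη1
  have hlogK : 0 ≤ Real.log K := Real.log_nonneg hK
  refine ⟨1 + r * (-Real.log η + Real.log K), by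
    have : 0 ≤ (r : ℝ) * (-Real.log η + Real.log K) :=
      mul_nonneg (Nat.cast_nonneg r) (by linarith)
    linarith, ?_⟩
  intro n d ν hd hνK hcnt
  obtain ⟨hpos, h2⟩ := h n d ν hcnt
  refine ⟨hpos, ?_⟩
  classical
  have h3 := h2 η hη0 (min_le_left _ _) (Finset.univ.filter fun k => ν k < η)
    (fun k hk => (Finset.mem_filter.mp hk).2)
  have h4 : ∑ k, |Real.log (ν k)| ≤ ∑ k, ((if ν k < η then Real.log (η / ν k) else 0) +
      (-Real.log η + Real.log K)) := by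
    refine Finset.sum_le_sum fun k _ => ?_
    have hk := hpos k
    have h5 := Real.log_le_log hk (hνK k)
    split_ifs with hlt
    · rw [Real.log_div hη0.ne' hk.ne']
      have h10 := Real.log_le_log hk hlt.le
      rcases abs_cases (Real.log (ν k)) with h6 | h6 <;> linarith [h6.1]
    · push Not at hlt
      have h7 := Real.log_le_log hη0 hlt
      rcases abs_cases (Real.log (ν k)) with h6 | h6 <;> linarith [h6.1]
  refine h4.trans ?_
  rw [Finset.sum_add_distrib, ← Finset.sum_filter, Finset.sum_const, Finset.card_univ, Fintype.card_fin,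
    nsmul_eq_mul]
  have h8 : (d : ℝ) ≤ r * n := by exact_mod_cast hd
  have h9 : 0 ≤ -Real.log η + Real.log K := by linarith
  nlinarith [mul_le_mul_of_nonneg_right h8 h9, h3]

/-- the truncated logarithm -/
noncomputable def lg (m : ℕ) (x : ℝ) : ℝ := Real.log (max x (Real.exp (-(m : ℝ))))

theorem lg_cont (m : ℕ) : Continuous (lg m) := by
  unfold lg
  refine Continuous.log (continuous_id.max continuous_const) fun x => ?_
  exact (lt_of_lt_of_le (Real.exp_pos _) (le_max_right _ _)).ne'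

theorem lg_ge (m : ℕ) (x : ℝ) : -(m : ℝ) ≤ lg m x := by
  unfold lg
  have := Real.log_le_log (Real.exp_pos (-(m : ℝ))) (le_max_right x (Real.exp (-(m : ℝ))))
  rwa [Real.log_exp] at this

theorem lg_le (m : ℕ) {x K : ℝ} (hK : 1 ≤ K) (hx : x ≤ K) : lg m x ≤ Real.log K := by
  unfold lg
  refine Real.log_le_log (lt_of_lt_of_le (Real.exp_pos _) (le_max_right _ _)) ?_
  refine max_le hx (le_trans ?_ hK)
  rw [Real.exp_le_one_iff]
  have : (0 : ℝ) ≤ m := Nat.cast_nonneg m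
  linarith

theorem log_le_lg (m : ℕ) {x : ℝ} (hx : 0 < x) : Real.log x ≤ lg m x :=
  Real.log_le_log hx (le_max_left _ _)

/-- comparison of the sum of the logarithms and of the truncated logarithms -/
theorem sum_log_lg {d d' : ℕ} {ν : Fin d → ℝ} {μ : Fin d' → ℝ} {K δ : ℝ} (hK : 1 ≤ K)
    (hν : ∀ k, 0 < ν k) (hμK : ∀ k, μ k ≤ K) (m n : ℕ)
    (hs : ∀ S : Finset (Fin d), (∀ k ∈ S, ν k < Real.exp (-(m : ℝ))) →
      ∑ k ∈ S, Real.log (Real.exp (-(m : ℝ)) / ν k) ≤ δ * n) :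
    ∑ k, Real.log (ν k) ≤ (∑ k, lg m (ν k) + ∑ k, lg m (μ k)) + d' * m ∧
    (∑ k, lg m (ν k) + ∑ k, lg m (μ k)) - d' * Real.log K - δ * n ≤ ∑ k, Real.log (ν k) := by
  classical
  have h1 : ∑ k, Real.log (ν k) ≤ ∑ k, lg m (ν k) := Finset.sum_le_sum fun k _ => log_le_lg m (hν k)
  have h2 : -(d' * (m : ℝ)) ≤ ∑ k, lg m (μ k) := by
    calc -(d' * (m : ℝ)) = ∑ _k : Fin d', -(m : ℝ) := by simp
      _ ≤ _ := Finset.sum_le_sum fun k _ => lg_ge m (μ k)
  have h3 : ∑ k, lg m (μ k) ≤ d' * Real.log K := by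
    calc ∑ k, lg m (μ k) ≤ ∑ _k : Fin d', Real.log K := Finset.sum_le_sum fun k _ => lg_le m hK (hμK k)
      _ = _ := by simp
  have h4 : ∑ k, lg m (ν k) ≤ ∑ k, Real.log (ν k) + δ * n := by
    have h5 := hs (Finset.univ.filter fun k => ν k < Real.exp (-(m : ℝ)))
      (fun k hk => (Finset.mem_filter.mp hk).2)
    have h6 : ∑ k, lg m (ν k) ≤ ∑ k, (Real.log (ν k) +
        if ν k < Real.exp (-(m : ℝ)) then Real.log (Real.exp (-(m : ℝ)) / ν k) else 0) := by
      refine Finset.sum_le_sum fun k _ => ?_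
      unfold lg
      split_ifs with hlt
      · rw [max_eq_right hlt.le, Real.log_div (Real.exp_pos _).ne' (hν k).ne']
        linarith
      · push Not at hlt
        rw [max_eq_left hlt, add_zero]
    rw [Finset.sum_add_distrib, ← Finset.sum_filter] at h6
    linarith
  constructor <;> linarith

/-- **The numerical part of the assembly.** -/
theorem squeeze (hnum : S_num) (p : ℕ) (c C : ℝ) (hc : 0 < c) (hC : 0 ≤ C) (r : ℕ) (K : ℝ) (hK : 1 ≤ K)
    (n y d d' : ℕ → ℕ) (ν : ∀ i, Fin (d i) → ℝ) (μ : ∀ i, Fin (d' i) → ℝ) (hn : ∀ i, 0 < n i)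
    (hd' : ∀ i, d' i ≤ r * y i) (hμK : ∀ i k, μ i k ≤ K)
    (hν : ∀ i k, 0 < ν i k) (hcnt : ∀ i, Cnt p c C (n i) (d i) (ν i))
    (hy : Tendsto (fun i => (y i : ℝ) / n i) atTop (𝓝 0)) (τ : ℕ → ℝ) (F : ℝ)
    (hτ : ∀ m, Tendsto (fun i => (∑ k, lg m (ν i k) + ∑ k, lg m (μ i k)) / n i) atTop (𝓝 (τ m)))
    (hF : Tendsto τ atTop (𝓝 F)) :
    Tendsto (fun i => (∑ k, Real.log (ν i k)) / n i) atTop (𝓝 F) := by
  have hlogK : 0 ≤ Real.log K := Real.log_nonneg hK
  rw [Metric.tendsto_atTop]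
  intro ε hε
  obtain ⟨η₀, hη₀, h⟩ := hnum p c C hc hC (ε / 5) (by positivity)
  -- choice of m
  have hexp : Tendsto (fun m : ℕ => Real.exp (-(m : ℝ))) atTop (𝓝 0) :=
    Real.tendsto_exp_neg_atTop_nhds_zero.comp tendsto_natCast_atTop_atTop
  obtain ⟨m, hm1, hm2⟩ := ((hexp.eventually_lt_const hη₀).and
    ((Metric.tendsto_nhds.mp hF) (ε / 5) (by positivity))).exists
  rw [Real.dist_eq] at hm2
  have e1 := (Metric.tendsto_nhds.mp (hτ m)) (ε / 5) (by positivity)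
  have hy2 : Tendsto (fun i => ((r : ℝ) * (m + Real.log K)) * ((y i : ℝ) / n i)) atTop (𝓝 0) := by
    simpa using hy.const_mul ((r : ℝ) * (m + Real.log K))
  have e2 := (Metric.tendsto_nhds.mp hy2) (ε / 5) (by positivity)
  obtain ⟨i₀, hi₀⟩ := Filter.eventually_atTop.mp (e1.and e2)
  refine ⟨i₀, fun i hi => ?_⟩
  obtain ⟨h1, h2⟩ := hi₀ i hi
  rw [Real.dist_eq] at h1 h2
  rw [Real.dist_eq]
  have hni : (0 : ℝ) < n i := by exact_mod_cast hn i
  obtain ⟨-, hs⟩ := h (n i) (d i) (ν i) (hcnt i)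
  obtain ⟨h3, h4⟩ := sum_log_lg hK (hν i) (hμK i) m (n i)
    (hs (Real.exp (-(m : ℝ))) (Real.exp_pos _) hm1.le)
  have hdy : (d' i : ℝ) ≤ r * y i := by exact_mod_cast hd' i
  have hm0 : (0 : ℝ) ≤ m := Nat.cast_nonneg m
  have h5 : (d' i : ℝ) * m / n i ≤ (r : ℝ) * (m + Real.log K) * ((y i : ℝ) / n i) := by
    rw [← mul_div_assoc]
    refine div_le_div_of_nonneg_right ?_ hni.le
    have hr : (0 : ℝ) ≤ r * y i := by positivity
    nlinarith [mul_le_mul_of_nonneg_right hdy hm0]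
  have h6 : (d' i : ℝ) * Real.log K / n i ≤ (r : ℝ) * (m + Real.log K) * ((y i : ℝ) / n i) := by
    rw [← mul_div_assoc]
    refine div_le_div_of_nonneg_right ?_ hni.le
    have hr : (0 : ℝ) ≤ r * y i := by positivity
    nlinarith [mul_le_mul_of_nonneg_right hdy hlogK]
  have h7 := div_le_div_of_nonneg_right h3 hni.le
  have h8 := div_le_div_of_nonneg_right h4 hni.le
  rw [add_div] at h7
  rw [sub_div, sub_div, mul_div_assoc (ε / 5), div_self hni.ne', mul_one] at h8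
  rw [sub_zero] at h2
  have h2' := abs_lt.mp h2
  have h1' := abs_lt.mp h1
  have hm2' := abs_lt.mp hm2
  rw [abs_lt]
  constructor <;> linarith

end Pool.Agent.D0H83.AC
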