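import Pool.Agent.D0H83.AC.Defs

set_option autoImplicit false

/-!
# Project AC: the statements of the modules, with proofs in plain text

Each statement `S_x` is to be proved as `theorem t_x : S_x` in its own file. Modules may use Mathlib and the
library imported by `Pool.Agent.D0H83.AC.Defs`; a dependency on another module is written as a hypothesis.
-/

namespace Pool.Agent.D0H83.AC

open Matrix Finset Filter Topology Pool.Agent.Q181.TG Pool.Agent.Helper993.FK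

/-- (1 TOUR) A finite connected graph with `ℓ` vertices has a closed or open walk `w 0, …, w m`, `m = 2 (ℓ - 1)`,
which visits all vertices and uses no directed edge twice.
Proof: induction on `ℓ`. For `ℓ = 1`, `m = 0`. Else remove a vertex `v` such that the rest is connected
(`SimpleGraph.Connected.exists_connected_induce_compl_singleton_of_finite_nontrivial`); let `u` be a neighbour of
`v`, and `w i = u` in the walk of the rest (the edges of the rest are edges of the graph); the new walk is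
`w 0, …, w i = u, v, u, w (i+1), …`: the two new directed edges `(u,v)`, `(v,u)` involve `v`. -/
def S_tour : Prop := ∀ (V : Type) [Fintype V] (Γ : SimpleGraph V), Γ.Connected →
  ∃ (m : ℕ) (w : ℕ → V), m + 2 = 2 * Fintype.card V ∧ (∀ v, ∃ i ≤ m, w i = v) ∧
    (∀ i < m, Γ.Adj (w i) (w (i + 1))) ∧
    (∀ i < m, ∀ j < m, w i = w j → w (i + 1) = w (j + 1) → i = j)

open Classical in
/-- (2 ORB) Poincaré inequality on a connected graph with few linear conditions. (`S_tour` may be assumed.)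
Proof: take `m`, `w` from `S_tour`, `ℓ = card V`, `m + 1 = 2 ℓ - 1`. INTERVAL INEQUALITY: for `g : ℕ → ℝ` and an
interval `[a, b)` with `b - a ≤ s` terms, `∑_{a ≤ i < b} (g i - c)² ≤ s² ∑_{a ≤ i, i + 1 < b} (g (i+1) - g i)²`, where
`c` is the mean of `g` on `[a, b)` (each `|g i - c| ≤ max - min ≤ ∑ |Δ|`, so `(g i - c)² ≤ s ∑ Δ²` by
Cauchy-Schwarz; sum over the at most `s` values of `i`).
Case `ℓ < L`: `k = 0` (no condition). With `g i = f (w i)`, `c` the mean over the whole walk (`2 ℓ - 1 ≤ 2 L` terms):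
as `∑ f = 0`, `∑_x f x ² ≤ ∑_x (f x - c)² ≤ ∑_{i ≤ m} (f (w i) - c)² ≤ (2L)² ∑_{i<m} (f (w (i+1)) - f (w i))²`
(all vertices are visited) and the directed edges of the walk are distinct edges of the graph, so this is at most
`4 L² ∑_{x, y adjacent} (f x - f y)²`.
Case `ℓ ≥ L`: the blocks `{i ≤ m | i / L = j}`, `j ≤ m / L`; `k = m / L + 1`, `φ j f = ∑_{i in block j} f (w i)`;
`k * L ≤ m + L ≤ 3 ℓ`. All block means vanish, so `∑_x f x ² ≤ ∑_{i ≤ m} f (w i)² ≤ L² ∑_{i < m} (f (w (i+1)) - f (w i))²`. -/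
def S_orb : Prop := ∀ (V : Type) [Fintype V] (Γ : SimpleGraph V), Γ.Connected → ∀ L : ℕ, 1 ≤ L →
  ∃ (k : ℕ) (φ : Fin k → ((V → ℝ) →ₗ[ℝ] ℝ)), k * L ≤ 3 * Fintype.card V ∧
    ∀ f : V → ℝ, ∑ x, f x = 0 → (∀ j, φ j f = 0) →
      ∑ x, f x ^ 2 ≤ 4 * (L : ℝ) ^ 2 * ∑ x, ∑ y, if Γ.Adj x y then (f x - f y) ^ 2 else 0

open Classical in
/-- (3 GLB) The same for a finite `G`-set and the orbits of `Λ = closure T`. (`S_orb` may be assumed.)
Proof: for each orbit `O` of `Λ` the graph on `O` with `x ~ y` iff `x ≠ y` and (`t • x = y` or `t • y = x` for some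
`t ∈ T`) is connected (induction on the elements of the closure: `Subgroup.closure_induction` or
`closure_induction_left`). Take `k_O`, `φ_O` from `S_orb` and compose with the restriction to `O`; the index set is
`Σ O, Fin k_O`, of cardinality `k = ∑ k_O`, `k L ≤ 3 ∑ card O = 3 card X`. On each orbit
`∑_{x, y ∈ O adjacent} (f x - f y)² ≤ 2 ∑_{t ∈ T} ∑_{x ∈ O} (f (t • x) - f x)²`
(`[x ~ y] ≤ ∑_t ([t • x = y] + [t • y = x])`). Sum over the orbits. -/
def S_glb : Prop := ∀ (G : Type) [Group G] (T : Finset G) (X : Type) [Fintype X] [MulAction G X] (L : ℕ),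
  1 ≤ L → ∃ (k : ℕ) (φ : Fin k → ((X → ℝ) →ₗ[ℝ] ℝ)), k * L ≤ 3 * Fintype.card X ∧
    ∀ f : X → ℝ, (∀ b, ∑ x with ob (Subgroup.closure (T : Set G)) X x = b, f x = 0) → (∀ j, φ j f = 0) →
      ∑ x, f x ^ 2 ≤ 8 * (L : ℝ) ^ 2 * ∑ t ∈ T, ∑ x, (f (t • x) - f x) ^ 2

/-- (4 DOM) The quadratic form of a dominating matrix. Proof: `rg X` is additive and multiplicative
(`Pool.Agent.Q151.TG.reg_mul`, `reg_eq`) and `rg X (adjZ A) = (rg X A)ᵀ`; so with `M = rg X A`, `b = rg X B`: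
`2 D (f M · f) = D (f (M + Mᵀ) · f) = (f rg(lap) · f) + |f b|²`, and
`f rg(lap T · 1) · f = ∑_i ∑_{t ∈ T} ∑_x (2 f(x,i)² - f(t x, i) f(x, i) - f(t⁻¹ x, i) f(x,i))
 = ∑_i ∑_t ∑_x (f (t x, i) - f (x, i))²` (substitute `x ↦ t x`). -/
def S_dom : Prop := ∀ (G : Type) [Group G] (T : Finset G) (r D m : ℕ)
  (A : Matrix (Fin r) (Fin r) (MonoidAlgebra ℤ G)) (B : Matrix (Fin r) (Fin m) (MonoidAlgebra ℤ G)),
  D • (A + adjZ A) = Matrix.diagonal (fun _ => lap T) + B * adjZ B →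
  ∀ (X : Type) [Fintype X] [MulAction G X] (f : X × Fin r → ℝ),
    ∑ i, ∑ t ∈ T, ∑ x, (f (t • x, i) - f (x, i)) ^ 2 ≤ 2 * D * (f ᵥ* rg X A ⬝ᵥ f)

open Classical in
/-- (5 LUMP) Elementary facts about `reg X A` for a normal subgroup `Λ`.
(a) `reg X (adjZ A) = (reg X A)ᵀ`; (b) `reg X A` respects the orbits of `Λ` (if `x' = λ x` then `h⁻¹ x'` and `h⁻¹ x`
are in the same orbit, by normality: `∑_{y ∈ b} reg X A (x,i) (y,j) = ∑_h A i j (h) [h⁻¹ x ∈ b]`); (c) so `Zs` is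
invariant; (d) the rows and columns are bounded by a constant `K` which depends only on `A`, so `|f M|² ≤ K² |f|²`
(Schur test, or Cauchy-Schwarz: `(∑_p f p M p q)² ≤ (∑_p |M p q|) (∑_p |M p q| f p ²)`); (e) `Zs` is the kernel of
`r · card Y` linear functionals. -/
def S_lump : Prop :=
  (∀ (G : Type) [Group G] (r s : ℕ) (A : Matrix (Fin r) (Fin s) (MonoidAlgebra ℤ G)) (X : Type) [Fintype X]
    [MulAction G X], reg X (adjZ A) = (reg X A)ᵀ) ∧
  (∀ (G : Type) [Group G] (Λ : Subgroup G) [Λ.Normal] (r : ℕ)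
    (A : Matrix (Fin r) (Fin r) (MonoidAlgebra ℤ G)) (X : Type) [Fintype X] [MulAction G X],
    Lump (ob Λ X) (reg X A) ∧ ∀ f ∈ Zs (ob Λ X) r ℝ, f ᵥ* rg X A ∈ Zs (ob Λ X) r ℝ) ∧
  (∀ (G : Type) [Group G] (r s : ℕ) (A : Matrix (Fin r) (Fin s) (MonoidAlgebra ℤ G)), ∃ K : ℕ, 1 ≤ K ∧
    ∀ (X : Type) [Fintype X] [MulAction G X], (∀ p, ∑ q, (reg X A p q).natAbs ≤ K) ∧
      ∀ f : X × Fin r → ℝ, ∑ q, (f ᵥ* rg X A) q ^ 2 ≤ (K : ℝ) ^ 2 * ∑ p, f p ^ 2) ∧
  (∀ (X Y : Type) [Fintype X] [Fintype Y] (o : X → Y) (r : ℕ),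
    Fintype.card X * r ≤ Module.finrank ℝ (Zs o r ℝ) + r * Fintype.card Y)

/-- (6 TAME) Lower bounds on large subspaces, for a tame matrix. (helper83 does this one; `S_glb`, `S_dom`,
`S_lump` are assumed.) -/
def S_tame : Prop := ∀ (G : Type) [Group G] (Λ : Subgroup G) [Λ.Normal] (r : ℕ)
  (A : Matrix (Fin r) (Fin r) (MonoidAlgebra ℤ G)), Tame Λ A →
  ∃ (p : ℕ) (c C : ℝ), 0 < c ∧ 0 ≤ C ∧ ∀ (X : Type) [Fintype X] [MulAction G X] (L : ℕ), 1 ≤ L →
    ∃ W : Submodule ℝ (X × Fin r → ℝ), W ≤ Zs (ob Λ X) r ℝ ∧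
      ((Module.finrank ℝ (Zs (ob Λ X) r ℝ) : ℝ) - Module.finrank ℝ W) * L ≤ C * Fintype.card X ∧
      ∀ f ∈ W, c * ∑ q, f q ^ 2 ≤ (L : ℝ) ^ p * ∑ q, (f ᵥ* rg X A) q ^ 2

open Classical in
/-- (7 EIG) Eigenvalues on an invariant subspace and on its orthogonal complement.
Proof: transfer to `EuclideanSpace ℝ N`. `S f = f M Mᵀ` is symmetric, `⟪S f, f⟫ = |f M|² ≥ 0`, and maps `H` to `H`, hence
`Hᗮ` to `Hᗮ`. `ν`, `μ` are the eigenvalues of the restrictions of `S` to `H`, `Hᗮ`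
(`LinearMap.IsSymmetric.eigenvalues`). Traces: `trace (S^k) = trace (S^k on H) + trace (S^k on Hᗮ)`
(`LinearMap.trace_eq_sum_trace_restrict` or an orthonormal basis of eigenvectors). Product:
`∏ ν = det (S on H) = det (M on H) det (Mᵀ on H)`, and `Mᵀ` on `H` is the adjoint of `M` on `H`
(`LinearMap.det_adjoint`). Last point: the span of the eigenvectors in `H` with `ν k < c` meets `W` only in `0`. -/
def S_eig : Prop := ∀ (N : Type) [Fintype N] [DecidableEq N] (M : Matrix N N ℝ)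
  (H : Submodule ℝ (N → ℝ)) (h1 : ∀ f ∈ H, M.vecMulLinear f ∈ H), (∀ f ∈ H, f ᵥ* Mᵀ ∈ H) →
  ∃ (d d' : ℕ) (ν : Fin d → ℝ) (μ : Fin d' → ℝ), d = Module.finrank ℝ H ∧ d + d' = Fintype.card N ∧
    (∀ k, 0 ≤ ν k) ∧ (∀ k, 0 ≤ μ k) ∧
    (∀ K : ℝ, (∀ f : N → ℝ, ∑ q, (f ᵥ* M) q ^ 2 ≤ K * ∑ q, f q ^ 2) → (∀ k, ν k ≤ K) ∧ (∀ k, μ k ≤ K)) ∧
    (∀ k : ℕ, ((M * Mᵀ) ^ k).trace = ∑ j, ν j ^ k + ∑ j, μ j ^ k) ∧
    (∏ j, ν j = LinearMap.det (M.vecMulLinear.restrict h1) ^ 2) ∧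
    (∀ (c : ℝ) (W : Submodule ℝ (N → ℝ)), W ≤ H →
      (∀ f ∈ W, c * ∑ q, f q ^ 2 ≤ ∑ q, (f ᵥ* M) q ^ 2) →
      (#{k | ν k < c} + Module.finrank ℝ W ≤ d))

/-- (8 NUM) The small eigenvalues contribute little to the logarithm of the determinant.
Proof: `L > C n` gives an empty set, so `ν k ≥ c / L^p > 0`. Take `η₀ = c / 2^(J p)`, `J` large. If
`c / 2^((j+1)p) ≤ ν k < c / 2^(j p)` with `j ≥ J` then `log (η₀ / ν k) ≤ (j + 1 - J) p log 2
= p log 2 · #{j' | J ≤ j', ν k < c / 2^(j' p)}`(`j' ≤ j`), so `∑_{ν k < η₀} log (η₀ / ν k) ≤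
p log 2 ∑_{j ≥ J} #{k | ν k < c / 2^(j p)} ≤ p log 2 ∑_{j ≥ J} C n / 2^j = 2 p log 2 · C n / 2^J`
(the sum over `j` is finite as the sets are empty for large `j`). The left side is monotone in `η`. -/
def S_num : Prop := ∀ (p : ℕ) (c C : ℝ), 0 < c → 0 ≤ C → ∀ δ : ℝ, 0 < δ → ∃ η₀ : ℝ, 0 < η₀ ∧
  ∀ (n d : ℕ) (ν : Fin d → ℝ),
    (∀ L : ℕ, 1 ≤ L → ∀ S : Finset (Fin d), (∀ k ∈ S, ν k * (L : ℝ) ^ p < c) → (#S : ℝ) * L ≤ C * n) →
    (∀ k, 0 < ν k) ∧ ∀ η, 0 < η → η ≤ η₀ → ∀ S : Finset (Fin d), (∀ k ∈ S, ν k < η) →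
      ∑ k ∈ S, Real.log (η / ν k) ≤ δ * n

open Classical in
/-- (9 TOR) Torsion of the cokernel and determinant on the functions with vanishing sums over the fibres.
`D₁` is the absolute value of the determinant of `f ↦ f M` on `Zs o r ℝ`.
Proof. Choose `ρ : Y → X` with `o (ρ b) = b`. `I = {x // x ≠ ρ (o x)} × Fin r`; restricting functions to `I` is an
isomorphism `Zs o r R ≃ (I → R)` (`R = ℤ, ℝ`; the value at `ρ b` is minus the sum of the others), which transports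
`f ↦ f M` to `g ↦ g M'`, `M' p q = M p q - M (ρ (o p), q) ` (entries with rows `p`, and the row of the
root of `p`, and columns `q` in `I`). So `D₁ = |det M'|`, an integer, and with `U = Zs o r ℤ`, `card (U / U M) = D₁`
(`Pool.Agent.Y692.FKT.index_vecMul`). Let `s : ℤ^(X × Fin r) → ℤ^(Y × Fin r)` be the sums over the fibres (kernel
`U`, surjective) and `M_Y (b,i) (b',j) = ∑_{y ∈ b'} M (x,i) (y,j)` for any `x ∈ b`: `s (v M) = s(v) M_Y`. There is an
exact sequence `U / U M → Cok M → Cok M_Y → 0`.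
Upper bound: so `tc (Cok M) ≤ card (U / U M) · tc (Cok M_Y)`, and `tc (Cok M_Y) ≤ K^(r card Y)`
(rows of `M_Y` bounded by `K`: `Pool.Agent.Y692.FKT.tO_le`).
Lower bound: `U / U M` is finite, so its image is in the torsion, and `D₁ ≤ tc (Cok M) · card (kernel)`. The
kernel is `(U ∩ ℤ^N M) / U M ≃ ker M_Y / s (ker M)`, and `s (ker M)` contains all `k ∈ ker M_Y` with
`ℓ_b ∣ k (b, i)`, `ℓ_b` the size of the fibre: `v (x, i) = k (o x, i) / ℓ_(o x)` is constant on the fibres, so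
`v M` is constant on the fibres (second half of `Lump`) and `s (v M) = k M_Y = 0`, so `v M = 0`. The index of the
`k` with these divisibilities is at most `∏_b ℓ_b ^ r`. -/
def S_tor : Prop := ∀ (X Y : Type) [Fintype X] [Fintype Y] (r : ℕ) (o : X → Y)
  (M : Matrix (X × Fin r) (X × Fin r) ℤ) (K : ℕ), 1 ≤ K → Function.Surjective o → Lump o M →
  (∀ p, ∑ q, (M p q).natAbs ≤ K) →
  ∀ (h1 : ∀ f ∈ Zs o r ℝ, (M.map (Int.cast : ℤ → ℝ)).vecMulLinear f ∈ Zs o r ℝ),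
    LinearMap.det ((M.map (Int.cast : ℤ → ℝ)).vecMulLinear.restrict h1) ≠ 0 →
    (tc (Cok M) : ℝ) ≤ |LinearMap.det ((M.map (Int.cast : ℤ → ℝ)).vecMulLinear.restrict h1)| *
      (K : ℝ) ^ (r * Fintype.card Y) ∧
    |LinearMap.det ((M.map (Int.cast : ℤ → ℝ)).vecMulLinear.restrict h1)| ≤
      tc (Cok M) * ∏ b : Y, (#{x | o x = b} : ℝ) ^ r

/-- (10 MOM) The moments. (a) `trace (rg X B) = ∑_i ∑_h B i i (h) · #{x | h x = x}`, so along a Farber sequence
the normalised trace converges to `∑_i B i i (1)`. (b) the same over `G`: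
`Pool.Agent.Helper993.FK.inner_rMul_unitVec`, `rMul_mul`, `toQ_mul`, and `cfc (x ^ k) T = T ^ k`
(`cfc_pow_id`), `T = rMul ((A * adjZ A).map toQ)` is nonnegative (`mul_adjZ_toQ`, `rMul_self_nonneg`). -/
def S_mom : Prop :=
  (∀ (G : Type) [Group G] (r : ℕ) (B : Matrix (Fin r) (Fin r) (MonoidAlgebra ℤ G)) (X : ℕ → Type)
    [∀ n, Fintype (X n)] [∀ n, Nonempty (X n)] [∀ n, MulAction G (X n)], Far G X →
    Tendsto (fun n => (rg (X n) B).trace / Fintype.card (X n)) atTop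
      (𝓝 (∑ i, ((B i i).coeff 1 : ℝ)))) ∧
  (∀ (G : Type) [Group G] (r : ℕ) (A : Matrix (Fin r) (Fin r) (MonoidAlgebra ℤ G)) (k : ℕ),
    traceVal unitVec (rMul ((A * adjZ A).map toQ)) (fun x => x ^ k) =
      ∑ i, ((((A * adjZ A) ^ k) i i).coeff 1 : ℝ))

/-- (11 WEI) From moments to continuous functions (Weierstrass). Proof: `T = rMul ((A * adjZ A).map toQ)` is
nonnegative; enlarge `K` so that `‖T‖ ≤ K`; take a polynomial `q` with `|h - q| ≤ ε` on `[0, K]`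
(`exists_polynomial_near_of_continuousOn`); `traceVal_near` (with `norm_unitVec`) for `T`, the obvious estimate
for the sums, and linearity of `traceVal` in polynomials (or `cfc_polynomial`), or state the convergence first for
monomials and sum up. -/
def S_wei : Prop := ∀ (G : Type) [Group G] (r : ℕ) (A : Matrix (Fin r) (Fin r) (MonoidAlgebra ℤ G)) (K : ℝ)
  (N : ℕ → ℕ) (I : ℕ → Type) [∀ n, Fintype (I n)] (lam : ∀ n, I n → ℝ), (∀ n, 0 < N n) →
  (∀ n k, lam n k ∈ Set.Icc 0 K) → (∀ n, Fintype.card (I n) ≤ r * N n) →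
  (∀ k : ℕ, Tendsto (fun n => (∑ j, lam n j ^ k) / N n) atTop
    (𝓝 (traceVal unitVec (rMul ((A * adjZ A).map toQ)) (fun x => x ^ k)))) →
  ∀ h : ℝ → ℝ, Continuous h →
    Tendsto (fun n => (∑ j, h (lam n j)) / N n) atTop
      (𝓝 (traceVal unitVec (rMul ((A * adjZ A).map toQ)) h))

/-- (12 FKV) The Fuglede-Kadison determinant as a limit of truncated traces. Proof: with
`T = rMul ((A * adjZ A).map toQ) ≥ 0` and `μ = specMeas unitVec (rMul (A.map toQ))`, which is the spectral measure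
of `T` (`adjoint_comp_rMul`, `mul_adjZ_toQ`), `log` is integrable on `(0, ∞)` (`log_integrable` as in
`Pool.Agent.TH630.Tor.conclude`), and `2 log fkDet = ∫_(0,∞) log dμ` by definition (`fkDet`, `detOf`). `μ` is
supported on `[0, ‖T‖]` (test with compactly supported functions vanishing on `[0, ‖T‖]`:
`integral_spectralMeasure`, `traceVal_congr`), `μ {0} = 0` (`μ {0} ≤ ∫ bump δ ≤ C / log (1/δ)` for all `δ`), and
`traceVal h = ∫ h dμ` for continuous `h` (multiply by `cut`). So the traces are `∫_(0,‖T‖] log (max x (e^(-m))) dμ`,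
which tend to `∫_(0,‖T‖] log dμ` by dominated convergence (`|log (max x (e^(-m)))| ≤ |log x|` for `m ≥ 0`). -/
def S_fkv : Prop := ∀ (G : Type) [Group G] (r : ℕ) (A : Matrix (Fin r) (Fin r) (MonoidAlgebra ℤ G))
  (C C' : ℝ),
  (∀ M : ℝ, 0 ≤ M → traceVal unitVec (rMul ((A * adjZ A).map toQ)) (gm M) ≤ C') →
  (∀ δ : ℝ, 0 < δ → δ < 1 →
    traceVal unitVec (rMul ((A * adjZ A).map toQ)) (bump δ) * Real.log (1 / δ) ≤ C) →
  Tendsto (fun m : ℕ => traceVal unitVec (rMul ((A * adjZ A).map toQ))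
    (fun x => Real.log (max x (Real.exp (-m))))) atTop (𝓝 (2 * Real.log (fkDet (rMul (A.map toQ)))))

open Classical in
/-- (13 FAR) Most points have large `Λ`-orbits. Proof: if the orbit of `x` has at most `L` points, then two of
`L + 1` fixed distinct elements `g_0, …, g_L` of `Λ` agree on `x`, so `x` is fixed by some `g_i⁻¹ g_j ≠ 1`; so the
proportion of such `x` tends to `0`. The number of orbits is at most `#{x | card (Λ x) ≤ L} + card X / L`. For the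
second statement `log ℓ ≤ ε ℓ + C_ε`, so `∑_b log ℓ_b ≤ ε card X + C_ε · (number of orbits)`. -/
def S_far : Prop := ∀ (G : Type) [Group G] (Λ : Subgroup G) [Infinite Λ] (X : ℕ → Type)
  [∀ n, Fintype (X n)] [∀ n, Nonempty (X n)] [∀ n, MulAction G (X n)]
  [∀ n, Fintype (MulAction.orbitRel.Quotient Λ (X n))], Far G X →
  Tendsto (fun n => (Fintype.card (MulAction.orbitRel.Quotient Λ (X n)) : ℝ) / Fintype.card (X n)) atTop
    (𝓝 0) ∧
  Tendsto (fun n => (∑ b : MulAction.orbitRel.Quotient Λ (X n),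
    Real.log (#{x : X n | ob Λ (X n) x = b})) / Fintype.card (X n)) atTop (𝓝 0)

/-- (14 DEN) From the trace of `bump` to the spectral measure. Proof: `bump (2 δ) ≥ 1/2` on `[0, δ]`; the
spectral measure of `T = rMul ((A * adjZ A).map toQ)` (= `specMeas`, see FKV) is supported on `[0, ‖T‖]`, and
`∫ (bump (2 δ) · cut n) dμ = traceVal (bump (2 δ))` for large `n`. -/
def S_den : Prop := ∀ (G : Type) [Group G] (r : ℕ) (A : Matrix (Fin r) (Fin r) (MonoidAlgebra ℤ G)) (δ : ℝ),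
  0 < δ → (specMeas unitVec (rMul (A.map toQ)) (Set.Iic δ)).toReal ≤
    2 * traceVal unitVec (rMul ((A * adjZ A).map toQ)) (bump (2 * δ)) ∧
    specMeas unitVec (rMul (A.map toQ)) (Set.Iic δ) < ⊤

end Pool.Agent.D0H83.AC
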