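import Pool.Agent.D0H83.AC.Fin

set_option autoImplicit false

/-!
# Project AC, third part: rate of convergence. Statements of the modules, with proofs in plain text.

Each statement `S_x` is to be proved as `theorem t_x : S_x` in its own file. Modules may use Mathlib and the
library imported here.
-/

namespace Pool.Agent.D0H83.AC

open Matrix Finset Filter Topology Pool.Agent.Q181.TG Pool.Agent.Helper993.FK

/-- the products of at most `n` elements of `S` and their inverses -/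
def ball {G : Type} [Group G] (S : Set G) (n : ℕ) : Set G :=
  {g | ∃ l : List G, l.length ≤ n ∧ (∀ s ∈ l, s ∈ S ∨ s⁻¹ ∈ S) ∧ l.prod = g}

open Classical in
/-- the points of `X` which are fixed by a nontrivial element of the ball of radius `n` -/
noncomputable def fixd {G : Type} [Group G] (S : Set G) (n : ℕ) (X : Type) [Fintype X] [MulAction G X] :
    Finset X :=
  {x | ∃ g ∈ ball S n, g ≠ 1 ∧ g • x = x}

/-- (E1 CHEB) Polynomial approximation of `log (x + δ)`, `δ = K (1 - ρ)² / (4 ρ)`, on `[0, K]`.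
Proof: `t = 1 - 2 x / K = cos θ` (`θ = Real.arccos t`); `x + δ = K / (4 ρ) * (1 + ρ² - 2 ρ t)` and
`1 + ρ² - 2 ρ cos θ = ‖1 - ρ e^{iθ}‖²`; so by `Complex.hasSum_taylorSeries_neg_log` (real parts)
`log (1 + ρ² - 2 ρ t) = - 2 ∑_{j ≥ 1} ρ^j cos (j θ) / j`. Take `q = log (K / (4 ρ)) - 2 ∑_{1 ≤ j ≤ m} (ρ^j / j) T_j (1 - 2 X / K)`
(`Polynomial.Chebyshev.T_real_cos`), of degree at most `m`; the rest of the series is at most
`2 ∑_{j > m} ρ^j = 2 ρ^(m+1) / (1 - ρ)`. -/
def S_cheb : Prop := ∀ (K ρ : ℝ) (m : ℕ), 0 < K → 0 < ρ → ρ < 1 →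
  ∃ q : Polynomial ℝ, q.natDegree ≤ m ∧ ∀ x, 0 ≤ x → x ≤ K →
    |q.eval x - Real.log (x + K * (1 - ρ) ^ 2 / (4 * ρ))| ≤ 2 * ρ ^ (m + 1) / (1 - ρ)

/-- (E2 SUM) Quantitative form of `S_num`. `Cnt p c C n d ν`: for all `L ≥ 1`, at most `C n / L` of the `ν k` are
`< c / L^p`.
Proof. Positivity: `L > C n`. The `k` with `ν k ≥ c` contribute at most `d δ / c ≤ r n δ^(1/p) / c`. The `k` with
`c / 2^((j+1) p) ≤ ν k < c / 2^(j p)`, `j ≥ 0`, are at most `C n / 2^j` (take `L = 2^j`) and each contributes at most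
`log (1 + a 2^(p j))`, `a = δ 2^p / c`. Let `J` be the least natural number with `a 2^(p J) ≥ 1` (so `2^(-J) ≥ a^(1/p) / 2` or `J = 0`; and
`2^(-J) ≤ a^(1/p)`). For `j < J`: `log (1 + y) ≤ y` gives `∑_{j < J} 2^(-j) a 2^(p j) ≤ 2 a 2^((p-1) (J-1)) ≤ 2 a^(1/p)`
(as `2^(J-1) ≤ a^(-1/p)`). For `j ≥ J`: `a 2^(pj) ≤ (a 2^(pJ)) 2^(p (j - J))`, `a 2^(pJ) ≤ max (2^p) a`,
so `log (1 + a 2^(pj)) ≤ log (1 + max (2^p) a) + p (j - J) log 2`, and the sum over `j ≥ J` of `2^(-j)` times this is at most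
`const 2^(-J) ≤ const a^(1/p)` (`a ≤ 2^p / c` as `δ ≤ 1`). -/
def S_sum : Prop := ∀ (p r : ℕ) (c C : ℝ), 2 ≤ p → 0 < c → 0 ≤ C → ∃ B : ℝ, 0 ≤ B ∧
  ∀ (n d : ℕ) (ν : Fin d → ℝ), d ≤ r * n → Cnt p c C n d ν → (∀ k, 0 < ν k) ∧
    ∀ δ : ℝ, 0 < δ → δ ≤ 1 → ∑ k, Real.log (1 + δ / ν k) ≤ B * n * δ ^ (1 / (p : ℝ))

/-- (E3 DIAG) The diagonal entries of a polynomial in `M Mᵀ`. Proof: `M Mᵀ` is symmetric and positive semidefinite
and `‖f M‖² ≤ K ‖f‖²` gives eigenvalues in `[0, K]`; by the spectral theorem `q (M Mᵀ) = U q(D) U*`, so the diagonal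
entry is `∑_j q (λ j) |U e j|²`, and `∑_j |U e j|² = 1`. -/
def S_diag : Prop := ∀ (N : Type) [Fintype N] [DecidableEq N] (M : Matrix N N ℝ) (K : ℝ),
  (∀ f : N → ℝ, ∑ q, (f ᵥ* M) q ^ 2 ≤ K * ∑ q, f q ^ 2) →
  ∀ (q : Polynomial ℝ) (b : ℝ), (∀ t, 0 ≤ t → t ≤ K → |q.eval t| ≤ b) →
    ∀ e : N, |(Polynomial.aeval (M * Mᵀ) q) e e| ≤ b

/-- (E4 BALL) Elementary facts on balls. (3): induction on the closure, then finiteness of `F`. (4) a list of
lists. (5) the support of a product is contained in the product of the supports; induction on `k`. -/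
def S_ball : Prop :=
  (∀ (G : Type) [Group G] (S : Set G) (m n : ℕ), m ≤ n → ball S m ⊆ ball S n) ∧
  (∀ (G : Type) [Group G] (S : Set G) (m n : ℕ) (g h : G), g ∈ ball S m → h ∈ ball S n →
    g * h ∈ ball S (m + n) ∧ g⁻¹ ∈ ball S m) ∧
  (∀ (G : Type) [Group G] (S : Set G) (F : Finset G), (F : Set G) ⊆ Subgroup.closure S →
    ∃ a : ℕ, 1 ≤ a ∧ (F : Set G) ⊆ ball S a) ∧
  (∀ (G : Type) [Group G] (S T : Set G) (a n : ℕ), T ⊆ ball S a → ball T n ⊆ ball S (a * n)) ∧
  (∀ (G : Type) [Group G] (r : ℕ) (S : Set G) (B : Matrix (Fin r) (Fin r) (MonoidAlgebra ℤ G)) (a : ℕ),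
    (∀ i j, ∀ g ∈ (B i j).coeff.support, g ∈ ball S a) →
    ∀ k i j, ∀ g ∈ ((B ^ k) i j).coeff.support, g ∈ ball S (a * k))

open Classical in
/-- (E5 ORBS) Number and sizes of the orbits of an infinite finitely generated subgroup `Λ = closure T`.
Proof. For every `L` there is an injective `f : Fin (L + 1) → Λ` with values in `ball T L`: as `Λ` is infinite and
balls are finite (`List.finite_length_le` for the type `{g // g ∈ T ∨ g⁻¹ ∈ T}`) there is `g ∈ Λ` outside `ball T (L - 1)`;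
the products of the first `i` letters of a shortest word for `g`, `i ≤ L`, are different. So if the
orbit of `x` has at most `L` points then `f i x = f j x`, `i ≠ j`, and `x ∈ fixd T (2 L)` (compare
`Pool.Agent.D0H25.AC.bad_le`, file `Pool/Agent/D0H25/AC/Far.lean`): `#(bad Λ X L) ≤ #(fixd T (2 L) X)`. The first claim is
`Pool.Agent.D0H25.AC.card_orbits_le`. For the second claim: orbits with `s > L` points have
`log s ≤ s * (log L / L)` (`Real.log_div_self_antitoneOn`, `L ≥ 3`), the others have `log s ≤ s`, and their points are in `bad Λ X L`. -/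
def S_orbs : Prop := ∀ (G : Type) [Group G] (T : Finset G) (Λ : Subgroup G) [Infinite Λ],
  Subgroup.closure (T : Set G) = Λ → ∀ (X : Type) [Fintype X] [MulAction G X]
    [Fintype (MulAction.orbitRel.Quotient Λ X)] (L : ℕ), 3 ≤ L →
    (Fintype.card (MulAction.orbitRel.Quotient Λ X) : ℝ) ≤
      (Fintype.card X : ℝ) / L + #(fixd (T : Set G) (2 * L) X) ∧
    ∑ b : MulAction.orbitRel.Quotient Λ X, Real.log (#{x | ob Λ X x = b}) ≤
      (Fintype.card X : ℝ) * (Real.log L / L) + #(fixd (T : Set G) (2 * L) X)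

/-- the congruence subgroup of level `N` of a group with a homomorphism to `GL_d(ℤ)` -/
def cong {G : Type} [Group G] {d : ℕ} (φ : G →* GL (Fin d) ℤ) (N : ℕ) : Subgroup G :=
  ((Matrix.GeneralLinearGroup.map (n := Fin d) (Int.castRingHom (ZMod N))).comp φ).ker

/-- (E6 CONG) Congruence subgroups have injectivity radius at least `log N / log κ`. Proof: let all entries of
`φ s`, `φ s⁻¹` (`s ∈ S`) be at most `b` in absolute value, `κ = 2 (d b + 2)`, say. The entries of `φ g`, `g ∈ ball S n`, are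
at most `(d b + 1)^n` in absolute value (induction on the list), so the entries of `φ g - 1` are at most
`(d b + 1)^n + 1 ≤ κ^n` for `n ≥ 1` (for `n = 0` the ball is trivial). If `g • x = x`, `x = h` modulo the normal subgroup,
then `h⁻¹ g h` and so `g` is in the subgroup, all entries of `φ g - 1` are divisible by `N > κ^n`, so they
vanish and `g = 1`. -/
def S_cong : Prop := ∀ (G : Type) [Group G] (d : ℕ) (φ : G →* GL (Fin d) ℤ) (S : Finset G),
  Function.Injective φ → ∃ κ : ℕ, 2 ≤ κ ∧ ∀ (N n : ℕ), κ ^ n < N → ∀ [Fintype (G ⧸ cong φ N)],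
    fixd (S : Set G) n (G ⧸ cong φ N) = ∅

end Pool.Agent.D0H83.AC
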