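import Pool.Agent.D0H83.AC.Stm3

set_option autoImplicit false

/-!
# Project AC, fourth part: the self-adjoint case. Statements of the modules, with proofs in plain text.
-/

namespace Pool.Agent.D0H83.AC

open Matrix Finset Filter Topology Pool.Agent.Q181.TG Pool.Agent.Helper993.FK

/-- (E8 SQRT) The square root of a positive semidefinite real matrix is a polynomial in the matrix.
Proof: `M` is `PosSemidef` (`hA : M.IsHermitian`). Let `g` be a polynomial with `g (λ) = √λ` on the finite set of the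
eigenvalues (`Lagrange.interpolate`), `P = Polynomial.aeval M g`. `Pᵀ = P`. `P * P = aeval M (g * g) = cfc (g * g).eval M = cfc id M = M`
(`cfc_polynomial`, `cfc_congr`, spectrum = range of the eigenvalues; see `Pool/Agent/D0H70/AC/Diag.lean`). `H` is
invariant under the powers of `M`, so under `P`. -/
def S_sqrt : Prop := ∀ (N : Type) [Fintype N] [DecidableEq N] (M : Matrix N N ℝ), Mᵀ = M →
  (∀ f : N → ℝ, 0 ≤ f ᵥ* M ⬝ᵥ f) →
  ∃ P : Matrix N N ℝ, Pᵀ = P ∧ P * P = M ∧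
    ∀ H : Submodule ℝ (N → ℝ), (∀ f ∈ H, f ᵥ* M ∈ H) → ∀ f ∈ H, f ᵥ* P ∈ H

/-- the Laplacian `2 - t - t⁻¹` of the infinite cyclic group -/
noncomputable def cyc : Matrix (Fin 1) (Fin 1) (MonoidAlgebra ℤ (Multiplicative ℤ)) :=
  Matrix.of fun _ _ => 2 - MonoidAlgebra.single (Multiplicative.ofAdd (1 : ℤ)) 1 -
    MonoidAlgebra.single (Multiplicative.ofAdd (1 : ℤ))⁻¹ 1

/-- the subgroup `N ℤ` of the infinite cyclic group -/
def sbg (N : ℕ) : Subgroup (Multiplicative ℤ) := Subgroup.zpowers (Multiplicative.ofAdd (N : ℤ))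

/-- (E9 CYC) The torsion of the cokernel of the Laplacian of the cycle of length `N` has at least `N` elements, and
no nontrivial word of length less than `N` has a fixed point. Proof of the first claim. `X = ℤ/N`, with its classes
`[0], …, [N-1]`; `(v * reg X cyc) x = 2 v x - v (x + 1) - v (x - 1)` up to the sign of the shift. Let
`φ : (X × Fin 1 → ℤ) →+ ZMod N`, `φ v = ∑ x, v x * x`: it vanishes on the rows of `reg X cyc`, as
`2 x - (x + 1) - (x - 1) = 0`, so it is defined on the cokernel. The class of `u = e_1 - e_0` is a torsion element: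
with the representatives `x = 0, …, N - 1`, and `f x = ` a suitable function with `f * reg = N u`, e.g.
`f 0 = 0, f 1 = 1 - N, f x = x - N` for `1 ≤ x ≤ N - 1` up to sign (the second difference is `0` for `2 ≤ x ≤ N - 1`
and at `x = 1`: `2 (1 - N) - 0 - (2 - N) = - N`, at `x = 0`: `0 - (1 - N) - (-1) = N`). So the classes of `k u`,
`0 ≤ k < N`, are torsion elements with different images `k` under `φ`.
(`tc A` is the number of the torsion elements of `A`; for `N = 1, 2` check the wrap around.)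
Second claim: the elements of the ball of radius `n` are the `t^k` with `|k| ≤ n`; if `g • x = x` then `g ∈ sbg N`
(commutative group), so `N ∣ k`, `k = 0`. -/
def S_cyc : Prop := ∀ N : ℕ, 1 ≤ N → ∀ [Fintype (Multiplicative ℤ ⧸ sbg N)],
  N ≤ tc (Cok (reg (Multiplicative ℤ ⧸ sbg N) cyc)) ∧ Fintype.card (Multiplicative ℤ ⧸ sbg N) = N ∧
    ∀ n < N, fixd {Multiplicative.ofAdd (1 : ℤ)} n (Multiplicative ℤ ⧸ sbg N) = ∅

/-- (E10 LLOG) `n = ⌊log_κ (N - 1)⌋`: then `log n / n ≤ C log log N / log N` if `N` is large, and for the others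
`C` is taken large (`log log N > 0` for `N ≥ 3`). -/
def S_llog : Prop := ∀ κ : ℕ, 2 ≤ κ → ∃ C : ℝ, 0 < C ∧ ∀ N : ℕ, 3 ≤ N →
  (2 ≤ Nat.log κ (N - 1) ∧ κ ^ (Nat.log κ (N - 1)) < N ∧
    Real.log (Nat.log κ (N - 1)) / (Nat.log κ (N - 1)) ≤ C * (Real.log (Real.log N) / Real.log N)) ∨
  1 ≤ C * (Real.log (Real.log N) / Real.log N)

/-- (E11 EXT) From large radii `a M` to all radii `n ≥ 2`. Proof: for `n ≥ n₀ = 2 a M₁` take `M = n / a ≥ n / (2 a)`:
`log M / M ≤ 2 a log n / n`, `F (a M) ≤ F n`. For `2 ≤ n < n₀`: the bound for `M₁` and `F (a M₁) ≤ N` give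
`D ≤ K0 (1 + log M₁) N`, and `(log n / n) ^ θ ≥ (log 2 / n₀) ^ θ > 0`. -/
def S_ext : Prop := ∀ (a M₁ : ℕ) (K0 θ : ℝ), 1 ≤ a → 3 ≤ M₁ → 0 ≤ K0 → 0 < θ → θ ≤ 1 → ∃ K : ℝ, 0 ≤ K ∧
  ∀ (D N : ℝ) (F : ℕ → ℝ), 0 ≤ N → Monotone F → (∀ n, 0 ≤ F n) → (∀ n, F n ≤ N) →
    (∀ M : ℕ, M₁ ≤ M → D ≤ K0 * (N * (Real.log M / M) ^ θ + Real.log M * F (a * M))) →
    ∀ n : ℕ, 2 ≤ n → D ≤ K * (N * (Real.log n / n) ^ θ + Real.log n * F n)

end Pool.Agent.D0H83.AC
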