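import Pool.Agent.D0H83.AC.Stm

set_option autoImplicit false

/-! # Project AC, module TAME -/

namespace Pool.Agent.D0H83.AC

open Matrix Finset Filter Topology Pool.Agent.Q181.TG Pool.Agent.Helper993.FK

/-- the dimension of the preimage of a subspace -/
theorem finrank_inf_comap {E : Type} [AddCommGroup E] [Module ℝ E] [FiniteDimensional ℝ E]
    (φ : E →ₗ[ℝ] E) (Z W W' : Submodule ℝ E) (hZ : ∀ f ∈ Z, φ f ∈ Z) (hW : W ≤ Z) (hW' : W' ≤ Z) :
    Module.finrank ℝ W + Module.finrank ℝ W' ≤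
      Module.finrank ℝ (W ⊓ W'.comap φ : Submodule ℝ E) + Module.finrank ℝ Z := by
  let ψ : W →ₗ[ℝ] (Z ⧸ W'.submoduleOf Z) :=
    (W'.submoduleOf Z).mkQ.comp ((φ.restrict hZ).comp (Submodule.inclusion hW))
  have h1 := ψ.finrank_range_add_finrank_ker
  have h2 : Module.finrank ℝ (Z ⧸ W'.submoduleOf Z) + Module.finrank ℝ (W'.submoduleOf Z) =
      Module.finrank ℝ Z := Submodule.finrank_quotient_add_finrank _
  have h3 : Module.finrank ℝ (W'.submoduleOf Z) = Module.finrank ℝ W' :=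
    LinearEquiv.finrank_eq (Submodule.submoduleOfEquivOfLe hW')
  have h4 : Module.finrank ℝ (LinearMap.range ψ) ≤ Module.finrank ℝ (Z ⧸ W'.submoduleOf Z) :=
    Submodule.finrank_le _
  have h5 : Module.finrank ℝ (LinearMap.ker ψ) ≤
      Module.finrank ℝ (W ⊓ W'.comap φ : Submodule ℝ E) := by
    let θ : LinearMap.ker ψ →ₗ[ℝ] (W ⊓ W'.comap φ : Submodule ℝ E) :=
      (W.subtype.comp (LinearMap.ker ψ).subtype).codRestrict _ (by
        intro x
        refine ⟨x.1.2, ?_⟩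
        have hx := x.2
        rw [LinearMap.mem_ker] at hx
        have h6 : (φ.restrict hZ) (Submodule.inclusion hW x.1) ∈ W'.submoduleOf Z := by
          rw [← Submodule.Quotient.mk_eq_zero]
          exact hx
        exact h6)
    refine LinearMap.finrank_le_finrank_of_injective (f := θ) ?_
    intro a b hab
    have h7 : ((θ a : _) : E) = ((θ b : _) : E) := by rw [hab]
    exact Subtype.ext (Subtype.ext h7)
  omega

/-- the dimension of the common kernel of some functionals -/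
theorem finrank_inf_ker {E : Type} [AddCommGroup E] [Module ℝ E] [FiniteDimensional ℝ E]
    (Z : Submodule ℝ E) {κ : Type} [Fintype κ] (φ : κ → (E →ₗ[ℝ] ℝ)) :
    Module.finrank ℝ Z ≤ Module.finrank ℝ (Z ⊓ ⨅ j, LinearMap.ker (φ j) : Submodule ℝ E) +
      Fintype.card κ := by
  let ψ : Z →ₗ[ℝ] (κ → ℝ) := LinearMap.pi fun j => (φ j).comp Z.subtype
  have h1 := ψ.finrank_range_add_finrank_ker
  have h4 : Module.finrank ℝ (LinearMap.range ψ) ≤ Module.finrank ℝ (κ → ℝ) :=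
    Submodule.finrank_le _
  rw [Module.finrank_fintype_fun_eq_card] at h4
  have h5 : Module.finrank ℝ (LinearMap.ker ψ) ≤
      Module.finrank ℝ (Z ⊓ ⨅ j, LinearMap.ker (φ j) : Submodule ℝ E) := by
    let θ : LinearMap.ker ψ →ₗ[ℝ] (Z ⊓ ⨅ j, LinearMap.ker (φ j) : Submodule ℝ E) :=
      (Z.subtype.comp (LinearMap.ker ψ).subtype).codRestrict _ (by
        intro x
        refine ⟨x.1.2, ?_⟩
        have hx := x.2
        rw [LinearMap.mem_ker] at hx
        rw [SetLike.mem_coe, Submodule.mem_iInf]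
        intro j
        exact congrFun hx j)
    refine LinearMap.finrank_le_finrank_of_injective (f := θ) ?_
    intro a b hab
    have h7 : ((θ a : _) : E) = ((θ b : _) : E) := by rw [hab]
    exact Subtype.ext (Subtype.ext h7)
  omega

variable {G : Type} [Group G] {r : ℕ}

theorem rg_mul {s t : ℕ} (X : Type) [Fintype X] [MulAction G X]
    (A : Matrix (Fin r) (Fin s) (MonoidAlgebra ℤ G)) (B : Matrix (Fin s) (Fin t) (MonoidAlgebra ℤ G)) :
    rg X (A * B) = rg X A * rg X B := by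
  classical
  unfold rg
  rw [Pool.Agent.Q151.TG.reg_mul]
  exact Matrix.map_mul (f := Int.castRingHom ℝ)

theorem rg_one (X : Type) [Fintype X] [MulAction G X] [DecidableEq X] :
    rg X (1 : Matrix (Fin r) (Fin r) (MonoidAlgebra ℤ G)) = 1 := by
  unfold rg
  rw [Pool.Agent.Q151.TG.reg_one]
  exact Matrix.map_one _ (by simp) (by simp)

/-- the property of the modules TAME, for one matrix, with the exponent `p` -/
def Low (Λ : Subgroup G) (p : ℕ) (A : Matrix (Fin r) (Fin r) (MonoidAlgebra ℤ G)) : Prop :=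
  ∃ (c C : ℝ), 0 < c ∧ 0 ≤ C ∧ ∀ (X : Type) [Fintype X] [MulAction G X] (L : ℕ), 1 ≤ L →
    ∃ W : Submodule ℝ (X × Fin r → ℝ), W ≤ Zs (ob Λ X) r ℝ ∧
      ((Module.finrank ℝ (Zs (ob Λ X) r ℝ) : ℝ) - Module.finrank ℝ W) * L ≤ C * Fintype.card X ∧
      ∀ f ∈ W, c * ∑ q, f q ^ 2 ≤ (L : ℝ) ^ p * ∑ q, (f ᵥ* rg X A) q ^ 2

theorem low_dom (hg : S_glb) (hd : S_dom) (Λ : Subgroup G)
    (A : Matrix (Fin r) (Fin r) (MonoidAlgebra ℤ G)) (hA : Dominates Λ A) : Low Λ 4 A := by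
  classical
  obtain ⟨T, D, m, B, rfl, hD, hB⟩ := hA
  refine ⟨1 / (256 * D ^ 2), 3 * r, by positivity, by positivity, ?_⟩
  intro X _ _ L hL
  obtain ⟨k, φ, hk, hφ⟩ := hg G T X L hL
  let Z := Zs (ob (Subgroup.closure (T : Set G)) X) r ℝ
  let ψ : Fin k × Fin r → ((X × Fin r → ℝ) →ₗ[ℝ] ℝ) := fun ji =>
    (φ ji.1).comp (LinearMap.funLeft ℝ ℝ (fun x : X => (x, ji.2)))
  refine ⟨Z ⊓ ⨅ j, LinearMap.ker (ψ j), inf_le_left, ?_, ?_⟩
  · have h1 := finrank_inf_ker Z ψ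
    rw [Fintype.card_prod, Fintype.card_fin, Fintype.card_fin] at h1
    have h2 : (Module.finrank ℝ Z : ℝ) -
        Module.finrank ℝ (Z ⊓ ⨅ j, LinearMap.ker (ψ j) : Submodule ℝ (X × Fin r → ℝ)) ≤ k * r := by
      have : (Module.finrank ℝ Z : ℝ) ≤
        Module.finrank ℝ (Z ⊓ ⨅ j, LinearMap.ker (ψ j) : Submodule ℝ (X × Fin r → ℝ)) + k * r := by
        exact_mod_cast h1
      linarith
    have h3 : (k : ℝ) * L ≤ 3 * Fintype.card X := by exact_mod_cast hk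
    have hL0 : (0 : ℝ) ≤ L := Nat.cast_nonneg L
    calc ((Module.finrank ℝ Z : ℝ) -
        Module.finrank ℝ (Z ⊓ ⨅ j, LinearMap.ker (ψ j) : Submodule ℝ (X × Fin r → ℝ))) * L
        ≤ (k * r) * L := mul_le_mul_of_nonneg_right h2 hL0
      _ = r * (k * L) := by ring
      _ ≤ r * (3 * Fintype.card X) := mul_le_mul_of_nonneg_left h3 (Nat.cast_nonneg r)
      _ = 3 * r * Fintype.card X := by ring
  · rintro f ⟨hf1, hf2⟩
    have hf2' : ∀ j i, φ j (fun x => f (x, i)) = 0 := by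
      intro j i
      have := (Submodule.mem_iInf _).mp hf2 (j, i)
      exact this
    have hi : ∀ i, ∑ x, f (x, i) ^ 2 ≤
        8 * (L : ℝ) ^ 2 * ∑ t ∈ T, ∑ x, (f (t • x, i) - f (x, i)) ^ 2 := by
      intro i
      refine hφ (fun x => f (x, i)) (fun b => ?_) (fun j => hf2' j i)
      refine (Finset.sum_congr ?_ fun _ _ => rfl).trans (hf1 b i)
      ext x
      simp only [Finset.mem_filter]
    have h1 : ∑ q, f q ^ 2 ≤ 8 * (L : ℝ) ^ 2 * ∑ i, ∑ t ∈ T, ∑ x, (f (t • x, i) - f (x, i)) ^ 2 := by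
      rw [Fintype.sum_prod_type, Finset.sum_comm, Finset.mul_sum]
      exact Finset.sum_le_sum fun i _ => hi i
    have h2 := hd G T r D m A B hB X f
    set F := ∑ q, f q ^ 2 with hF
    set Q := ∑ q, (f ᵥ* rg X A) q ^ 2 with hQ
    have hF0 : 0 ≤ F := Finset.sum_nonneg fun q _ => sq_nonneg _
    have hQ0 : 0 ≤ Q := Finset.sum_nonneg fun q _ => sq_nonneg _
    have h3 : (f ᵥ* rg X A ⬝ᵥ f) ^ 2 ≤ Q * F := by
      have := Finset.sum_mul_sq_le_sq_mul_sq Finset.univ (fun q => (f ᵥ* rg X A) q) (fun q => f q)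
      exact this
    have hDpos : (0 : ℝ) < D := by exact_mod_cast hD
    have h4 : F ≤ 16 * D * (L : ℝ) ^ 2 * (f ᵥ* rg X A ⬝ᵥ f) := by
      calc F ≤ 8 * (L : ℝ) ^ 2 * ∑ i, ∑ t ∈ T, ∑ x, (f (t • x, i) - f (x, i)) ^ 2 := h1
        _ ≤ 8 * (L : ℝ) ^ 2 * (2 * D * (f ᵥ* rg X A ⬝ᵥ f)) :=
            mul_le_mul_of_nonneg_left h2 (by positivity)
        _ = _ := by ring
    have h5 : F ^ 2 ≤ (16 * D * (L : ℝ) ^ 2) ^ 2 * (Q * F) := by
      calc F ^ 2 ≤ (16 * D * (L : ℝ) ^ 2 * (f ᵥ* rg X A ⬝ᵥ f)) ^ 2 := pow_le_pow_left₀ hF0 h4 2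
        _ = (16 * D * (L : ℝ) ^ 2) ^ 2 * (f ᵥ* rg X A ⬝ᵥ f) ^ 2 := by ring
        _ ≤ _ := mul_le_mul_of_nonneg_left h3 (by positivity)
    have h6 : F ≤ (16 * D * (L : ℝ) ^ 2) ^ 2 * Q := by
      rcases eq_or_lt_of_le hF0 with h0 | h0
      · rw [← h0]; positivity
      · have : F * F ≤ ((16 * D * (L : ℝ) ^ 2) ^ 2 * Q) * F := by nlinarith [h5]
        exact le_of_mul_le_mul_right this h0
    have h7 : 1 / (256 * (D : ℝ) ^ 2) * F ≤ 1 / (256 * (D : ℝ) ^ 2) * ((16 * D * (L : ℝ) ^ 2) ^ 2 * Q) :=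
      mul_le_mul_of_nonneg_left h6 (by positivity)
    refine h7.trans (le_of_eq ?_)
    field_simp
    ring

theorem low_one (Λ : Subgroup G) : Low Λ 0 (1 : Matrix (Fin r) (Fin r) (MonoidAlgebra ℤ G)) := by
  classical
  refine ⟨1, 0, one_pos, le_rfl, ?_⟩
  intro X _ _ L hL
  refine ⟨Zs (ob Λ X) r ℝ, le_rfl, by simp, ?_⟩
  intro f _
  rw [rg_one, Matrix.vecMul_one]
  simp

theorem low_mul (hl : S_lump) (Λ : Subgroup G) [Λ.Normal] {p p' : ℕ}
    (A B : Matrix (Fin r) (Fin r) (MonoidAlgebra ℤ G)) (hA : Low Λ p A) (hB : Low Λ p' B) :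
    Low Λ (p + p') (A * B) := by
  classical
  obtain ⟨c, C, hc, hC, h⟩ := hA
  obtain ⟨c', C', hc', hC', h'⟩ := hB
  refine ⟨c * c', C + C', mul_pos hc hc', add_nonneg hC hC', ?_⟩
  intro X _ _ L hL
  obtain ⟨W, hW1, hW2, hW3⟩ := h X L hL
  obtain ⟨W', hW1', hW2', hW3'⟩ := h' X L hL
  let Z := Zs (ob Λ X) r ℝ
  have hinv := (hl.2.1 G Λ r A X).2
  have hdim := finrank_inf_comap (rg X A).vecMulLinear Z W W' hinv hW1 hW1'
  refine ⟨W ⊓ W'.comap (rg X A).vecMulLinear, inf_le_left.trans hW1, ?_, ?_⟩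
  · have h2 : (Module.finrank ℝ Z : ℝ) -
        Module.finrank ℝ (W ⊓ W'.comap (rg X A).vecMulLinear : Submodule ℝ (X × Fin r → ℝ)) ≤
        ((Module.finrank ℝ Z : ℝ) - Module.finrank ℝ W) +
          ((Module.finrank ℝ Z : ℝ) - Module.finrank ℝ W') := by
      have : (Module.finrank ℝ W : ℝ) + Module.finrank ℝ W' ≤
        Module.finrank ℝ (W ⊓ W'.comap (rg X A).vecMulLinear : Submodule ℝ (X × Fin r → ℝ)) +
          Module.finrank ℝ Z := by exact_mod_cast hdim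
      linarith
    have hL0 : (0 : ℝ) ≤ L := Nat.cast_nonneg L
    have h3 := mul_le_mul_of_nonneg_right h2 hL0
    rw [add_mul] at h3
    rw [add_mul]
    exact h3.trans (add_le_add hW2 hW2')
  · rintro f ⟨hf1, hf2⟩
    have e : f ᵥ* rg X (A * B) = (f ᵥ* rg X A) ᵥ* rg X B := by
      rw [rg_mul, Matrix.vecMul_vecMul]
    rw [e]
    have h3 := hW3 f hf1
    have h4 := hW3' (f ᵥ* rg X A) hf2
    have hLp : (0 : ℝ) ≤ (L : ℝ) ^ p := by positivity
    calc c * c' * ∑ q, f q ^ 2 = c' * (c * ∑ q, f q ^ 2) := by ring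
      _ ≤ c' * ((L : ℝ) ^ p * ∑ q, (f ᵥ* rg X A) q ^ 2) := mul_le_mul_of_nonneg_left h3 hc'.le
      _ = (L : ℝ) ^ p * (c' * ∑ q, (f ᵥ* rg X A) q ^ 2) := by ring
      _ ≤ (L : ℝ) ^ p * ((L : ℝ) ^ p' * ∑ q, ((f ᵥ* rg X A) ᵥ* rg X B) q ^ 2) :=
          mul_le_mul_of_nonneg_left h4 hLp
      _ = _ := by rw [pow_add]; ring

theorem low_prod (hg : S_glb) (hd : S_dom) (hl : S_lump) (Λ : Subgroup G) [Λ.Normal]
    (l : List (Matrix (Fin r) (Fin r) (MonoidAlgebra ℤ G))) (h : ∀ R ∈ l, Dominates Λ R) :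
    Low Λ (4 * l.length) l.prod := by
  induction l with
  | nil => rw [List.prod_nil]; exact low_one Λ
  | cons R l ih =>
    rw [List.prod_cons, List.length_cons, mul_add, mul_one, add_comm]
    exact low_mul hl Λ R l.prod (low_dom hg hd Λ R (h R (by simp)))
      (ih fun R' hR' => h R' (List.mem_cons_of_mem _ hR'))

theorem low_factor (hl : S_lump) (Λ : Subgroup G) [Λ.Normal] {p : ℕ}
    (C A C' : Matrix (Fin r) (Fin r) (MonoidAlgebra ℤ G)) (hlow : Low Λ p (C * A * C')) :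
    Low Λ p A := by
  classical
  obtain ⟨c, K, hc, hK, h⟩ := hlow
  obtain ⟨K1, hK1, hb1⟩ := hl.2.2.1 G r r C
  obtain ⟨K2, hK2, hb2⟩ := hl.2.2.1 G r r C'
  have hK1' : (0 : ℝ) < K1 := by exact_mod_cast hK1
  have hK2' : (0 : ℝ) < K2 := by exact_mod_cast hK2
  refine ⟨c / (K1 ^ 2 * K2 ^ 2), K, by positivity, hK, ?_⟩
  intro X _ _ L hL
  obtain ⟨W, hW1, hW2, hW3⟩ := h X L hL
  have hL0 : (0 : ℝ) < L := by exact_mod_cast hL
  have hkey : ∀ f ∈ W, c * ∑ q, f q ^ 2 ≤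
      (L : ℝ) ^ p * (K2 ^ 2 * ∑ q, ((f ᵥ* rg X C) ᵥ* rg X A) q ^ 2) := by
    intro f hf
    refine (hW3 f hf).trans (mul_le_mul_of_nonneg_left ?_ (by positivity))
    rw [rg_mul, rg_mul, ← Matrix.vecMul_vecMul, ← Matrix.vecMul_vecMul]
    exact (hb2 X).2 _
  have hinj : ∀ f ∈ W, f ᵥ* rg X C = 0 → f = 0 := by
    intro f hf h0
    have h1 := hkey f hf
    rw [h0] at h1
    simp only [Matrix.zero_vecMul, Pi.zero_apply, ne_eq, OfNat.ofNat_ne_zero, not_false_eq_true,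
      zero_pow, Finset.sum_const_zero, mul_zero] at h1
    have h2 : ∑ q, f q ^ 2 ≤ 0 := by
      by_contra hcon
      push Not at hcon
      have := mul_pos hc hcon
      linarith
    have h3 : ∀ q ∈ Finset.univ, f q ^ 2 = 0 := by
      apply (Finset.sum_eq_zero_iff_of_nonneg (fun q _ => sq_nonneg _)).mp
      exact le_antisymm h2 (Finset.sum_nonneg fun q _ => sq_nonneg _)
    funext q
    exact pow_eq_zero_iff (two_ne_zero) |>.mp (h3 q (Finset.mem_univ q))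
  refine ⟨W.map (rg X C).vecMulLinear, ?_, ?_, ?_⟩
  · rintro _ ⟨f, hf, rfl⟩
    exact (hl.2.1 G Λ r C X).2 f (hW1 hf)
  · have h1 : Module.finrank ℝ (W.map (rg X C).vecMulLinear) = Module.finrank ℝ W := by
      rw [← LinearMap.range_domRestrict]
      refine LinearMap.finrank_range_of_inj ?_
      rw [← LinearMap.ker_eq_bot, LinearMap.ker_eq_bot']
      intro f hf
      exact Subtype.ext (hinj f.1 f.2 hf)
    rw [h1]
    exact hW2
  · rintro _ ⟨f, hf, rfl⟩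
    change c / (K1 ^ 2 * K2 ^ 2) * ∑ q, (f ᵥ* rg X C) q ^ 2 ≤
      (L : ℝ) ^ p * ∑ q, ((f ᵥ* rg X C) ᵥ* rg X A) q ^ 2
    have h1 := hkey f hf
    have h2 := (hb1 X).2 f
    have h3 : c / (K1 ^ 2 * K2 ^ 2) * ∑ q, (f ᵥ* rg X C) q ^ 2 ≤
        c / (K1 ^ 2 * K2 ^ 2) * (K1 ^ 2 * ∑ p, f p ^ 2) :=
      mul_le_mul_of_nonneg_left h2 (by positivity)
    refine h3.trans ?_
    have h4 : c / ((K1 : ℝ) ^ 2 * K2 ^ 2) * (K1 ^ 2 * ∑ p, f p ^ 2) = (c * ∑ p, f p ^ 2) / K2 ^ 2 := by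
      field_simp
    rw [h4, div_le_iff₀ (by positivity)]
    refine h1.trans (le_of_eq ?_)
    ring

/-- the adjoint -/
theorem low_adj (hl : S_lump) (Λ : Subgroup G) [Λ.Normal] {p : ℕ}
    (A : Matrix (Fin r) (Fin r) (MonoidAlgebra ℤ G)) (hlow : Low Λ p A) : Low Λ p (adjZ A) := by
  classical
  obtain ⟨c, K, hc, hK, h⟩ := hlow
  refine ⟨c, K, hc, hK, ?_⟩
  intro X _ _ L hL
  obtain ⟨W, hW1, hW2, hW3⟩ := h X L hL
  have hL0 : (0 : ℝ) < L := by exact_mod_cast hL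
  have hLp : (0 : ℝ) < (L : ℝ) ^ p := by positivity
  have hadj : rg X (adjZ A) = (rg X A)ᵀ := by
    unfold rg
    rw [hl.1]
    rfl
  have hinj : ∀ f ∈ W, f ᵥ* rg X A = 0 → f = 0 := by
    intro f hf h0
    have h1 := hW3 f hf
    rw [h0] at h1
    simp only [Pi.zero_apply, ne_eq, OfNat.ofNat_ne_zero, not_false_eq_true,
      zero_pow, Finset.sum_const_zero, mul_zero] at h1
    have h2 : ∑ q, f q ^ 2 ≤ 0 := by
      by_contra hcon
      push Not at hcon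
      have := mul_pos hc hcon
      linarith
    have h3 : ∀ q ∈ Finset.univ, f q ^ 2 = 0 := by
      apply (Finset.sum_eq_zero_iff_of_nonneg (fun q _ => sq_nonneg _)).mp
      exact le_antisymm h2 (Finset.sum_nonneg fun q _ => sq_nonneg _)
    funext q
    exact pow_eq_zero_iff (two_ne_zero) |>.mp (h3 q (Finset.mem_univ q))
  refine ⟨W.map (rg X A).vecMulLinear, ?_, ?_, ?_⟩
  · rintro _ ⟨f, hf, rfl⟩
    exact (hl.2.1 G Λ r A X).2 f (hW1 hf)
  · have h1 : Module.finrank ℝ (W.map (rg X A).vecMulLinear) = Module.finrank ℝ W := by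
      rw [← LinearMap.range_domRestrict]
      refine LinearMap.finrank_range_of_inj ?_
      rw [← LinearMap.ker_eq_bot, LinearMap.ker_eq_bot']
      intro f hf
      exact Subtype.ext (hinj f.1 f.2 hf)
    rw [h1]
    exact hW2
  · rintro _ ⟨f, hf, rfl⟩
    rw [hadj]
    change c * ∑ q, (f ᵥ* rg X A) q ^ 2 ≤
      (L : ℝ) ^ p * ∑ q, ((f ᵥ* rg X A) ᵥ* (rg X A)ᵀ) q ^ 2
    set g := f ᵥ* rg X A with hg
    have h1 := hW3 f hf
    have h2 : ∑ q, g q ^ 2 = ∑ q, (g ᵥ* (rg X A)ᵀ) q * f q := by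
      have h3 : g ⬝ᵥ g = (g ᵥ* (rg X A)ᵀ) ⬝ᵥ f := by
        rw [Matrix.vecMul_transpose, dotProduct_comm (rg X A *ᵥ g) f, Matrix.dotProduct_mulVec]
      have h4 : g ⬝ᵥ g = ∑ q, g q ^ 2 := by
        unfold dotProduct
        exact Finset.sum_congr rfl fun q _ => by ring
      rw [← h4, h3]
      rfl
    have h5 := Finset.sum_mul_sq_le_sq_mul_sq Finset.univ (fun q => (g ᵥ* (rg X A)ᵀ) q) (fun q => f q)
    rw [← h2] at h5
    set a := ∑ q, g q ^ 2 with ha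
    set b := ∑ q, (g ᵥ* (rg X A)ᵀ) q ^ 2 with hb
    set F := ∑ q, f q ^ 2 with hF
    have ha0 : 0 ≤ a := Finset.sum_nonneg fun q _ => sq_nonneg _
    have hb0 : 0 ≤ b := Finset.sum_nonneg fun q _ => sq_nonneg _
    rcases eq_or_lt_of_le ha0 with h0 | h0
    · rw [← h0, mul_zero]
      positivity
    · have h6 : c * a ^ 2 ≤ b * ((L : ℝ) ^ p * a) := by
        calc c * a ^ 2 ≤ c * (b * F) := mul_le_mul_of_nonneg_left h5 hc.le
          _ = b * (c * F) := by ring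
          _ ≤ b * ((L : ℝ) ^ p * a) := mul_le_mul_of_nonneg_left h1 hb0
      have h7 : (c * a) * a ≤ ((L : ℝ) ^ p * b) * a := by nlinarith [h6]
      exact le_of_mul_le_mul_right h7 h0

end Pool.Agent.D0H83.AC
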