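import Pool.Agent.D0H83.AC.All
import Pool.Agent.TH630.Tor.Cx

set_option autoImplicit false

/-! # Project AC: complexes with two terms, and the density of the spectrum -/

namespace Pool.Agent.D0H83.AC

open Matrix Finset Filter Topology Pool.Agent.Q181.TG Pool.Agent.Helper993.FK Pool.Agent.TH630.Tor
open Pool.Agent.TH630.Tor.FreeCx (lapM laplacian_eq)

variable {G : Type} [Group G] {r : ℕ}

/-- from the trace of `bump` to a power law for the spectral measure -/
theorem density (A : Matrix (Fin r) (Fin r) (MonoidAlgebra ℤ G)) (p : ℕ) (hp : 1 ≤ p) (c C : ℝ)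
    (hc : 0 < c) (hC : 0 ≤ C) (h : ∀ δ : ℝ, 0 < δ → ∀ L : ℕ, 1 ≤ L → δ * (L : ℝ) ^ p ≤ c →
      traceVal unitVec (rMul ((A * adjZ A).map toQ)) (bump δ) ≤ C / L) :
    ∃ C' δ₀ : ℝ, 0 < δ₀ ∧ ∀ δ : ℝ, 0 < δ → δ ≤ δ₀ →
      (specMeas unitVec (rMul (A.map toQ)) (Set.Iic δ)).toReal ≤ C' * δ ^ (1 / (p : ℝ)) := by
  refine ⟨4 * C * (2 / c) ^ (1 / (p : ℝ)), c / 2, by positivity, ?_⟩
  intro δ hδ hδc
  have h1 := (t_den G r A δ hδ).1
  refine h1.trans ?_
  have hp0 : (0 : ℝ) < p := by exact_mod_cast hp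
  set t : ℝ := (c / (2 * δ)) ^ (1 / (p : ℝ)) with ht
  have hq : 1 ≤ c / (2 * δ) := by
    rw [le_div_iff₀ (by positivity)]
    linarith
  have ht1 : 1 ≤ t := Real.one_le_rpow hq (by positivity)
  have htp : t ^ p = c / (2 * δ) := by
    rw [ht, ← Real.rpow_natCast, ← Real.rpow_mul (by positivity), one_div_mul_cancel hp0.ne',
      Real.rpow_one]
  set L := ⌊t⌋₊ with hL
  have hL1 : 1 ≤ L := Nat.le_floor (by exact_mod_cast ht1)
  have hLt : (L : ℝ) ≤ t := Nat.floor_le (by linarith)
  have hLt2 : t / 2 ≤ L := by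
    have h2 := Nat.lt_floor_add_one t
    have h3 : (1 : ℝ) ≤ L := by exact_mod_cast hL1
    have h4 : t < (L : ℝ) + 1 := h2
    linarith
  have h5 := h (2 * δ) (by positivity) L hL1 (by
    calc 2 * δ * (L : ℝ) ^ p ≤ 2 * δ * t ^ p := by
          refine mul_le_mul_of_nonneg_left ?_ (by positivity)
          exact pow_le_pow_left₀ (Nat.cast_nonneg L) hLt p
      _ = c := by
          rw [htp]
          field_simp)
  have h6 : C / L ≤ C / (t / 2) := div_le_div_of_nonneg_left hC (by positivity) hLt2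
  have h7 : C / (t / 2) = 2 * C * ((2 / c) ^ (1 / (p : ℝ)) * δ ^ (1 / (p : ℝ))) := by
    rw [← Real.mul_rpow (by positivity) hδ.le]
    have h8 : (2 / c * δ) ^ (1 / (p : ℝ)) = t⁻¹ := by
      rw [ht, ← Real.inv_rpow (by positivity)]
      congr 1
      field_simp
    rw [h8]
    field_simp
  calc 2 * traceVal unitVec (rMul ((A * adjZ A).map toQ)) (bump (2 * δ)) ≤ 2 * (C / (t / 2)) := by
        linarith
    _ = _ := by
        rw [h7]
        ring

theorem fk_cast {r r' : ℕ} (h : r' = r) (M' : Matrix (Fin r') (Fin r') (MonoidAlgebra ℤ G))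
    (M : Matrix (Fin r) (Fin r) (MonoidAlgebra ℤ G)) (hM : ∀ i j, M' i j = M (Fin.cast h i) (Fin.cast h j)) :
    fkDet (rMul (M'.map toQ)) = fkDet (rMul (M.map toQ)) ∧
      ((∀ v, rMul (M.map toQ) v = 0 → v = 0) → ∀ v, rMul (M'.map toQ) v = 0 → v = 0) := by
  subst h
  have : M' = M := by
    ext1 i j
    exact hM i j
  subst this
  exact ⟨rfl, fun h => h⟩

/-- rank zero -/
theorem fk_zero {r s : ℕ} (hr : r = 0) (f : L2Pow G r →L[ℂ] L2Pow G s) : Real.log (fkDet f) = 0 := by
  subst hr
  have h1 : MeasureTheory.IntegrableOn Real.log (Set.Ioi 0) (specMeas unitVec f) := by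
    unfold specMeas
    exact log_integrable unitVec _ (adjoint_comp_nonneg f) (C := 0) (fun n => by simp [traceVal])
  have h2 : specMeas (unitVec : Fin 0 → L2Pow G 0) f = 0 := by
    unfold specMeas
    have hf := fin_meas (unitVec : Fin 0 → L2Pow G 0) _ (adjoint_comp_nonneg f)
    obtain ⟨h3, h4⟩ := integral_cont (unitVec : Fin 0 → L2Pow G 0) _ (adjoint_comp_nonneg f)
      (fun _ => 1) continuous_const
    rw [MeasureTheory.integral_const] at h4
    have h5 : traceVal (unitVec : Fin 0 → L2Pow G 0) ((ContinuousLinearMap.adjoint f) ∘L f)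
        (fun _ => 1) = 0 := by simp [traceVal]
    rw [h5, smul_eq_mul, mul_one] at h4
    have h6 := (MeasureTheory.measureReal_eq_zero_iff).mp h4
    exact MeasureTheory.Measure.measure_univ_eq_zero.mp h6
  unfold fkDet detOf
  rw [if_pos h1, h2]
  simp

/-- the square matrix of the boundary map of a complex with two terms of the same rank -/
def sqm (C : FreeCx G) (k : ℕ) (h : C.rank (k + 1) = C.rank k) :
    Matrix (Fin (C.rank k)) (Fin (C.rank k)) (MonoidAlgebra ℤ G) :=
  (C.d k).submatrix (Fin.cast h.symm) id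

theorem adjZ_apply {s t : ℕ} (A : Matrix (Fin s) (Fin t) (MonoidAlgebra ℤ G)) (i : Fin t) (j : Fin s) :
    adjZ A i j = MonoidAlgebra.mapDomain (fun g => g⁻¹) (A j i) := rfl

theorem lap_k (C : FreeCx G) (k : ℕ) (h : C.rank (k + 1) = C.rank k)
    (hC : ∀ n, n ≠ k → n ≠ k + 1 → C.rank n = 0) :
    C.lapM k = adjZ (sqm C k h) * sqm C k h := by
  have h1 : adjZ (sqm C k h) * sqm C k h = adjZ (C.d k) * C.d k := by
    ext1 i j
    rw [Matrix.mul_apply, Matrix.mul_apply]
    refine Fintype.sum_equiv (finCongr h.symm) _ _ fun l => ?_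
    rfl
  rw [h1]
  cases k with
  | zero => rfl
  | succ k =>
    change adjZ (C.d (k + 1)) * C.d (k + 1) + C.d k * adjZ (C.d k) = _
    have h2 : C.rank k = 0 := hC k (by omega) (by omega)
    have h3 : C.d k * adjZ (C.d k) = 0 := by
      ext1 i j
      rw [Matrix.mul_apply]
      have : IsEmpty (Fin (C.rank k)) := by rw [h2]; infer_instance
      simp
    rw [h3, add_zero]

theorem lap_k1 (C : FreeCx G) (k : ℕ) (h : C.rank (k + 1) = C.rank k)
    (hC : ∀ n, n ≠ k → n ≠ k + 1 → C.rank n = 0) (i j : Fin (C.rank (k + 1))) :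
    C.lapM (k + 1) i j = (sqm C k h * adjZ (sqm C k h)) (Fin.cast h i) (Fin.cast h j) := by
  change (adjZ (C.d (k + 1)) * C.d (k + 1) + C.d k * adjZ (C.d k)) i j = _
  have h2 : C.rank (k + 1 + 1) = 0 := hC _ (by omega) (by omega)
  have h3 : adjZ (C.d (k + 1)) * C.d (k + 1) = 0 := by
    ext1 i j
    rw [Matrix.mul_apply]
    have : IsEmpty (Fin (C.rank (k + 1 + 1))) := by rw [h2]; infer_instance
    simp
  rw [h3, zero_add, Matrix.mul_apply, Matrix.mul_apply]
  refine Finset.sum_congr rfl fun l _ => ?_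
  rfl

/-- complexes with two terms of the same rank -/
theorem two_term (Λ : Subgroup G) [Λ.Normal] [Infinite Λ] (C : FreeCx G) (k : ℕ)
    (h : C.rank (k + 1) = C.rank k) (hC : ∀ n, n ≠ k → n ≠ k + 1 → C.rank n = 0)
    (p : ℕ) (hA : Low Λ p (sqm C k h))
    (X : ℕ → Type) [∀ n, Fintype (X n)] [∀ n, Nonempty (X n)] [∀ n, MulAction G (X n)]
    (hX : Far G X) :
    C.DetL2Acyclic ∧ C.l2torsion = (-1) ^ k * Real.log (fkDet (rMul ((sqm C k h).map toQ))) := by
  obtain ⟨hs1, hs2⟩ := fk_sq Λ (sqm C k h) p hA X hX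
  have hadj := low_adj u_lump Λ _ hA
  obtain ⟨hi1, hf1, -⟩ := main_low Λ (sqm C k h * adjZ (sqm C k h)) (p + p)
    (low_mul u_lump Λ _ _ hA hadj) X hX
  obtain ⟨hi2, hf2, -⟩ := main_low Λ (adjZ (sqm C k h) * sqm C k h) (p + p)
    (low_mul u_lump Λ _ _ hadj hA) X hX
  have hk1 := fk_cast h (C.lapM (k + 1)) _ (lap_k1 C k h hC)
  have hk : C.lapM k = adjZ (sqm C k h) * sqm C k h := lap_k C k h hC
  constructor
  · intro n
    by_cases hn : n = k
    · subst hn
      rw [FreeCx.l2betti, laplacian_eq, hk]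
      exact ⟨FreeCx.dimKer_of_inj _ hi2, hf2⟩
    · by_cases hn1 : n = k + 1
      · subst hn1
        rw [FreeCx.l2betti, laplacian_eq]
        refine ⟨FreeCx.dimKer_of_inj _ (hk1.2 hi1), ?_⟩
        rw [hk1.1]
        exact hf1
      · have h0 := hC n hn hn1
        constructor
        · unfold FreeCx.l2betti Pool.Agent.Helper993.Delta.dimKer
          apply Finset.sum_eq_zero
          intro i _
          have : IsEmpty (Fin (C.rank n)) := by rw [h0]; infer_instance
          exact this.elim i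
        · exact Pool.Agent.Helper993.FK.fkDet_pos_of_eq_zero h0 _
  · have hlog : ∀ n, n ≠ k → n ≠ k + 1 → Real.log (fkDet (C.laplacian n)) = 0 :=
      fun n hn hn1 => fk_zero (hC n hn hn1) _
    have hlk : Real.log (fkDet (C.laplacian k)) =
        2 * Real.log (fkDet (rMul ((sqm C k h).map toQ))) := by
      rw [laplacian_eq, hk, hs2]
    have hlk1 : Real.log (fkDet (C.laplacian (k + 1))) =
        2 * Real.log (fkDet (rMul ((sqm C k h).map toQ))) := by
      rw [laplacian_eq, hk1.1, hs1]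
    set F := Real.log (fkDet (rMul ((sqm C k h).map toQ))) with hF
    unfold FreeCx.l2torsion
    by_cases hr : C.rank k = 0
    · have hF0 : F = 0 := fk_zero hr _
      rw [hF0, mul_zero]
      have : ∀ n ∈ Finset.range (C.dim + 1),
          (-1 : ℝ) ^ n * n * Real.log (fkDet (C.laplacian n)) = 0 := by
        intro n _
        by_cases hn : n = k
        · rw [hn, hlk, hF0]; ring
        · by_cases hn1 : n = k + 1
          · rw [hn1, hlk1, hF0]; ring
          · rw [hlog n hn hn1, mul_zero]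
      rw [Finset.sum_eq_zero this, mul_zero]
    · have hdim : k + 1 ≤ C.dim := by
        by_contra hcon
        push Not at hcon
        have := C.rank_eq_zero (k + 1) hcon
        omega
      have hsub : ({k, k + 1} : Finset ℕ) ⊆ Finset.range (C.dim + 1) := by
        intro n hn
        rw [Finset.mem_insert, Finset.mem_singleton] at hn
        rw [Finset.mem_range]
        omega
      rw [← Finset.sum_subset hsub (by
        intro n _ hn
        rw [Finset.mem_insert, Finset.mem_singleton, not_or] at hn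
        rw [hlog n hn.1 hn.2, mul_zero]), Finset.sum_pair (by omega), hlk, hlk1]
      push_cast
      rw [pow_succ]
      ring

end Pool.Agent.D0H83.AC
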